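import Pool.Agent.Helper83K9.CF.Base

/-! [ALM] almost perfect tilings -/

namespace Pool.Agent.Helper83K9.CF

open Finset

namespace AlmL

/-- the arc `A` touches `S` -/
def Tch (n N : ℕ) (A S : Finset (ZMod n)) : Prop :=
  ∃ v ∈ S, ∃ s : ℕ, s < N ∧ v - (s : ZMod n) ∈ A

/-- tests -/
def Test (n k : ℕ) (M : ZMod n → Finset (ZMod n)) (S : Finset (ZMod n)) : Prop :=
  (∃ x, S = M x) ∨ ∃ y, S = win n k y

/-- the density after `j` arcs -/
noncomputable def Dj (n k N : ℕ) (Ar : ℕ → Finset (ZMod n)) (σ : ℕ → ℝ) (j : ℕ) (v : ZMod n) : ℝ :=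
  Real.exp (-(∑ i ∈ range j, σ i * rate n k N (Ar i) v))

theorem exists_base {n k m : ℕ} {M : ZMod n → Finset (ZMod n)} (hM : Host n k m M)
    {S : Finset (ZMod n)} (hS : Test n k M S) :
    ∃ y : ZMod n, ∀ v ∈ S, ∃ a : ℕ, a ≤ 2 * k ∧ v = y - (a : ZMod n) := by
  rcases hS with ⟨x, rfl⟩ | ⟨y, rfl⟩
  · refine ⟨x + (k : ZMod n), fun v hv => ?_⟩
    obtain ⟨j, hj, rfl⟩ := mem_win.1 (hM.subset x hv)
    refine ⟨2 * k - j, by omega, ?_⟩
    rw [Nat.cast_sub (by omega)]
    push_cast
    ring
  · refine ⟨y + (k : ZMod n), fun v hv => ?_⟩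
    obtain ⟨j, hj, rfl⟩ := mem_win.1 hv
    refine ⟨k - j, by omega, ?_⟩
    rw [Nat.cast_sub (by omega)]
    ring

theorem rate_nonneg (n k N : ℕ) (A : Finset (ZMod n)) (v : ZMod n) : 0 ≤ rate n k N A v := by
  unfold rate
  positivity

theorem rate_zero {n k N : ℕ} {A S : Finset (ZMod n)} (h : ¬ Tch n N A S) {v : ZMod n}
    (hv : v ∈ S) : rate n k N A v = 0 := by
  unfold rate
  have : (Ico k N).filter (fun i : ℕ => v - (i : ZMod n) ∈ A) = ∅ := by
    rw [filter_eq_empty_iff]
    intro i hi hA
    exact h ⟨v, hv, i, (mem_Ico.1 hi).2, hA⟩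
  rw [this]
  simp

theorem exists_tau {δ : ℝ} (hδ : 0 < δ) : ∃ τ : ℝ, 0 < τ ∧ 2 * Real.exp (-(τ / 2)) ≤ δ := by
  refine ⟨max 1 (2 * Real.log (2 / δ)), lt_of_lt_of_le one_pos (le_max_left _ _), ?_⟩
  have h : Real.exp (-(max 1 (2 * Real.log (2 / δ)) / 2)) ≤ Real.exp (-(Real.log (2 / δ))) := by
    apply Real.exp_le_exp.2
    have := le_max_right 1 (2 * Real.log (2 / δ))
    linarith
  have h2 : Real.exp (-(Real.log (2 / δ))) = δ / 2 := by
    rw [Real.exp_neg, Real.exp_log (by positivity), inv_div]
  linarith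

end AlmL

open AlmL in
theorem alm (h1 : S_ARC1) (h2 : S_PART) (h3 : S_RATE) : S_ALM := by
  classical
  intro t ε ht hε hε1
  obtain ⟨β, hβ, hβ4, hA⟩ := h1 t ε ht hε hε1
  refine ⟨β / 10, by positivity, ?_⟩
  intro δ hδ
  obtain ⟨τ, hτ, hτδ⟩ := exists_tau hδ
  obtain ⟨M₀, k₁, hM0, hA⟩ := hA τ (β / 10) hτ (by positivity) (by linarith)
  refine ⟨k₁, ?_⟩
  intro n k m _ M hM hk hsl B hB
  have hkpos := hM.kpos
  have hkR : (0 : ℝ) < k := by exact_mod_cast hkpos
  obtain ⟨N, hN⟩ : ∃ N, N = M₀ * k := ⟨_, rfl⟩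
  have hN3 : 3 * k ≤ N := by rw [hN]; exact Nat.mul_le_mul_right k hM0
  have hNR : (0 : ℝ) < N := by
    have : 0 < N := by omega
    exact_mod_cast this
  have hN3R : 3 * (k : ℝ) ≤ N := by exact_mod_cast hN3
  obtain ⟨J, Ar, hAr, hcov, hdis, h4⟩ := h2 n k N hkpos hM.size hN3
  obtain ⟨hsum, hvar⟩ := h3 n k N hkpos (by omega) J Ar hcov hdis
  have hkn : k ≤ n := by have := hM.size; omega
  -- the number of arcs touching a test
  have htch : ∀ S, Test n k M S → ∀ j ≤ J,
      ∑ i ∈ range j, (if Tch n N (Ar i) S then (1 : ℝ) else 0) ≤ 4 := by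
    intro S hS j hj
    obtain ⟨y, hy⟩ := exists_base hM hS
    have e : ∑ i ∈ range j, (if Tch n N (Ar i) S then (1 : ℝ) else 0) ≤
        ((range J).filter (fun j => ∃ i : ℕ, i ≤ N + 3 * k ∧ y - (i : ZMod n) ∈ Ar j)).card := by
      rw [Finset.sum_boole]
      have hsub : (range j).filter (fun i => Tch n N (Ar i) S) ⊆
          (range J).filter (fun j => ∃ i : ℕ, i ≤ N + 3 * k ∧ y - (i : ZMod n) ∈ Ar j) := by
        intro i hi
        rw [mem_filter, mem_range] at hi ⊢
        obtain ⟨hi1, v, hv, s, hs, hvs⟩ := hi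
        obtain ⟨a, ha, rfl⟩ := hy v hv
        refine ⟨by omega, a + s, by omega, ?_⟩
        have : y - ((a + s : ℕ) : ZMod n) = y - (a : ZMod n) - (s : ZMod n) := by push_cast; ring
        rw [this]
        exact hvs
      exact_mod_cast card_le_card hsub
    have h5 := h4 y
    have h6 : (((range J).filter (fun j => ∃ i : ℕ, i ≤ N + 3 * k ∧
        y - (i : ZMod n) ∈ Ar j)).card : ℝ) ≤ 4 := by exact_mod_cast h5
    linarith
  -- start
  have hY0 : ∀ S : Finset (ZMod n), Y S Bᶜ (fun _ => (1 : ℝ)) = ((S ∩ Bᶜ).card : ℝ) := by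
    intro S
    unfold Y
    simp
  have hst1 : ∀ x, Y (M x) Bᶜ (fun _ => (1 : ℝ)) ≤ (M x).card := by
    intro x
    rw [hY0]
    exact_mod_cast card_le_card inter_subset_left
  have hst2 : ∀ y, |Y (win n k y) Bᶜ (fun _ => (1 : ℝ)) - k| ≤ β / 10 * k := by
    intro y
    rw [hY0]
    have e1 : (win n k y ∩ Bᶜ).card + (B ∩ win n k y).card = k := by
      have := card_win hkn y
      have h7 := Finset.card_inter_add_card_sdiff (win n k y) B
      rw [inter_comm B, ← sdiff_eq_inter_compl]
      omega
    have e2 : ((win n k y ∩ Bᶜ).card : ℝ) - k = -((B ∩ win n k y).card : ℝ) := by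
      have : ((win n k y ∩ Bᶜ).card : ℝ) + (B ∩ win n k y).card = k := by exact_mod_cast e1
      linarith
    rw [e2, abs_neg, abs_of_nonneg (by positivity)]
    exact hB y
  -- the state is good
  have hgood : ∀ j ≤ J, ∀ (U : Finset (ZMod n)) (D : ZMod n → ℝ),
      (∀ S, Test n k M S → |Y S U D - Y S Bᶜ (fun _ => (1 : ℝ))| ≤
        β / 10 * k * ∑ i ∈ range j, (if Tch n N (Ar i) S then (1 : ℝ) else 0)) →
      St n k M ((β - β / 10) * k) U D ∧ ∀ y, Y (win n k y) U D ≤ 2 * k := by
    intro j hj U D hUD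
    have hb : ∀ S, Test n k M S → |Y S U D - Y S Bᶜ (fun _ => (1 : ℝ))| ≤ β / 10 * k * 4 := by
      intro S hS
      refine (hUD S hS).trans ?_
      exact mul_le_mul_of_nonneg_left (htch S hS j hj) (by positivity)
    have hβk : 0 < β * k := by positivity
    refine ⟨⟨?_, ?_⟩, ?_⟩
    · intro x
      have h5 := abs_le.1 (hb (M x) (Or.inl ⟨x, rfl⟩))
      have h6 := hst1 x
      nlinarith
    · intro y
      have h5 := abs_le.1 (hb (win n k y) (Or.inr ⟨y, rfl⟩))
      have h6 := abs_le.1 (hst2 y)
      rw [abs_le]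
      constructor <;> nlinarith
    · intro y
      have h5 := abs_le.1 (hb (win n k y) (Or.inr ⟨y, rfl⟩))
      have h6 := abs_le.1 (hst2 y)
      nlinarith
  -- partial sums of rates
  have hpart : ∀ j ≤ J, ∀ v, ∑ i ∈ range j, rate n k N (Ar i) v ≤ 1 := by
    intro j hj v
    have h5 : ∑ i ∈ range j, rate n k N (Ar i) v ≤ ∑ i ∈ range J, rate n k N (Ar i) v :=
      sum_le_sum_of_subset_of_nonneg (range_mono hj) (fun i _ _ => rate_nonneg _ _ _ _ _)
    rw [hsum v] at h5
    refine h5.trans ?_
    rw [div_le_one hNR]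
    linarith
  have hpartv : ∀ j ≤ J, ∀ v, ∑ i ∈ range j,
      |rate n k N (Ar i) (v + 1) - rate n k N (Ar i) v| ≤ 2 / N := by
    intro j hj v
    exact (sum_le_sum_of_subset_of_nonneg (range_mono hj) (fun i _ _ => abs_nonneg _)).trans
      (hvar v)
  -- induction
  have claim : ∀ j ≤ J, ∃ (σ : ℕ → ℝ) (F : Finset (Finset (ZMod n))),
      (∀ i, i < j → τ ≤ σ i ∧ σ i ≤ τ + 1) ∧
      (∀ K ∈ F, IsCl n k M t K ∧ Disjoint K B) ∧
      (∀ K ∈ F, ∀ L ∈ F, K ≠ L → Disjoint K L) ∧
      ∀ S, Test n k M S → |Y S ((B ∪ F.biUnion id)ᶜ) (Dj n k N Ar σ j) -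
        Y S Bᶜ (fun _ => (1 : ℝ))| ≤
        β / 10 * k * ∑ i ∈ range j, (if Tch n N (Ar i) S then (1 : ℝ) else 0) := by
    intro j
    induction j with
    | zero =>
      intro _
      refine ⟨fun _ => 0, ∅, fun i hi => absurd hi (by omega), by simp, by simp, ?_⟩
      intro S hS
      have e1 : Dj n k N Ar (fun _ => 0) 0 = fun _ => (1 : ℝ) := by
        funext v
        simp [Dj]
      rw [e1]
      simp
    | succ j ih =>
      intro hj
      obtain ⟨σ, F, hσ, hF1, hF2, hF3⟩ := ih (by omega)
      set U := (B ∪ F.biUnion id)ᶜ with hU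
      set D := Dj n k N Ar σ j with hD
      have hDv : ∀ v (s : ℝ), D v * Real.exp (-(s * rate n k N (Ar j) v)) =
          Real.exp (-(∑ i ∈ range (j + 1), Function.update σ j s i * rate n k N (Ar i) v)) := by
        intro v s
        rw [hD]
        unfold Dj
        rw [← Real.exp_add, sum_range_succ, Function.update_self]
        congr 1
        have : ∑ i ∈ range j, Function.update σ j s i * rate n k N (Ar i) v =
            ∑ i ∈ range j, σ i * rate n k N (Ar i) v := by
          apply sum_congr rfl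
          intro i hi
          rw [Function.update_of_ne (by have := mem_range.1 hi; omega)]
        rw [this]
        ring
      have hσ' : ∀ s : ℝ, 0 ≤ s → s ≤ τ + 1 → ∀ i, i < j + 1 →
          0 ≤ Function.update σ j s i ∧ Function.update σ j s i ≤ τ + 1 := by
        intro s hs0 hs1 i hi
        by_cases hij : i = j
        · subst hij
          rw [Function.update_self]
          exact ⟨hs0, hs1⟩
        · rw [Function.update_of_ne hij]
          have := hσ i (by omega)
          exact ⟨by linarith, this.2⟩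
      have hE0 : ∀ s : ℝ, 0 ≤ s → s ≤ τ + 1 → ∀ v,
          0 ≤ ∑ i ∈ range (j + 1), Function.update σ j s i * rate n k N (Ar i) v ∧
          ∑ i ∈ range (j + 1), Function.update σ j s i * rate n k N (Ar i) v ≤ τ + 1 := by
        intro s hs0 hs1 v
        constructor
        · apply sum_nonneg
          intro i hi
          exact mul_nonneg (hσ' s hs0 hs1 i (mem_range.1 hi)).1 (rate_nonneg _ _ _ _ _)
        · have h5 : ∑ i ∈ range (j + 1), Function.update σ j s i * rate n k N (Ar i) v ≤
              ∑ i ∈ range (j + 1), (τ + 1) * rate n k N (Ar i) v := by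
            apply sum_le_sum
            intro i hi
            exact mul_le_mul_of_nonneg_right (hσ' s hs0 hs1 i (mem_range.1 hi)).2
              (rate_nonneg _ _ _ _ _)
          rw [← mul_sum] at h5
          have h6 := hpart (j + 1) hj v
          nlinarith
      have hE1 : ∀ s : ℝ, 0 ≤ s → s ≤ τ + 1 → ∀ v,
          |∑ i ∈ range (j + 1), Function.update σ j s i * rate n k N (Ar i) (v + 1) -
          ∑ i ∈ range (j + 1), Function.update σ j s i * rate n k N (Ar i) v| ≤
            2 * (τ + 1) / N := by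
        intro s hs0 hs1 v
        rw [← sum_sub_distrib]
        refine (abs_sum_le_sum_abs _ _).trans ?_
        have h5 : ∑ i ∈ range (j + 1), |Function.update σ j s i * rate n k N (Ar i) (v + 1) -
            Function.update σ j s i * rate n k N (Ar i) v| ≤
            ∑ i ∈ range (j + 1), (τ + 1) * |rate n k N (Ar i) (v + 1) - rate n k N (Ar i) v| := by
          apply sum_le_sum
          intro i hi
          have h6 := hσ' s hs0 hs1 i (mem_range.1 hi)
          rw [← mul_sub, abs_mul, abs_of_nonneg h6.1]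
          exact mul_le_mul_of_nonneg_right h6.2 (abs_nonneg _)
        rw [← mul_sum] at h5
        refine h5.trans ?_
        have h7 := mul_le_mul_of_nonneg_left (hpartv (j + 1) hj v) (by linarith : 0 ≤ τ + 1)
        refine h7.trans (le_of_eq ?_)
        ring
      have hc1 : ∀ v, ∀ s : ℝ, 0 ≤ s → s ≤ τ + 1 →
          Real.exp (-(τ + 1)) ≤ D v * Real.exp (-(s * rate n k (M₀ * k) (Ar j) v)) ∧
          D v * Real.exp (-(s * rate n k (M₀ * k) (Ar j) v)) ≤ 1 := by
        intro v s hs0 hs1
        rw [← hN, hDv v s]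
        have := hE0 s hs0 hs1 v
        constructor
        · apply Real.exp_le_exp.2
          linarith
        · rw [Real.exp_le_one_iff]
          linarith
      have hc2 : ∀ s : ℝ, 0 ≤ s → s ≤ τ + 1 → Slow n (2 * (τ + 1) / (M₀ * k : ℕ))
          (fun v => D v * Real.exp (-(s * rate n k (M₀ * k) (Ar j) v))) := by
        intro s hs0 hs1 v
        simp only
        rw [← hN, hDv v s, hDv (v + 1) s, ← Real.exp_add, ← Real.exp_add]
        have := abs_le.1 (hE1 s hs0 hs1 v)
        constructor
        · apply Real.exp_le_exp.2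
          linarith
        · apply Real.exp_le_exp.2
          linarith
      have hArj : Arc n (M₀ * k) (Ar j) := by rw [← hN]; exact hAr j (by omega)
      obtain ⟨s, G, hs0, hs1, hG1, hG2, hG3, hG4, hG5⟩ := hA n k m M hM hk hsl (Ar j) hArj U D
        hc1 hc2 (hgood j (by omega) U D hF3).1
      rw [← hN] at hG3 hG4 hG5
      have hGU : G.biUnion id ⊆ U := by
        rw [biUnion_subset]
        intro K hK
        exact (hG1 K hK).2
      have hU' : (B ∪ (F ∪ G).biUnion id)ᶜ = U \ G.biUnion id := by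
        rw [hU, union_biUnion, ← union_assoc, compl_union, sdiff_eq_inter_compl]
      have hD' : Dj n k N Ar (Function.update σ j s) (j + 1) =
          fun v => D v * Real.exp (-(s * rate n k N (Ar j) v)) := by
        funext v
        rw [hDv v s]
        rfl
      refine ⟨Function.update σ j s, F ∪ G, ?_, ?_, ?_, ?_⟩
      · intro i hi
        by_cases hij : i = j
        · subst hij
          rw [Function.update_self]
          exact ⟨hs0, hs1⟩
        · rw [Function.update_of_ne hij]
          exact hσ i (by omega)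
      · intro K hK
        rcases mem_union.1 hK with hK | hK
        · exact hF1 K hK
        · refine ⟨(hG1 K hK).1, ?_⟩
          rw [disjoint_left]
          intro v hv hvB
          have := (hG1 K hK).2 hv
          rw [hU, mem_compl, mem_union] at this
          exact this (Or.inl hvB)
      · have hcross : ∀ K ∈ F, ∀ L ∈ G, Disjoint K L := by
          intro K hK L hL
          rw [disjoint_left]
          intro v hv hvL
          have := (hG1 L hL).2 hvL
          rw [hU, mem_compl, mem_union] at this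
          exact this (Or.inr (mem_biUnion.2 ⟨K, hK, hv⟩))
        intro K hK L hL hKL
        rcases mem_union.1 hK with hK | hK <;> rcases mem_union.1 hL with hL | hL
        · exact hF2 K hK L hL hKL
        · exact hcross K hK L hL
        · exact (hcross L hL K hK).symm
        · exact hG2 K hK L hL hKL
      · intro S hS
        rw [hU', hD', sum_range_succ]
        have h5 := hF3 S hS
        have h6 : |Y S (U \ G.biUnion id) (fun v => D v * Real.exp (-(s * rate n k N (Ar j) v))) -
            Y S U D| ≤ β / 10 * k * (if Tch n N (Ar j) S then (1 : ℝ) else 0) := by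
          split_ifs with hT
          · rw [mul_one]
            rcases hS with ⟨x, rfl⟩ | ⟨y, rfl⟩
            · exact hG4 x
            · exact hG5 y
          · rw [mul_zero]
            have e1 : S ∩ (U \ G.biUnion id) = S ∩ U := by
              ext v
              simp only [mem_inter, mem_sdiff]
              constructor
              · rintro ⟨h7, h8, -⟩
                exact ⟨h7, h8⟩
              · rintro ⟨h7, h8⟩
                refine ⟨h7, h8, ?_⟩
                intro h9
                obtain ⟨K, hK, hv⟩ := mem_biUnion.1 h9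
                obtain ⟨i, hi, hi2⟩ := hG3 K hK v hv
                exact hT ⟨v, h7, i, hi, hi2⟩
            have e2 : Y S (U \ G.biUnion id)
                (fun v => D v * Real.exp (-(s * rate n k N (Ar j) v))) = Y S U D := by
              unfold Y
              rw [e1]
              apply sum_congr rfl
              intro v hv
              have hz := rate_zero (k := k) hT (mem_inter.1 hv).1
              simp only [hz, mul_zero, neg_zero, Real.exp_zero, mul_one]
            rw [e2]
            simp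
        have h7 := abs_add_le
          (Y S (U \ G.biUnion id) (fun v => D v * Real.exp (-(s * rate n k N (Ar j) v))) - Y S U D)
          (Y S U D - Y S Bᶜ (fun _ => (1 : ℝ)))
        rw [sub_add_sub_cancel] at h7
        rw [mul_add]
        linarith
  obtain ⟨σ, F, hσ, hF1, hF2, hF3⟩ := claim J le_rfl
  refine ⟨F, hF1, hF2, ?_⟩
  intro y
  have h5 := (hgood J le_rfl _ _ hF3).2 y
  -- `D ≤ exp (-τ/2)`
  have h6 : ∀ v, Dj n k N Ar σ J v ≤ Real.exp (-(τ / 2)) := by
    intro v
    unfold Dj
    apply Real.exp_le_exp.2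
    have h7 : τ * ∑ i ∈ range J, rate n k N (Ar i) v ≤
        ∑ i ∈ range J, σ i * rate n k N (Ar i) v := by
      rw [mul_sum]
      apply sum_le_sum
      intro i hi
      exact mul_le_mul_of_nonneg_right (hσ i (mem_range.1 hi)).1 (rate_nonneg _ _ _ _ _)
    rw [hsum v] at h7
    have h8 : (1 : ℝ) / 2 ≤ ((N : ℝ) - k) / N := by
      rw [div_le_div_iff₀ (by norm_num) hNR]
      linarith
    have h9 : τ * (1 / 2) ≤ τ * (((N : ℝ) - k) / N) := mul_le_mul_of_nonneg_left h8 hτ.le
    linarith
  have h7 : (((B ∪ F.biUnion id)ᶜ ∩ win n k y).card : ℝ) ≤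
      Real.exp (-(τ / 2)) * Y (win n k y) ((B ∪ F.biUnion id)ᶜ) (Dj n k N Ar σ J) := by
    unfold Y
    rw [mul_sum, inter_comm, card_eq_sum_ones]
    push_cast
    apply sum_le_sum
    intro v _
    have h8 : 0 < Dj n k N Ar σ J v := Real.exp_pos _
    have h9 := h6 v
    rw [← div_eq_mul_inv, le_div_iff₀ h8]
    linarith
  refine h7.trans ?_
  have h8 : Real.exp (-(τ / 2)) * Y (win n k y) ((B ∪ F.biUnion id)ᶜ) (Dj n k N Ar σ J) ≤
      Real.exp (-(τ / 2)) * (2 * k) := mul_le_mul_of_nonneg_left h5 (Real.exp_pos _).le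
  refine h8.trans ?_
  have h9 : Real.exp (-(τ / 2)) * (2 * k) = (2 * Real.exp (-(τ / 2))) * k := by ring
  rw [h9]
  exact mul_le_mul_of_nonneg_right hτδ hkR.le

end Pool.Agent.Helper83K9.CF
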