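import Pool.Agent.Helper83K9.CF.Rate

/-! # Leaf ARC1: one arc, from POT, DIST and BAL. -/

set_option autoImplicit false

namespace Pool.Agent.Helper83K9.CF

open Finset

namespace ArcL

/-- `v` is touched by the segments which start in `A` -/
def Tou (n N : ℕ) (A : Finset (ZMod n)) (v : ZMod n) : Prop := ∃ i : ℕ, i < N ∧ v - (i : ZMod n) ∈ A

/-- tests without touched vertices do not change -/
lemma untouched {n k N : ℕ} (A S U U' : Finset (ZMod n)) (D : ZMod n → ℝ) (σ : ℝ)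
    (hS : ∀ v ∈ S, ¬ Tou n N A v) (hU : ∀ v, ¬ Tou n N A v → (v ∈ U' ↔ v ∈ U)) :
    Y S U' (fun v => D v * Real.exp (-(σ * rate n k N A v))) = Y S U D := by
  unfold Y
  have h1 : S ∩ U' = S ∩ U := by
    ext v
    rw [mem_inter, mem_inter]
    constructor
    · rintro ⟨a, b⟩; exact ⟨a, (hU v (hS v a)).1 b⟩
    · rintro ⟨a, b⟩; exact ⟨a, (hU v (hS v a)).2 b⟩
  rw [h1]
  refine sum_congr rfl fun v hv => ?_
  have h2 := hS v (mem_inter.1 hv).1
  have h3 : rate n k N A v = 0 := rate_eq_zero fun i hi hA => h2 ⟨i, hi, hA⟩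
  show (D v * Real.exp (-(σ * rate n k N A v)))⁻¹ = (D v)⁻¹
  rw [h3, mul_zero, neg_zero, Real.exp_zero, mul_one]

/-- a window with large rate -/
lemma big_rate {n k N : ℕ} (hk : 1 ≤ k) (hN : 3 * k ≤ N) (A : Finset (ZMod n)) (hA : Arc n N A) :
    ∃ y : ZMod n, ∀ v ∈ win n k y, (1 : ℝ) / 2 ≤ rate n k N A v := by
  have hNr : (0 : ℝ) < N := by exact_mod_cast (by omega : 0 < N)
  have key : ∀ v : ZMod n, (∀ i : ℕ, k ≤ i → i < N → v - (i : ZMod n) ∈ A) → (1 : ℝ) / 2 ≤ rate n k N A v := by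
    intro v hv
    unfold rate
    rw [filter_true_of_mem (fun i hi => hv i (mem_Ico.1 hi).1 (mem_Ico.1 hi).2), Nat.card_Ico]
    rw [le_div_iff₀ hNr, Nat.cast_sub (by omega)]
    have : (3 : ℝ) * k ≤ N := by exact_mod_cast hN
    linarith
  rcases hA with ⟨_, hall⟩ | ⟨a, l, hl1, hl2, rfl⟩
  · exact ⟨0, fun v _ => key v fun i _ _ => hall _⟩
  · refine ⟨a + ((N - 1 : ℕ) : ZMod n), fun v hv => key v fun i hi1 hi2 => ?_⟩
    obtain ⟨j, hj, rfl⟩ := mem_win.1 hv
    rw [mem_win]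
    refine ⟨N - 1 + j - i, by omega, ?_⟩
    rw [Nat.cast_sub (by omega), Nat.cast_add]
    ring

/-- few tests are touched -/
lemma few {n k m N : ℕ} [NeZero n] {M : ZMod n → Finset (ZMod n)} (hM : Host n k m M) (hN : 3 * k ≤ N)
    (A : Finset (ZMod n)) (hA : Arc n N A) (X Z : Finset (ZMod n))
    (hX : ∀ x ∈ X, ∃ v ∈ M x, Tou n N A v) (hZ : ∀ y ∈ Z, ∃ v ∈ win n k y, Tou n N A v) :
    X.card + Z.card ≤ 8 * N := by
  have hk := hM.kpos
  rcases hA with ⟨hn, _⟩ | ⟨a, l, hl1, hl2, rfl⟩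
  · have h1 := card_le_univ X
    have h2 := card_le_univ Z
    rw [ZMod.card] at h1 h2
    omega
  · have h1 : X ⊆ win n (3 * N + 2 * k + 1) (a - (k : ZMod n)) := by
      intro x hx
      obtain ⟨v, hv, i, hi, hvi⟩ := hX x hx
      obtain ⟨j, hj, hjv⟩ := mem_win.1 hvi
      obtain ⟨c, hc, hxc⟩ := near_iff.1 (near_symm (hM.near x v hv))
      have hv' : v = a + (j : ZMod n) + (i : ZMod n) := by rw [hjv]; ring
      rw [mem_win]
      refine ⟨j + i + c, by omega, ?_⟩
      rw [hxc, hv']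
      push_cast
      ring
    have h2 : Z ⊆ win n (3 * N + 2 * k + 1) (a - (k : ZMod n)) := by
      intro y hy
      obtain ⟨v, hv, i, hi, hvi⟩ := hZ y hy
      obtain ⟨j, hj, hjv⟩ := mem_win.1 hvi
      obtain ⟨c, hc, hyc⟩ := mem_win.1 hv
      have hv' : v = a + (j : ZMod n) + (i : ZMod n) := by rw [hjv]; ring
      have hy' : y = a + (j : ZMod n) + (i : ZMod n) - (c : ZMod n) := by rw [← hv', ← hyc]; ring
      rw [mem_win]
      refine ⟨j + i + (k - c), by omega, ?_⟩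
      rw [hy']
      push_cast [Nat.cast_sub hc.le]
      ring
    have h3 := card_le_card h1
    have h4 := card_le_card h2
    have h5 := card_win_le (k := 3 * N + 2 * k + 1) (a - (k : ZMod n))
    omega

end ArcL

open ArcL

open Classical in
theorem arc1 (h1 : S_POT) (h2 : S_DIST) (h3 : S_BAL) : S_ARC1 := by
  intro t ε ht hε hε1
  obtain ⟨β, hβ0, hβ4, hbal⟩ := h3 t ε ht hε hε1
  refine ⟨β, hβ0, hβ4, fun τ γ hτ hγ hγβ => ?_⟩
  have htr : (2 : ℝ) ≤ t := by exact_mod_cast ht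
  obtain ⟨d, hd⟩ : ∃ d : ℝ, d = Real.exp (-(τ + 1)) := ⟨_, rfl⟩
  have hd0 : 0 < d := by rw [hd]; exact Real.exp_pos _
  have hd1 : d ≤ 1 := by rw [hd]; exact Real.exp_le_one_iff.2 (by linarith)
  obtain ⟨κ, hκ⟩ : ∃ κ : ℝ, κ = 3 * d / (8 * t) := ⟨_, rfl⟩
  have hκ0 : 0 < κ := by rw [hκ]; positivity
  obtain ⟨η, hη0, hη1, hpot⟩ := h1 t d τ γ κ (by omega) hd0 hd1 hτ hγ hκ0
  obtain ⟨M₀, hM₀⟩ : ∃ M₀ : ℕ, M₀ = max 3 (max ⌈1 / η⌉₊ ⌈2 * (τ + 1) / β⌉₊) := ⟨_, rfl⟩
  have hM3 : 3 ≤ M₀ := by rw [hM₀]; exact le_max_left _ _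
  have hM3r : (3 : ℝ) ≤ M₀ := by exact_mod_cast hM3
  have hMη : 1 ≤ M₀ * η := by
    have h5 : ⌈1 / η⌉₊ ≤ M₀ := by rw [hM₀]; exact le_trans (le_max_left _ _) (le_max_right _ _)
    have h6 : 1 / η ≤ M₀ := (Nat.le_ceil _).trans (by exact_mod_cast h5)
    rwa [div_le_iff₀ hη0] at h6
  have hMβ : 2 * (τ + 1) ≤ M₀ * β := by
    have h5 : ⌈2 * (τ + 1) / β⌉₊ ≤ M₀ := by rw [hM₀]; exact le_trans (le_max_right _ _) (le_max_right _ _)
    have h6 : 2 * (τ + 1) / β ≤ M₀ := (Nat.le_ceil _).trans (by exact_mod_cast h5)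
    rwa [div_le_iff₀ hβ0] at h6
  obtain ⟨k₀, hk₀⟩ := hpot (8 * M₀)
  refine ⟨M₀, k₀, hM3, ?_⟩
  intro n k m _ M hM hk hs Ar hAr U D hD hslow hSt
  have hk1 := hM.kpos
  have hkr : (0 : ℝ) < k := by exact_mod_cast hk1
  obtain ⟨N, hN⟩ : ∃ N : ℕ, N = M₀ * k := ⟨_, rfl⟩
  rw [← hN] at hAr hD hslow ⊢
  have hN3 : 3 * k ≤ N := by rw [hN]; exact Nat.mul_le_mul_right k hM3
  have hkN : k ≤ N := by omega
  have hNr : (N : ℝ) = M₀ * k := by rw [hN]; push_cast; rfl
  have hNpos : (0 : ℝ) < N := by exact_mod_cast (by omega : 0 < N)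
  -- the tests
  obtain ⟨X, hX⟩ : ∃ X : Finset (ZMod n), X = univ.filter (fun x => ∃ v ∈ M x, Tou n N Ar v) := ⟨_, rfl⟩
  obtain ⟨Z, hZ⟩ : ∃ Z : Finset (ZMod n), Z = univ.filter (fun y => ∃ v ∈ win n k y, Tou n N Ar v) := ⟨_, rfl⟩
  obtain ⟨T, hT⟩ : ∃ T : Finset (Finset (ZMod n)), T = X.image M ∪ Z.image (win n k) := ⟨_, rfl⟩
  have hTM : ∀ x, M x ∉ T → ∀ v ∈ M x, ¬ Tou n N Ar v := by
    intro x hx v hv hvt
    apply hx
    rw [hT, mem_union]
    exact Or.inl (mem_image_of_mem _ (by rw [hX, mem_filter]; exact ⟨mem_univ _, v, hv, hvt⟩))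
  have hTW : ∀ y, win n k y ∉ T → ∀ v ∈ win n k y, ¬ Tou n N Ar v := by
    intro x hx v hv hvt
    apply hx
    rw [hT, mem_union]
    exact Or.inr (mem_image_of_mem _ (by rw [hZ, mem_filter]; exact ⟨mem_univ _, v, hv, hvt⟩))
  have hTcard : (T.card : ℝ) ≤ 8 * M₀ * k := by
    have h5 := few hM hN3 Ar hAr X Z (fun x hx => by rw [hX, mem_filter] at hx; exact hx.2)
      (fun y hy => by rw [hZ, mem_filter] at hy; exact hy.2)
    have h6 : T.card ≤ X.card + Z.card := by
      rw [hT]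
      exact (card_union_le _ _).trans (add_le_add card_image_le card_image_le)
    have h7 : (T.card : ℝ) ≤ 8 * N := by exact_mod_cast h6.trans h5
    rw [hNr] at h7
    linarith
  have hTS : ∀ S ∈ T, (S.card : ℝ) ≤ 3 * k := by
    intro S hS
    rw [hT, mem_union, mem_image, mem_image] at hS
    rcases hS with ⟨x, _, rfl⟩ | ⟨y, _, rfl⟩
    · have h5 := hM.card x
      have h6 := slack_le ht hε hs
      exact_mod_cast (by omega : (M x).card ≤ 3 * k)
    · have h5 := card_win_le (k := k) y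
      exact_mod_cast (by omega : (win n k y).card ≤ 3 * k)
  have herr : ∀ v, err n k N Ar v ≤ η := by
    intro v
    refine (err_le Ar v).trans ?_
    rw [div_le_iff₀ hNpos, hNr]
    nlinarith
  -- all tests are controlled
  have hctl : ∀ (U' : Finset (ZMod n)) (σ : ℝ),
      (∀ S ∈ T, |Y S U' (fun v => D v * Real.exp (-(σ * rate n k N Ar v))) - Y S U D| ≤ γ * k) →
      (∀ v, ¬ Tou n N Ar v → (v ∈ U' ↔ v ∈ U)) →
      (∀ x, |Y (M x) U' (fun v => D v * Real.exp (-(σ * rate n k N Ar v))) - Y (M x) U D| ≤ γ * k) ∧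
      ∀ y, |Y (win n k y) U' (fun v => D v * Real.exp (-(σ * rate n k N Ar v))) - Y (win n k y) U D| ≤ γ * k := by
    intro U' σ hte hun
    constructor
    · intro x
      by_cases hx : M x ∈ T
      · exact hte _ hx
      · rw [untouched Ar (M x) U U' D σ (hTM x hx) hun, sub_self, abs_zero]; positivity
    · intro y
      by_cases hy : win n k y ∈ T
      · exact hte _ hy
      · rw [untouched Ar (win n k y) U U' D σ (hTW y hy) hun, sub_self, abs_zero]; positivity
  obtain ⟨σ, F, hσ1, hσ2, hF1, hF2, hF3, hF4⟩ := hk₀ k hk (ZMod n) T (rate n k N Ar) (err n k N Ar) D U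
    (IsCl n k M t) hTcard hTS (fun v => ⟨rate_nonneg Ar v, rate_le_one hkN Ar v⟩)
    (fun v => ⟨err_nonneg Ar v, herr v⟩) (fun v σ h5 h6 => by rw [hd]; exact hD v σ h5 h6) (fun K hK => hK.1)
    (by
      intro U' σ hU' hσ0 hστ hte hun
      have hun' : ∀ v, ¬ Tou n N Ar v → (v ∈ U' ↔ v ∈ U) := by
        intro v hv
        apply hun v
        rw [rate_eq_zero fun i hi hA => hv ⟨i, hi, hA⟩, err_eq_zero hkN fun i hi hA => hv ⟨i, hi, hA⟩, add_zero]
      obtain ⟨hc1, hc2⟩ := hctl U' σ hte hun'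
      have hgpos : ∀ v, 0 < D v * Real.exp (-(σ * rate n k N Ar v)) := by
        intro v
        have := (hD v σ hσ0 (by linarith)).1
        have h5 := Real.exp_pos (-(τ + 1))
        linarith
      have hst : St n k M (β * k) U' (fun v => D v * Real.exp (-(σ * rate n k N Ar v))) := by
        constructor
        · intro x
          have h5 := (abs_le.1 (hc1 x)).2
          have h6 := hSt.1 x
          have h7 : (β - γ) * k + γ * k = β * k := by ring
          linarith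
        · intro y
          have h5 := hc2 y
          have h6 := hSt.2 y
          have h7 : (β - γ) * k + γ * k = β * k := by ring
          have h8 := abs_add_le (Y (win n k y) U' (fun v => D v * Real.exp (-(σ * rate n k N Ar v))) - Y (win n k y) U D)
            (Y (win n k y) U D - k)
          rw [sub_add_sub_cancel] at h8
          linarith
      have hθk : 2 * (τ + 1) / (N : ℝ) * k ≤ β := by
        rw [div_mul_eq_mul_div, div_le_iff₀ hNpos, hNr]
        nlinarith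
      have hb := hbal n k m M hM hs U' _ (2 * (τ + 1) / (N : ℝ)) hgpos (by positivity) hθk
        (hslow σ hσ0 (by linarith)) hst
      obtain ⟨w, hw1, hw2, hw3⟩ := h2 n k m t N M hM ht hkN U' Ar (fun z _ j _ i hi => hb _ i hi)
      refine ⟨w, hw1, hw2, hw3, ?_⟩
      -- the total weight
      obtain ⟨y, hy⟩ := big_rate hk1 hN3 Ar hAr
      have e1 : ∑ v, ∑ K, (if v ∈ K then w K else 0) = t * ∑ K, w K := by
        rw [sum_comm, mul_sum]
        refine sum_congr rfl fun K _ => ?_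
        rw [← sum_filter, sum_const, nsmul_eq_mul, filter_mem_eq_inter, univ_inter]
        by_cases hK : w K = 0
        · rw [hK]; ring
        · rw [(hw2 K hK).1.1]
      have e2 : ∑ v ∈ win n k y ∩ U', (1 : ℝ) / 2 ≤ ∑ v, ∑ K, (if v ∈ K then w K else 0) := by
        calc ∑ v ∈ win n k y ∩ U', (1 : ℝ) / 2 ≤ ∑ v ∈ win n k y ∩ U', ∑ K, (if v ∈ K then w K else 0) := by
              refine sum_le_sum fun v hv => ?_
              rw [mem_inter] at hv
              exact (hy v hv.1).trans (hw3 v hv.2).1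
          _ ≤ ∑ v, ∑ K, (if v ∈ K then w K else 0) := by
              apply sum_le_sum_of_subset_of_nonneg (subset_univ _)
              intro v _ _
              refine sum_nonneg fun K _ => ?_
              split_ifs
              · exact hw1 K
              · exact le_rfl
      rw [sum_const, nsmul_eq_mul] at e2
      have e3 : d * Y (win n k y) U' (fun v => D v * Real.exp (-(σ * rate n k N Ar v))) ≤ (win n k y ∩ U').card := by
        unfold Y
        rw [mul_sum, card_eq_sum_ones, Nat.cast_sum]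
        refine sum_le_sum fun v _ => ?_
        rw [Nat.cast_one, ← div_eq_mul_inv, div_le_one (hgpos v), hd]
        exact (hD v σ hσ0 (by linarith)).1
      have e4 : (3 / 4) * k ≤ Y (win n k y) U' (fun v => D v * Real.exp (-(σ * rate n k N Ar v))) := by
        have h5 := (abs_le.1 (hst.2 y)).1
        have h6 : β * k ≤ 1 / 4 * k := mul_le_mul_of_nonneg_right hβ4 hkr.le
        linarith
      have e5 : d * ((3 / 4) * k) ≤ d * Y (win n k y) U' (fun v => D v * Real.exp (-(σ * rate n k N Ar v))) :=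
        mul_le_mul_of_nonneg_left e4 hd0.le
      rw [e1] at e2
      have e6 : (3 * d / 8) * k ≤ t * ∑ K, w K := by linarith
      have e7 : t * (κ * k) ≤ t * ∑ K, w K := by
        have : t * (κ * k) = (3 * d / 8) * k := by rw [hκ]; field_simp
        rw [this]; exact e6
      exact le_of_mul_le_mul_left e7 (by linarith))
  have hun : ∀ v, ¬ Tou n N Ar v → (v ∈ U \ F.biUnion id ↔ v ∈ U) := by
    intro v hv
    rw [mem_sdiff]
    constructor
    · exact fun h => h.1
    · intro h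
      refine ⟨h, fun hvF => ?_⟩
      obtain ⟨K, hK, hvK⟩ := mem_biUnion.1 hvF
      exact hv (touched_of_pos hkN (hF3 K hK v hvK))
  obtain ⟨hc1, hc2⟩ := hctl _ σ hF4 hun
  exact ⟨σ, F, hσ1, hσ2, hF1, hF2, fun K hK v hv => touched_of_pos hkN (hF3 K hK v hv), hc1, hc2⟩

end Pool.Agent.Helper83K9.CF
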