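import Pool.Agent.Helper83K9.CF.Stm

/-!
Clique factors in dense subgraphs of powers of cycles: fractional tilings of segments, averaged.
-/

set_option autoImplicit false

namespace Pool.Agent.Helper83K9.CF

open Finset

namespace DistL

theorem inj {n k : ℕ} [NeZero n] (hn : 2 * k + 1 ≤ n) (z : ZMod n) {a b : ℕ} (h1 : a ≤ b + 2 * k)
    (h2 : b ≤ a + 2 * k) (h : z + (a : ZMod n) = z + (b : ZMod n)) : a = b := by
  have h3 : (a : ZMod n) = b := add_left_cancel h
  have h4 := (ZMod.natCast_eq_natCast_iff a b n).1 h3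
  rcases le_total a b with hab | hab
  · have h5 : n ∣ b - a := (Nat.modEq_iff_dvd' hab).1 h4
    have h6 : b - a = 0 := Nat.eq_zero_of_dvd_of_lt h5 (by omega)
    omega
  · have h5 : n ∣ a - b := (Nat.modEq_iff_dvd' hab).1 h4.symm
    have h6 : a - b = 0 := Nat.eq_zero_of_dvd_of_lt h5 (by omega)
    omega

/-- one segment -/
theorem one (hF : S_FRAC) (n k m t N : ℕ) [NeZero n] (M : ZMod n → Finset (ZMod n))
    (hM : Host n k m M) (ht : 2 ≤ t) (U : Finset (ZMod n)) (z : ZMod n)
    (hA : ∀ j : ℕ, j + k < N → ∀ i : ℕ, i ≤ 2 * k →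
      ((t : ℝ) - 1) * (M (z + (j : ZMod n) + (i : ZMod n)) ∩ U).card ≤
        (win n k (z + (j : ZMod n)) ∩ U).card) :
    ∃ w : Finset ℕ → ℝ, (∀ K, 0 ≤ w K) ∧
      (∀ K, w K ≠ 0 → (∀ x ∈ K, ∀ y ∈ K, x ≤ y + k) ∧
        IsCl n k M t (K.image fun i : ℕ => z + (i : ZMod n)) ∧
        (K.image fun i : ℕ => z + (i : ZMod n)) ⊆ U) ∧
      (∀ v < N, ∑ K ∈ (range N).powerset, (if v ∈ K then w K else 0) ≤ 1) ∧
      ∀ v, k ≤ v → v < N → z + (v : ZMod n) ∈ U →
        ∑ K ∈ (range N).powerset, (if v ∈ K then w K else 0) = 1 := by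
  classical
  have hk := hM.kpos
  have hn := hM.size
  obtain ⟨w, h0, h1, h2, h3⟩ := hF t k N (fun i j => i = j ∨ z + (j : ZMod n) ∈ M (z + (i : ZMod n)))
    (fun i => if z + (i : ZMod n) ∈ U then 1 else 0) ht hk (fun x => Or.inl rfl)
    (fun x y h => h.elim (fun h => Or.inl h.symm) (fun h => Or.inr (hM.symm _ _ h)))
    (fun x => by
      beta_reduce
      split_ifs <;> norm_num)
    (by
      intro y x hky hyN hxN hyx hxy
      have h4 := hA (y - k) (by omega) (x + k - y) (by omega)
      have e1 : z + ((y - k : ℕ) : ZMod n) + ((x + k - y : ℕ) : ZMod n) = z + (x : ZMod n) := by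
        rw [add_assoc, ← Nat.cast_add]
        congr 2
        omega
      rw [e1] at h4
      have h5 : ∑ u ∈ LQ (fun i j => i = j ∨ z + (j : ZMod n) ∈ M (z + (i : ZMod n))) k N x,
          (if z + (u : ZMod n) ∈ U then (1 : ℝ) else 0) ≤ ((M (z + (x : ZMod n)) ∩ U).card : ℝ) := by
        rw [Finset.sum_boole]
        have : ((LQ (fun i j => i = j ∨ z + (j : ZMod n) ∈ M (z + (i : ZMod n))) k N x).filter
            (fun u : ℕ => z + (u : ZMod n) ∈ U)).card ≤ (M (z + (x : ZMod n)) ∩ U).card := by
          refine Finset.card_le_card_of_injOn (fun u : ℕ => z + (u : ZMod n)) ?_ ?_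
          · intro u hu
            simp only [LQ, Finset.coe_filter, Finset.mem_filter, Set.mem_setOf_eq] at hu
            simp only [Finset.coe_inter, Set.mem_inter_iff, Finset.mem_coe]
            refine ⟨?_, hu.2⟩
            rcases hu.1.2.2.2 with h | h
            · rw [← h]
              exact hM.refl _
            · exact h
          · intro u hu v hv huv
            simp only [LQ, Finset.coe_filter, Finset.mem_filter, Set.mem_setOf_eq] at hu hv
            exact inj hn z (by omega) (by omega) huv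
        exact_mod_cast this
      have h6 : ((win n k (z + ((y - k : ℕ) : ZMod n)) ∩ U).card : ℝ) ≤
          ∑ u ∈ Ico (y - k) y, (if z + (u : ZMod n) ∈ U then (1 : ℝ) else 0) := by
        rw [Finset.sum_boole]
        have : (win n k (z + ((y - k : ℕ) : ZMod n)) ∩ U).card ≤ ((Ico (y - k) y).filter
            (fun u : ℕ => z + (u : ZMod n) ∈ U)).card := by
          have hsub : win n k (z + ((y - k : ℕ) : ZMod n)) ∩ U ⊆ ((Ico (y - k) y).filter
            (fun u : ℕ => z + (u : ZMod n) ∈ U)).image (fun u : ℕ => z + (u : ZMod n)) := by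
            intro v hv
            rw [Finset.mem_inter, win, Finset.mem_image] at hv
            obtain ⟨⟨i, hi, rfl⟩, hv⟩ := hv
            have hi' := Finset.mem_range.1 hi
            have e2 : z + ((y - k + i : ℕ) : ZMod n) = z + ((y - k : ℕ) : ZMod n) + (i : ZMod n) := by
              rw [Nat.cast_add, add_assoc]
            refine Finset.mem_image.2 ⟨y - k + i, ?_, e2⟩
            rw [Finset.mem_filter, Finset.mem_Ico, e2]
            exact ⟨by omega, hv⟩
          exact (Finset.card_le_card hsub).trans Finset.card_image_le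
        exact_mod_cast this
      have ht1 : (0 : ℝ) ≤ (t : ℝ) - 1 := by
        have : (2 : ℝ) ≤ t := by exact_mod_cast ht
        linarith
      calc ((t : ℝ) - 1) * ∑ u ∈ LQ (fun i j => i = j ∨ z + (j : ZMod n) ∈ M (z + (i : ZMod n))) k N x,
          (if z + (u : ZMod n) ∈ U then (1 : ℝ) else 0)
          ≤ ((t : ℝ) - 1) * ((M (z + (x : ZMod n)) ∩ U).card : ℝ) :=
            mul_le_mul_of_nonneg_left h5 ht1
        _ ≤ _ := h4.trans h6)
  refine ⟨w, h0, fun K hK => ?_, fun v hv => ?_, fun v hkv hv hvU => ?_⟩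
  · have hL := h1 K hK
    have hord : ∀ x ∈ K, ∀ y ∈ K, x ≤ y + k := by
      intro x hx y hy
      rcases lt_trichotomy y x with h | h | h
      · exact (hL.2.2 y hy x hx h).1
      · omega
      · omega
    have hinj : Set.InjOn (fun i : ℕ => z + (i : ZMod n)) K := fun a ha b hb hab =>
      inj hn z (by have := hord a ha b hb; omega) (by have := hord b hb a ha; omega) hab
    refine ⟨hord, ⟨?_, ?_⟩, ?_⟩
    · rw [Finset.card_image_of_injOn hinj, hL.2.1]
    · intro a ha b hb hab
      obtain ⟨i, hi, rfl⟩ := Finset.mem_image.1 ha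
      obtain ⟨j, hj, rfl⟩ := Finset.mem_image.1 hb
      have hij : i ≠ j := fun h => hab (by rw [h])
      refine ⟨⟨(j : ℤ) - i, ?_, ?_⟩, ?_⟩
      · rw [abs_le]
        have := hord i hi j hj
        have := hord j hj i hi
        omega
      · push_cast
        ring
      · rcases lt_or_gt_of_ne hij with h | h
        · intro hcon
          exact (hL.2.2 i hi j hj h).2 (Or.inr hcon)
        · intro hcon
          exact (hL.2.2 j hj i hi h).2 (Or.inr (hM.symm _ _ hcon))
    · intro a ha
      obtain ⟨i, hi, rfl⟩ := Finset.mem_image.1 ha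
      by_contra hcon
      have hiN : i < N := Finset.mem_range.1 (hL.1 hi)
      have h4 := h2 i hiN
      rw [if_neg hcon] at h4
      have h5 : w K ≤ ∑ K ∈ (range N).powerset, (if i ∈ K then w K else 0) := by
        have h6 := Finset.single_le_sum (f := fun K => if i ∈ K then w K else 0)
          (fun K _ => by
            beta_reduce
            split_ifs
            · exact h0 K
            · exact le_rfl) (Finset.mem_powerset.2 hL.1)
        beta_reduce at h6
        rwa [if_pos hi] at h6
      exact hK (le_antisymm (h5.trans h4) (h0 K))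
  · refine (h2 v hv).trans ?_
    beta_reduce
    split_ifs <;> norm_num
  · have h4 := h3 v hkv hv
    rw [if_pos hvU] at h4
    exact h4

end DistL

open DistL in
theorem dist (hF : S_FRAC) : S_DIST := by
  classical
  intro n k m t N _ M hM ht hkN U A hA
  have hk := hM.kpos
  have hn := hM.size
  have key : ∀ z : ZMod n, ∃ w : Finset ℕ → ℝ, (∀ K, 0 ≤ w K) ∧
      (∀ K, w K ≠ 0 → (∀ x ∈ K, ∀ y ∈ K, x ≤ y + k) ∧
        IsCl n k M t (K.image fun i : ℕ => z + (i : ZMod n)) ∧
        (K.image fun i : ℕ => z + (i : ZMod n)) ⊆ U) ∧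
      (∀ v < N, ∑ K ∈ (range N).powerset, (if v ∈ K then w K else 0) ≤ 1) ∧
      (z ∈ A → ∀ v, k ≤ v → v < N → z + (v : ZMod n) ∈ U →
        ∑ K ∈ (range N).powerset, (if v ∈ K then w K else 0) = 1) := by
    intro z
    by_cases hz : z ∈ A
    · obtain ⟨w, h1, h2, h3, h4⟩ := one hF n k m t N M hM ht U z (hA z hz)
      exact ⟨w, h1, h2, h3, fun _ => h4⟩
    · exact ⟨fun _ => 0, fun _ => le_rfl, fun K hK => absurd rfl hK, fun v _ => by simp,
        fun h => absurd h hz⟩
  choose w hw0 hw1 hw2 hw3 using key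
  have hN0 : (0 : ℝ) < N := by
    have : 0 < N := by omega
    exact_mod_cast this
  obtain ⟨W, hW⟩ : ∃ W : Finset (ZMod n) → ℝ, ∀ K, W K = (1 / (N : ℝ)) * ∑ z ∈ A,
      ∑ L ∈ (range N).powerset, if L.image (fun i : ℕ => z + (i : ZMod n)) = K then w z L else 0 :=
    ⟨_, fun K => rfl⟩
  have hterm : ∀ (z : ZMod n) (K : Finset (ZMod n)) (L : Finset ℕ),
      0 ≤ if L.image (fun i : ℕ => z + (i : ZMod n)) = K then w z L else 0 := by
    intro z K L
    split_ifs
    · exact hw0 z L
    · exact le_rfl
  -- the weight of the vertex v in the segment starting at z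
  have hseg : ∀ (z v : ZMod n), ∑ L ∈ (range N).powerset,
      (if v ∈ L.image (fun i : ℕ => z + (i : ZMod n)) then w z L else 0) =
      ∑ i ∈ range N, if z + (i : ZMod n) = v then
        (∑ L ∈ (range N).powerset, if i ∈ L then w z L else 0) else 0 := by
    intro z v
    have h1 : ∀ i : ℕ, (if z + (i : ZMod n) = v then
        (∑ L ∈ (range N).powerset, if i ∈ L then w z L else 0) else 0) =
        ∑ L ∈ (range N).powerset, if (z + (i : ZMod n) = v ∧ i ∈ L) then w z L else 0 := by
      intro i
      by_cases h : z + (i : ZMod n) = v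
      · simp [h]
      · simp [h]
    rw [Finset.sum_congr rfl fun i _ => h1 i, Finset.sum_comm]
    refine Finset.sum_congr rfl fun L hL => ?_
    by_cases hwL : w z L = 0
    · simp [hwL]
    obtain ⟨hord, -, -⟩ := hw1 z L hwL
    by_cases hv : v ∈ L.image (fun i : ℕ => z + (i : ZMod n))
    · rw [if_pos hv]
      obtain ⟨i, hi, hiv⟩ := Finset.mem_image.1 hv
      rw [Finset.sum_eq_single i]
      · rw [if_pos ⟨hiv, hi⟩]
      · intro j _ hji
        rw [if_neg]
        rintro ⟨h2, h3⟩
        exact hji (inj hn z (by have := hord j h3 i hi; omega) (by have := hord i hi j h3; omega)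
          (h2.trans hiv.symm))
      · intro h
        exact absurd (Finset.mem_powerset.1 hL hi) h
    · rw [if_neg hv]
      refine (Finset.sum_eq_zero fun i _ => ?_).symm
      rw [if_neg]
      rintro ⟨h2, h3⟩
      exact hv (Finset.mem_image.2 ⟨i, h3, h2⟩)
  have htot : ∀ v, ∑ K, (if v ∈ K then W K else 0) = (1 / (N : ℝ)) * ∑ z ∈ A,
      ∑ i ∈ range N, if z + (i : ZMod n) = v then
        (∑ L ∈ (range N).powerset, if i ∈ L then w z L else 0) else 0 := by
    intro v
    have h1 : ∀ K : Finset (ZMod n), (if v ∈ K then W K else 0) = (1 / (N : ℝ)) * ∑ z ∈ A,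
        ∑ L ∈ (range N).powerset, if L.image (fun i : ℕ => z + (i : ZMod n)) = K then
          (if v ∈ L.image (fun i : ℕ => z + (i : ZMod n)) then w z L else 0) else 0 := by
      intro K
      by_cases h : v ∈ K
      · rw [if_pos h, hW K]
        congr 1
        refine Finset.sum_congr rfl fun z _ => Finset.sum_congr rfl fun L _ => ?_
        by_cases hL : L.image (fun i : ℕ => z + (i : ZMod n)) = K
        · rw [if_pos hL, if_pos hL, if_pos (by rw [hL]; exact h)]
        · rw [if_neg hL, if_neg hL]
      · rw [if_neg h]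
        symm
        rw [mul_eq_zero]
        right
        refine Finset.sum_eq_zero fun z _ => Finset.sum_eq_zero fun L _ => ?_
        by_cases hL : L.image (fun i : ℕ => z + (i : ZMod n)) = K
        · rw [if_pos hL, if_neg (by rw [hL]; exact h)]
        · rw [if_neg hL]
    rw [Finset.sum_congr rfl fun K _ => h1 K, ← Finset.mul_sum, Finset.sum_comm]
    congr 1
    refine Finset.sum_congr rfl fun z _ => ?_
    rw [Finset.sum_comm, ← hseg z v]
    refine Finset.sum_congr rfl fun L _ => ?_
    rw [Finset.sum_ite_eq, if_pos (Finset.mem_univ _)]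
  have hswap : ∀ (v : ZMod n) (g : ZMod n → ℕ → ℝ) (I : Finset ℕ),
      ∑ z ∈ A, ∑ i ∈ I, (if z + (i : ZMod n) = v then g z i else 0) =
      ∑ i ∈ I.filter (fun i : ℕ => v - (i : ZMod n) ∈ A), g (v - (i : ZMod n)) i := by
    intro v g I
    rw [Finset.sum_comm, Finset.sum_filter]
    refine Finset.sum_congr rfl fun i _ => ?_
    have h1 : ∀ z : ZMod n, (if z + (i : ZMod n) = v then g z i else 0) =
        if z = v - (i : ZMod n) then g z i else 0 := by
      intro z
      by_cases h : z = v - (i : ZMod n)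
      · rw [if_pos h, if_pos (by rw [h]; ring)]
      · rw [if_neg h, if_neg (fun h2 => h (by rw [← h2]; ring))]
    rw [Finset.sum_congr rfl fun z _ => h1 z, Finset.sum_ite_eq']
  refine ⟨W, fun K => ?_, fun K hK => ?_, fun v hv => ?_⟩
  · rw [hW]
    exact mul_nonneg (by positivity) (Finset.sum_nonneg fun z _ => Finset.sum_nonneg fun L _ =>
      hterm z K L)
  · have h1 : ∃ z ∈ A, ∃ L ∈ (range N).powerset,
        (if L.image (fun i : ℕ => z + (i : ZMod n)) = K then w z L else 0) ≠ 0 := by
      by_contra hcon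
      push Not at hcon
      apply hK
      rw [hW, Finset.sum_eq_zero fun z hz => Finset.sum_eq_zero fun L hL => hcon z hz L hL, mul_zero]
    obtain ⟨z, hz, L, hL, h2⟩ := h1
    have h3 : L.image (fun i : ℕ => z + (i : ZMod n)) = K := by
      by_contra h
      exact h2 (if_neg h)
    rw [if_pos h3] at h2
    obtain ⟨-, h4, h5⟩ := hw1 z L h2
    rw [h3] at h4 h5
    exact ⟨h4, h5⟩
  · rw [htot v]
    have hsplit : ∀ z : ZMod n, (∑ i ∈ range N, if z + (i : ZMod n) = v then
        (∑ L ∈ (range N).powerset, if i ∈ L then w z L else 0) else 0) =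
        (∑ i ∈ range k, if z + (i : ZMod n) = v then
          (∑ L ∈ (range N).powerset, if i ∈ L then w z L else 0) else 0) +
        ∑ i ∈ Ico k N, if z + (i : ZMod n) = v then
          (∑ L ∈ (range N).powerset, if i ∈ L then w z L else 0) else 0 := by
      intro z
      rw [Finset.sum_range_add_sum_Ico _ hkN]
    rw [Finset.sum_congr rfl fun z _ => hsplit z, Finset.sum_add_distrib, hswap v _ (range k),
      hswap v _ (Ico k N)]
    have hI : ∑ i ∈ (Ico k N).filter (fun i : ℕ => v - (i : ZMod n) ∈ A),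
        (∑ L ∈ (range N).powerset, if i ∈ L then w (v - (i : ZMod n)) L else 0) =
        (((Ico k N).filter (fun i : ℕ => v - (i : ZMod n) ∈ A)).card : ℝ) := by
      rw [Finset.card_eq_sum_ones, Nat.cast_sum]
      refine Finset.sum_congr rfl fun i hi => ?_
      rw [Finset.mem_filter, Finset.mem_Ico] at hi
      rw [hw3 _ hi.2 i hi.1.1 hi.1.2 (by
        rw [sub_add_cancel]
        exact hv)]
      simp
    have hE : ∑ i ∈ (range k).filter (fun i : ℕ => v - (i : ZMod n) ∈ A),
        (∑ L ∈ (range N).powerset, if i ∈ L then w (v - (i : ZMod n)) L else 0) ≤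
        (((range k).filter (fun i : ℕ => v - (i : ZMod n) ∈ A)).card : ℝ) := by
      rw [Finset.card_eq_sum_ones, Nat.cast_sum]
      refine Finset.sum_le_sum fun i hi => ?_
      rw [Finset.mem_filter, Finset.mem_range] at hi
      simpa using hw2 (v - (i : ZMod n)) i (by omega)
    have hE0 : 0 ≤ ∑ i ∈ (range k).filter (fun i : ℕ => v - (i : ZMod n) ∈ A),
        (∑ L ∈ (range N).powerset, if i ∈ L then w (v - (i : ZMod n)) L else 0) :=
      Finset.sum_nonneg fun i _ => Finset.sum_nonneg fun L _ => by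
        split_ifs
        · exact hw0 _ L
        · exact le_rfl
    rw [hI]
    unfold rate err
    have hN1 : (0 : ℝ) ≤ 1 / (N : ℝ) := by positivity
    generalize (∑ i ∈ (range k).filter (fun i : ℕ => v - (i : ZMod n) ∈ A),
        (∑ L ∈ (range N).powerset, if i ∈ L then w (v - (i : ZMod n)) L else 0)) = X at hE hE0
    generalize (((Ico k N).filter (fun i : ℕ => v - (i : ZMod n) ∈ A)).card : ℝ) = R
    generalize (((range k).filter (fun i : ℕ => v - (i : ZMod n) ∈ A)).card : ℝ) = Y at hE
    constructor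
    · calc R / N = 1 / (N : ℝ) * R := by ring
        _ ≤ _ := mul_le_mul_of_nonneg_left (by linarith) hN1
    · calc 1 / (N : ℝ) * (X + R) ≤ 1 / (N : ℝ) * (R + Y) :=
            mul_le_mul_of_nonneg_left (by linarith) hN1
        _ = R / N + Y / N := by ring

end Pool.Agent.Helper83K9.CF
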