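import Pool.Agent.Helper83K9.CF.Stm

/-!
Clique factors in dense subgraphs of powers of cycles: the upper bound from the hosts.
-/

set_option autoImplicit false

namespace Pool.Agent.Helper83K9.CF

open Finset

namespace RedL

/-- upper bounds for the degree of `C_n^k` -/
lemma deg_le {n k : ℕ} [NeZero n] (x : ZMod n) :
    deg (cyc n k) x ≤ 2 * min k ((n - 1) / 2) + 1 := by
  classical
  have h1 : deg (cyc n k) x ≤ 2 * k := by
    have hcard : ((Icc (-(k : ℤ)) k).erase 0).card = 2 * k := by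
      rw [card_erase_of_mem (by rw [mem_Icc]; omega), Int.card_Icc]
      omega
    rw [← hcard]
    refine le_trans ?_ (card_image_le (s := (Icc (-(k : ℤ)) k).erase 0)
      (f := fun i : ℤ => x + (i : ZMod n)))
    rw [← Set.ncard_coe_finset]
    unfold deg
    apply Set.ncard_le_ncard _ (Set.toFinite _)
    intro y hy
    rw [mem_coe, mem_image]
    obtain ⟨_, d, h1, h2, h3 | h3⟩ := hy
    · refine ⟨d, ?_, ?_⟩
      · rw [mem_erase, mem_Icc]
        omega
      · push_cast
        rw [← h3]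
        ring
    · refine ⟨-d, ?_, ?_⟩
      · rw [mem_erase, mem_Icc]
        omega
      · push_cast
        rw [← h3]
        ring
  have h2 : deg (cyc n k) x ≤ n - 1 := by
    have hcard : ((univ : Finset (ZMod n)).erase x).card = n - 1 := by
      rw [card_erase_of_mem (mem_univ _), card_univ, ZMod.card]
    rw [← hcard, ← Set.ncard_coe_finset]
    unfold deg
    apply Set.ncard_le_ncard _ (Set.toFinite _)
    intro y hy
    rw [mem_coe, mem_erase]
    exact ⟨fun h => hy.1 h.symm, mem_univ _⟩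
  omega

end RedL

open RedL in
/-- the leaf RED -/
theorem red : S_RED := by
  classical
  intro hup t α ht hα
  obtain ⟨s, rfl⟩ : ∃ s, t = s + 3 := ⟨t - 3, by omega⟩
  push_cast at hα
  have es : (s : ℝ) + 3 - 1 = s + 2 := by ring
  rw [es] at hα
  have hs2 : (0 : ℝ) < 2 * (s + 2) := by positivity
  have hs4 : 1 / (2 * ((s : ℝ) + 2)) ≤ 1 / 4 := by
    apply one_div_le_one_div_of_le (by norm_num)
    have : (0 : ℝ) ≤ s := Nat.cast_nonneg _
    linarith
  refine ⟨by linarith, ?_⟩
  obtain ⟨β, hβ⟩ : ∃ β : ℝ, β = max (1 - α) 0 := ⟨_, rfl⟩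
  have hβ0 : 0 ≤ β := by rw [hβ]; exact le_max_right _ _
  have hβα : 1 - α ≤ β := by rw [hβ]; exact le_max_left _ _
  have hβ1 : β < 1 / (2 * (s + 2)) := by
    rw [hβ]
    exact max_lt (by linarith) (by positivity)
  obtain ⟨ε, hε⟩ : ∃ ε : ℝ, ε = (1 - 2 * (s + 2) * β) / 2 := ⟨_, rfl⟩
  have hε0 : 0 < ε := by
    rw [lt_div_iff₀ hs2] at hβ1
    rw [hε]
    linarith
  have hε1 : ε ≤ 1 := by
    rw [hε]
    have : 0 ≤ 2 * ((s : ℝ) + 2) * β := by positivity
    linarith
  obtain ⟨k₁, hk₁⟩ := hup (s + 3) ε (by omega) hε0 hε1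
  obtain ⟨k₂, hk₂⟩ := exists_nat_ge ((s + 2) * (1 + β) / ε)
  refine ⟨2 * (k₁ + k₂ + 1) + 1, fun k n hk hkk hkn htn H hH => ?_⟩
  have : NeZero n := ⟨by omega⟩
  obtain ⟨k', hk'⟩ : ∃ k' : ℕ, k' = min k ((n - 1) / 2) := ⟨_, rfl⟩
  have hk1 : k₁ + k₂ + 1 ≤ k' := by omega
  have hk'n : 2 * k' + 1 ≤ n := by omega
  have hk'k : k' ≤ k := by omega
  obtain ⟨m, hm⟩ : ∃ m : ℕ, m = ⌊β * (2 * k' + 1)⌋₊ := ⟨_, rfl⟩
  obtain ⟨M, hM⟩ : ∃ M : ZMod n → Finset (ZMod n), M = fun x =>
    univ.filter (fun y => Near n k' x y ∧ ¬ H.Adj x y) := ⟨_, rfl⟩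
  have hmem : ∀ x y, y ∈ M x ↔ Near n k' x y ∧ ¬ H.Adj x y := by
    intro x y
    rw [hM]
    simp
  have hhost : Host n k' m M := by
    refine ⟨by omega, hk'n, ?_, ?_, ?_, ?_⟩
    · intro x
      rw [hmem]
      exact ⟨⟨0, by simp, by simp⟩, H.loopless.irrefl x⟩
    · intro x y h
      rw [hmem] at h ⊢
      obtain ⟨⟨i, hi, hy⟩, h2⟩ := h
      refine ⟨⟨-i, by rwa [abs_neg], ?_⟩, fun h3 => h2 h3.symm⟩
      rw [hy]
      push_cast
      ring
    · intro x y h
      rw [hmem] at h
      exact h.1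
    · intro x
      have h1 : ((M x).erase x : Set (ZMod n)) ⊆ (cyc n k).neighborSet x \ H.neighborSet x := by
        intro y hy
        rw [mem_coe, mem_erase, hmem] at hy
        obtain ⟨hne, ⟨i, hi, hyi⟩, hnadj⟩ := hy
        refine ⟨⟨fun h => hne h.symm, i.natAbs, ?_, ?_, ?_⟩, hnadj⟩
        · apply Int.natAbs_pos.2
          rintro rfl
          apply hne
          rw [hyi]
          simp
        · have : (i.natAbs : ℤ) ≤ k' := by rw [Int.natCast_natAbs]; exact hi
          omega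
        · have e1 : ((i.natAbs : ℕ) : ZMod n) = ((i.natAbs : ℤ) : ZMod n) :=
            (Int.cast_natCast i.natAbs).symm
          rcases le_total 0 i with h3 | h3
          · left
            rw [e1, Int.natCast_natAbs, abs_of_nonneg h3, hyi]
            ring
          · right
            rw [e1, Int.natCast_natAbs, abs_of_nonpos h3, hyi]
            push_cast
            ring
      have h2 : H.neighborSet x ⊆ (cyc n k).neighborSet x := fun y hy => hH.1 hy
      have h3 : ((M x).erase x).card ≤ deg (cyc n k) x - deg H x := by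
        rw [← Set.ncard_coe_finset]
        refine (Set.ncard_le_ncard h1 (Set.toFinite _)).trans (le_of_eq ?_)
        rw [Set.ncard_sdiff h2 (Set.toFinite _)]
        rfl
      have h4 : deg H x ≤ deg (cyc n k) x := Set.ncard_le_ncard h2 (Set.toFinite _)
      have h5 : (((M x).erase x).card : ℝ) ≤ β * (2 * k' + 1) := by
        have h6 : (((M x).erase x).card : ℝ) ≤ deg (cyc n k) x - deg H x := by
          have : (((M x).erase x).card : ℝ) ≤ ((deg (cyc n k) x - deg H x : ℕ) : ℝ) := by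
            exact_mod_cast h3
          rwa [Nat.cast_sub h4] at this
        have h7 := hH.2 x
        have h8 : (deg (cyc n k) x : ℝ) ≤ 2 * k' + 1 := by
          rw [hk']
          exact_mod_cast deg_le x
        have h9 : (0 : ℝ) ≤ deg (cyc n k) x := Nat.cast_nonneg _
        calc (((M x).erase x).card : ℝ) ≤ deg (cyc n k) x - deg H x := h6
          _ ≤ (1 - α) * deg (cyc n k) x := by linarith
          _ ≤ β * deg (cyc n k) x := mul_le_mul_of_nonneg_right hβα h9
          _ ≤ β * (2 * k' + 1) := mul_le_mul_of_nonneg_left h8 hβ0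
      have h6 : ((M x).erase x).card ≤ m := by
        rw [hm]
        exact Nat.le_floor h5
      have h7 : (M x).card - 1 ≤ ((M x).erase x).card := pred_card_le_card_erase
      omega
  have hineq : (((s + 3 : ℕ) : ℝ) - 1) * ((m : ℝ) + 1) ≤ (1 - ε) * k' := by
    push_cast
    rw [es]
    have h1 : (m : ℝ) ≤ β * (2 * k' + 1) := by
      rw [hm]
      exact Nat.floor_le (by positivity)
    have h2 : (s + 2) * (1 + β) ≤ ε * k' := by
      have h3 : (k₂ : ℝ) ≤ k' := by exact_mod_cast (by omega : k₂ ≤ k')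
      have h4 := hk₂.trans h3
      rw [div_le_iff₀ hε0] at h4
      linarith
    have h3 : ((s : ℝ) + 2) * (m + 1) ≤ (s + 2) * (β * (2 * k' + 1) + 1) :=
      mul_le_mul_of_nonneg_left (by linarith) (by positivity)
    have h4 : ((s : ℝ) + 2) * (β * (2 * k' + 1) + 1) = 2 * (s + 2) * β * k' + (s + 2) * (1 + β) := by
      ring
    have h5 : 2 * ((s : ℝ) + 2) * β = 1 - 2 * ε := by rw [hε]; ring
    rw [h4, h5] at h3
    linarith
  obtain ⟨F, hF1, hF2, hF3⟩ := hk₁ n k' m M hhost (by omega) hineq htn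
  refine ⟨(F : Set (Finset (ZMod n))), ?_, ?_, ?_⟩
  · intro K hK
    have hcl := hF1 K hK
    rw [SimpleGraph.isNClique_iff]
    refine ⟨?_, hcl.1⟩
    intro x hx y hy hne
    obtain ⟨h1, h2⟩ := hcl.2 x hx y hy hne
    rw [hmem] at h2
    by_contra h3
    exact h2 ⟨h1, h3⟩
  · intro K hK L hL hne v hv hv'
    exact disjoint_left.1 (hF2 K hK L hL hne) hv hv'
  · intro v
    have : v ∈ F.biUnion id := by rw [hF3]; exact mem_univ _
    rw [mem_biUnion] at this
    obtain ⟨K, hK, hv⟩ := this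
    exact ⟨K, hK, hv⟩

end Pool.Agent.Helper83K9.CF
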