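import Pool.Agent.Helper83K9.CF.Base

/-!
Clique factors in dense subgraphs of powers of cycles: assembly.
-/

set_option autoImplicit false

namespace Pool.Agent.Helper83K9.CF

open Finset

theorem up (hA : S_ALM) (hB : S_ABS) : S_UP := by
  classical
  intro t ε ht hε hε1
  obtain ⟨γ, hγ, h1⟩ := hA t ε ht hε hε1
  obtain ⟨δ, k₁, hδ, h2⟩ := hB t ε γ ht hε hε1 hγ
  obtain ⟨k₂, h3⟩ := h1 δ hδ
  refine ⟨max k₁ k₂, fun n k m _ M hM hk hm htn => ?_⟩
  obtain ⟨B, hB1, hB2⟩ := h2 n k m M hM ((le_max_left _ _).trans hk) hm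
  obtain ⟨F, hF1, hF2, hF3⟩ := h3 n k m M hM ((le_max_right _ _).trans hk) hm B hB1
  have hT : Tile n k M t (F.biUnion id) := ⟨F, fun K hK => (hF1 K hK).1, hF2, rfl⟩
  have hd : Disjoint (F.biUnion id) B := by
    rw [disjoint_biUnion_left]
    exact fun K hK => (hF1 K hK).2
  have e1 : B ∪ (B ∪ F.biUnion id)ᶜ = (F.biUnion id)ᶜ := by
    ext v
    have h4 : v ∈ B → v ∉ F.biUnion id := fun hv hv' => (Finset.disjoint_left.1 hd hv') hv
    simp only [mem_union, mem_compl]
    tauto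
  have h5 : t ∣ (B ∪ (B ∪ F.biUnion id)ᶜ).card := by
    rw [e1]
    have h6 : (F.biUnion id)ᶜ.card + (F.biUnion id).card = n := by
      rw [Finset.card_compl_add_card, ZMod.card]
    exact (Nat.dvd_add_left (tile_card hT)).1 (by rw [h6]; exact htn)
  have h7 := hB2 _ (by
    rw [Finset.disjoint_left]
    intro v hv hv'
    exact (mem_compl.1 hv) (mem_union_left _ hv')) hF3 h5
  rw [e1] at h7
  have h8 := tile_union h7 hT (by
    rw [Finset.disjoint_left]
    intro v hv hv'
    exact (mem_compl.1 hv) hv')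
  rwa [union_comm, Finset.union_compl] at h8

end Pool.Agent.Helper83K9.CF
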