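import Pool.Agent.Helper83K9.CF.Stm
import Pool.Agent.H575R2.Farkas

/-!
[FARKAS] Farkas' lemma (finite, real).
-/

namespace Pool.Agent.Helper83K9.CF

open Finset

theorem farkas : S_FARKAS := by
  classical
  intro V I _ _ a μ P h
  let J := I ⊕ {v : V // P v}
  let ℓ : J → ((V → ℝ) →ₗ[ℝ] ℝ) := Sum.elim
    (fun i => -∑ v, (a v i) • (LinearMap.proj v : (V → ℝ) →ₗ[ℝ] ℝ))
    (fun v => -(LinearMap.proj v.1 : (V → ℝ) →ₗ[ℝ] ℝ))
  let f : (V → ℝ) →ₗ[ℝ] ℝ := -∑ v, (μ v) • (LinearMap.proj v : (V → ℝ) →ₗ[ℝ] ℝ)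
  have hl1 : ∀ i s, ℓ (Sum.inl i) s = -∑ v, s v * a v i := by
    intro i s
    simp only [ℓ, Sum.elim_inl, LinearMap.neg_apply, LinearMap.sum_apply, LinearMap.smul_apply,
      LinearMap.proj_apply, smul_eq_mul]
    congr 1
    exact Finset.sum_congr rfl fun v _ => mul_comm _ _
  have hl2 : ∀ v s, ℓ (Sum.inr v) s = -s v.1 := by
    intro v s
    simp only [ℓ, Sum.elim_inr, LinearMap.neg_apply, LinearMap.proj_apply]
  have hf : ∀ s, f s = -∑ v, s v * μ v := by
    intro s
    simp only [f, LinearMap.neg_apply, LinearMap.sum_apply, LinearMap.smul_apply,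
      LinearMap.proj_apply, smul_eq_mul]
    congr 1
    exact Finset.sum_congr rfl fun v _ => mul_comm _ _
  let e := Fintype.equivFin J
  obtain ⟨w, hw, hfw⟩ := H575R2.farkas_lin (Fintype.card J) (fun j => ℓ (e.symm j)) f (by
    intro s hs
    have hs' : ∀ j, ℓ j s ≤ 0 := fun j => by simpa using hs (e j)
    rw [hf]
    have := h s (fun v hv => by
      have := hs' (Sum.inr ⟨v, hv⟩)
      rw [hl2] at this
      linarith) (fun i => by
      have := hs' (Sum.inl i)
      rw [hl1] at this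
      linarith)
    linarith)
  have hfw' : ∀ s, f s = ∑ i, w (e (Sum.inl i)) * ℓ (Sum.inl i) s +
      ∑ v, w (e (Sum.inr v)) * ℓ (Sum.inr v) s := by
    intro s
    rw [hfw s, ← Fintype.sum_sum_type (fun j => w (e j) * ℓ j s)]
    exact (Fintype.sum_equiv e _ _ (fun j => by simp)).symm
  have key : ∀ v, μ v = ∑ i, a v i * w (e (Sum.inl i)) +
      ∑ u : {v : V // P v}, (if u.1 = v then w (e (Sum.inr u)) else 0) := by
    intro v
    have h1 := hfw' (Pi.single v 1)
    rw [hf] at h1
    have h2 : ∑ u, (Pi.single v (1 : ℝ) : V → ℝ) u * μ u = μ v := by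
      rw [Finset.sum_eq_single v]
      · simp
      · intro b _ hb; simp [Pi.single_eq_of_ne hb]
      · simp
    have h3 : ∀ i, ℓ (Sum.inl i) (Pi.single v 1) = -a v i := by
      intro i
      rw [hl1, Finset.sum_eq_single v]
      · simp
      · intro b _ hb; simp [Pi.single_eq_of_ne hb]
      · simp
    have h4 : ∀ u : {v : V // P v}, w (e (Sum.inr u)) * ℓ (Sum.inr u) (Pi.single v 1) =
        -(if u.1 = v then w (e (Sum.inr u)) else 0) := by
      intro u
      rw [hl2]
      by_cases hu : u.1 = v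
      · rw [hu]; simp
      · rw [Pi.single_eq_of_ne hu]; simp [hu]
    rw [h2, Finset.sum_congr rfl fun u _ => h4 u, Finset.sum_neg_distrib] at h1
    have h5 : ∑ i, w (e (Sum.inl i)) * ℓ (Sum.inl i) (Pi.single v 1) =
        -∑ i, a v i * w (e (Sum.inl i)) := by
      rw [← Finset.sum_neg_distrib]
      exact Finset.sum_congr rfl fun i _ => by rw [h3]; ring
    rw [h5] at h1
    linarith
  refine ⟨fun i => w (e (Sum.inl i)), fun i => hw _, fun v => ⟨fun hv => ?_, fun hv => ?_⟩⟩
  · rw [key v]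
    have : 0 ≤ ∑ u : {v : V // P v}, (if u.1 = v then w (e (Sum.inr u)) else 0) :=
      Finset.sum_nonneg fun u _ => by
        split_ifs
        · exact hw _
        · exact le_refl _
    linarith
  · rw [key v]
    have : ∑ u : {v : V // P v}, (if u.1 = v then w (e (Sum.inr u)) else 0) = 0 := by
      refine Finset.sum_eq_zero fun u _ => ?_
      rw [if_neg]
      intro huv
      exact hv (huv ▸ u.2)
    rw [this, add_zero]

end Pool.Agent.Helper83K9.CF
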