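import Pool.Agent.Helper83K9.CF.Fam

/-!
Clique factors in powers of cycles: absorbing sets (`ABS`).
-/

set_option autoImplicit false

namespace Pool.Agent.Helper83K9.CF

open Finset

namespace AbsL

/-- increasing enumeration of a finite set of natural numbers -/
theorem exists_enum (V : Finset ℕ) : ∃ e : ℕ → ℕ, (∀ i < V.card, e i ∈ V) ∧
    (∀ i j, i < j → j < V.card → e i < e j) ∧ ∀ v ∈ V, ∃ i < V.card, e i = v := by
  classical
  refine ⟨fun i => if h : i < V.card then V.orderEmbOfFin rfl ⟨i, h⟩ else 0, ?_, ?_, ?_⟩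
  · intro i hi
    simp only [dif_pos hi]
    exact V.orderEmbOfFin_mem rfl _
  · intro i j hij hj
    simp only [dif_pos hj, dif_pos (hij.trans hj)]
    exact (V.orderEmbOfFin rfl).strictMono (by exact hij)
  · intro v hv
    have h1 : v ∈ Set.range (V.orderEmbOfFin rfl) := by
      rw [range_orderEmbOfFin]; exact hv
    obtain ⟨i, hi⟩ := h1
    refine ⟨i.1, i.2, ?_⟩
    simp only [dif_pos i.2]
    exact hi

/-- greedy choice of distinct representatives -/
theorem greedy_assign {ι α κ : Type} [DecidableEq ι] [DecidableEq α] [DecidableEq κ] [Nonempty α]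
    (T : ι → Finset α) (c : ι → κ) (hT : ∀ i i', c i ≠ c i' → Disjoint (T i) (T i'))
    (s : Finset ι) (h : ∀ i ∈ s, (s.filter fun i' => c i' = c i).card ≤ (T i).card) :
    ∃ f : ι → α, (∀ i ∈ s, f i ∈ T i) ∧ ∀ i ∈ s, ∀ j ∈ s, f i = f j → i = j := by
  induction s using Finset.induction_on with
  | empty => exact ⟨fun _ => Classical.arbitrary α, by simp, by simp⟩
  | insert a s ha ih =>
    obtain ⟨f, h1, h2⟩ := ih (fun i hi => le_trans (card_le_card (filter_subset_filter _
      (subset_insert a s))) (h i (mem_insert_of_mem hi)))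
    have h3 : ∃ y ∈ T a, y ∉ (s.filter fun i' => c i' = c a).image f := by
      by_contra hcon
      push Not at hcon
      have h4 : (T a).card ≤ ((s.filter fun i' => c i' = c a).image f).card := card_le_card hcon
      have h5 : ((s.filter fun i' => c i' = c a).image f).card ≤
        (s.filter fun i' => c i' = c a).card := card_image_le
      have h6 := h a (mem_insert_self a s)
      rw [filter_insert, if_pos rfl, card_insert_of_notMem (by simp [ha])] at h6
      omega
    obtain ⟨y, hy, hy'⟩ := h3
    have hne : ∀ i ∈ s, i ≠ a := fun i hi hh => ha (hh ▸ hi)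
    have hya : ∀ i ∈ s, f i ≠ y := by
      intro i hi hh
      by_cases hc : c i = c a
      · exact hy' (mem_image.2 ⟨i, mem_filter.2 ⟨hi, hc⟩, hh⟩)
      · exact disjoint_left.1 (hT i a hc) (h1 i hi) (hh ▸ hy)
    refine ⟨Function.update f a y, ?_, ?_⟩
    · intro i hi
      rw [mem_insert] at hi
      rcases hi with rfl | hi
      · rw [Function.update_self]; exact hy
      · rw [Function.update_of_ne (hne i hi)]; exact h1 i hi
    · intro i hi j hj hij
      rw [mem_insert] at hi hj
      rcases hi with rfl | hi <;> rcases hj with rfl | hj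
      · rfl
      · rw [Function.update_self, Function.update_of_ne (hne j hj)] at hij
        exact absurd hij.symm (hya j hj)
      · rw [Function.update_self, Function.update_of_ne (hne i hi)] at hij
        exact absurd hij (hya i hi)
      · rw [Function.update_of_ne (hne i hi), Function.update_of_ne (hne j hj)] at hij
        exact h2 i hi j hj hij

variable {n k m t : ℕ} {M : ZMod n → Finset (ZMod n)}

/-- the combinatorial core: absorbers `q` and disjoint sets `X s` with distinct absorbers -/
theorem tile_absorb {Q : Type} [DecidableEq Q] (I : Finset Q) (G : Q → Finset (ZMod n)) (r : ℕ)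
    (X : ℕ → Finset (ZMod n)) (f : ℕ → Q) (hI : ∀ q ∈ I, Tile n k M t (G q))
    (hG : ∀ q ∈ I, ∀ q' ∈ I, q ≠ q' → Disjoint (G q) (G q'))
    (hX : ∀ s < r, ∀ s' < r, s ≠ s' → Disjoint (X s) (X s'))
    (hGX : ∀ q ∈ I, ∀ s < r, Disjoint (G q) (X s)) (hf : ∀ s < r, f s ∈ I)
    (hinj : ∀ s < r, ∀ s' < r, f s = f s' → s = s')
    (hT : ∀ s < r, Tile n k M t (G (f s) ∪ X s)) :
    Tile n k M t (I.biUnion G ∪ (range r).biUnion X) := by
  have e : I.biUnion G ∪ (range r).biUnion X = I.biUnion fun q =>
      (G q ∪ ((range r).filter fun s => f s = q).biUnion X) := by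
    ext v
    simp only [mem_union, mem_biUnion, mem_filter, mem_range]
    constructor
    · rintro (⟨q, hq, hv⟩ | ⟨s, hs, hv⟩)
      · exact ⟨q, hq, Or.inl hv⟩
      · exact ⟨f s, hf s hs, Or.inr ⟨s, ⟨hs, rfl⟩, hv⟩⟩
    · rintro ⟨q, hq, hv | ⟨s, ⟨hs, _⟩, hv⟩⟩
      · exact Or.inl ⟨q, hq, hv⟩
      · exact Or.inr ⟨s, hs, hv⟩
  rw [e]
  apply tile_biUnion
  · intro q hq
    by_cases h1 : ∃ s, s < r ∧ f s = q
    · obtain ⟨s, hs, hsq⟩ := h1
      have h2 : ((range r).filter fun s => f s = q) = {s} := by
        ext s'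
        rw [mem_filter, mem_range, mem_singleton]
        constructor
        · rintro ⟨h3, h4⟩
          exact hinj s' h3 s hs (h4.trans hsq.symm)
        · rintro rfl
          exact ⟨hs, hsq⟩
      rw [h2, singleton_biUnion, ← hsq]
      exact hT s hs
    · have h2 : ((range r).filter fun s => f s = q) = ∅ := by
        rw [filter_eq_empty_iff]
        intro s hs hsq
        exact h1 ⟨s, mem_range.1 hs, hsq⟩
      rw [h2, biUnion_empty, union_empty]
      exact hI q hq
  · intro q hq q' hq' hqq
    rw [disjoint_left]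
    intro v hv hv'
    simp only [mem_union, mem_biUnion, mem_filter, mem_range] at hv hv'
    rcases hv with hv | ⟨s, ⟨hs, hsq⟩, hv⟩ <;> rcases hv' with hv' | ⟨s', ⟨hs', hsq'⟩, hv'⟩
    · exact disjoint_left.1 (hG q hq q' hq' hqq) hv hv'
    · exact disjoint_left.1 (hGX q hq s' hs') hv hv'
    · exact disjoint_left.1 (hGX q' hq' s hs) hv' hv
    · refine disjoint_left.1 (hX s hs s' hs' ?_) hv hv'
      rintro rfl
      exact hqq (hsq.symm.trans hsq')

end AbsL

theorem abs_ (hF : S_FAM) : S_ABS := by
  classical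
  intro t ε γ ht hε hε1 hγ
  obtain ⟨ρ, hρ, hρ1, hfam⟩ := hF t ε ht hε hε1
  obtain ⟨h, k₁, hh, hfam⟩ := hfam (min (γ / 2) (ρ / 4)) (lt_min (by positivity) (by positivity))
  have htR : (2 : ℝ) ≤ t := by exact_mod_cast ht
  obtain ⟨k₂, hk₂⟩ := exists_nat_ge (max (max (4 / ρ) (4 * t / ρ))
    (max (2 * (63 / ρ * t) / γ) (4 * (63 / ρ * t) / h)))
  refine ⟨h / 8, max k₁ k₂, by positivity, ?_⟩
  intro n k m _ M hH hk hs
  have hk1 : k₁ ≤ k := le_trans (le_max_left _ _) hk
  have hk2 : k₂ ≤ k := le_trans (le_max_right _ _) hk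
  have hkR := hk₂.trans (show (k₂ : ℝ) ≤ k by exact_mod_cast hk2)
  have hkA : 4 ≤ ρ * k := by
    have := (le_max_left _ _).trans ((le_max_left _ _).trans hkR)
    rw [div_le_iff₀ hρ] at this
    linarith
  have hkB : 4 * t ≤ ρ * k := by
    have := (le_max_right _ _).trans ((le_max_left _ _).trans hkR)
    rw [div_le_iff₀ hρ] at this
    linarith
  have hkC : 2 * (63 / ρ * t) ≤ γ * k := by
    have := (le_max_left _ _).trans ((le_max_right _ _).trans hkR)
    rw [div_le_iff₀ hγ] at this
    linarith
  have hkD : 4 * (63 / ρ * t) ≤ h * k := by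
    have := (le_max_right _ _).trans ((le_max_right _ _).trans hkR)
    rw [div_le_iff₀ hh] at this
    linarith
  have hn := hH.size
  have hkpos : (1 : ℝ) ≤ k := by exact_mod_cast hH.kpos
  -- the cell length
  obtain ⟨l, hl⟩ : ∃ l : ℕ, l = ⌊ρ * k⌋₊ := ⟨_, rfl⟩
  have hl1 : (l : ℝ) ≤ ρ * k := by rw [hl]; exact Nat.floor_le (by positivity)
  have hl2 : ρ / 2 * k ≤ l := by
    have := Nat.lt_floor_add_one (ρ * k)
    rw [← hl] at this
    linarith
  have hlk : l ≤ k := by
    have : (l : ℝ) ≤ k := by nlinarith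
    exact_mod_cast this
  have hlpos : 1 ≤ l := by
    have : (0 : ℝ) < l := by nlinarith
    exact_mod_cast this
  obtain ⟨𝓖, g1, g2, g3, g4, g5⟩ := hfam n k m l M hH hk1 hs hl2 hl1
  -- the absorbers
  obtain ⟨A0, hA0⟩ : ∃ A0, A0 = ((range (n + 2)).biUnion 𝓖).biUnion id := ⟨_, rfl⟩
  rw [← hA0] at g4
  have hcell : ∀ c : ℕ, (c + 1) * l ≤ n →
      ∃ S : Finset (ZMod n), S ⊆ win n l ((c * l : ℕ) : ZMod n) \ A0 ∧ S.card = t := by
    intro c hc
    apply exists_subset_card_eq
    have h1 : (win n l ((c * l : ℕ) : ZMod n)).card = l := card_win (by omega) _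
    have h2 : (A0 ∩ win n l ((c * l : ℕ) : ZMod n)).card ≤
        (A0 ∩ win n k ((c * l : ℕ) : ZMod n)).card :=
      card_le_card (inter_subset_inter_left (win_mono hlk _))
    have h3 := card_sdiff_add_card_inter (win n l ((c * l : ℕ) : ZMod n)) A0
    rw [inter_comm] at h3
    have h4 := g4 ((c * l : ℕ) : ZMod n)
    have h5 : min (γ / 2) (ρ / 4) ≤ ρ / 4 := min_le_right _ _
    have h6 : (t : ℝ) ≤ ((win n l ((c * l : ℕ) : ZMod n) \ A0).card : ℝ) := by
      have h7 : (l : ℝ) = ((win n l ((c * l : ℕ) : ZMod n) \ A0).card : ℝ) +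
          (A0 ∩ win n l ((c * l : ℕ) : ZMod n)).card := by
        rw [h1] at h3
        exact_mod_cast h3.symm
      have h8 : ((A0 ∩ win n l ((c * l : ℕ) : ZMod n)).card : ℝ) ≤
        (A0 ∩ win n k ((c * l : ℕ) : ZMod n)).card := by exact_mod_cast h2
      nlinarith
    exact_mod_cast h6
  obtain ⟨fill, hfill⟩ : ∃ fill : ℕ → Finset (ZMod n), (∀ c, (c + 1) * l ≤ n →
      fill c ⊆ win n l ((c * l : ℕ) : ZMod n) \ A0 ∧ (fill c).card = t) ∧
      ∀ c, n < (c + 1) * l → fill c = ∅ := by
    refine ⟨fun c => if hc : (c + 1) * l ≤ n then (hcell c hc).choose else ∅, ?_, ?_⟩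
    · intro c hc
      simp only [dif_pos hc]
      exact (hcell c hc).choose_spec
    · intro c hc
      simp only [dif_neg (show ¬ (c + 1) * l ≤ n by omega)]
  obtain ⟨Fill, hFill⟩ : ∃ Fill, Fill = (range (n + 2)).biUnion fill := ⟨_, rfl⟩
  have hFillA : Disjoint Fill A0 := by
    rw [hFill, disjoint_biUnion_left]
    intro c _
    by_cases hc : (c + 1) * l ≤ n
    · exact disjoint_of_subset_left (hfill.1 c hc).1 sdiff_disjoint
    · rw [hfill.2 c (by omega)]
      exact disjoint_empty_left _
  have hidx : ∀ z : ZMod n, ((FamL.idx n k l z).card : ℝ) ≤ 63 / ρ := by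
    intro z
    have h1 := FamL.card_idx (k := k) hlpos (show l < n by omega) z
    have h2 : ((FamL.idx n k l z).card : ℝ) * l ≤ 3 * (10 * k + l) := by exact_mod_cast h1
    rw [le_div_iff₀ hρ]
    have hlR : (0 : ℝ) < l := by exact_mod_cast hlpos
    have h3 : ((FamL.idx n k l z).card : ℝ) * l * ρ ≤ 63 * l := by
      have h4 : ((FamL.idx n k l z).card : ℝ) * l * ρ ≤ 3 * (10 * k + l) * ρ :=
        mul_le_mul_of_nonneg_right h2 hρ.le
      have h5 : (k : ℝ) * ρ ≤ 2 * l := by linarith
      have h6 : (l : ℝ) * ρ ≤ l * 1 := mul_le_mul_of_nonneg_left hρ1 hlR.le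
      nlinarith
    have h4 : ((FamL.idx n k l z).card : ℝ) * ρ * l ≤ 63 * l := by linarith
    exact le_of_mul_le_mul_right h4 hlR
  have hFillthin : Thin n k (63 / ρ * t) Fill := by
    have h1 := FamL.thin (n := n) (k := k) (l := l) hlpos (g := (t : ℝ)) (C := 63 / ρ)
      (by positivity) hidx (𝓖 := fun c => if (c + 1) * l ≤ n then {fill c} else ∅) ?_ ?_ ?_ (n + 2)
    · refine thin_mono h1 le_rfl ?_
      intro v hv
      rw [hFill, mem_biUnion] at hv
      obtain ⟨c, hc, hv⟩ := hv
      by_cases hcl : (c + 1) * l ≤ n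
      · rw [mem_biUnion]
        exact ⟨fill c, mem_biUnion.2 ⟨c, hc, by rw [if_pos hcl]; exact mem_singleton_self _⟩, hv⟩
      · rw [hfill.2 c (by omega)] at hv
        simp at hv
    · intro j _ G hG v hv
      by_cases hcl : (j + 1) * l ≤ n
      · simp only [if_pos hcl, mem_singleton] at hG
        subst hG
        obtain ⟨i, hi, rfl⟩ := mem_win.1 (mem_sdiff.1 ((hfill.1 j hcl).1 hv)).1
        exact ⟨4 * k + i, by omega, by push_cast; ring⟩
      · simp only [if_neg hcl] at hG
        simp at hG
    · intro j hj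
      rw [if_neg]
      have : (j + 1) * l = j * l + l := by ring
      omega
    · intro j
      by_cases hcl : (j + 1) * l ≤ n
      · simp only [if_pos hcl, singleton_biUnion, id]
        rw [(hfill.1 j hcl).2]
      · simp only [if_neg hcl, biUnion_empty, card_empty]
        exact_mod_cast Nat.zero_le t
  -- the absorbing set
  refine ⟨A0 ∪ Fill, ?_, ?_⟩
  · have h1 : Thin n k (min (γ / 2) (ρ / 4) * k) A0 := g4
    refine thin_mono (thin_union h1 hFillthin) ?_ subset_rfl
    have h5 : min (γ / 2) (ρ / 4) ≤ γ / 2 := min_le_left _ _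
    nlinarith
  · intro L hL hLthin hdvd
    rw [disjoint_union_right] at hL
    -- the index set of the absorbers
    obtain ⟨I, hI⟩ : ∃ I : Finset (ℕ × Finset (ZMod n)),
        ∀ q, q ∈ I ↔ q.1 < n + 2 ∧ q.2 ∈ 𝓖 q.1 := by
      refine ⟨(range (n + 2)).biUnion fun j => (𝓖 j).image (fun G => (j, G)), ?_⟩
      rintro ⟨j, G⟩
      simp only [mem_biUnion, mem_image, mem_range, Prod.mk.injEq]
      constructor
      · rintro ⟨j', hj', G', hG', rfl, rfl⟩
        exact ⟨hj', hG'⟩
      · rintro ⟨hj, hG⟩
        exact ⟨j, hj, G, hG, rfl, rfl⟩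
    have hA0I : A0 = I.biUnion Prod.snd := by
      rw [hA0]
      ext v
      simp only [mem_biUnion, mem_range, id]
      constructor
      · rintro ⟨G, ⟨j, hj, hG⟩, hv⟩
        exact ⟨(j, G), (hI _).2 ⟨hj, hG⟩, hv⟩
      · rintro ⟨q, hq, hv⟩
        exact ⟨q.2, ⟨q.1, (hI q).1 hq⟩, hv⟩
    have hItile : ∀ q ∈ I, Tile n k M t q.2 := by
      intro q hq
      have hq' := (hI q).1 hq
      have hjl : q.1 * l ≤ n + l := by
        by_contra hcon
        rw [g2 q.1 (by omega)] at hq'
        simp at hq'
      exact (g1 q.1 hjl q.2 hq'.2).1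
    have hIdisj : ∀ q ∈ I, ∀ q' ∈ I, q ≠ q' → Disjoint q.2 q'.2 := by
      intro q hq q' hq' hqq
      exact g3 q.1 q'.1 q.2 ((hI q).1 hq).2 q'.2 ((hI q').1 hq').2 hqq
    have hA0tile : Tile n k M t A0 := by
      rw [hA0I]
      exact tile_biUnion I Prod.snd hItile hIdisj
    -- the leftover
    obtain ⟨L', hL'⟩ : ∃ L', L' = L ∪ Fill := ⟨_, rfl⟩
    have hL'A : Disjoint A0 L' := by
      rw [hL', disjoint_union_right]
      exact ⟨hL.1.symm, hFillA.symm⟩
    have hunion : A0 ∪ Fill ∪ L = A0 ∪ L' := by
      rw [hL', union_assoc, union_comm Fill L]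
    have hdvd' : t ∣ L'.card := by
      rw [hunion, card_union_of_disjoint hL'A] at hdvd
      exact (Nat.dvd_add_right (tile_card hA0tile)).1 hdvd
    obtain ⟨r, hr⟩ := hdvd'
    have hL'thin : ∀ w : ZMod n, ((L' ∩ win n (2 * k) w).card : ℝ) ≤ h * k := by
      intro w
      have h1 : Thin n k (h / 8 * k + 63 / ρ * t) L' := by
        rw [hL']; exact thin_union hLthin hFillthin
      have h2 := thin_mul h1 2 w
      push_cast at h2
      nlinarith
    -- sorting
    obtain ⟨V, hV⟩ : ∃ V : Finset ℕ, V = L'.image ZMod.val := ⟨_, rfl⟩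
    have hVcard : V.card = t * r := by
      rw [hV, card_image_of_injective _ (ZMod.val_injective n), hr]
    have hVn : ∀ p ∈ V, p < n := by
      intro p hp
      rw [hV, mem_image] at hp
      obtain ⟨v, _, rfl⟩ := hp
      exact ZMod.val_lt v
    have hVL : ∀ p ∈ V, (p : ZMod n) ∈ L' := by
      intro p hp
      rw [hV, mem_image] at hp
      obtain ⟨v, hv, rfl⟩ := hp
      rwa [ZMod.natCast_zmod_val]
    obtain ⟨e, he1, he2, he3⟩ := AbsL.exists_enum V
    rw [hVcard] at he1 he2 he3
    have heinj : ∀ i < t * r, ∀ j < t * r, e i = e j → i = j := by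
      intro i hi j hj hij
      by_contra hne
      rcases lt_or_gt_of_ne hne with h1 | h1
      · have := he2 i j h1 hj; omega
      · have := he2 j i h1 hi; omega
    have hemono : ∀ i j, i ≤ j → j < t * r → e i ≤ e j := by
      intro i j hij hj
      rcases Nat.eq_or_lt_of_le hij with h1 | h1
      · rw [h1]
      · exact (he2 i j h1 hj).le
    -- every full cell contains t elements
    have hVcell : ∀ c, (c + 1) * l ≤ n → t ≤ (V.filter fun p => c * l ≤ p ∧ p < (c + 1) * l).card := by
      intro c hc
      have h1 : (fill c).image ZMod.val ⊆ V.filter fun p => c * l ≤ p ∧ p < (c + 1) * l := by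
        intro p hp
        rw [mem_image] at hp
        obtain ⟨v, hv, rfl⟩ := hp
        rw [mem_filter, hV]
        have hcn : c < n + 2 := by
          have : c * 1 ≤ c * l := Nat.mul_le_mul_left c hlpos
          have : (c + 1) * l = c * l + l := by ring
          omega
        refine ⟨mem_image_of_mem _ ?_, ?_⟩
        · rw [hL', hFill]
          exact mem_union_right _ (mem_biUnion.2 ⟨c, mem_range.2 hcn, hv⟩)
        · obtain ⟨i, hi, rfl⟩ := mem_win.1 (mem_sdiff.1 ((hfill.1 c hc).1 hv)).1
          have h2 : (c + 1) * l = c * l + l := by ring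
          have h3 : ((c * l : ℕ) : ZMod n) + (i : ZMod n) = ((c * l + i : ℕ) : ZMod n) := by
            push_cast; ring
          rw [h3, ZMod.val_natCast, Nat.mod_eq_of_lt (by omega)]
          omega
      calc t = ((fill c).image ZMod.val).card := by
            rw [card_image_of_injective _ (ZMod.val_injective n), (hfill.1 c hc).2]
        _ ≤ _ := card_le_card h1
    have hlast : ∀ s < r, ∀ i < t, e (t * s + i) < (e (t * s) / l + 2) * l := by
      intro s hs' i hi
      have hsr : t * s + t ≤ t * r := by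
        calc t * s + t = t * (s + 1) := by ring
          _ ≤ t * r := Nat.mul_le_mul_left t hs'
      by_contra hcon
      push Not at hcon
      obtain ⟨c, hc⟩ : ∃ c, c = e (t * s) / l := ⟨_, rfl⟩
      rw [← hc] at hcon
      have h1 : e (t * s + i) < n := hVn _ (he1 _ (by omega))
      have h2 : (c + 1 + 1) * l ≤ n := by
        have : (c + 1 + 1) * l = (c + 2) * l := by ring
        omega
      have h3 := hVcell (c + 1) h2
      have h4 : e (t * s) < (c + 1) * l := by
        rw [hc]
        have := Nat.lt_div_mul_add (a := e (t * s)) (b := l) (by omega)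
        have h5 : (e (t * s) / l + 1) * l = e (t * s) / l * l + l := by ring
        omega
      have h5 : (V.filter fun p => (c + 1) * l ≤ p ∧ p < (c + 1 + 1) * l) ⊆
          (Ioo (t * s) (t * s + i)).image e := by
        intro p hp
        rw [mem_filter] at hp
        obtain ⟨j, hj, rfl⟩ := he3 p hp.1
        refine mem_image_of_mem _ (mem_Ioo.2 ⟨?_, ?_⟩)
        · by_contra hh
          have := hemono j (t * s) (by omega) (by omega)
          omega
        · by_contra hh
          have := hemono (t * s + i) j (by omega) hj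
          have : (c + 1 + 1) * l = (c + 2) * l := by ring
          omega
      have h6 := (card_le_card h5).trans card_image_le
      rw [Nat.card_Ioo] at h6
      omega
    -- the target of the group s
    obtain ⟨J, hJ⟩ : ∃ J : ℕ → ℕ, ∀ s, J s = if (e (t * s) / l + 1) * l ≤ n then e (t * s) / l + 2
      else e (t * s) / l + 1 := ⟨fun s => _, fun s => rfl⟩
    have hJ1 : ∀ s < r, J s * l ≤ n + l ∧ ∀ i < t, e (t * s + i) < n ∧
        e (t * s + i) < J s * l ∧ J s * l ≤ e (t * s + i) + 2 * l := by
      intro s hs'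
      have hsr : t * s + t ≤ t * r := by
        calc t * s + t = t * (s + 1) := by ring
          _ ≤ t * r := Nat.mul_le_mul_left t hs'
      have h0 : e (t * s) < n := hVn _ (he1 _ (by omega))
      have h4 : e (t * s) / l * l ≤ e (t * s) := Nat.div_mul_le_self _ _
      have h6 : (e (t * s) / l + 1) * l = e (t * s) / l * l + l := by ring
      have h7 : (e (t * s) / l + 2) * l = e (t * s) / l * l + 2 * l := by ring
      have h5 : ∀ i < t, e (t * s + i) < n ∧ e (t * s) ≤ e (t * s + i) := fun i hi =>
        ⟨hVn _ (he1 _ (by omega)), hemono _ _ (by omega) (by omega)⟩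
      rw [hJ s]
      by_cases hc : (e (t * s) / l + 1) * l ≤ n
      · rw [if_pos hc]
        refine ⟨by omega, fun i hi => ?_⟩
        have := h5 i hi
        have := hlast s hs' i hi
        omega
      · rw [if_neg hc]
        refine ⟨by omega, fun i hi => ?_⟩
        have := h5 i hi
        omega
    -- the groups
    obtain ⟨x, hx⟩ : ∃ x : ℕ → Fin t → ZMod n, ∀ s i, x s i = ((e (t * s + i.1) : ℕ) : ZMod n) :=
      ⟨fun s i => _, fun s i => rfl⟩
    have hidx_lt : ∀ s < r, ∀ i : Fin t, t * s + i.1 < t * r := by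
      intro s hs' i
      have : t * (s + 1) ≤ t * r := Nat.mul_le_mul_left t hs'
      have := i.2
      have : t * (s + 1) = t * s + t := by ring
      omega
    have hxinj : ∀ s < r, ∀ s' < r, ∀ i j : Fin t, x s i = x s' j → s = s' ∧ i = j := by
      intro s hs1 s' hs2 i j hij
      rw [hx, hx, ZMod.natCast_eq_natCast_iff'] at hij
      rw [Nat.mod_eq_of_lt (hVn _ (he1 _ (hidx_lt s hs1 i))),
        Nat.mod_eq_of_lt (hVn _ (he1 _ (hidx_lt s' hs2 j)))] at hij
      have h1 := heinj _ (hidx_lt s hs1 i) _ (hidx_lt s' hs2 j) hij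
      have hi := i.2
      have hj := j.2
      have h2 : s = s' := by
        have h3 : (t * s + i.1) / t = s := by
          rw [Nat.mul_add_div (by omega), Nat.div_eq_of_lt hi, add_zero]
        have h4 : (t * s' + j.1) / t = s' := by
          rw [Nat.mul_add_div (by omega), Nat.div_eq_of_lt hj, add_zero]
        rw [← h3, ← h4, h1]
      subst h2
      exact ⟨rfl, Fin.ext (by omega)⟩
    have hxL : ∀ s < r, ∀ i, x s i ∈ L' := by
      intro s hs' i
      rw [hx]
      exact hVL _ (he1 _ (hidx_lt s hs' i))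
    -- the options
    have hopt : ∀ s, ∃ H : Finset (Finset (ZMod n)), s < r → (H ⊆ 𝓖 (J s) ∧ h * k ≤ H.card ∧
        ∀ G ∈ H, (∀ i, x s i ∉ G) → Tile n k M t (G ∪ univ.image (x s))) := by
      intro s
      by_cases hs' : s < r
      · obtain ⟨H, h1, h2, h3⟩ := g5 (J s) (x s) (hJ1 s hs').1
          (fun i j hij => (hxinj s hs' s hs' i j hij).2) (fun i => by
            have h4 := (hJ1 s hs').2 i.1 i.2
            exact ⟨e (t * s + i.1), h4.1, h4.2.1, h4.2.2, hx s i⟩)
        exact ⟨H, fun _ => ⟨h1, h2, h3⟩⟩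
      · exact ⟨∅, fun hh => absurd hh hs'⟩
    choose H hHopt using hopt
    -- the number of groups with the same target
    have hcount : ∀ s < r, (((range r).filter fun s' => J s' = J s).card : ℝ) ≤ h * k := by
      intro s hs'
      have h1 : ((range r).filter fun s' => J s' = J s).card ≤
          (L' ∩ win n (2 * k) ((J s * l - 2 * l : ℕ) : ZMod n)).card := by
        apply card_le_card_of_injOn (fun s' => x s' ⟨0, by omega⟩)
        · intro s' hs''
          rw [mem_coe, mem_filter, mem_range] at hs''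
          have h2 := (hJ1 s' hs''.1).2 0 (by omega)
          rw [hs''.2] at h2
          refine mem_inter.2 ⟨hxL s' hs''.1 _, mem_win.2 ⟨e (t * s' + 0) - (J s * l - 2 * l), ?_, ?_⟩⟩
          · omega
          · simp only [hx]
            have e1 : (J s * l - 2 * l) + (e (t * s' + 0) - (J s * l - 2 * l)) =
              e (t * s' + 0) := by omega
            rw [← Nat.cast_add, e1]
        · intro s1 h1 s2 h2 h12
          rw [mem_coe, mem_filter, mem_range] at h1 h2
          exact (hxinj s1 h1.1 s2 h2.1 _ _ h12).1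
      have h2 : (((range r).filter fun s' => J s' = J s).card : ℝ) ≤
          (L' ∩ win n (2 * k) ((J s * l - 2 * l : ℕ) : ZMod n)).card := by exact_mod_cast h1
      exact h2.trans (hL'thin _)
    -- distinct absorbers
    obtain ⟨f, hf1, hf2⟩ := AbsL.greedy_assign (fun s => (H s).image fun G => (J s, G)) J
      (by
        intro s s' hss
        rw [disjoint_left]
        intro q hq hq'
        obtain ⟨G, _, rfl⟩ := mem_image.1 hq
        obtain ⟨G', _, h1⟩ := mem_image.1 hq'
        exact hss (congrArg Prod.fst h1).symm) (range r) (by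
        intro s hs'
        rw [mem_range] at hs'
        rw [card_image_of_injective _ (fun G G' h1 => congrArg Prod.snd h1)]
        have h1 := (hcount s hs').trans (hHopt s hs').2.1
        exact_mod_cast h1)
    have hf3 : ∀ s < r, ∃ G ∈ H s, f s = (J s, G) := by
      intro s hs'
      obtain ⟨G, hG, h1⟩ := mem_image.1 (hf1 s (mem_range.2 hs'))
      exact ⟨G, hG, h1.symm⟩
    -- conclusion
    have hfin := AbsL.tile_absorb (n := n) (k := k) (M := M) (t := t) I Prod.snd r
      (fun s => univ.image (x s)) f hItile hIdisj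
      (by
        intro s hs1 s' hs2 hss
        rw [disjoint_left]
        intro v hv hv'
        obtain ⟨i, _, rfl⟩ := mem_image.1 hv
        obtain ⟨j, _, h1⟩ := mem_image.1 hv'
        exact hss (hxinj s' hs2 s hs1 j i h1).1.symm)
      (by
        intro q hq s hs'
        have h1 : q.2 ⊆ A0 := by
          rw [hA0I]
          exact subset_biUnion_of_mem Prod.snd hq
        refine hL'A.mono h1 ?_
        · intro v hv
          obtain ⟨i, _, rfl⟩ := mem_image.1 hv
          exact hxL s hs' i)
      (by
        intro s hs'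
        obtain ⟨G, hG, h1⟩ := hf3 s hs'
        rw [h1, hI]
        refine ⟨?_, (hHopt s hs').1 hG⟩
        by_contra hcon
        have h2 := (hJ1 s hs').1
        have h3 : (n + 2) * l ≤ J s * l := Nat.mul_le_mul_right l (by simpa using hcon)
        have h4 : n * 1 ≤ n * l := Nat.mul_le_mul_left n hlpos
        rw [add_mul] at h3
        omega)
      (fun s hs1 s' hs2 h1 => hf2 s (mem_range.2 hs1) s' (mem_range.2 hs2) h1)
      (by
        intro s hs'
        obtain ⟨G, hG, h1⟩ := hf3 s hs'
        rw [h1]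
        refine (hHopt s hs').2.2 G hG ?_
        intro i hi
        have h2 : x s i ∈ A0 := by
          rw [hA0I, mem_biUnion]
          refine ⟨(J s, G), ?_, hi⟩
          rw [hI]
          refine ⟨?_, (hHopt s hs').1 hG⟩
          by_contra hcon
          have h2 := (hJ1 s hs').1
          have h3 : (n + 2) * l ≤ J s * l := Nat.mul_le_mul_right l (by simpa using hcon)
          have h4 : n * 1 ≤ n * l := Nat.mul_le_mul_left n hlpos
          rw [add_mul] at h3
          omega
        exact disjoint_left.1 hL'A h2 (hxL s hs' i))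
    have hXL : (range r).biUnion (fun s => univ.image (x s)) = L' := by
      ext v
      simp only [mem_biUnion, mem_range, mem_image, mem_univ, true_and]
      constructor
      · rintro ⟨s, hs', i, rfl⟩
        exact hxL s hs' i
      · intro hv
        have h1 : v.val ∈ V := by rw [hV]; exact mem_image_of_mem _ hv
        obtain ⟨j, hj, hje⟩ := he3 _ h1
        refine ⟨j / t, ?_, ⟨j % t, Nat.mod_lt _ (by omega)⟩, ?_⟩
        · exact Nat.div_lt_of_lt_mul hj
        · rw [hx]
          have h2 : t * (j / t) + j % t = j := Nat.div_add_mod j t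
          simp only [h2, hje]
          exact ZMod.natCast_zmod_val v
    rw [hunion, hA0I, ← hXL]
    exact hfin

end Pool.Agent.Helper83K9.CF
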