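import Pool.Agent.Helper83K9.CF.Base

/-!
[BAL]: a pseudorandom remaining set satisfies the hypothesis of `S_DIST`.
-/

namespace Pool.Agent.Helper83K9.CF

open Finset

namespace BalL

variable {n : ℕ}

theorem slow_add {θ : ℝ} {D : ZMod n → ℝ} (h : Slow n θ D) (z : ZMod n) (j : ℕ) :
    D (z + (j : ZMod n)) ≤ Real.exp (j * θ) * D z ∧ D z ≤ Real.exp (j * θ) * D (z + (j : ZMod n)) := by
  induction j with
  | zero => simp
  | succ j ih =>
    have e : z + ((j + 1 : ℕ) : ZMod n) = z + (j : ZMod n) + 1 := by push_cast; ring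
    rw [e]
    have h1 := h (z + (j : ZMod n))
    have e2 : Real.exp (((j + 1 : ℕ) : ℝ) * θ) = Real.exp θ * Real.exp (j * θ) := by
      rw [← Real.exp_add]; congr 1; push_cast; ring
    rw [e2]
    constructor
    · calc D (z + (j : ZMod n) + 1) ≤ Real.exp θ * D (z + (j : ZMod n)) := h1.1
        _ ≤ Real.exp θ * (Real.exp (j * θ) * D z) :=
          mul_le_mul_of_nonneg_left ih.1 (Real.exp_pos _).le
        _ = _ := by ring
    · calc D z ≤ Real.exp (j * θ) * D (z + (j : ZMod n)) := ih.2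
        _ ≤ Real.exp (j * θ) * (Real.exp θ * D (z + (j : ZMod n) + 1)) :=
          mul_le_mul_of_nonneg_left h1.2 (Real.exp_pos _).le
        _ = _ := by ring

theorem slow_le {θ : ℝ} {D : ZMod n → ℝ} (h : Slow n θ D) (hD : ∀ v, 0 < D v) (hθ : 0 ≤ θ)
    (z : ZMod n) (a b c : ℕ) (h1 : a ≤ b + c) (h2 : b ≤ a + c) :
    D (z + (a : ZMod n)) ≤ Real.exp (c * θ) * D (z + (b : ZMod n)) := by
  have key : ∀ d : ℕ, d ≤ c → Real.exp ((d : ℝ) * θ) ≤ Real.exp (c * θ) := by
    intro d hd
    apply Real.exp_le_exp.2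
    apply mul_le_mul_of_nonneg_right _ hθ
    exact_mod_cast hd
  rcases le_total b a with hab | hab
  · have := (slow_add h (z + (b : ZMod n)) (a - b)).1
    have e : z + (b : ZMod n) + ((a - b : ℕ) : ZMod n) = z + (a : ZMod n) := by
      rw [Nat.cast_sub hab]; ring
    rw [e] at this
    exact this.trans (mul_le_mul_of_nonneg_right (key _ (by omega)) (hD _).le)
  · have := (slow_add h (z + (a : ZMod n)) (b - a)).2
    have e : z + (a : ZMod n) + ((b - a : ℕ) : ZMod n) = z + (b : ZMod n) := by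
      rw [Nat.cast_sub hab]; ring
    rw [e] at this
    exact this.trans (mul_le_mul_of_nonneg_right (key _ (by omega)) (hD _).le)

theorem card_le_Y {V : Type} [DecidableEq V] (S U : Finset V) (D : V → ℝ) (hD : ∀ v, 0 < D v)
    (c : ℝ) (h : ∀ v ∈ S, D v ≤ c) : ((S ∩ U).card : ℝ) ≤ c * Y S U D := by
  unfold Y
  rw [mul_sum, card_eq_sum_ones, Nat.cast_sum]
  apply sum_le_sum
  intro v hv
  rw [Nat.cast_one, ← div_eq_mul_inv, one_le_div (hD v)]
  exact h v (mem_inter.1 hv).1

theorem Y_le_card {V : Type} [DecidableEq V] (S U : Finset V) (D : V → ℝ) (hD : ∀ v, 0 < D v)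
    (c : ℝ) (h : ∀ v ∈ S, c ≤ D v) : c * Y S U D ≤ (S ∩ U).card := by
  unfold Y
  rw [mul_sum, card_eq_sum_ones, Nat.cast_sum]
  apply sum_le_sum
  intro v hv
  rw [Nat.cast_one, ← div_eq_mul_inv, div_le_one (hD v)]
  exact h v (mem_inter.1 hv).1

end BalL

theorem bal : S_BAL := by
  intro t ε ht hε hε1
  have htR : (2 : ℝ) ≤ t := by exact_mod_cast ht
  have ht0 : (0 : ℝ) < t := by linarith
  refine ⟨ε / (16 * t), by positivity, ?_, ?_⟩
  · rw [div_le_div_iff₀ (by positivity) (by norm_num)]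
    nlinarith
  intro n k m _ M hM hs U D θ hD hθ hθk hslow hSt y i hi
  set β : ℝ := ε / (16 * t) with hβ
  have hβ0 : 0 < β := by positivity
  have htβ : (t : ℝ) * β = ε / 16 := by rw [hβ]; field_simp
  have hβ32 : β ≤ ε / 32 := by nlinarith
  have hk0 : (0 : ℝ) < k := by exact_mod_cast hM.kpos
  have hm1 : (0 : ℝ) ≤ (m : ℝ) + 1 := by positivity
  -- comparison of D
  set E : ℝ := Real.exp (3 * β) with hE
  have hE1 : 1 ≤ E := Real.one_le_exp (by positivity)
  have hexp : ∀ c : ℕ, c ≤ 3 * k → Real.exp (c * θ) ≤ E := by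
    intro c hc
    apply Real.exp_le_exp.2
    have h1 : (c : ℝ) ≤ 3 * k := by exact_mod_cast hc
    nlinarith
  have hup : ∀ v ∈ M (y + (i : ZMod n)), D v ≤ E * D y := by
    intro v hv
    obtain ⟨j, hj, rfl⟩ := mem_win.1 (hM.subset _ hv)
    have h1 := BalL.slow_le hslow hD hθ (y - (k : ZMod n)) (i + j) k (3 * k) (by omega) (by omega)
    have e1 : y - (k : ZMod n) + ((i + j : ℕ) : ZMod n) =
        y + (i : ZMod n) - (k : ZMod n) + (j : ZMod n) := by push_cast; ring
    have e2 : y - (k : ZMod n) + (k : ZMod n) = y := by ring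
    rw [e1, e2] at h1
    exact h1.trans (mul_le_mul_of_nonneg_right (hexp _ le_rfl) (hD y).le)
  have hlo : ∀ v ∈ win n k y, E⁻¹ * D y ≤ D v := by
    intro v hv
    obtain ⟨j, hj, rfl⟩ := mem_win.1 hv
    have h1 := BalL.slow_le hslow hD hθ y 0 j (3 * k) (by omega) (by omega)
    rw [Nat.cast_zero, add_zero] at h1
    have h2 : D y ≤ E * D (y + (j : ZMod n)) :=
      h1.trans (mul_le_mul_of_nonneg_right (hexp _ le_rfl) (hD _).le)
    rw [inv_mul_le_iff₀ (by positivity)]
    exact h2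
  have hA := BalL.card_le_Y (M (y + (i : ZMod n))) U D hD _ hup
  have hB := BalL.Y_le_card (win n k y) U D hD _ hlo
  have hA2 : Y (M (y + (i : ZMod n))) U D ≤ (m + 1) + β * k := by
    refine (hSt.1 _).trans ?_
    have : ((M (y + (i : ZMod n))).card : ℝ) ≤ m + 1 := by exact_mod_cast hM.card _
    linarith
  have hB2 : (1 - β) * k ≤ Y (win n k y) U D := by
    have := (abs_le.1 (hSt.2 y)).1
    linarith
  have hDy := hD y
  -- final inequality
  have hexp6 : E * E ≤ 1 + 12 * β := by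
    rw [hE, ← Real.exp_add]
    have h6 : 3 * β + 3 * β = 6 * β := by ring
    rw [h6]
    have h61 : 6 * β ≤ 1 := by nlinarith
    have := Real.exp_bound_div_one_sub_of_interval' (x := 6 * β / 1) (by positivity) (by
      rw [div_one]; nlinarith)
    rw [div_one] at this
    refine this.le.trans ?_
    rw [div_le_iff₀ (by nlinarith)]
    nlinarith
  have hfin : ((t : ℝ) - 1) * ((m + 1) + β * k) * (E * E) ≤ (1 - β) * k := by
    have h1 : ((t : ℝ) - 1) * ((m + 1) + β * k) ≤ (1 - 15 / 16 * ε) * k := by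
      have h2 : ((t : ℝ) - 1) * (β * k) ≤ ε / 16 * k := by
        have : ((t : ℝ) - 1) * (β * k) ≤ t * β * k := by nlinarith [mul_pos hβ0 hk0]
        rw [htβ] at this
        exact this
      have h3 : ((t : ℝ) - 1) * ((m + 1) + β * k) =
        ((t : ℝ) - 1) * (m + 1) + ((t : ℝ) - 1) * (β * k) := by ring
      rw [h3]
      nlinarith
    have h4 : 0 ≤ ((t : ℝ) - 1) * ((m + 1) + β * k) := by
      have : (0 : ℝ) ≤ (t : ℝ) - 1 := by linarith
      positivity
    calc ((t : ℝ) - 1) * ((m + 1) + β * k) * (E * E)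
        ≤ ((1 - 15 / 16 * ε) * k) * (1 + 12 * β) := by
          apply mul_le_mul h1 hexp6 (by positivity)
          nlinarith
      _ ≤ (1 - β) * k := by
          have h5 : (1 - 15 / 16 * ε) * (1 + 12 * β) ≤ 1 - β := by nlinarith
          nlinarith
  have ht1 : (0 : ℝ) ≤ (t : ℝ) - 1 := by linarith
  calc ((t : ℝ) - 1) * (M (y + (i : ZMod n)) ∩ U).card
      ≤ ((t : ℝ) - 1) * (E * D y * Y (M (y + (i : ZMod n))) U D) :=
        mul_le_mul_of_nonneg_left hA ht1
    _ ≤ ((t : ℝ) - 1) * (E * D y * ((m + 1) + β * k)) := by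
        apply mul_le_mul_of_nonneg_left _ ht1
        exact mul_le_mul_of_nonneg_left hA2 (by positivity)
    _ = E⁻¹ * D y * (((t : ℝ) - 1) * ((m + 1) + β * k) * (E * E)) := by
        field_simp
    _ ≤ E⁻¹ * D y * ((1 - β) * k) := mul_le_mul_of_nonneg_left hfin (by positivity)
    _ ≤ E⁻¹ * D y * Y (win n k y) U D := mul_le_mul_of_nonneg_left hB2 (by positivity)
    _ ≤ _ := hB

end Pool.Agent.Helper83K9.CF
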