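import Pool.Agent.Helper83K9.CF.Conn

/-!
Clique factors in powers of cycles: completion of interfaces to absorbers (`COMP`).
-/

set_option autoImplicit false

namespace Pool.Agent.Helper83K9.CF

open Finset

namespace CompL

/-- choice of pairwise disjoint sets -/
theorem sel_fam {V : Type} [DecidableEq V] {t : ℕ} (P : Fin t → Finset V → Prop) (a c : ℕ)
    (C₀ : Finset V) (hc : C₀.card + t * a ≤ c)
    (h : ∀ i C, C₀ ⊆ C → C.card ≤ c → ∃ S : Finset V, S.card ≤ a ∧ Disjoint S C ∧ P i S) :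
    ∃ S : Fin t → Finset V, (∀ i, (S i).card ≤ a ∧ Disjoint (S i) C₀ ∧ P i (S i)) ∧
      ∀ i j, i ≠ j → Disjoint (S i) (S j) := by
  have key : ∀ s : Finset (Fin t), ∃ S : Fin t → Finset V,
      (∀ i ∈ s, (S i).card ≤ a ∧ Disjoint (S i) C₀ ∧ P i (S i)) ∧
      ∀ i ∈ s, ∀ j ∈ s, i ≠ j → Disjoint (S i) (S j) := by
    intro s
    induction s using Finset.induction_on with
    | empty => exact ⟨fun _ => ∅, by simp, by simp⟩
    | insert b s hb ih =>
      obtain ⟨S, h1, h2⟩ := ih
      have h3 : (C₀ ∪ s.biUnion S).card ≤ c := by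
        have h4 : (s.biUnion S).card ≤ s.card * a :=
          card_biUnion_le_card_mul _ _ _ fun i hi => (h1 i hi).1
        have h5 : s.card ≤ t := by
          have := card_le_univ s
          simpa using this
        have h6 : s.card * a ≤ t * a := Nat.mul_le_mul_right _ h5
        have := card_union_le C₀ (s.biUnion S)
        omega
      obtain ⟨T, h4, h5, h6⟩ := h b (C₀ ∪ s.biUnion S) subset_union_left h3
      rw [disjoint_union_right, disjoint_biUnion_right] at h5
      have hne : ∀ i ∈ s, i ≠ b := fun i hi h => hb (h ▸ hi)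
      refine ⟨Function.update S b T, ?_, ?_⟩
      · intro i hi
        rw [mem_insert] at hi
        rcases hi with rfl | hi
        · rw [Function.update_self]
          exact ⟨h4, h5.1, h6⟩
        · rw [Function.update_of_ne (hne i hi)]
          exact h1 i hi
      · intro i hi j hj hij
        rw [mem_insert] at hi hj
        rcases hi with rfl | hi <;> rcases hj with rfl | hj
        · exact absurd rfl hij
        · rw [Function.update_self, Function.update_of_ne (hne j hj)]
          exact h5.2 j hj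
        · rw [Function.update_self, Function.update_of_ne (hne i hi)]
          exact (h5.2 i hi).symm
        · rw [Function.update_of_ne (hne i hi), Function.update_of_ne (hne j hj)]
          exact h2 i hi j hj hij
  obtain ⟨S, h1, h2⟩ := key univ
  exact ⟨S, fun i => h1 i (mem_univ i), fun i j => h2 i (mem_univ i) j (mem_univ j)⟩

variable {n k t : ℕ} {M : ZMod n → Finset (ZMod n)}

theorem disj4 {V : Type} [DecidableEq V] {a b c d : V} {A B C D : Finset V} (h1 : a ≠ c)
    (h2 : a ∉ C) (h3 : a ≠ d) (h4 : a ∉ D) (h5 : c ∉ A) (h6 : Disjoint A C) (h7 : d ∉ A)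
    (h8 : Disjoint A D) (h9 : b ≠ c) (h10 : b ∉ C) (h11 : b ≠ d) (h12 : b ∉ D) (h13 : c ∉ B)
    (h14 : Disjoint B C) (h15 : d ∉ B) (h16 : Disjoint B D) :
    Disjoint (insert a A ∪ insert b B) (insert c C ∪ insert d D) := by
  rw [disjoint_union_left, disjoint_union_right, disjoint_union_right]
  simp only [disjoint_insert_left, disjoint_insert_right, mem_insert, not_or]
  exact ⟨⟨⟨⟨h1.symm, h5⟩, h2, h6⟩, ⟨h3.symm, h7⟩, h4, h8⟩,
    ⟨⟨h9.symm, h13⟩, h10, h14⟩, ⟨h11.symm, h15⟩, h12, h16⟩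

/-- the absorber -/
theorem absorber (g : Fin t → Fin (t - 1) → ZMod n) (u y : Fin t → ZMod n)
    (S : Fin t → Finset (ZMod n))
    (hgg : ∀ i j, i ≠ j → Disjoint (univ.image (g i)) (univ.image (g j)))
    (hug : ∀ i j, u i ∉ univ.image (g j)) (huu : ∀ i j, i ≠ j → u i ≠ u j)
    (hyg : ∀ i j, y i ∉ univ.image (g j)) (hyu : ∀ i j, y i ≠ u j)
    (hyy : ∀ i j, i ≠ j → y i ≠ y j) (hSg : ∀ i j, Disjoint (S i) (univ.image (g j)))
    (hSu : ∀ i j, u j ∉ S i) (hSy : ∀ i j, y j ∉ S i) (hSS : ∀ i j, i ≠ j → Disjoint (S i) (S j))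
    (hcg : ∀ i, IsCl n k M t (insert (u i) (univ.image (g i))))
    (hcy : IsCl n k M t (univ.image y)) (hS : ∀ i, Conn n k M t (u i) (y i) (S i)) :
    Absorber n k M t g (univ.biUnion fun i =>
      (insert (u i) (univ.image (g i)) ∪ insert (y i) (S i))) := by
  have hgS : ∀ i j, Disjoint (univ.image (g i)) (S j) := fun i j => (hSg j i).symm
  have hug' : ∀ i j a, g j a ≠ u i := fun i j a h =>
    hug i j (mem_image.2 ⟨a, mem_univ _, h⟩)
  have hyg' : ∀ i j a, g j a ≠ y i := fun i j a h =>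
    hyg i j (mem_image.2 ⟨a, mem_univ _, h⟩)
  refine ⟨?_, ?_⟩
  · apply tile_biUnion
    · intro i _
      refine tile_union (tile_of_isCl (hcg i)) (hS i).2.2.2 ?_
      rw [disjoint_insert_left, disjoint_insert_right, mem_insert, not_or]
      exact ⟨⟨fun h => hyu i i h.symm, hSu i i⟩, hyg i i, hgS i i⟩
    · intro i _ j _ hij
      exact disj4 (huu i j hij) (hug i j) (fun h => hyu j i h.symm) (hSu j i) (hug j i) (hgg i j hij)
        (hyg j i) (hgS i j) (hyu i j) (hyg i j) (hyy i j hij) (hSy j i) (hSu i j) (hSg i j)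
        (hSy i j) (hSS i j hij)
  · intro x hx hxG hxc
    have hxG' : ∀ i j, x i ≠ u j ∧ x i ∉ univ.image (g j) ∧ x i ≠ y j ∧ x i ∉ S j := by
      intro i j
      have h1 := hxG i
      rw [mem_biUnion] at h1
      push Not at h1
      have h2 := h1 j (mem_univ j)
      simp only [mem_union, mem_insert, not_or] at h2
      exact ⟨h2.1.1, h2.1.2, h2.2.1, h2.2.2⟩
    have e : (univ.biUnion fun i => (insert (u i) (univ.image (g i)) ∪ insert (y i) (S i))) ∪
        univ.image x = (univ.biUnion fun i =>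
          (insert (x i) (univ.image (g i)) ∪ insert (u i) (S i))) ∪ univ.image y := by
      ext w
      simp only [mem_union, mem_biUnion, mem_univ, true_and, mem_insert, mem_image]
      constructor
      · rintro (⟨i, (h | h) | (h | h)⟩ | ⟨i, h⟩)
        · exact Or.inl ⟨i, Or.inr (Or.inl h)⟩
        · exact Or.inl ⟨i, Or.inl (Or.inr h)⟩
        · exact Or.inr ⟨i, h.symm⟩
        · exact Or.inl ⟨i, Or.inr (Or.inr h)⟩
        · exact Or.inl ⟨i, Or.inl (Or.inl h.symm)⟩
      · rintro (⟨i, (h | h) | (h | h)⟩ | ⟨i, h⟩)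
        · exact Or.inr ⟨i, h.symm⟩
        · exact Or.inl ⟨i, Or.inl (Or.inr h)⟩
        · exact Or.inl ⟨i, Or.inl (Or.inl h)⟩
        · exact Or.inl ⟨i, Or.inr (Or.inr h)⟩
        · exact Or.inl ⟨i, Or.inr (Or.inl h.symm)⟩
    rw [e]
    refine tile_union ?_ (tile_of_isCl hcy) ?_
    · apply tile_biUnion
      · intro i _
        refine tile_union (tile_of_isCl (hxc i)) (hS i).2.2.1 ?_
        rw [disjoint_insert_left, disjoint_insert_right, mem_insert, not_or]
        exact ⟨⟨(hxG' i i).1, (hxG' i i).2.2.2⟩, hug i i, hgS i i⟩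
      · intro i _ j _ hij
        exact disj4 (fun h => hij (hx h)) (hxG' i j).2.1 (hxG' i j).1 (hxG' i j).2.2.2
          (hxG' j i).2.1 (hgg i j hij) (hug j i) (hgS i j) (fun h => (hxG' j i).1 h.symm) (hug i j)
          (huu i j hij) (hSu j i) (hxG' j i).2.2.2 (hSg i j) (hSu i j) (hSS i j hij)
    · rw [disjoint_biUnion_left]
      intro i _
      rw [disjoint_left]
      intro w hw hw'
      obtain ⟨j, _, rfl⟩ := mem_image.1 hw'
      simp only [mem_union, mem_insert] at hw
      rcases hw with (hw | hw) | (hw | hw)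
      · exact (hxG' i j).2.2.1 hw.symm
      · exact hyg j i hw
      · exact hyu j i hw
      · exact hSy i j hw

end CompL

theorem comp : S_COMP := by
  classical
  intro t ε ht hε hε1
  obtain ⟨β₁, a₁, k₁, hβ₁, hconn⟩ := conn t ε ht hε hε1
  -- bound for the number of auxiliary vertices
  obtain ⟨c, hc⟩ : ∃ c : ℕ, c = t * (t - 1) + t + t + t * a₁ := ⟨_, rfl⟩
  obtain ⟨k₂, hk₂⟩ := exists_nat_ge (max (2 * c / β₁) (8 * (c : ℝ) / ε))
  refine ⟨min (β₁ / 2) (ε / 4), c, max k₁ k₂, lt_min (by positivity) (by positivity), ?_⟩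
  intro n k m _ M hH hk hs z B hB g hg hgB hgc
  have hk1 : k₁ ≤ k := le_trans (le_max_left _ _) hk
  have hk2 : k₂ ≤ k := le_trans (le_max_right _ _) hk
  have hkR : max (2 * c / β₁) (8 * (c : ℝ) / ε) ≤ (k : ℝ) := hk₂.trans (by exact_mod_cast hk2)
  have hkA : 2 * (c : ℝ) ≤ β₁ * k := by
    have := (le_max_left _ _).trans hkR
    rw [div_le_iff₀ hβ₁] at this
    linarith
  have hkB : 8 * (c : ℝ) ≤ ε * k := by
    have := (le_max_right _ _).trans hkR
    rw [div_le_iff₀ hε] at this
    linarith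
  have hn := hH.size
  have hkpos : (1 : ℝ) ≤ k := by exact_mod_cast hH.kpos
  have hBB : ∀ C : Finset (ZMod n), C.card ≤ c → Thin n k (β₁ * k) (B ∪ C) ∧
      ∀ w, (((B ∪ C) ∩ win n k w).card : ℝ) ≤ ε / 2 * k := by
    intro C hC
    have hCR : (C.card : ℝ) ≤ c := by exact_mod_cast hC
    have h1 := thin_union hB (thin_of_card hCR)
    have h2 : min (β₁ / 2) (ε / 4) ≤ β₁ / 2 := min_le_left _ _
    have h3 : min (β₁ / 2) (ε / 4) ≤ ε / 4 := min_le_right _ _
    refine ⟨thin_mono h1 (by nlinarith) subset_rfl, fun w => (h1 w).trans (by nlinarith)⟩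
  -- the entries of the interfaces
  obtain ⟨G₀, hG₀⟩ : ∃ G₀ : Finset (ZMod n), G₀ = univ.image (fun p : Fin t × Fin (t - 1) => g p.1 p.2) :=
    ⟨_, rfl⟩
  have hG₀c : G₀.card ≤ t * (t - 1) := by
    rw [hG₀]
    refine card_image_le.trans ?_
    simp
  have hgG₀ : ∀ i j, g i j ∈ G₀ := by
    intro i j
    rw [hG₀]
    exact mem_image.2 ⟨(i, j), mem_univ _, rfl⟩
  -- the vertices `u i`
  obtain ⟨U, hU1, hU2⟩ := CompL.sel_fam (t := t)
    (fun i S => ∃ v, S = {v} ∧ v ∈ win n k z ∧ v ∉ B ∧ ∀ x ∈ univ.image (g i), v ∉ M x) 1 c G₀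
    (by omega) (by
      intro i C hC hCc
      have h1 := ext t ε ht hε hε1 n k m M hH hs z (univ.image (g i)) (B ∪ C)
        (le_of_eq (hgc i).1) ((hBB C hCc).2 z)
      have h2 : (0 : ℝ) < ((win n k z).filter
          (fun u => u ∉ B ∪ C ∧ ∀ x ∈ univ.image (g i), u ∉ M x)).card :=
        lt_of_lt_of_le (by positivity) h1
      obtain ⟨v, hv⟩ := card_pos.1 (by exact_mod_cast h2)
      rw [mem_filter, mem_union, not_or] at hv
      exact ⟨{v}, by simp, by simpa using hv.2.1.2, v, rfl, hv.1, hv.2.1.1, hv.2.2⟩)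
  have hU3 : ∀ i, ∃ v, U i = {v} ∧ v ∈ win n k z ∧ v ∉ B ∧ ∀ x ∈ univ.image (g i), v ∉ M x :=
    fun i => (hU1 i).2.2
  choose u hu using hU3
  have huG : ∀ i, u i ∉ G₀ := by
    intro i
    have := (hU1 i).2.1
    rw [(hu i).1, disjoint_singleton_left] at this
    exact this
  have huu : ∀ i j, i ≠ j → u i ≠ u j := by
    intro i j hij h
    have := hU2 i j hij
    rw [(hu i).1, (hu j).1, disjoint_singleton] at this
    exact this h
  have huc : ∀ i, IsCl n k M t (insert (u i) (univ.image (g i))) := by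
    intro i
    have h1 := isCl_insert hH (hgc i) (u := u i) (fun x hx => by
      obtain ⟨j, _, rfl⟩ := mem_image.1 hx
      exact near_of_mem_win' (hgB i j).1 (hu i).2.1) (hu i).2.2.2
    rwa [show t - 1 + 1 = t by omega] at h1
  have hUc : (univ.image u).card ≤ t := by
    refine card_image_le.trans ?_
    simp
  -- the clique
  obtain ⟨Y, hY1, hY2, hY3⟩ := clq t ε ht hε hε1 n k m M hH hs z (B ∪ (G₀ ∪ univ.image u))
    ((hBB _ (by
      have := card_union_le G₀ (univ.image u)
      have : 0 ≤ t * a₁ := Nat.zero_le _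
      omega)).2 z)
  obtain ⟨y, hy⟩ : ∃ y : Fin t → ZMod n, Function.Injective y ∧ univ.image y = Y := by
    refine ⟨fun i => ((equivFinOfCardEq hY1.1).symm i : ZMod n), ?_, ?_⟩
    · intro i j hij
      exact (equivFinOfCardEq hY1.1).symm.injective (Subtype.ext hij)
    · ext w
      simp only [mem_image, mem_univ, true_and]
      constructor
      · rintro ⟨i, rfl⟩
        exact ((equivFinOfCardEq hY1.1).symm i).2
      · intro hw
        exact ⟨equivFinOfCardEq hY1.1 ⟨w, hw⟩, by simp⟩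
  have hyY : ∀ i, y i ∈ Y := by
    intro i
    rw [← hy.2]
    exact mem_image_of_mem _ (mem_univ i)
  have hyd : ∀ i, y i ∉ B ∧ y i ∉ G₀ ∧ y i ∉ univ.image u := by
    intro i
    have := disjoint_left.1 hY3 (hyY i)
    simpa only [mem_union, not_or] using this
  -- the connectors
  obtain ⟨S, hS1, hS2⟩ := CompL.sel_fam (t := t)
    (fun i S => Disjoint S B ∧ Conn n k M t (u i) (y i) S ∧
      ∀ v ∈ S, ∃ j : ℕ, j ≤ 9 * k ∧ v = z - (4 * k : ℕ) + (j : ZMod n)) a₁ c
    (G₀ ∪ univ.image u ∪ Y)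
    (by
      have h1 := card_union_le (G₀ ∪ univ.image u) Y
      have h2 := card_union_le G₀ (univ.image u)
      have h3 := hY1.1
      omega) (by
      intro i C hC hCc
      obtain ⟨a, ha, hua⟩ := mem_win.1 (hu i).2.1
      obtain ⟨b, hb, hyb⟩ := mem_win.1 (hY2 (hyY i))
      by_cases hab : a ≤ b
      · obtain ⟨S, h1, h2, h3, h4⟩ := hconn n k m M hH hk1 hs (u i) (y i) (b - a) (by omega)
          (by rw [← hua, ← hyb, Nat.cast_sub hab]; ring) (B ∪ C) (hBB C hCc).1
        rw [disjoint_union_right] at h2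
        refine ⟨S, h1, h2.2, h2.1, h3, fun v hv => ?_⟩
        obtain ⟨j, hj, rfl⟩ := h4 v hv
        exact ⟨3 * k + a + j, by omega, by rw [← hua]; push_cast; ring⟩
      · obtain ⟨S, h1, h2, h3, h4⟩ := hconn n k m M hH hk1 hs (y i) (u i) (a - b) (by omega)
          (by rw [← hua, ← hyb, Nat.cast_sub (by omega)]; ring) (B ∪ C) (hBB C hCc).1
        rw [disjoint_union_right] at h2
        refine ⟨S, h1, h2.2, h2.1, ConnL.conn_symm h3, fun v hv => ?_⟩
        obtain ⟨j, hj, rfl⟩ := h4 v hv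
        exact ⟨3 * k + b + j, by omega, by rw [← hyb]; push_cast; ring⟩)
  have hSd : ∀ i, Disjoint (S i) G₀ ∧ (∀ j, u j ∉ S i) ∧ ∀ j, y j ∉ S i := by
    intro i
    have h1 := (hS1 i).2.1
    rw [disjoint_union_right, disjoint_union_right] at h1
    exact ⟨h1.1.1, fun j hj => disjoint_left.1 h1.1.2 hj (mem_image_of_mem _ (mem_univ j)),
      fun j hj => disjoint_left.1 h1.2 hj (hyY j)⟩
  have hgsub : ∀ i, univ.image (g i) ⊆ G₀ := by
    intro i w hw
    obtain ⟨j, _, rfl⟩ := mem_image.1 hw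
    exact hgG₀ i j
  refine ⟨univ.biUnion fun i => (insert (u i) (univ.image (g i)) ∪ insert (y i) (S i)), ?_, ?_, ?_,
    ?_, ?_⟩
  · have h1 : ∀ i ∈ (univ : Finset (Fin t)),
        (insert (u i) (univ.image (g i)) ∪ insert (y i) (S i)).card ≤ (t - 1) + 1 + (a₁ + 1) := by
      intro i _
      have h2 := card_union_le (insert (u i) (univ.image (g i))) (insert (y i) (S i))
      have h3 := card_insert_le (u i) (univ.image (g i))
      have h4 := card_insert_le (y i) (S i)
      have h5 := (hgc i).1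
      have h6 := (hS1 i).1
      omega
    have h2 := card_biUnion_le_card_mul _ _ _ h1
    have h3 : (univ : Finset (Fin t)).card = t := by simp
    rw [h3] at h2
    refine h2.trans ?_
    rw [hc]
    apply le_of_eq
    ring
  · rw [disjoint_biUnion_left]
    intro i _
    rw [disjoint_union_left, disjoint_insert_left, disjoint_insert_left]
    refine ⟨⟨(hu i).2.2.1, ?_⟩, (hyd i).1, (hS1 i).2.2.1⟩
    rw [disjoint_left]
    intro w hw
    obtain ⟨j, _, rfl⟩ := mem_image.1 hw
    exact (hgB i j).2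
  · intro i j
    rw [mem_biUnion]
    exact ⟨i, mem_univ i, mem_union_left _ (mem_insert_of_mem (mem_image_of_mem _ (mem_univ j)))⟩
  · refine CompL.absorber g u y S ?_ (fun i j h => huG i (hgsub j h)) huu
      (fun i j h => (hyd i).2.1 (hgsub j h))
      (fun i j h => (hyd i).2.2 (h ▸ mem_image_of_mem _ (mem_univ j)))
      (fun i j hij h => hij (hy.1 h)) (fun i j => disjoint_of_subset_right (hgsub j) (hSd i).1)
      (fun i j => (hSd i).2.1 j) (fun i j => (hSd i).2.2 j) hS2 huc ?_ (fun i => (hS1 i).2.2.2.1)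
    · intro i j hij
      rw [disjoint_left]
      intro w hw hw'
      obtain ⟨a, _, rfl⟩ := mem_image.1 hw
      obtain ⟨b, _, h1⟩ := mem_image.1 hw'
      have h2 := hg (a₁ := (j, b)) (a₂ := (i, a)) h1
      exact hij (congrArg Prod.fst h2).symm
    · rw [hy.2]
      exact hY1
  · intro v hv
    rw [mem_biUnion] at hv
    obtain ⟨i, _, hv⟩ := hv
    have hwin : ∀ w ∈ win n k z, ∃ j : ℕ, j ≤ 9 * k ∧ w = z - (4 * k : ℕ) + (j : ZMod n) := by
      intro w hw
      obtain ⟨a, ha, rfl⟩ := mem_win.1 hw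
      exact ⟨4 * k + a, by omega, by push_cast; ring⟩
    simp only [mem_union, mem_insert] at hv
    rcases hv with (rfl | hv) | (rfl | hv)
    · exact hwin _ (hu i).2.1
    · obtain ⟨j, _, rfl⟩ := mem_image.1 hv
      exact hwin _ (hgB i j).1
    · exact hwin _ (hY2 (hyY i))
    · exact (hS1 i).2.2.2.2 v hv

end Pool.Agent.Helper83K9.CF
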