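import Pool.Agent.Helper83K9.CF.Stm

/-!
[DUAL3]: the dual fractional theorem for `t = 3` (proof of helper40, written by helper45).

`descent` is the compactness part, for any `t`: it suffices to find, for every feasible `s` with a
negative point, a direction `F` which does not increase `∑ s μ`, does not violate the tight
constraints and increases a negative value.
-/

namespace Pool.Agent.Helper83K9.CF

open Finset

namespace DualL

/-- The descent argument: a family `𝒦 K c` of constraints `0 ≤ s c ∨ 0 ≤ s(K)`. -/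
theorem descent (N : ℕ) (μ : ℕ → ℝ) (hμ : ∀ x, 0 ≤ μ x) (P : ℕ → Prop)
    (𝒦 : Finset ℕ → ℕ → Prop) (h𝒦 : ∀ K c, 𝒦 K c → K ⊆ range N ∧ c ∈ K)
    (step : ∀ s : ℕ → ℝ, (∀ v, P v → 0 ≤ s v) →
      (∀ K c, 𝒦 K c → 0 ≤ s c ∨ 0 ≤ ∑ x ∈ K, s x) → (∃ z < N, s z < 0) →
      ∃ F : ℕ → ℝ, ∑ x ∈ range N, F x * μ x ≤ 0 ∧ (∀ v, F v < 0 → 0 < s v) ∧
        (∃ z < N, s z < 0 ∧ 0 < F z) ∧
        ∀ K c, 𝒦 K c → s c < 0 → ∑ x ∈ K, s x = 0 → 0 ≤ ∑ x ∈ K, F x)
    (s₀ : ℕ → ℝ) (h₀ : ∀ v, P v → 0 ≤ s₀ v)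
    (hK₀ : ∀ K c, 𝒦 K c → 0 ≤ s₀ c ∨ 0 ≤ ∑ x ∈ K, s₀ x) :
    0 ≤ ∑ x ∈ range N, s₀ x * μ x := by
  by_contra hneg
  push Not at hneg
  set a : ℝ := ∑ x ∈ range N, s₀ x * μ x with ha
  set G : ℝ := ∑ x ∈ range N, |s₀ x| + 1 with hG
  have hG1 : 1 ≤ G := by
    have : 0 ≤ ∑ x ∈ range N, |s₀ x| := sum_nonneg fun _ _ => abs_nonneg _
    linarith
  have hGs : ∀ v, v < N → |s₀ v| ≤ G := by
    intro v hv
    have : |s₀ v| ≤ ∑ x ∈ range N, |s₀ x| :=
      single_le_sum (f := fun x => |s₀ x|) (fun _ _ => abs_nonneg _) (mem_range.2 hv)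
    linarith
  set C : ℝ := (N + 1) * G with hC
  have hN0 : (0 : ℝ) ≤ N := Nat.cast_nonneg N
  have hGC : G ≤ C := by rw [hC]; nlinarith
  have hC0 : 0 < C := by linarith
  let S : Set (ℕ → ℝ) := {s | (∀ v, s v ∈ Set.Icc (-G) C) ∧ (∀ v, P v → 0 ≤ s v) ∧
    (∀ K c, 𝒦 K c → 0 ≤ s c ∨ 0 ≤ ∑ x ∈ K, s x) ∧ ∑ x ∈ range N, s x * μ x ≤ a}
  have hScl : IsClosed S := by
    have e : S = (⋂ v, {s : ℕ → ℝ | s v ∈ Set.Icc (-G) C}) ∩ ((⋂ v, ⋂ (_ : P v), {s | 0 ≤ s v}) ∩
      ((⋂ K, ⋂ c, ⋂ (_ : 𝒦 K c), ({s : ℕ → ℝ | 0 ≤ s c} ∪ {s : ℕ → ℝ | 0 ≤ ∑ x ∈ K, s x})) ∩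
        {s | ∑ x ∈ range N, s x * μ x ≤ a})) := by
      ext s
      simp only [S, Set.mem_ofPred_eq, Set.mem_inter_iff, Set.mem_iInter, Set.mem_union]
    rw [e]
    refine IsClosed.inter ?_ (IsClosed.inter ?_ (IsClosed.inter ?_ ?_))
    · exact isClosed_iInter fun v => isClosed_Icc.preimage (continuous_apply v)
    · exact isClosed_iInter fun v => isClosed_iInter fun _ =>
        isClosed_le continuous_const (continuous_apply v)
    · refine isClosed_iInter fun K => isClosed_iInter fun c => isClosed_iInter fun _ => ?_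
      exact (isClosed_le continuous_const (continuous_apply c)).union
        (isClosed_le continuous_const (continuous_finsetSum _ fun x _ => continuous_apply x))
    · exact isClosed_le (continuous_finsetSum _ fun x _ =>
        (continuous_apply x).mul continuous_const) continuous_const
  have hScp : IsCompact S := by
    refine IsCompact.of_isClosed_subset
      (isCompact_univ_pi (s := fun _ : ℕ => Set.Icc (-G) C) (fun _ => isCompact_Icc)) hScl ?_
    intro s hs
    exact fun v _ => hs.1 v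
  have hSne : S.Nonempty := by
    refine ⟨fun v => if v < N then s₀ v else 0, ?_, ?_, ?_, ?_⟩
    · intro v
      by_cases hv : v < N
      · have := hGs v hv
        simp only [hv, if_true]
        exact ⟨by linarith [neg_abs_le (s₀ v)], by linarith [le_abs_self (s₀ v)]⟩
      · simp only [hv, if_false]
        exact ⟨by linarith, hC0.le⟩
    · intro v hv
      by_cases hv' : v < N
      · simp only [hv', if_true]; exact h₀ v hv
      · simp only [hv', if_false]; exact le_refl _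
    · intro K c hKc
      obtain ⟨hKN, hcK⟩ := h𝒦 K c hKc
      have hc : c < N := mem_range.1 (hKN hcK)
      have e : ∑ x ∈ K, (if x < N then s₀ x else 0) = ∑ x ∈ K, s₀ x :=
        sum_congr rfl fun x hx => by rw [if_pos (mem_range.1 (hKN hx))]
      simp only [hc, if_true, e]
      exact hK₀ K c hKc
    · refine le_of_eq (sum_congr rfl fun x hx => ?_)
      show (if x < N then s₀ x else 0) * μ x = _
      rw [if_pos (mem_range.1 hx)]
  have hfc : Continuous (fun s : ℕ → ℝ => ∑ v ∈ range N, max (-(s v)) 0) :=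
    continuous_finsetSum _ fun x _ => ((continuous_apply x).neg).max continuous_const
  obtain ⟨s, hsS, hmin⟩ := hScp.exists_isMinOn hSne hfc.continuousOn
  obtain ⟨hbd, hP, hKs, hsa⟩ := hsS
  have hz0 : ∃ z < N, s z < 0 := by
    by_contra hno
    push Not at hno
    have : 0 ≤ ∑ x ∈ range N, s x * μ x :=
      sum_nonneg fun x hx => mul_nonneg (hno x (mem_range.1 hx)) (hμ x)
    linarith
  obtain ⟨F, hFμ, hFneg, ⟨z, hzN, hsz, hFz⟩, hFK⟩ := step s hP hKs hz0
  -- the moved state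
  let s' : ℝ → ℕ → ℝ := fun ε v => if v < N then min (s v + ε * F v) C else s v
  have hs'0 : ∀ v, s' 0 v = s v := by
    intro v
    by_cases hv : v < N
    · simp only [s', hv, if_true, zero_mul, add_zero]
      exact min_eq_left (hbd v).2
    · simp only [s', hv, if_false]
  have hs'c : ∀ v, Continuous (fun ε => s' ε v) := by
    intro v
    by_cases hv : v < N
    · simp only [s', hv, if_true]
      exact (continuous_const.add (continuous_id.mul continuous_const)).min continuous_const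
    · simp only [s', hv, if_false]
      exact continuous_const
  have htend : ∀ v, Filter.Tendsto (fun ε => s' ε v) (nhdsWithin 0 (Set.Ioi 0)) (nhds (s v)) := by
    intro v
    have := ((hs'c v).tendsto 0).mono_left (nhdsWithin_le_nhds (s := Set.Ioi (0 : ℝ)))
    rwa [hs'0 v] at this
  -- nonnegative values remain nonnegative
  have hev1 : ∀ᶠ ε in nhdsWithin (0 : ℝ) (Set.Ioi 0), ∀ v ∈ range N, 0 ≤ s v → 0 ≤ s' ε v := by
    rw [Filter.eventually_all_finset]
    intro v hv
    have hvN := mem_range.1 hv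
    rcases lt_trichotomy (s v) 0 with h | h | h
    · exact Filter.Eventually.of_forall fun ε h' => absurd h (not_lt.2 h')
    · filter_upwards [self_mem_nhdsWithin] with ε hε _
      have hF0 : 0 ≤ F v := by
        by_contra hlt
        have := hFneg v (not_le.1 hlt)
        linarith
      simp only [s', hvN, if_true, h, zero_add]
      exact le_min (mul_nonneg (le_of_lt hε) hF0) hC0.le
    · filter_upwards [(htend v).eventually (lt_mem_nhds h)] with ε hε _
      exact hε.le
  -- constraints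
  have hev2 : ∀ᶠ ε in nhdsWithin (0 : ℝ) (Set.Ioi 0), ∀ K ∈ (range N).powerset, ∀ c ∈ range N,
      𝒦 K c → s c < 0 → 0 ≤ ∑ x ∈ K, s' ε x := by
    rw [Filter.eventually_all_finset]
    intro K hK
    rw [Filter.eventually_all_finset]
    intro c hc
    by_cases hKc : 𝒦 K c
    swap
    · exact Filter.Eventually.of_forall fun ε h _ => absurd h hKc
    by_cases hsc : s c < 0
    swap
    · exact Filter.Eventually.of_forall fun ε _ h => absurd h hsc
    obtain ⟨hKN, hcK⟩ := h𝒦 K c hKc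
    have hsum : 0 ≤ ∑ x ∈ K, s x := (hKs K c hKc).resolve_left (not_le.2 hsc)
    rcases hsum.eq_or_lt with h0 | hpos
    · -- tight
      have hlt : ∀ v ∈ K, s v < C := by
        intro v hv
        by_contra hge
        have hvC : s v = C := le_antisymm (hbd v).2 (not_lt.1 hge)
        have e : ∑ x ∈ K, s x = s v + ∑ x ∈ K.erase v, s x := (add_sum_erase K s hv).symm
        have h2 : -(K.erase v).card * G ≤ ∑ x ∈ K.erase v, s x := by
          have : ∑ x ∈ K.erase v, (-G) ≤ ∑ x ∈ K.erase v, s x :=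
            sum_le_sum fun x _ => (hbd x).1
          rw [sum_const, nsmul_eq_mul] at this
          linarith
        have h3 : ((K.erase v).card : ℝ) ≤ N := by
          have h4 : (K.erase v).card ≤ (range N).card :=
            card_le_card ((erase_subset _ _).trans hKN)
          rw [card_range] at h4
          exact_mod_cast h4
        have h5 : ((K.erase v).card : ℝ) * G ≤ N * G :=
          mul_le_mul_of_nonneg_right h3 (by linarith)
        rw [← h0, hvC, hC] at e
        nlinarith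
      have hevK : ∀ᶠ ε in nhdsWithin (0 : ℝ) (Set.Ioi 0), ∀ v ∈ K, s' ε v < C := by
        rw [Filter.eventually_all_finset]
        intro v hv
        exact (htend v).eventually (gt_mem_nhds (hlt v hv))
      filter_upwards [hevK, self_mem_nhdsWithin] with ε hε hε0 _ _
      have e : ∑ x ∈ K, s' ε x = ∑ x ∈ K, (s x + ε * F x) := by
        refine sum_congr rfl fun v hv => ?_
        have h1 := hε v hv
        have hvN := mem_range.1 (hKN hv)
        simp only [s', hvN, if_true] at h1 ⊢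
        refine min_eq_left ?_
        by_contra hcon
        rw [min_eq_right (not_le.1 hcon).le] at h1
        exact lt_irrefl _ h1
      rw [e, sum_add_distrib, ← h0, zero_add, ← mul_sum]
      exact mul_nonneg (le_of_lt hε0) (hFK K c hKc hsc h0.symm)
    · have : Filter.Tendsto (fun ε => ∑ x ∈ K, s' ε x) (nhdsWithin 0 (Set.Ioi 0))
        (nhds (∑ x ∈ K, s x)) := tendsto_finsetSum _ fun x _ => htend x
      filter_upwards [this.eventually (lt_mem_nhds hpos)] with ε hε _ _
      exact hε.le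
  obtain ⟨ε, ⟨h1, h2⟩, hε0⟩ := ((hev1.and hev2).and self_mem_nhdsWithin).exists
  have hε : 0 < ε := hε0
  -- negative values do not decrease
  have h3 : ∀ v, v < N → s v < 0 → s v ≤ s' ε v := by
    intro v hv hsv
    have hF0 : 0 ≤ F v := by
      by_contra hlt
      have := hFneg v (not_le.1 hlt)
      linarith
    simp only [s', hv, if_true]
    exact le_min (by nlinarith [mul_nonneg hε.le hF0]) (by linarith)
  have hmem : s' ε ∈ S := by
    refine ⟨?_, ?_, ?_, ?_⟩
    · intro v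
      by_cases hv : v < N
      · constructor
        · by_cases hsv : s v < 0
          · exact (hbd v).1.trans (h3 v hv hsv)
          · have := h1 v (mem_range.2 hv) (not_lt.1 hsv)
            linarith
        · simp only [s', hv, if_true]
          exact min_le_right _ _
      · simp only [s', hv, if_false]
        exact hbd v
    · intro v hPv
      by_cases hv : v < N
      · exact h1 v (mem_range.2 hv) (hP v hPv)
      · simp only [s', hv, if_false]
        exact hP v hPv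
    · intro K c hKc
      obtain ⟨hKN, hcK⟩ := h𝒦 K c hKc
      by_cases hsc : s c < 0
      · exact Or.inr (h2 K (mem_powerset.2 hKN) c (hKN hcK) hKc hsc)
      · exact Or.inl (h1 c (hKN hcK) (not_lt.1 hsc))
    · have h5 : ∑ x ∈ range N, s' ε x * μ x ≤ ∑ x ∈ range N, (s x * μ x + ε * (F x * μ x)) := by
        refine sum_le_sum fun x hx => ?_
        have hxN := mem_range.1 hx
        have h6 : s' ε x ≤ s x + ε * F x := by
          simp only [s', hxN, if_true]
          exact min_le_left _ _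
        nlinarith [mul_le_mul_of_nonneg_right h6 (hμ x)]
      rw [sum_add_distrib, ← mul_sum] at h5
      nlinarith [mul_nonneg hε.le (neg_nonneg.2 hFμ)]
  have hlt : ∑ v ∈ range N, max (-(s' ε v)) 0 < ∑ v ∈ range N, max (-(s v)) 0 := by
    refine sum_lt_sum (fun v hv => ?_) ⟨z, mem_range.2 hzN, ?_⟩
    · have hvN := mem_range.1 hv
      by_cases hsv : s v < 0
      · have := h3 v hvN hsv
        exact max_le_max (by linarith) le_rfl
      · have := h1 v hv (not_lt.1 hsv)
        exact (max_le (by linarith) le_rfl).trans (le_max_right _ _)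
    · have h6 : s z < s' ε z := by
        simp only [s', hzN, if_true]
        exact lt_min (by nlinarith [mul_pos hε hFz]) (by linarith)
      rw [max_eq_left (by linarith : (0 : ℝ) ≤ -(s z))]
      exact max_lt (by linarith) (by linarith)
  exact absurd (hmin hmem) (not_le.2 hlt)

/-- a clique with three vertices `a < b < c` -/
def Tri (q : ℕ → ℕ → Prop) (k N a b c : ℕ) : Prop :=
  a < b ∧ b < c ∧ c < N ∧ c ≤ a + k ∧ ¬ q a b ∧ ¬ q a c ∧ ¬ q b c

open Classical in
/-- indicator of the closed missing neighbourhood -/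
noncomputable def iQ (q : ℕ → ℕ → Prop) (k N x v : ℕ) : ℤ := if v ∈ LQ q k N x then 1 else 0

/-- indicator of the window to the left -/
def iL (k z v : ℕ) : ℤ := if z - k ≤ v ∧ v < z then 1 else 0

theorem mem_LQ {q : ℕ → ℕ → Prop} {k N x v : ℕ} :
    v ∈ LQ q k N x ↔ v < N ∧ v ≤ x + k ∧ x ≤ v + k ∧ q x v := by
  classical
  unfold LQ
  rw [mem_filter, mem_range]

theorem iQ_cases (q : ℕ → ℕ → Prop) (k N x v : ℕ) :
    (iQ q k N x v = 1 ∧ v < N ∧ v ≤ x + k ∧ x ≤ v + k ∧ q x v) ∨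
    (iQ q k N x v = 0 ∧ ¬ (v < N ∧ v ≤ x + k ∧ x ≤ v + k ∧ q x v)) := by
  unfold iQ
  by_cases h : v ∈ LQ q k N x
  · exact Or.inl ⟨if_pos h, mem_LQ.1 h⟩
  · exact Or.inr ⟨if_neg h, fun h' => h (mem_LQ.2 h')⟩

theorem iL_cases (k z v : ℕ) :
    (iL k z v = 1 ∧ z - k ≤ v ∧ v < z) ∨ (iL k z v = 0 ∧ ¬ (z - k ≤ v ∧ v < z)) := by
  unfold iL
  by_cases h : z - k ≤ v ∧ v < z
  · exact Or.inl ⟨if_pos h, h⟩
  · exact Or.inr ⟨if_neg h, h⟩

theorem sum_iQ (q : ℕ → ℕ → Prop) (k N x : ℕ) (μ : ℕ → ℝ) :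
    ∑ v ∈ range N, ((iQ q k N x v : ℤ) : ℝ) * μ v = ∑ v ∈ LQ q k N x, μ v := by
  classical
  have e : ∀ v, ((iQ q k N x v : ℤ) : ℝ) * μ v = if v ∈ LQ q k N x then μ v else 0 := by
    intro v
    unfold iQ
    by_cases h : v ∈ LQ q k N x <;> simp [h]
  simp only [e]
  rw [← sum_filter]
  refine sum_congr ?_ fun _ _ => rfl
  ext v
  rw [mem_filter, mem_range, mem_LQ]
  tauto

theorem sum_iL (k N z : ℕ) (hz : z < N) (μ : ℕ → ℝ) :
    ∑ v ∈ range N, ((iL k z v : ℤ) : ℝ) * μ v = ∑ v ∈ Ico (z - k) z, μ v := by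
  have e : ∀ v, ((iL k z v : ℤ) : ℝ) * μ v = if z - k ≤ v ∧ v < z then μ v else 0 := by
    intro v
    unfold iL
    by_cases h : z - k ≤ v ∧ v < z <;> simp [h]
  simp only [e]
  rw [← sum_filter]
  refine sum_congr ?_ fun _ _ => rfl
  ext v
  rw [mem_filter, mem_range, mem_Ico]
  omega

/-- The heart: a direction for `t = 3`. -/
theorem dir3 (k N : ℕ) (q : ℕ → ℕ → Prop) (μ : ℕ → ℝ) (hq : ∀ x, q x x)
    (hsy : ∀ x y, q x y → q y x)
    (H : ∀ z x, k ≤ z → z < N → x < N → z ≤ x + k → x ≤ z + k →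
      2 * ∑ y ∈ LQ q k N x, μ y ≤ ∑ y ∈ Ico (z - k) z, μ y)
    (s : ℕ → ℝ) (hs : ∀ v, v < k → 0 ≤ s v)
    (hK : ∀ a b c, Tri q k N a b c → 0 ≤ s c ∨ 0 ≤ s a + s b + s c) (hz : ∃ z < N, s z < 0) :
    ∃ F : ℕ → ℤ, ∑ x ∈ range N, (F x : ℝ) * μ x ≤ 0 ∧ (∀ v, F v < 0 → 0 < s v) ∧
      (∃ z < N, s z < 0 ∧ 0 < F z) ∧
      ∀ a b c, Tri q k N a b c → s c < 0 → s a + s b + s c = 0 → 0 ≤ F a + F b + F c := by
  classical
  -- pairs and values
  let Pr : ℕ → ℕ → Prop := fun x z => x < z ∧ z ≤ x + k ∧ ¬ q x z ∧ s x ≤ 0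
  let at_ : ℕ → ℝ → Prop := fun z m => s z < 0 ∧ z < N ∧ (m = -s z ∨ ∃ x, Pr x z ∧ m = -s z - s x)
  -- the maximum
  obtain ⟨M, ⟨z₁, hz₁⟩, hM⟩ : ∃ M, (∃ z, at_ z M) ∧ ∀ z m, at_ z m → m ≤ M := by
    obtain ⟨z, hzN, hsz⟩ := hz
    let V : Finset ℝ := ((range N).filter (fun z => s z < 0)).image (fun z => -s z) ∪
      (((range N) ×ˢ (range N)).filter (fun p => s p.2 < 0 ∧ Pr p.1 p.2)).image
        (fun p => -s p.2 - s p.1)
    have hV : ∀ m, m ∈ V ↔ ∃ z, at_ z m := by
      intro m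
      simp only [V, mem_union, mem_image, mem_filter, mem_range, mem_product, at_]
      constructor
      · rintro (⟨z, ⟨h1, h2⟩, h3⟩ | ⟨⟨x, z⟩, ⟨⟨h1, h2⟩, h3, h4⟩, h5⟩)
        · exact ⟨z, h2, h1, Or.inl h3.symm⟩
        · exact ⟨z, h3, h2, Or.inr ⟨x, h4, h5.symm⟩⟩
      · rintro ⟨z, h1, h2, (h3 | ⟨x, h3, h4⟩)⟩
        · exact Or.inl ⟨z, ⟨h2, h1⟩, h3.symm⟩
        · exact Or.inr ⟨(x, z), ⟨⟨h3.1.trans h2, h2⟩, h1, h3⟩, h4.symm⟩
    have hne : V.Nonempty := ⟨-s z, (hV _).2 ⟨z, hsz, hzN, Or.inl rfl⟩⟩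
    exact ⟨V.max' hne, (hV _).1 (V.max'_mem hne), fun z m h => V.le_max' m ((hV m).2 ⟨z, h⟩)⟩
  have hex : ∃ z, at_ z M := ⟨z₁, hz₁⟩
  let z := Nat.find hex
  have hz : at_ z M := Nat.find_spec hex
  have hmin : ∀ z', at_ z' M → z ≤ z' := fun z' h => Nat.find_min' hex h
  have hsz : s z < 0 := hz.1
  have hzN : z < N := hz.2.1
  have hkz : k ≤ z := by
    by_contra h
    have := hs z (not_le.1 h)
    linarith
  have hM0 : 0 < M := by
    have := hM z (-s z) ⟨hsz, hzN, Or.inl rfl⟩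
    linarith
  have hg : ∀ c, c < N → s c < 0 → -s c ≤ M := fun c h1 h2 => hM c _ ⟨h2, h1, Or.inl rfl⟩
  have hpr : ∀ x c, c < N → s c < 0 → Pr x c → -s c - s x ≤ M := fun x c h1 h2 h3 =>
    hM c _ ⟨h2, h1, Or.inr ⟨x, h3, rfl⟩⟩
  have hgz : ∀ c, c < N → s c < 0 → M ≤ -s c → z ≤ c := fun c h1 h2 h3 =>
    hmin c ⟨h2, h1, Or.inl (le_antisymm h3 (hg c h1 h2))⟩
  have hprz : ∀ x c, c < N → s c < 0 → Pr x c → M ≤ -s c - s x → z ≤ c := fun x c h1 h2 h3 h4 =>
    hmin c ⟨h2, h1, Or.inr ⟨x, h3, le_antisymm h4 (hpr x c h1 h2 h3)⟩⟩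
  have hKc : ∀ a b c, Tri q k N a b c → s c < 0 → 0 ≤ s a + s b + s c := fun a b c h1 h2 =>
    (hK a b c h1).resolve_left (not_le.2 h2)
  have sy : ∀ x y, ¬ q x y → ¬ q y x := fun x y h h' => h (hsy y x h')
  have hT : ∀ a b c, a ≠ b → a < c → b < c → c < N → c ≤ a + k → c ≤ b + k → ¬ q a b →
      ¬ q a c → ¬ q b c → s c < 0 → 0 ≤ s a + s b + s c := by
    intro a b c h1 h2 h3 h4 h5 h6 h7 h8 h9 h10
    rcases lt_or_gt_of_ne h1 with h | h
    · exact hKc a b c ⟨h, h3, h4, h5, h7, h8, h9⟩ h10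
    · have := hKc b a c ⟨h, h2, h4, h6, sy _ _ h7, h9, h8⟩ h10
      linarith
  by_cases hB : ∃ x, Pr x z ∧ M = -s z - s x
  · -- Case B
    obtain ⟨x, ⟨hxz, hzx, hqxz, hsx⟩, hMx⟩ := hB
    let F : ℕ → ℤ := fun v => iQ q k N z v + iQ q k N x v - iL k z v
    have hFneg : ∀ v, F v < 0 → F v = -1 ∧ v < z ∧ z ≤ v + k ∧ ¬ q v z ∧ ¬ q v x ∧ M ≤ s v := by
      intro v hv
      simp only [F] at hv ⊢
      rcases iL_cases k z v with ⟨e3, h3, h3'⟩ | ⟨e3, h3⟩
      swap
      · rcases iQ_cases q k N z v with ⟨e1, h1⟩ | ⟨e1, h1⟩ <;>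
          rcases iQ_cases q k N x v with ⟨e2, h2⟩ | ⟨e2, h2⟩ <;> omega
      rcases iQ_cases q k N z v with ⟨e1, h1⟩ | ⟨e1, h1⟩
      · rcases iQ_cases q k N x v with ⟨e2, h2⟩ | ⟨e2, h2⟩ <;> omega
      rcases iQ_cases q k N x v with ⟨e2, h2⟩ | ⟨e2, h2⟩
      · omega
      have q1 : ¬ q z v := fun h => h1 ⟨by omega, by omega, by omega, h⟩
      have q2 : ¬ q x v := fun h => h2 ⟨by omega, by omega, by omega, h⟩
      have hne : x ≠ v := by
        rintro rfl
        exact q2 (hq x)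
      have := hT x v z hne hxz h3' hzN hzx (by omega) q2 hqxz (sy _ _ q1) hsz
      exact ⟨by omega, h3', by omega, sy _ _ q1, sy _ _ q2, by linarith⟩
    have hFz : 0 < F z := by
      simp only [F]
      rcases iL_cases k z z with ⟨e3, h3, h3'⟩ | ⟨e3, h3⟩
      · omega
      rcases iQ_cases q k N z z with ⟨e1, h1⟩ | ⟨e1, h1⟩
      · rcases iQ_cases q k N x z with ⟨e2, h2⟩ | ⟨e2, h2⟩ <;> omega
      · exact absurd ⟨hzN, by omega, by omega, hq z⟩ h1
    have hF0a : ∀ v, F v = 0 → z ≤ v → v < N → v ≤ z + k → ¬ q z v ∧ (v ≤ x + k → ¬ q x v) := by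
      intro v hv h1 h2 h3
      simp only [F] at hv
      rcases iL_cases k z v with ⟨e3, h4⟩ | ⟨e3, h4⟩
      · omega
      rcases iQ_cases q k N z v with ⟨e1, h5⟩ | ⟨e1, h5⟩
      · rcases iQ_cases q k N x v with ⟨e2, h6⟩ | ⟨e2, h6⟩ <;> omega
      rcases iQ_cases q k N x v with ⟨e2, h6⟩ | ⟨e2, h6⟩
      · omega
      exact ⟨fun h => h5 ⟨h2, h3, by omega, h⟩, fun h' h => h6 ⟨h2, h', by omega, h⟩⟩
    have hF0b : ∀ v, F v = 0 → v < z → z ≤ v + k → ¬ q z v ∨ ¬ q x v := by
      intro v hv h1 h2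
      simp only [F] at hv
      rcases iQ_cases q k N z v with ⟨e1, h5⟩ | ⟨e1, h5⟩
      · rcases iQ_cases q k N x v with ⟨e2, h6⟩ | ⟨e2, h6⟩
        · rcases iL_cases k z v with ⟨e3, h4⟩ | ⟨e3, h4⟩ <;> omega
        · exact Or.inr fun h => h6 ⟨by omega, by omega, by omega, h⟩
      · exact Or.inl fun h => h5 ⟨by omega, by omega, by omega, h⟩
    have one : ∀ p f c, p ≠ f → p < c → f < c → c < N → c ≤ p + k → c ≤ f + k → ¬ q p f →
        ¬ q p c → ¬ q f c → s c < 0 → s p + s f + s c = 0 → F p < 0 → F f = 0 → F c = 0 →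
        False := by
      intro p f c hpf hpc hfc hcN hck hck' q1 q2 q3 hsc hsum hFp hFf hFc
      obtain ⟨-, hpz, hzp, hqpz, hqpx, hMp⟩ := hFneg p hFp
      have hgc := hg c hcN hsc
      have hsf : s f ≤ 0 := by linarith
      have hpair : Pr f c := ⟨hfc, hck', q3, hsf⟩
      have hzc : z ≤ c := hprz f c hcN hsc hpair (by linarith)
      have hsp := hpr f c hcN hsc hpair
      have hzc' : z < c := by
        rcases hzc.eq_or_lt with h | h
        · rw [← h] at hFc; omega
        · exact h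
      obtain ⟨qzc, qxc⟩ := hF0a c hFc hzc hcN (by omega)
      have h1 := hT p z c (by omega) hpc hzc' hcN hck (by omega) hqpz q2 qzc hsc
      have hfz : f ≠ z := by
        rintro rfl
        omega
      rcases lt_or_gt_of_ne hfz with hlt | hgt
      · rcases hF0b f hFf hlt (by omega) with h | h
        · have := hT f z c hfz hfc hzc' hcN hck' (by omega) (sy _ _ h) q3 qzc hsc
          linarith
        · have hxf : x ≠ f := by
            rintro rfl
            exact h (hq x)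
          by_cases hcx : c ≤ x + k
          · have := hT x f c hxf (by omega) hfc hcN hcx hck' h (qxc hcx) q3 hsc
            linarith
          · have := hprz x f (by omega) (by linarith) ⟨by omega, by omega, h, hsx⟩ (by linarith)
            omega
      · obtain ⟨qzf, -⟩ := hF0a f hFf hgt.le (by omega) (by omega)
        have := hT z f c hfz.symm hzc' hfc hcN (by omega) hck' qzf qzc q3 hsc
        linarith
    refine ⟨F, ?_, fun v hv => lt_of_lt_of_le hM0 (hFneg v hv).2.2.2.2.2, ⟨z, hzN, hsz, hFz⟩, ?_⟩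
    · have h1 := H z z hkz hzN hzN (by omega) (by omega)
      have h2 := H z x hkz hzN (by omega) (by omega) (by omega)
      rw [← sum_iQ, ← sum_iL k N z hzN] at h1 h2
      have e : ∑ v ∈ range N, ((F v : ℤ) : ℝ) * μ v =
          ∑ v ∈ range N, ((iQ q k N z v : ℤ) : ℝ) * μ v +
          ∑ v ∈ range N, ((iQ q k N x v : ℤ) : ℝ) * μ v -
          ∑ v ∈ range N, ((iL k z v : ℤ) : ℝ) * μ v := by
        rw [← sum_add_distrib, ← sum_sub_distrib]
        refine sum_congr rfl fun v _ => ?_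
        simp only [F]
        push_cast
        ring
      rw [e]
      linarith
    · rintro a b c ⟨hab, hbc, hcN, hca, q1, q2, q3⟩ hsc hsum
      by_contra hlt
      push Not at hlt
      have hFc : 0 ≤ F c := by
        by_contra h
        have := (hFneg c (not_le.1 h)).2.2.2.2.2
        linarith
      have hgc := hg c hcN hsc
      rcases lt_or_ge (F a) 0 with ha | ha
      · have ha' := hFneg a ha
        rcases lt_or_ge (F b) 0 with hb | hb
        · have hb' := (hFneg b hb).2.2.2.2.2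
          have ha'' := ha'.2.2.2.2.2
          linarith
        · exact one a b c hab.ne (hab.trans hbc) hbc hcN hca (by omega) q1 q2 q3 hsc hsum ha
            (by omega) (by omega)
      · rcases lt_or_ge (F b) 0 with hb | hb
        · have hb' := hFneg b hb
          exact one b a c hab.ne' hbc (hab.trans hbc) hcN (by omega) hca (sy _ _ q1) q3 q2 hsc
            (by linarith) hb (by omega) (by omega)
        · omega
  · -- Case A
    have hMz : M = -s z := by
      rcases hz.2.2 with h | h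
      · exact h
      · exact absurd h hB
    have hlone : ∀ x, x < z → z ≤ x + k → ¬ q x z → 0 < s x := by
      intro x h1 h2 h3
      by_contra h4
      have hP : Pr x z := ⟨h1, h2, h3, not_lt.1 h4⟩
      have h5 := hpr x z hzN hsz hP
      exact hB ⟨x, hP, by linarith [not_lt.1 h4]⟩
    let F : ℕ → ℤ := fun v => 2 * iQ q k N z v - iL k z v
    have hFneg : ∀ v, F v < 0 → F v = -1 ∧ v < z ∧ z ≤ v + k ∧ ¬ q v z ∧ 0 < s v := by
      intro v hv
      simp only [F] at hv ⊢
      rcases iL_cases k z v with ⟨e3, h3, h3'⟩ | ⟨e3, h3⟩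
      swap
      · rcases iQ_cases q k N z v with ⟨e1, h1⟩ | ⟨e1, h1⟩ <;> omega
      rcases iQ_cases q k N z v with ⟨e1, h1⟩ | ⟨e1, h1⟩
      · omega
      have q1 : ¬ q z v := fun h => h1 ⟨by omega, by omega, by omega, h⟩
      exact ⟨by omega, h3', by omega, sy _ _ q1, hlone v h3' (by omega) (sy _ _ q1)⟩
    have hFz : F z = 2 := by
      simp only [F]
      rcases iL_cases k z z with ⟨e3, h3, h3'⟩ | ⟨e3, h3⟩
      · omega
      rcases iQ_cases q k N z z with ⟨e1, h1⟩ | ⟨e1, h1⟩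
      · omega
      · exact absurd ⟨hzN, by omega, by omega, hq z⟩ h1
    have hF0 : ∀ v, F v = 0 → v < N → v ≤ z + k → z ≤ v + k → z ≤ v ∧ ¬ q z v := by
      intro v hv h1 h2 h3
      simp only [F] at hv
      rcases iQ_cases q k N z v with ⟨e1, h5⟩ | ⟨e1, h5⟩
      · rcases iL_cases k z v with ⟨e3, h4⟩ | ⟨e3, h4⟩ <;> omega
      · rcases iL_cases k z v with ⟨e3, h4⟩ | ⟨e3, h4⟩
        · omega
        · exact ⟨by omega, fun h => h5 ⟨h1, h2, h3, h⟩⟩
    have hF2 : ∀ v, F v < 2 → z < v → v < N → v ≤ z + k → ¬ q z v := by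
      intro v hv h1 h2 h3 h
      simp only [F] at hv
      rcases iQ_cases q k N z v with ⟨e1, h5⟩ | ⟨e1, h5⟩
      · rcases iL_cases k z v with ⟨e3, h4⟩ | ⟨e3, h4⟩ <;> omega
      · exact h5 ⟨h2, h3, by omega, h⟩
    have one : ∀ p f c, p ≠ f → p < c → f < c → c < N → c ≤ p + k → c ≤ f + k → ¬ q p f →
        ¬ q p c → ¬ q f c → s c < 0 → s p + s f + s c = 0 → F p < 0 → F f = 0 → F c = 0 →
        False := by
      intro p f c hpf hpc hfc hcN hck hck' q1 q2 q3 hsc hsum hFp hFf hFc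
      obtain ⟨-, hpz, hzp, hqpz, hsp⟩ := hFneg p hFp
      obtain ⟨hzc, qzc⟩ := hF0 c hFc hcN (by omega) (by omega)
      obtain ⟨hzf, qzf⟩ := hF0 f hFf (by omega) (by omega) (by omega)
      have hne : z ≠ f := by
        rintro h
        rw [← h] at hFf
        omega
      have := hT z f c hne (by omega) hfc hcN (by omega) hck' qzf qzc q3 hsc
      linarith
    refine ⟨F, ?_, fun v hv => (hFneg v hv).2.2.2.2, ⟨z, hzN, hsz, by omega⟩, ?_⟩
    · have h1 := H z z hkz hzN hzN (by omega) (by omega)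
      rw [← sum_iQ, ← sum_iL k N z hzN] at h1
      have e : ∑ v ∈ range N, ((F v : ℤ) : ℝ) * μ v =
          2 * ∑ v ∈ range N, ((iQ q k N z v : ℤ) : ℝ) * μ v -
          ∑ v ∈ range N, ((iL k z v : ℤ) : ℝ) * μ v := by
        rw [mul_sum, ← sum_sub_distrib]
        refine sum_congr rfl fun v _ => ?_
        simp only [F]
        push_cast
        ring
      rw [e]
      linarith
    · rintro a b c ⟨hab, hbc, hcN, hca, q1, q2, q3⟩ hsc hsum
      by_contra hlt
      push Not at hlt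
      have hFc : 0 ≤ F c := by
        by_contra h
        have := (hFneg c (not_le.1 h)).2.2.2.2
        linarith
      rcases lt_or_ge (F a) 0 with ha | ha
      · obtain ⟨ha1, haz, hza, hqaz, hsa⟩ := hFneg a ha
        rcases lt_or_ge (F b) 0 with hb | hb
        · obtain ⟨hb1, hbz, hzb, hqbz, hsb⟩ := hFneg b hb
          have h1 := hT a b z hab.ne haz hbz hzN hza hzb q1 hqaz hqbz hsz
          have hzc : z ≤ c := hgz c hcN hsc (by linarith)
          have hzc' : z < c := by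
            rcases hzc.eq_or_lt with h | h
            · rw [← h] at hlt; omega
            · exact h
          have qzc := hF2 c (by omega) hzc' hcN (by omega)
          have := hT a z c (by omega) (by omega) hzc' hcN hca (by omega) hqaz q2 qzc hsc
          linarith
        · exact one a b c hab.ne (hab.trans hbc) hbc hcN hca (by omega) q1 q2 q3 hsc hsum ha
            (by omega) (by omega)
      · rcases lt_or_ge (F b) 0 with hb | hb
        · exact one b a c hab.ne' hbc (hab.trans hbc) hcN (by omega) hca (sy _ _ q1) q3 q2 hsc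
            (by linarith) hb (by have := hFneg b hb; omega) (by have := hFneg b hb; omega)
        · omega

end DualL

open DualL in
/-- [DUAL3] `S_DUAL` for `t = 3` -/
theorem dual3 : ∀ (k N : ℕ) (q : ℕ → ℕ → Prop) (μ s : ℕ → ℝ), 1 ≤ k →
    (∀ x, q x x) → (∀ x y, q x y → q y x) → (∀ x, 0 ≤ μ x) →
    (∀ z x, k ≤ z → z < N → x < N → z ≤ x + k → x ≤ z + k →
      (((3 : ℕ) : ℝ) - 1) * ∑ y ∈ LQ q k N x, μ y ≤ ∑ y ∈ Ico (z - k) z, μ y) →
    (∀ x, x < k → 0 ≤ s x) → (∀ K, LCl q k N 3 K → 0 ≤ ∑ x ∈ K, s x) →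
    0 ≤ ∑ x ∈ range N, s x * μ x := by
  intro k N q μ s₀ _ hq hsy hμ H hs₀ hK₀
  have H' : ∀ z x, k ≤ z → z < N → x < N → z ≤ x + k → x ≤ z + k →
      2 * ∑ y ∈ LQ q k N x, μ y ≤ ∑ y ∈ Ico (z - k) z, μ y := by
    intro z x h1 h2 h3 h4 h5
    have := H z x h1 h2 h3 h4 h5
    norm_num at this
    exact this
  have sum3 : ∀ (f : ℕ → ℝ) {a b c : ℕ}, a < b → b < c →
      ∑ x ∈ ({a, b, c} : Finset ℕ), f x = f a + f b + f c := by
    intro f a b c h1 h2
    rw [sum_insert (by simp; omega), sum_insert (by simp; omega), sum_singleton]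
    ring
  refine descent N μ hμ (fun v => v < k)
    (fun K c => ∃ a b, Tri q k N a b c ∧ K = {a, b, c}) ?_ ?_ s₀ hs₀ ?_
  · rintro K c ⟨a, b, ⟨h1, h2, h3, -⟩, rfl⟩
    refine ⟨?_, by simp⟩
    intro x hx
    simp only [mem_insert, mem_singleton] at hx
    rw [mem_range]
    omega
  · intro s hs hK hz
    obtain ⟨F, h1, h2, ⟨z, h3, h4, h5⟩, h6⟩ := dir3 k N q μ hq hsy H' s hs (fun a b c hT => by
      rw [← sum3 s hT.1 hT.2.1]
      exact hK _ _ ⟨a, b, hT, rfl⟩) hz
    refine ⟨fun v => (F v : ℝ), h1, fun v hv => h2 v (Int.cast_lt_zero.1 hv),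
      ⟨z, h3, h4, Int.cast_pos.2 h5⟩, ?_⟩
    rintro K c ⟨a, b, hT, rfl⟩ hsc hsum
    rw [sum3 s hT.1 hT.2.1] at hsum
    rw [sum3 _ hT.1 hT.2.1]
    exact_mod_cast h6 a b c hT hsc hsum
  · rintro K c ⟨a, b, hT, rfl⟩
    right
    apply hK₀
    obtain ⟨h1, h2, h3, h4, q1, q2, q3⟩ := hT
    refine ⟨?_, ?_, ?_⟩
    · intro x hx
      simp only [mem_insert, mem_singleton] at hx
      rw [mem_range]
      omega
    · rw [card_insert_of_notMem (by simp; omega), card_insert_of_notMem (by simp; omega),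
        card_singleton]
    · intro x hx y hy hxy
      simp only [mem_insert, mem_singleton] at hx hy
      rcases hx with rfl | rfl | rfl <;> rcases hy with rfl | rfl | rfl <;>
        first
        | (exfalso; omega)
        | exact ⟨by omega, q1⟩
        | exact ⟨by omega, q2⟩
        | exact ⟨by omega, q3⟩

end Pool.Agent.Helper83K9.CF
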