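import Pool.Agent.Helper83K9.CF.Base

/-! [FAM] absorbers at all points -/

namespace Pool.Agent.Helper83K9.CF

open Finset

namespace FamL

open Classical in
/-- the indices of the families which can meet a window -/
noncomputable def idx (n k l : ℕ) (z : ZMod n) : Finset ℕ :=
  (range (n + 2)).filter (fun i => i * l ≤ n + l ∧ ∃ s : ℕ, s ≤ 10 * k ∧
    ((i * l : ℕ) : ZMod n) = z + (s : ZMod n))

theorem card_idx {n k l : ℕ} [NeZero n] (hl : 1 ≤ l) (hln : l < n) (z : ZMod n) :
    (idx n k l z).card * l ≤ 3 * (10 * k + l) := by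
  classical
  have hn0 : 0 < n := by omega
  have h1 : ((idx n k l z) ×ˢ (range l)).card ≤
      3 * (((idx n k l z) ×ˢ (range l)).image
        (fun p : ℕ × ℕ => ((p.1 * l + p.2 : ℕ) : ZMod n))).card := by
    apply card_le_mul_card_image
    intro r hr
    have h2 : Set.InjOn (fun p : ℕ × ℕ => (p.1 * l + p.2) / n)
        ((((idx n k l z) ×ˢ (range l)).filter
          (fun p : ℕ × ℕ => ((p.1 * l + p.2 : ℕ) : ZMod n) = r) : Finset (ℕ × ℕ)) :
            Set (ℕ × ℕ)) := by
      intro p hp p' hp' hpp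
      rw [mem_coe, mem_filter, mem_product, mem_range] at hp hp'
      have h3 : (((p.1 * l + p.2 : ℕ)) : ZMod n) = ((p'.1 * l + p'.2 : ℕ) : ZMod n) :=
        hp.2.trans hp'.2.symm
      rw [ZMod.natCast_eq_natCast_iff'] at h3
      have h4 : p.1 * l + p.2 = p'.1 * l + p'.2 := by
        rw [← Nat.div_add_mod (p.1 * l + p.2) n, ← Nat.div_add_mod (p'.1 * l + p'.2) n]
        simp only at hpp
        rw [hpp, h3]
      have h5 : p.1 = p'.1 := by
        have e1 : (p.1 * l + p.2) / l = p.1 := by
          rw [mul_comm, Nat.mul_add_div (by omega), Nat.div_eq_of_lt hp.1.2, add_zero]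
        have e2 : (p'.1 * l + p'.2) / l = p'.1 := by
          rw [mul_comm, Nat.mul_add_div (by omega), Nat.div_eq_of_lt hp'.1.2, add_zero]
        rw [← e1, ← e2, h4]
      have h6 : p.2 = p'.2 := by
        rw [h5] at h4
        omega
      exact Prod.ext h5 h6
    have h3 := card_le_card_of_injOn (t := range 3) _ (fun p hp => ?_) h2
    · simpa using h3
    · rw [mem_coe, mem_filter, mem_product, mem_range] at hp
      have h4 := hp.1.1
      unfold idx at h4
      rw [mem_filter] at h4
      rw [mem_coe, mem_range, Nat.div_lt_iff_lt_mul hn0]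
      have := hp.1.2
      omega
  have h2 : ((idx n k l z) ×ˢ (range l)).image
        (fun p : ℕ × ℕ => ((p.1 * l + p.2 : ℕ) : ZMod n)) ⊆
      (range (10 * k + l)).image (fun s : ℕ => z + (s : ZMod n)) := by
    intro r hr
    rw [mem_image] at hr ⊢
    obtain ⟨p, hp, rfl⟩ := hr
    rw [mem_product, mem_range] at hp
    have h4 := hp.1
    unfold idx at h4
    rw [mem_filter] at h4
    obtain ⟨-, -, s, hs, hs2⟩ := h4
    refine ⟨s + p.2, ?_, ?_⟩
    · rw [mem_range]; omega
    · push_cast at hs2 ⊢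
      rw [hs2]; ring
  have h3 := card_le_card h2
  have h4 : ((range (10 * k + l)).image (fun s : ℕ => z + (s : ZMod n))).card ≤ 10 * k + l := by
    simpa using card_image_le (s := range (10 * k + l)) (f := fun s : ℕ => z + (s : ZMod n))
  rw [card_product, card_range] at h1
  omega

/-- union of small families is thin -/
theorem thin {n k l : ℕ} [NeZero n] (hl : 1 ≤ l) {g C : ℝ} (hg : 0 ≤ g)
    (hC : ∀ z : ZMod n, ((idx n k l z).card : ℝ) ≤ C)
    {𝓖 : ℕ → Finset (Finset (ZMod n))}
    (h1 : ∀ j, j * l ≤ n + l → ∀ G ∈ 𝓖 j,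
      ∀ v ∈ G, ∃ i : ℕ, i ≤ 9 * k ∧ v = ((j * l : ℕ) : ZMod n) - (4 * k : ℕ) + (i : ZMod n))
    (h2 : ∀ j, n + l < j * l → 𝓖 j = ∅)
    (h3 : ∀ j, (((𝓖 j).biUnion id).card : ℝ) ≤ g) (J : ℕ) :
    Thin n k (C * g) (((range J).biUnion 𝓖).biUnion id) := by
  classical
  intro z
  have hsub : ((range J).biUnion 𝓖).biUnion id ∩ win n k z ⊆
      (idx n k l (z - (5 * k : ℕ))).biUnion (fun i => (𝓖 i).biUnion id) := by
    intro v hv
    rw [mem_inter, mem_biUnion] at hv
    obtain ⟨⟨G, hG, hvG⟩, hvz⟩ := hv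
    rw [mem_biUnion] at hG
    obtain ⟨i, hi, hG⟩ := hG
    rw [mem_biUnion]
    have hil : i * l ≤ n + l := by
      by_contra hcon
      rw [h2 i (by omega)] at hG
      simp at hG
    refine ⟨i, ?_, mem_biUnion.2 ⟨G, hG, hvG⟩⟩
    obtain ⟨s, hs, hs2⟩ := h1 i hil G hG v hvG
    obtain ⟨a, ha, ha2⟩ := mem_win.1 hvz
    unfold idx
    rw [mem_filter, mem_range]
    refine ⟨?_, hil, 9 * k + a - s, by omega, ?_⟩
    · by_contra hcon
      have : (n + 2) * l ≤ i * l := Nat.mul_le_mul_right l (by omega)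
      have h5 : n * 1 ≤ n * l := Nat.mul_le_mul_left n hl
      rw [add_mul] at this
      omega
    · have e : ((i * l : ℕ) : ZMod n) = v + ((4 * k : ℕ) : ZMod n) - (s : ZMod n) := by
        rw [hs2]; ring
      rw [e, ← ha2, Nat.cast_sub (by omega)]
      push_cast
      ring
  have h4 : ((((range J).biUnion 𝓖).biUnion id ∩ win n k z).card : ℝ) ≤
      ∑ i ∈ idx n k l (z - (5 * k : ℕ)), (((𝓖 i).biUnion id).card : ℝ) := by
    have := (card_le_card hsub).trans card_biUnion_le
    exact_mod_cast this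
  have h5 : ∑ i ∈ idx n k l (z - (5 * k : ℕ)), (((𝓖 i).biUnion id).card : ℝ) ≤
      ∑ i ∈ idx n k l (z - (5 * k : ℕ)), g := sum_le_sum (fun i _ => h3 i)
  rw [sum_const, nsmul_eq_mul] at h5
  have h6 := mul_le_mul_of_nonneg_right (hC (z - (5 * k : ℕ))) hg
  linarith

end FamL

open FamL in
theorem fam (h1 : S_FAM1) : S_FAM := by
  classical
  intro t ε ht hε hε1
  obtain ⟨β, ρ, a, hβ, hρ, hρ1, hF⟩ := h1 t ε ht hε hε1
  refine ⟨ρ / 2, by positivity, by linarith, ?_⟩
  intro γ hγ
  obtain ⟨C, hC⟩ : ∃ C : ℝ, C = 120 / ρ + 3 := ⟨_, rfl⟩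
  have hC0 : 0 < C := by rw [hC]; positivity
  have hC1 : 1 ≤ C := by
    rw [hC]
    have : 0 < 120 / ρ := by positivity
    linarith
  obtain ⟨g, hg⟩ : ∃ g : ℝ, g = min β γ / C := ⟨_, rfl⟩
  have hmin : 0 < min β γ := lt_min hβ hγ
  have hg0 : 0 < g := by rw [hg]; positivity
  have hCg : C * g = min β γ := by
    rw [hg]; field_simp
  have hgβ : g ≤ β := by
    have : g ≤ C * g := by nlinarith
    rw [hCg] at this
    exact this.trans (min_le_left _ _)
  obtain ⟨h, k₀, hh, hF⟩ := hF g hg0 hgβ
  refine ⟨h, k₀, hh, ?_⟩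
  intro n k m l _ M hM hk hsl hl1 hl2
  have hkR : (0 : ℝ) < k := by exact_mod_cast hM.kpos
  have hl : 1 ≤ l := by
    have : (0 : ℝ) < l := lt_of_lt_of_le (by positivity) hl1
    exact_mod_cast this
  have hlR : (0 : ℝ) < l := by exact_mod_cast hl
  have hlk : l ≤ k := by
    have : (l : ℝ) ≤ k := by nlinarith
    exact_mod_cast this
  have hln : l < n := by have := hM.size; omega
  have hCz : ∀ z : ZMod n, ((idx n k l z).card : ℝ) ≤ C := by
    intro z
    have h2 : ((idx n k l z).card : ℝ) * l ≤ 3 * (10 * k + l) := by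
      exact_mod_cast card_idx hl hln z
    have h3 : C * l = 120 / ρ * l + 3 * l := by rw [hC]; ring
    have h4 : 30 * (k : ℝ) ≤ 120 / ρ * l := by
      have h5 : 120 / ρ * (ρ / 2 / 2 * k) ≤ 120 / ρ * l :=
        mul_le_mul_of_nonneg_left hl1 (by positivity)
      have h6 : 120 / ρ * (ρ / 2 / 2 * k) = 30 * k := by
        field_simp
        ring
      linarith
    by_contra hcon
    push Not at hcon
    have h7 := mul_lt_mul_of_pos_right hcon hlR
    linarith
  have hthin : ∀ (𝓖 : ℕ → Finset (Finset (ZMod n))),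
      (∀ j, j * l ≤ n + l → ∀ G ∈ 𝓖 j,
        ∀ v ∈ G, ∃ i : ℕ, i ≤ 9 * k ∧ v = ((j * l : ℕ) : ZMod n) - (4 * k : ℕ) + (i : ZMod n)) →
      (∀ j, n + l < j * l → 𝓖 j = ∅) →
      (∀ j, (((𝓖 j).biUnion id).card : ℝ) ≤ g * k) → ∀ J,
      Thin n k (min β γ * k) (((range J).biUnion 𝓖).biUnion id) := by
    intro 𝓖 h2 h3 h4 J
    have := thin hl (by positivity : 0 ≤ g * k) hCz h2 h3 h4 J
    rwa [← mul_assoc, hCg] at this
  -- induction
  have claim : ∀ J : ℕ, ∃ 𝓖 : ℕ → Finset (Finset (ZMod n)),
      (∀ j, j < J → j * l ≤ n + l → 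
        ∀ (q : ℕ) (x : Fin t → ZMod n), (q : ℝ) ≤ ρ * k →
        Req n t q ((j * l : ℕ) : ZMod n) x →
        ∃ 𝓗 ⊆ 𝓖 j, h * k ≤ 𝓗.card ∧
          ∀ G ∈ 𝓗, (∀ i, x i ∉ G) → Tile n k M t (G ∪ univ.image x)) ∧
      (∀ j, ∀ G ∈ 𝓖 j, Tile n k M t G ∧
        ∀ v ∈ G, ∃ i : ℕ, i ≤ 9 * k ∧ v = ((j * l : ℕ) : ZMod n) - (4 * k : ℕ) + (i : ZMod n)) ∧
      (∀ j, (((𝓖 j).biUnion id).card : ℝ) ≤ g * k) ∧
      (∀ j, n + l < j * l → 𝓖 j = ∅) ∧ (∀ j, J ≤ j → 𝓖 j = ∅) ∧
      ∀ i j, ∀ G ∈ 𝓖 i, ∀ G' ∈ 𝓖 j, (i, G) ≠ (j, G') → Disjoint G G' := by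
    intro J
    induction J with
    | zero =>
      refine ⟨fun _ => ∅, fun j hj => absurd hj (by omega), by simp, ?_, by simp, by simp, by simp⟩
      intro j
      simp only [biUnion_empty, card_empty, Nat.cast_zero]
      positivity
    | succ J ih =>
      obtain ⟨𝓖, g1, g2, g3, g4, g5, g6⟩ := ih
      by_cases hJ : J * l ≤ n + l
      · have hthin' := hthin 𝓖 (fun j _ G hG => (g2 j G hG).2) g4 g3 J
        have hthin2 : Thin n k (β * k) (((range J).biUnion 𝓖).biUnion id) :=
          thin_mono hthin' (mul_le_mul_of_nonneg_right (min_le_left _ _) hkR.le) (Subset.refl _)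
        obtain ⟨𝓕, f1, f2, f3, f4⟩ := hF n k m M hM hk hsl ((J * l : ℕ) : ZMod n) _ hthin2
        refine ⟨Function.update 𝓖 J 𝓕, ?_, ?_, ?_, ?_, ?_, ?_⟩
        · intro j hj hjl q x hq hx
          by_cases hjJ : j = J
          · subst hjJ
            rw [Function.update_self]
            exact f4 q x hq hx
          · rw [Function.update_of_ne hjJ]
            exact g1 j (by omega) hjl q x hq hx
        · intro j G hG
          by_cases hjJ : j = J
          · subst hjJ
            rw [Function.update_self] at hG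
            exact ⟨(f1 G hG).2.2.1, (f1 G hG).2.2.2⟩
          · rw [Function.update_of_ne hjJ] at hG
            exact g2 j G hG
        · intro j
          by_cases hjJ : j = J
          · subst hjJ
            rw [Function.update_self]
            exact f3
          · rw [Function.update_of_ne hjJ]
            exact g3 j
        · intro j hj
          have hjJ : j ≠ J := by
            rintro rfl
            omega
          rw [Function.update_of_ne hjJ]
          exact g4 j hj
        · intro j hj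
          rw [Function.update_of_ne (by omega)]
          exact g5 j (by omega)
        · have hcross : ∀ i, i ≠ J → ∀ G ∈ 𝓖 i, ∀ G' ∈ 𝓕, Disjoint G G' := by
            intro i hi G hG G' hG'
            have hiJ : i < J := by
              by_contra hcon
              rw [g5 i (by omega)] at hG
              simp at hG
            have hd := (f1 G' hG').2.1
            have hs : G ⊆ ((range J).biUnion 𝓖).biUnion id :=
              subset_biUnion_of_mem id (mem_biUnion.2 ⟨i, mem_range.2 hiJ, hG⟩)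
            exact (disjoint_of_subset_right hs hd).symm
          intro i j G hG G' hG' hne
          by_cases hi : i = J
          · by_cases hj : j = J
            · subst hi
              subst hj
              rw [Function.update_self] at hG hG'
              exact f2 G hG G' hG' (fun hh => hne (by rw [hh]))
            · subst hi
              rw [Function.update_self] at hG
              rw [Function.update_of_ne hj] at hG'
              exact (hcross j hj G' hG' G hG).symm
          · by_cases hj : j = J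
            · subst hj
              rw [Function.update_self] at hG'
              rw [Function.update_of_ne hi] at hG
              exact hcross i hi G hG G' hG'
            · rw [Function.update_of_ne hi] at hG
              rw [Function.update_of_ne hj] at hG'
              exact g6 i j G hG G' hG' hne
      · refine ⟨𝓖, ?_, g2, g3, g4, fun j hj => g5 j (by omega), g6⟩
        intro j hj hjl
        have : j ≠ J := by
          rintro rfl
          exact hJ hjl
        exact g1 j (by omega) hjl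
  obtain ⟨𝓖, g1, g2, g3, g4, g5, g6⟩ := claim (n + 2)
  have hjn : ∀ j, j * l ≤ n + l → j < n + 2 := by
    intro j hj
    by_contra hcon
    have : (n + 2) * l ≤ j * l := Nat.mul_le_mul_right l (by omega)
    have h5 : n * 1 ≤ n * l := Nat.mul_le_mul_left n hl
    rw [add_mul] at this
    omega
  refine ⟨𝓖, fun j _ G hG => g2 j G hG, g4, g6, ?_, ?_⟩
  · intro z
    have := hthin 𝓖 (fun j _ G hG => (g2 j G hG).2) g4 g3 (n + 2) z
    refine this.trans ?_
    exact mul_le_mul_of_nonneg_right (min_le_right _ _) hkR.le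
  · intro j x hj hx hp
    refine g1 j (hjn j hj) hj (2 * l) x ?_ ⟨hx, ?_⟩
    · push_cast
      nlinarith
    · intro i
      obtain ⟨p, hp1, hp2, hp3, hp4⟩ := hp i
      refine ⟨j * l - p, by omega, by omega, ?_⟩
      rw [hp4, Nat.cast_sub hp2.le]
      ring

end Pool.Agent.Helper83K9.CF
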