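import Pool.Agent.Helper83K9.CF.Stm

/-!
[SEL] selection of candidates by an exponential potential
-/

namespace Pool.Agent.Helper83K9.CF

open Finset

namespace SelL

open Classical in
/-- the number of hits of `x` among the first `i` choices -/
noncomputable def hits {Cand Rq : Type} (hit : Rq → Cand → Prop) (l : ℕ → Cand) (i : ℕ) (x : Rq) :
    Finset ℕ := (range i).filter (fun j => hit x (l j))

theorem exp_one : (1 : ℝ) / Real.exp 1 ≤ 1 / 2 := by
  apply one_div_le_one_div_of_le (by norm_num)
  have := Real.add_one_le_exp 1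
  linarith

open Classical in
/-- one step of the selection -/
theorem step {Cand Rq : Type} (A C : Finset Cand) (X : Finset Rq) (hX : X.Nonempty) (c : ℝ)
    (hc : 0 < c) (hAC : A ⊆ C) (hit : Rq → Cand → Prop) (w : Rq → ℝ) (hw : ∀ x, 0 < w x)
    (h : ∀ x ∈ X, ∃ H : Finset Cand, H ⊆ A ∧ (∀ g ∈ H, hit x g) ∧ 0 < H.card ∧
      c * C.card ≤ H.card) :
    ∃ g ∈ A, ∑ x ∈ X, w x * (if hit x g then Real.exp (-1) else 1) ≤
      Real.exp (-(c / 2)) * ∑ x ∈ X, w x := by
  have hA : A.Nonempty := by
    obtain ⟨x, hx⟩ := hX
    obtain ⟨H, h1, -, h3, -⟩ := h x hx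
    exact (card_pos.1 h3).mono h1
  have hcard : (0 : ℝ) < A.card := by exact_mod_cast card_pos.2 hA
  -- the average over `A`
  have hav : ∑ g ∈ A, ∑ x ∈ X, w x * (if hit x g then Real.exp (-1) else 1) ≤
      ∑ _g ∈ A, (1 - c / 2) * ∑ x ∈ X, w x := by
    rw [sum_comm, sum_const, nsmul_eq_mul, mul_sum, mul_sum]
    refine sum_le_sum fun x hx => ?_
    rw [← mul_sum]
    obtain ⟨H, h1, h2, -, h4⟩ := h x hx
    have h5 : ∑ g ∈ A, (if hit x g then Real.exp (-1) else 1) ≤ (A.card : ℝ) - H.card / 2 := by
      have h6 : ∑ g ∈ A, (if hit x g then Real.exp (-1) else 1) ≤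
          ∑ g ∈ A, (1 - (if g ∈ H then (1 / 2 : ℝ) else 0)) := by
        refine sum_le_sum fun g _ => ?_
        have he : Real.exp (-1) ≤ 1 / 2 := by
          rw [Real.exp_neg, ← one_div]
          exact exp_one
        by_cases hg : g ∈ H
        · rw [if_pos (h2 g hg), if_pos hg]
          linarith
        · rw [if_neg hg]
          split_ifs <;> linarith
      refine h6.trans ?_
      rw [sum_sub_distrib, sum_const, nsmul_eq_mul, mul_one, ← sum_filter, sum_const,
        nsmul_eq_mul]
      have h7 : A.filter (fun g => g ∈ H) = H := by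
        ext g
        rw [mem_filter]
        exact ⟨fun h => h.2, fun h => ⟨h1 h, h⟩⟩
      rw [h7]
      linarith
    have h8 : (A.card : ℝ) ≤ C.card := by exact_mod_cast card_le_card hAC
    have h9 : (A.card : ℝ) - H.card / 2 ≤ A.card * (1 - c / 2) := by nlinarith
    calc w x * ∑ g ∈ A, (if hit x g then Real.exp (-1) else 1)
        ≤ w x * (A.card * (1 - c / 2)) := by
          exact mul_le_mul_of_nonneg_left (h5.trans h9) (hw x).le
      _ = (A.card : ℝ) * ((1 - c / 2) * w x) := by ring
  obtain ⟨g, hg, hgl⟩ := exists_le_of_sum_le hA hav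
  refine ⟨g, hg, hgl.trans ?_⟩
  refine mul_le_mul_of_nonneg_right ?_ (sum_nonneg fun x _ => (hw x).le)
  have := Real.add_one_le_exp (-(c / 2))
  linarith

end SelL

open SelL

open Classical in
theorem sel_main (Cand Rq Sta : Type) [Nonempty Cand] (C : Finset Cand) (X : Finset Rq) (s₀ : Sta)
    (c : ℝ) (R : ℕ) (allowed : Sta → Finset Cand) (next : Sta → Cand → Sta)
    (good : ℕ → Sta → Prop) (hit : Rq → Cand → Prop) (hc : 0 < c) (hX : X.Nonempty)
    (hall : ∀ s, allowed s ⊆ C) (h0 : good 0 s₀)
    (hnext : ∀ i s g, i < R → good i s → g ∈ allowed s → good (i + 1) (next s g))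
    (hH : ∀ i s, i < R → good i s → ∀ x ∈ X, ∃ H : Finset Cand, H ⊆ allowed s ∧
      (∀ g ∈ H, hit x g) ∧ 0 < H.card ∧ c * C.card ≤ H.card) :
    ∃ (l : ℕ → Cand) (st : ℕ → Sta), st 0 = s₀ ∧ (∀ i < R, l i ∈ allowed (st i)) ∧
      (∀ i < R, st (i + 1) = next (st i) (l i)) ∧ (∀ i ≤ R, good i (st i)) ∧
      ∀ x ∈ X, ∃ W : Finset ℕ, W ⊆ range R ∧ (∀ i ∈ W, hit x (l i)) ∧
        c / 2 * R - Real.log X.card ≤ W.card := by
  have key : ∀ i ≤ R, ∃ (l : ℕ → Cand) (st : ℕ → Sta), st 0 = s₀ ∧
      (∀ j < i, l j ∈ allowed (st j)) ∧ (∀ j < i, st (j + 1) = next (st j) (l j)) ∧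
      (∀ j ≤ i, good j (st j)) ∧
      ∑ x ∈ X, Real.exp (-((hits hit l i x).card : ℝ)) ≤ Real.exp (-(c / 2 * i)) * X.card := by
    intro i
    induction i with
    | zero =>
      intro _
      refine ⟨fun _ => Classical.arbitrary Cand, fun _ => s₀, rfl, fun j hj => (by omega),
        fun j hj => (by omega), fun j hj => ?_, ?_⟩
      · obtain rfl : j = 0 := by omega
        exact h0
      · simp [hits]
    | succ i ih =>
      intro hi
      obtain ⟨l, st, h1, h2, h3, h4, h5⟩ := ih (by omega)
      obtain ⟨g, hg, hgl⟩ := step (allowed (st i)) C X hX c hc (hall _) hit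
        (fun x => Real.exp (-((hits hit l i x).card : ℝ))) (fun x => Real.exp_pos _)
        (hH i (st i) (by omega) (h4 i le_rfl))
      refine ⟨Function.update l i g, Function.update st (i + 1) (next (st i) g), ?_, ?_, ?_, ?_, ?_⟩
      · rw [Function.update_of_ne (by omega), h1]
      · intro j hj
        rw [Function.update_of_ne (show j ≠ i + 1 by omega)]
        by_cases hji : j = i
        · subst hji
          rw [Function.update_self]
          exact hg
        · rw [Function.update_of_ne hji]
          exact h2 j (by omega)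
      · intro j hj
        rw [Function.update_of_ne (show j ≠ i + 1 by omega)]
        by_cases hji : j = i
        · subst hji
          rw [Function.update_self, Function.update_self]
        · rw [Function.update_of_ne hji, Function.update_of_ne (by omega)]
          exact h3 j (by omega)
      · intro j hj
        by_cases hji : j = i + 1
        · subst hji
          rw [Function.update_self]
          exact hnext i (st i) g (by omega) (h4 i le_rfl) hg
        · rw [Function.update_of_ne hji]
          exact h4 j (by omega)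
      · have h6 : ∀ x, Real.exp (-((hits hit (Function.update l i g) (i + 1) x).card : ℝ)) =
            Real.exp (-((hits hit l i x).card : ℝ)) *
              (if hit x g then Real.exp (-1) else 1) := by
          intro x
          have h7 : (range i).filter (fun j => hit x (Function.update l i g j)) =
              hits hit l i x := by
            refine filter_congr fun j hj => ?_
            rw [Function.update_of_ne (by rw [mem_range] at hj; omega)]
          unfold hits
          rw [range_add_one, filter_insert, Function.update_self]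
          split_ifs with hx
          · rw [card_insert_of_notMem (by simp), h7, ← Real.exp_add]
            unfold hits
            congr 1
            push_cast
            ring
          · rw [h7, mul_one]
            rfl
        calc ∑ x ∈ X, Real.exp (-((hits hit (Function.update l i g) (i + 1) x).card : ℝ))
            = ∑ x ∈ X, Real.exp (-((hits hit l i x).card : ℝ)) *
              (if hit x g then Real.exp (-1) else 1) := sum_congr rfl fun x _ => h6 x
          _ ≤ Real.exp (-(c / 2)) * ∑ x ∈ X, Real.exp (-((hits hit l i x).card : ℝ)) := hgl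
          _ ≤ Real.exp (-(c / 2)) * (Real.exp (-(c / 2 * i)) * X.card) :=
              mul_le_mul_of_nonneg_left h5 (Real.exp_pos _).le
          _ = Real.exp (-(c / 2 * (i + 1 : ℕ))) * X.card := by
              rw [← mul_assoc, ← Real.exp_add]
              congr 2
              push_cast
              ring
  obtain ⟨l, st, h1, h2, h3, h4, h5⟩ := key R le_rfl
  refine ⟨l, st, h1, h2, h3, h4, fun x hx => ⟨hits hit l R x, filter_subset _ _, ?_, ?_⟩⟩
  · intro i hi
    exact (mem_filter.1 hi).2
  · have h6 : Real.exp (-((hits hit l R x).card : ℝ)) ≤ Real.exp (-(c / 2 * R)) * X.card :=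
      (single_le_sum (f := fun x => Real.exp (-((hits hit l R x).card : ℝ)))
        (fun x _ => (Real.exp_pos _).le) hx).trans h5
    have hXp : (0 : ℝ) < X.card := by exact_mod_cast card_pos.2 hX
    have h7 : Real.exp (-(c / 2 * R)) * X.card = Real.exp (-(c / 2 * R) + Real.log X.card) := by
      rw [Real.exp_add, Real.exp_log hXp]
    rw [h7, Real.exp_le_exp] at h6
    linarith

end Pool.Agent.Helper83K9.CF
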