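import Pool.Agent.Helper83K9.CF.Cnt
import Pool.Agent.Helper83K9.CF.Sel

/-!
[FAM1] a family of disjoint absorbers for all requests at one point
-/

namespace Pool.Agent.Helper83K9.CF

open Finset

namespace Fam1L

/-- `T log k + C₀ ≤ A k` for large `k` -/
theorem log_small (A T C₀ : ℝ) (hA : 0 < A) (hT : 0 ≤ T) :
    ∃ k₀ : ℕ, ∀ k : ℕ, k₀ ≤ k → T * Real.log k + C₀ ≤ A * k := by
  have h1 := Real.isLittleO_log_id_atTop.bound (c := A / (2 * (T + 1))) (by positivity)
  have h2 := tendsto_natCast_atTop_atTop (R := ℝ) |>.eventually h1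
  have h3 : ∀ᶠ k : ℕ in Filter.atTop, 2 * C₀ / A ≤ (k : ℝ) :=
    tendsto_natCast_atTop_atTop.eventually_ge_atTop _
  obtain ⟨k₀, hk₀⟩ := Filter.eventually_atTop.1 (h2.and h3)
  refine ⟨k₀, fun k hk => ?_⟩
  obtain ⟨h4, h5⟩ := hk₀ k hk
  have hk0 : (0 : ℝ) ≤ k := Nat.cast_nonneg k
  rw [Real.norm_eq_abs, id, Real.norm_eq_abs, abs_of_nonneg hk0] at h4
  have h6 : Real.log k ≤ A / (2 * (T + 1)) * k := (le_abs_self _).trans h4
  have h7 : T * Real.log k ≤ A / 2 * k := by
    calc T * Real.log k ≤ T * (A / (2 * (T + 1)) * k) := mul_le_mul_of_nonneg_left h6 hT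
      _ = (T / (T + 1)) * (A / 2 * k) := by field_simp
      _ ≤ 1 * (A / 2 * k) := by
        refine mul_le_mul_of_nonneg_right ?_ (by positivity)
        rw [div_le_one (by linarith)]
        linarith
      _ = A / 2 * k := one_mul _
  rw [div_le_iff₀ hA] at h5
  linarith

/-- the completion of an interface -/
def Cmp (n k a t : ℕ) (M : ZMod n → Finset (ZMod n)) (z : ZMod n) (s : Finset (ZMod n))
    (g : Fin t → Fin (t - 1) → ZMod n) (G : Finset (ZMod n)) : Prop :=
  G.card ≤ a ∧ Disjoint G s ∧ (∀ i j, g i j ∈ G) ∧ Absorber n k M t g G ∧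
    ∀ v ∈ G, ∃ j : ℕ, j ≤ 9 * k ∧ v = z - (4 * k : ℕ) + (j : ZMod n)

end Fam1L

open Fam1L

open Classical in
theorem fam1 (comp : S_COMP) : S_FAM1 := by
  intro t ε ht hε hε1
  obtain ⟨β₁, a, k₁, hβ₁, hcomp⟩ := comp t ε ht hε hε1
  obtain ⟨ρ, k₂, hρ, hρ1, hcnt⟩ := cnt t ε ht hε hε1
  have hβ : 0 < min β₁ ρ / 2 := by positivity
  refine ⟨min β₁ ρ / 2, ρ, a + 1, hβ, hρ, hρ1, ?_⟩
  intro γ hγ hγβ
  set c : ℝ := ρ ^ (t * (t - 1)) with hc
  have hc0 : 0 < c := by positivity
  obtain ⟨k₃, hk₃⟩ := log_small (c * γ / (4 * (a + 1))) t (c / 2) (by positivity) (by positivity)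
  refine ⟨c * γ / (4 * (a + 1)), max (max k₁ k₂) (max k₃ 1), by positivity, ?_⟩
  intro n k m _ M hM hk hsl z B hB
  have hk1 : k₁ ≤ k := ((le_max_left _ _).trans (le_max_left _ _)).trans hk
  have hk2 : k₂ ≤ k := ((le_max_right _ _).trans (le_max_left _ _)).trans hk
  have hk3 : k₃ ≤ k := ((le_max_left _ _).trans (le_max_right _ _)).trans hk
  have hk4 : 1 ≤ k := ((le_max_right _ _).trans (le_max_right _ _)).trans hk
  have hkr : (1 : ℝ) ≤ k := by exact_mod_cast hk4
  have hkn : k ≤ n := by have := hM.size; omega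
  -- the requests
  set Q : ℕ := ⌊ρ * (k : ℝ)⌋₊ with hQ
  have hQk : Q ≤ k := by
    have h1 : (Q : ℝ) ≤ ρ * k := Nat.floor_le (by positivity)
    have h2 : (Q : ℝ) ≤ k := by nlinarith
    exact_mod_cast h2
  let X : Finset (Fin t → ZMod n) := univ.filter (fun x => Req n t Q z x)
  have hreq : ∀ (q : ℕ) (x : Fin t → ZMod n), (q : ℝ) ≤ ρ * k → Req n t q z x → x ∈ X := by
    intro q x hq hx
    refine mem_filter.2 ⟨mem_univ _, hx.1, fun i => ?_⟩
    obtain ⟨p, h1, h2, h3⟩ := hx.2 i
    exact ⟨p, h1, h2.trans (Nat.le_floor hq), h3⟩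
  by_cases hX : X.Nonempty
  swap
  · rw [not_nonempty_iff_eq_empty] at hX
    refine ⟨∅, by simp, by simp, by simp; positivity, ?_⟩
    intro q x hq hx
    have := hreq q x hq hx
    rw [hX] at this
    exact absurd this (notMem_empty _)
  have hXc : (X.card : ℝ) ≤ (k : ℝ) ^ t := by
    have h1 : X ⊆ Fintype.piFinset (fun _ : Fin t =>
        (range k).image (fun p : ℕ => z - ((p + 1 : ℕ) : ZMod n))) := by
      intro x hx
      rw [Fintype.mem_piFinset]
      intro i
      obtain ⟨p, hp1, hp2, hp3⟩ := (mem_filter.1 hx).2.2 i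
      rw [mem_image]
      refine ⟨p - 1, mem_range.2 (by omega), ?_⟩
      rw [hp3, Nat.sub_add_cancel hp1]
    have h2 := card_le_card h1
    rw [Fintype.card_piFinset] at h2
    have h3 : ∏ _i : Fin t, ((range k).image (fun p : ℕ => z - ((p + 1 : ℕ) : ZMod n))).card ≤
        k ^ t := by
      rw [prod_const, card_univ, Fintype.card_fin]
      exact Nat.pow_le_pow_left (card_image_le.trans (card_range k).le) t
    exact_mod_cast h2.trans h3
  -- the candidates
  let Cand := Fin t → Fin (t - 1) → ZMod n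
  let C : Finset Cand := univ.filter (fun g => ∀ i j, g i j ∈ win n k z)
  have hCc : (C.card : ℝ) ≤ (k : ℝ) ^ (t * (t - 1)) := by
    have h1 : C ⊆ Fintype.piFinset (fun _ : Fin t =>
        Fintype.piFinset (fun _ : Fin (t - 1) => win n k z)) := by
      intro g hg
      rw [Fintype.mem_piFinset]
      intro i
      rw [Fintype.mem_piFinset]
      intro j
      exact (mem_filter.1 hg).2 i j
    have h2 := card_le_card h1
    rw [Fintype.card_piFinset] at h2
    have h3 : ∏ _i : Fin t, (Fintype.piFinset (fun _ : Fin (t - 1) => win n k z)).card =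
        k ^ (t * (t - 1)) := by
      rw [prod_const, card_univ, Fintype.card_fin, Fintype.card_piFinset, prod_const, card_univ,
        Fintype.card_fin, card_win hkn, ← pow_mul, mul_comm]
    exact_mod_cast h2.trans h3.le
  set R : ℕ := ⌊γ * (k : ℝ) / (a + 1)⌋₊ with hR
  have hRγ : ((a : ℝ) + 1) * R ≤ γ * k := by
    have h1 : (R : ℝ) ≤ γ * k / (a + 1) := Nat.floor_le (by positivity)
    rwa [le_div_iff₀ (by positivity), mul_comm] at h1
  let allowed : Finset (ZMod n) → Finset Cand := fun s => C.filter (fun g =>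
    Function.Injective (fun q : Fin t × Fin (t - 1) => g q.1 q.2) ∧ (∀ i j, g i j ∉ s) ∧
      ∀ i, IsCl n k M (t - 1) (univ.image (g i)))
  let cm : Finset (ZMod n) → Cand → Finset (ZMod n) := fun s g =>
    if h : ∃ G, Cmp n k a t M z s g G then h.choose else ∅
  let next : Finset (ZMod n) → Cand → Finset (ZMod n) := fun s g => s ∪ cm s g
  let good : ℕ → Finset (ZMod n) → Prop := fun i s => B ⊆ s ∧ (s \ B).card ≤ (a + 1) * i
  let hit : (Fin t → ZMod n) → Cand → Prop := fun x g => ∀ i, x i ∉ univ.image (g i) ∧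
    IsCl n k M t (insert (x i) (univ.image (g i)))
  -- the state is thin
  have hthin : ∀ i s, i < R → good i s → Thin n k (min β₁ ρ * k) s := by
    intro i s hi hs
    have h1 : s = B ∪ (s \ B) := by
      rw [union_sdiff_of_subset hs.1]
    have h2 : (((s \ B).card : ℕ) : ℝ) ≤ γ * k := by
      have h3 : (((s \ B).card : ℕ) : ℝ) ≤ ((a : ℝ) + 1) * i := by exact_mod_cast hs.2
      have h4 : (i : ℝ) ≤ R := by exact_mod_cast hi.le
      have h5 : ((a : ℝ) + 1) * i ≤ ((a : ℝ) + 1) * R :=
        mul_le_mul_of_nonneg_left h4 (by positivity)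
      linarith
    have h6 := thin_union hB (thin_of_card (n := n) (k := k) h2)
    rw [← h1] at h6
    refine thin_mono h6 ?_ (Subset.refl _)
    have : γ * (k : ℝ) ≤ min β₁ ρ / 2 * k := mul_le_mul_of_nonneg_right hγβ (by positivity)
    linarith
  -- the completion exists
  have hcm : ∀ i s g, i < R → good i s → g ∈ allowed s → Cmp n k a t M z s g (cm s g) := by
    intro i s g hi hs hg
    obtain ⟨hgC, hg1, hg2, hg3⟩ := mem_filter.1 hg
    have hex : ∃ G, Cmp n k a t M z s g G := by
      obtain ⟨G, h1, h2, h3, h4, h5⟩ := hcomp n k m M hM hk1 hsl z s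
        (thin_mono (hthin i s hi hs) (mul_le_mul_of_nonneg_right (min_le_left _ _)
          (by positivity)) (Subset.refl _)) g hg1
        (fun i j => ⟨(mem_filter.1 hgC).2 i j, hg2 i j⟩) hg3
      exact ⟨G, h1, h2, h3, h4, h5⟩
    change Cmp n k a t M z s g (if h : ∃ G, Cmp n k a t M z s g G then h.choose else ∅)
    rw [dif_pos hex]
    exact hex.choose_spec
  obtain ⟨l, st, hst0, hl, hst, hgood, hW⟩ := sel_main Cand (Fin t → ZMod n) (Finset (ZMod n)) C X
    B c R allowed next good hit hc0 hX (fun s => filter_subset _ _)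
    ⟨Subset.refl _, by simp⟩
    (by
      intro i s g hi hs hg
      have h1 := hcm i s g hi hs hg
      refine ⟨hs.1.trans subset_union_left, ?_⟩
      have h2 : (s ∪ cm s g) \ B ⊆ (s \ B) ∪ cm s g := by
        intro v hv
        rw [mem_sdiff, mem_union] at hv
        rw [mem_union, mem_sdiff]
        rcases hv.1 with hv1 | hv1
        · exact Or.inl ⟨hv1, hv.2⟩
        · exact Or.inr hv1
      have h3 := (card_le_card h2).trans (card_union_le _ _)
      have h4 := hs.2
      have h5 := h1.1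
      change ((s ∪ cm s g) \ B).card ≤ (a + 1) * (i + 1)
      rw [Nat.mul_succ]
      omega)
    (by
      intro i s hi hs x hx
      have hx' := (mem_filter.1 hx).2
      choose p hp1 hp2 hp3 using hx'.2
      have h1 := hcnt n k m M hM hk2 hsl z s
        (thin_mono (hthin i s hi hs) (mul_le_mul_of_nonneg_right (min_le_right _ _)
          (by positivity)) (Subset.refl _)) p (fun i => ⟨hp1 i, by
            have h2 : (Q : ℝ) ≤ ρ * k := Nat.floor_le (by positivity)
            have h3 : (p i : ℝ) ≤ Q := by exact_mod_cast hp2 i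
            linarith⟩)
      refine ⟨_, ?_, ?_, ?_, le_trans ?_ h1⟩
      · intro g hg
        obtain ⟨-, hg1, hg2, hg3⟩ := mem_filter.1 hg
        refine mem_filter.2 ⟨mem_filter.2 ⟨mem_univ _, fun i j => (hg2 i j).1⟩, hg1,
          fun i j => (hg2 i j).2, fun i => ?_⟩
        have h4 := isCl_subset (hg3 i).2 (subset_insert _ (univ.image (g i)))
        have h5 : (univ.image (g i)).card = t - 1 := by
          rw [card_image_of_injective, card_univ, Fintype.card_fin]
          intro j j' hjj
          have h6 := hg1 (a₁ := (i, j)) (a₂ := (i, j')) hjj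
          exact (Prod.ext_iff.1 h6).2
        rwa [h5] at h4
      · intro g hg
        obtain ⟨-, hg1, hg2, hg3⟩ := mem_filter.1 hg
        intro i
        rw [hp3 i]
        exact hg3 i
      · have h6 : (0 : ℝ) < (ρ * k) ^ (t * (t - 1)) := by positivity
        have h7 := h6.trans_le h1
        exact_mod_cast h7
      · calc c * C.card ≤ c * (k : ℝ) ^ (t * (t - 1)) := mul_le_mul_of_nonneg_left hCc hc0.le
          _ = (ρ * k) ^ (t * (t - 1)) := by rw [hc, mul_pow])
  -- the absorbers
  let G : ℕ → Finset (ZMod n) := fun i => cm (st i) (l i)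
  have hG : ∀ i < R, Cmp n k a t M z (st i) (l i) (G i) := fun i hi =>
    hcm i (st i) (l i) hi (hgood i hi.le) (hl i hi)
  have hstmono : ∀ j ≤ R, ∀ i < j, G i ⊆ st j := by
    intro j
    induction j with
    | zero => intro _ i hi; omega
    | succ j ih =>
      intro hj i hi
      rw [hst j (by omega)]
      by_cases hij : i = j
      · subst hij
        exact subset_union_right
      · exact (ih (by omega) i (by omega)).trans subset_union_left
  have hdisj : ∀ i < R, ∀ j < R, i ≠ j → Disjoint (G i) (G j) := by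
    have h1 : ∀ i j, i < j → j < R → Disjoint (G i) (G j) := by
      intro i j hij hj
      exact (disjoint_of_subset_right (hstmono j hj.le i hij) (hG j hj).2.1).symm
    intro i hi j hj hij
    rcases lt_or_gt_of_ne hij with h | h
    · exact h1 i j h hj
    · exact (h1 j i h hi).symm
  have hne : ∀ i < R, (G i).Nonempty := fun i hi =>
    ⟨_, (hG i hi).2.2.1 ⟨0, by omega⟩ ⟨0, by omega⟩⟩
  have hinj : ∀ i < R, ∀ j < R, G i = G j → i = j := by
    intro i hi j hj hij
    by_contra hne'
    have h1 := hdisj i hi j hj hne'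
    rw [hij, disjoint_self_iff_empty] at h1
    exact (hne j hj).ne_empty h1
  refine ⟨(range R).image G, ?_, ?_, ?_, ?_⟩
  · intro G' hG'
    obtain ⟨i, hi, rfl⟩ := mem_image.1 hG'
    rw [mem_range] at hi
    obtain ⟨h1, h2, h3, h4, h5⟩ := hG i hi
    exact ⟨h1.trans (Nat.le_succ a), disjoint_of_subset_right (hgood i hi.le).1 h2, h4.1, h5⟩
  · intro G₁ hG₁ G₂ hG₂ hne'
    obtain ⟨i, hi, rfl⟩ := mem_image.1 hG₁
    obtain ⟨j, hj, rfl⟩ := mem_image.1 hG₂
    exact hdisj i (mem_range.1 hi) j (mem_range.1 hj) (by rintro rfl; exact hne' rfl)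
  · have h1 : (((range R).image G).biUnion id).card ≤ R * (a + 1) := by
      have h2 : ((range R).image G).biUnion id = (range R).biUnion G := by
        rw [image_biUnion]
        rfl
      rw [h2]
      refine card_biUnion_le.trans ((sum_le_card_nsmul _ _ (a + 1) ?_).trans ?_)
      · intro i hi
        exact (hG i (mem_range.1 hi)).1.trans (Nat.le_succ a)
      · rw [card_range, smul_eq_mul]
    have h3 : ((((range R).image G).biUnion id).card : ℝ) ≤ R * (a + 1) := by exact_mod_cast h1
    linarith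
  · intro q x hq hx
    have hxX := hreq q x hq hx
    obtain ⟨W, hW1, hW2, hW3⟩ := hW x hxX
    refine ⟨W.image G, image_subset_image hW1, ?_, ?_⟩
    · rw [card_image_of_injOn (fun i hi j hj hij =>
        hinj i (mem_range.1 (hW1 hi)) j (mem_range.1 (hW1 hj)) hij)]
      refine le_trans ?_ hW3
      have h1 : γ * (k : ℝ) / (a + 1) - 1 ≤ R := by
        have := Nat.lt_floor_add_one (γ * (k : ℝ) / (a + 1))
        linarith
      have h2 : Real.log X.card ≤ t * Real.log k := by
        rw [← Real.log_pow]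
        exact Real.log_le_log (by exact_mod_cast card_pos.2 hX) hXc
      have h3 := hk₃ k hk3
      have h4 : c / 2 * (γ * (k : ℝ) / (a + 1) - 1) ≤ c / 2 * R :=
        mul_le_mul_of_nonneg_left h1 (by positivity)
      have h5 : c / 2 * (γ * (k : ℝ) / (a + 1) - 1) =
          2 * (c * γ / (4 * (a + 1)) * k) - c / 2 := by
        field_simp
        ring
      linarith
    · intro G' hG' hxG
      obtain ⟨i, hi, rfl⟩ := mem_image.1 hG'
      have hi' := mem_range.1 (hW1 hi)
      have h1 := hW2 i hi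
      exact (hG i hi').2.2.2.1.2 x hx.1 hxG (fun j => (h1 j).2)

end Pool.Agent.Helper83K9.CF
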