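import Pool.Agent.Helper83K9.CF.Stm

/-!
Clique factors in dense subgraphs of powers of cycles: the lower bound.
-/

set_option autoImplicit false

namespace Pool.Agent.Helper83K9.CF

open Finset

namespace LowL

/-- the residue -/
def rs (n T : ℕ) (x : ZMod n) : ℕ := x.val % T

/-- the class -/
def cls (n T l : ℕ) (x : ZMod n) : ℕ := (rs n T x + 1) / (l + 1)

/-- the graph -/
def HH (n k T l : ℕ) : SimpleGraph (ZMod n) where
  Adj x y := (cyc n k).Adj x y ∧ cls n T l x ≠ cls n T l y
  symm := ⟨fun _ _ h => ⟨h.1.symm, h.2.symm⟩⟩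
  loopless := ⟨fun _ h => h.2 rfl⟩

lemma adj_int {n k : ℕ} {x y : ZMod n} (h : (cyc n k).Adj x y) :
    ∃ d : ℤ, |d| ≤ k ∧ y = x + (d : ZMod n) := by
  obtain ⟨_, d, h1, h2, h3 | h3⟩ := h
  · refine ⟨d, ?_, ?_⟩
    · rw [abs_of_nonneg (by positivity)]
      exact_mod_cast h2
    · push_cast
      rw [← h3]
      ring
  · refine ⟨-d, ?_, ?_⟩
    · rw [abs_neg, abs_of_nonneg (by positivity)]
      exact_mod_cast h2
    · push_cast
      rw [← h3]
      ring

lemma adj_of_int {n k : ℕ} {x : ZMod n} {d : ℤ} (h : |d| ≤ k) (h0 : d ≠ 0)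
    (hne : x ≠ x + (d : ZMod n)) : (cyc n k).Adj x (x + (d : ZMod n)) := by
  refine ⟨hne, d.natAbs, Int.natAbs_pos.2 h0, ?_, ?_⟩
  · have : (d.natAbs : ℤ) ≤ k := by rw [Int.natCast_natAbs]; exact h
    exact_mod_cast this
  · rcases le_total 0 d with h1 | h1
    · left
      have : ((d.natAbs : ℕ) : ZMod n) = ((d.natAbs : ℤ) : ZMod n) :=
        (Int.cast_natCast d.natAbs).symm
      rw [this, Int.natCast_natAbs, abs_of_nonneg h1]
      ring
    · right
      have : ((d.natAbs : ℕ) : ZMod n) = ((d.natAbs : ℤ) : ZMod n) :=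
        (Int.cast_natCast d.natAbs).symm
      rw [this, Int.natCast_natAbs, abs_of_nonpos h1]
      push_cast
      ring

/-- the key lemma -/
lemma key {n k T l t : ℕ} [NeZero n] (hn : n = t * T) (hT : k + l < T) {x y : ZMod n} {d : ℤ}
    (hd : |d| ≤ k) (hy : y = x + (d : ZMod n)) (hc : cls n T l x = cls n T l y) :
    d = (rs n T y : ℤ) - rs n T x := by
  have hT0 : 0 < T := by omega
  have h1 : (n : ℤ) ∣ (y.val : ℤ) - x.val - d := by
    rw [← ZMod.intCast_zmod_eq_zero_iff_dvd]
    push_cast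
    rw [ZMod.natCast_zmod_val, ZMod.natCast_zmod_val, hy]
    ring
  have h2 : (T : ℤ) ∣ (y.val : ℤ) - x.val - d := by
    refine dvd_trans ?_ h1
    rw [hn]
    push_cast
    exact dvd_mul_left _ _
  have h3 : (T : ℤ) ∣ (rs n T y : ℤ) - rs n T x - d := by
    have e1 : (y.val : ℤ) = T * ((y.val / T : ℕ) : ℤ) + (rs n T y : ℤ) := by
      have := Nat.div_add_mod y.val T
      unfold rs
      exact_mod_cast this.symm
    have e2 : (x.val : ℤ) = T * ((x.val / T : ℕ) : ℤ) + (rs n T x : ℤ) := by
      have := Nat.div_add_mod x.val T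
      unfold rs
      exact_mod_cast this.symm
    have e3 : (rs n T y : ℤ) - rs n T x - d = ((y.val : ℤ) - x.val - d) -
        T * (((y.val / T : ℕ) : ℤ) - ((x.val / T : ℕ) : ℤ)) := by
      rw [e1, e2]
      push_cast
      have : ∀ a b c e f g : ℤ, a - b - c = f * e + a - (f * g + b) - c - f * (e - g) := by
        intros; ring
      exact this _ _ _ _ _ _
    rw [e3]
    exact dvd_sub h2 (dvd_mul_right _ _)
  have h4 : |(rs n T y : ℤ) - rs n T x| ≤ l := by
    unfold cls at hc
    have a1 := Nat.div_add_mod (rs n T x + 1) (l + 1)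
    have a2 := Nat.div_add_mod (rs n T y + 1) (l + 1)
    have a3 := Nat.mod_lt (rs n T x + 1) (show 0 < l + 1 by omega)
    have a4 := Nat.mod_lt (rs n T y + 1) (show 0 < l + 1 by omega)
    rw [← hc] at a2
    rw [abs_le]
    constructor <;> omega
  have h5 : (rs n T y : ℤ) - rs n T x - d = 0 := by
    apply Int.eq_zero_of_abs_lt_dvd h3
    have : |(rs n T y : ℤ) - rs n T x - d| ≤ |(rs n T y : ℤ) - rs n T x| + |d| := abs_sub _ _
    have hT' : (k : ℤ) + l < T := by exact_mod_cast hT
    linarith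
  linarith

/-- the degree of `C_n^k` -/
lemma deg_ge {n k : ℕ} [NeZero n] (h : 2 * k + 1 ≤ n) (x : ZMod n) : 2 * k ≤ deg (cyc n k) x := by
  have hinj : ∀ i ∈ (Icc (-(k : ℤ)) k).erase 0, ∀ j ∈ (Icc (-(k : ℤ)) k).erase 0,
      x + (i : ZMod n) = x + (j : ZMod n) → i = j := by
    intro i hi j hj hij
    have h1 := add_left_cancel hij
    have h2 : (n : ℤ) ∣ i - j := by
      rw [← ZMod.intCast_zmod_eq_zero_iff_dvd]
      push_cast
      rw [h1, sub_self]
    rw [mem_erase, mem_Icc] at hi hj
    have h3 : i - j = 0 := by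
      apply Int.eq_zero_of_abs_lt_dvd h2
      rw [abs_lt]
      constructor <;> omega
    linarith
  have hcard : ((Icc (-(k : ℤ)) k).erase 0).card = 2 * k := by
    rw [card_erase_of_mem (by rw [mem_Icc]; omega), Int.card_Icc]
    omega
  have h1 : (((Icc (-(k : ℤ)) k).erase 0).image (fun i : ℤ => x + (i : ZMod n))).card = 2 * k := by
    rw [card_image_of_injOn (fun i hi j hj hij => hinj i hi j hj hij), hcard]
  rw [← h1, ← Set.ncard_coe_finset]
  unfold deg
  apply Set.ncard_le_ncard _ (Set.toFinite _)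
  intro y hy
  rw [mem_coe, mem_image] at hy
  obtain ⟨i, hi, rfl⟩ := hy
  have hi' := hi
  rw [mem_erase, mem_Icc] at hi'
  apply adj_of_int (abs_le.2 hi'.2) hi'.1
  intro h2
  have h3 : ((i : ℤ) : ZMod n) = 0 := by
    have : x + 0 = x + (i : ZMod n) := by rw [add_zero]; exact h2
    exact (add_left_cancel this).symm
  rw [ZMod.intCast_zmod_eq_zero_iff_dvd] at h3
  have h4 : i = 0 := by
    apply Int.eq_zero_of_abs_lt_dvd h3
    rw [abs_lt]
    constructor <;> omega
  exact hi'.1 h4

end LowL

open LowL in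
/-- the leaf LOW -/
theorem low : S_LOW := by
  classical
  intro t ht hA
  obtain ⟨_, k₀, hk₀⟩ := hA
  obtain ⟨l, hl⟩ : ∃ l : ℕ, l = k₀ + 1 := ⟨_, rfl⟩
  obtain ⟨k, hk⟩ : ∃ k : ℕ, k = (t - 1) * l := ⟨_, rfl⟩
  obtain ⟨T, hT⟩ : ∃ T : ℕ, T = t * l + (t - 1) := ⟨_, rfl⟩
  obtain ⟨n, hn⟩ : ∃ n : ℕ, n = t * T := ⟨_, rfl⟩
  obtain ⟨s, rfl⟩ : ∃ s, t = s + 3 := ⟨t - 3, by omega⟩
  have hs : s + 3 - 1 = s + 2 := by omega
  rw [hs] at hk hT
  have hlpos : 1 ≤ l := by omega
  have hkl : k + l < T := by rw [hk, hT]; nlinarith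
  have hkpos : 1 ≤ k := by rw [hk]; nlinarith
  have hkk : k₀ ≤ k := by rw [hk]; nlinarith
  have hTpos : 1 ≤ T := by omega
  have h2k : 2 * k + 1 ≤ n := by rw [hn]; nlinarith
  have : NeZero n := ⟨by omega⟩
  -- the missing neighbours
  have hmiss : ∀ x : ZMod n, {y | (cyc n k).Adj x y ∧ cls n T l x = cls n T l y}.ncard ≤ l := by
    intro x
    have hcl : ∀ y : ZMod n, cls n T l x = cls n T l y →
        rs n T y + 1 ∈ Ico (cls n T l x * (l + 1)) (cls n T l x * (l + 1) + (l + 1)) := by
      intro y hy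
      rw [hy, mem_Ico]
      have a2 := Nat.div_add_mod (rs n T y + 1) (l + 1)
      have a4 := Nat.mod_lt (rs n T y + 1) (show 0 < l + 1 by omega)
      unfold cls
      rw [mul_comm] at a2
      constructor <;> omega
    have h1 : {y | (cyc n k).Adj x y ∧ cls n T l x = cls n T l y}.ncard ≤
        (((Ico (cls n T l x * (l + 1)) (cls n T l x * (l + 1) + (l + 1))).erase
          (rs n T x + 1) : Finset ℕ) : Set ℕ).ncard := by
      apply Set.ncard_le_ncard_of_injOn (fun y => rs n T y + 1)
      · rintro y ⟨hy, hc⟩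
        rw [mem_coe, mem_erase]
        refine ⟨?_, hcl y hc⟩
        intro h0
        obtain ⟨d, hd, hyd⟩ := adj_int hy
        have h2 := key hn hkl hd hyd hc
        have h3 : rs n T y = rs n T x := by simpa using h0
        rw [h3, sub_self] at h2
        apply hy.1
        rw [hyd, h2]
        simp
      · rintro y ⟨hy, hc⟩ y' ⟨hy', hc'⟩ h0
        obtain ⟨d, hd, hyd⟩ := adj_int hy
        obtain ⟨d', hd', hyd'⟩ := adj_int hy'
        have h2 := key hn hkl hd hyd hc
        have h2' := key hn hkl hd' hyd' hc'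
        have h3 : rs n T y = rs n T y' := by simpa using h0
        rw [hyd, hyd', h2, h2', h3]
    refine h1.trans ?_
    rw [Set.ncard_coe_finset, card_erase_of_mem (hcl x rfl), Nat.card_Ico]
    omega
  -- the subgraph
  have hsub : AlphaSub (1 - 1 / (2 * (((s + 3 : ℕ) : ℝ) - 1))) (HH n k T l) (cyc n k) := by
    refine ⟨fun x y h => h.1, fun x => ?_⟩
    have h1 : deg (cyc n k) x ≤ deg (HH n k T l) x + l := by
      unfold deg
      have h2 : (cyc n k).neighborSet x ⊆ (HH n k T l).neighborSet x ∪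
          {y | (cyc n k).Adj x y ∧ cls n T l x = cls n T l y} := by
        intro y hy
        by_cases hc : cls n T l x = cls n T l y
        · right; exact ⟨hy, hc⟩
        · left; exact ⟨hy, hc⟩
      refine (Set.ncard_le_ncard h2 (Set.toFinite _)).trans ?_
      refine (Set.ncard_union_le _ _).trans ?_
      have := hmiss x
      omega
    have h3 := deg_ge h2k x
    have h4 : (deg (cyc n k) x : ℝ) ≤ deg (HH n k T l) x + l := by exact_mod_cast h1
    have h5 : (2 : ℝ) * ((s + 2) * l) ≤ deg (cyc n k) x := by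
      have h3' : 2 * ((s + 2) * l) ≤ deg (cyc n k) x := by rw [← hk]; exact h3
      exact_mod_cast h3'
    have h6 : (0 : ℝ) < 2 * (s + 2) := by positivity
    have h7 : (l : ℝ) ≤ deg (cyc n k) x / (2 * (s + 2)) := by
      rw [le_div_iff₀ h6]
      linarith
    push_cast
    have h8 : (s : ℝ) + 3 - 1 = s + 2 := by ring
    rw [h8]
    have h9 : (1 - 1 / (2 * ((s : ℝ) + 2))) * deg (cyc n k) x =
        deg (cyc n k) x - deg (cyc n k) x / (2 * (s + 2)) := by ring
    rw [h9]
    linarith
  obtain ⟨F, hF1, hF2, hF3⟩ := hk₀ k n hkpos hkk (by omega) ⟨T, hn⟩ (HH n k T l) hsub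
  -- each clique has a vertex of class 0
  have hcls : ∀ x : ZMod n, cls n T l x < s + 3 := by
    intro x
    unfold cls
    rw [Nat.div_lt_iff_lt_mul (by omega)]
    have h1 : rs n T x < T := Nat.mod_lt _ (by omega)
    have h2 : rs n T x < (s + 3) * l + (s + 2) := by rw [← hT]; exact h1
    nlinarith
  have hzero : ∀ K ∈ F, ∃ w ∈ K, cls n T l w = 0 := by
    intro K hK
    have hcl := hF1 K hK
    have hcard : K.card = s + 3 := hcl.card_eq
    have h1 : K.image (cls n T l) = range (s + 3) := by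
      apply eq_of_subset_of_card_le
      · intro c hc
        obtain ⟨x, _, rfl⟩ := mem_image.1 hc
        exact mem_range.2 (hcls x)
      · rw [card_range, card_image_of_injOn, hcard]
        intro x hx y hy hxy
        by_contra hne
        exact (hcl.isClique hx hy hne).2 hxy
    have h2 : 0 ∈ K.image (cls n T l) := by rw [h1]; exact mem_range.2 (by omega)
    obtain ⟨w, hw, hw0⟩ := mem_image.1 h2
    exact ⟨w, hw, hw0⟩
  choose Kf hKf using hF3
  choose! wf hwf using hzero
  have hcount : (univ : Finset (ZMod n)).card ≤ (s + 3) *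
      ((univ : Finset (ZMod n)).filter (fun w => cls n T l w = 0)).card := by
    apply card_le_mul_card_image_of_maps_to (f := fun v => wf (Kf v))
    · intro v _
      rw [mem_filter]
      exact ⟨mem_univ _, (hwf _ (hKf v).1).2⟩
    · intro w _
      have h1 : (univ.filter (fun v => wf (Kf v) = w)) ⊆ Kf w := by
        intro v hv
        rw [mem_filter] at hv
        have h2 : w ∈ Kf v := by
          have := (hwf _ (hKf v).1).1
          rwa [hv.2] at this
        have h3 : Kf v = Kf w := by
          by_contra hne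
          exact hF2 _ (hKf v).1 _ (hKf w).1 hne w h2 (hKf w).2
        rw [← h3]
        exact (hKf v).2
      refine (card_le_card h1).trans ?_
      rw [(hF1 _ (hKf w).1).card_eq]
  have hcl0 : ((univ : Finset (ZMod n)).filter (fun w => cls n T l w = 0)).card ≤ (s + 3) * l := by
    have h1 : ((range (s + 3)) ×ˢ (range l)).card = (s + 3) * l := by
      rw [card_product, card_range, card_range]
    rw [← h1]
    apply card_le_card_of_injOn (fun w => (w.val / T, w.val % T))
    · intro w hw
      rw [mem_coe, mem_filter] at hw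
      rw [mem_coe, mem_product, mem_range, mem_range]
      constructor
      · rw [Nat.div_lt_iff_lt_mul (by omega), ← hn]
        exact ZMod.val_lt w
      · have h2 := hw.2
        unfold cls at h2
        rw [Nat.div_eq_zero_iff] at h2
        rcases h2 with h2 | h2
        · omega
        · have : rs n T w < l := by omega
          exact this
    · intro w _ w' _ hww
      simp only [Prod.mk.injEq] at hww
      apply ZMod.val_injective n
      rw [← Nat.div_add_mod w.val T, ← Nat.div_add_mod w'.val T, hww.1, hww.2]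
  rw [card_univ, ZMod.card] at hcount
  have h9 : n ≤ (s + 3) * ((s + 3) * l) := hcount.trans (Nat.mul_le_mul_left _ hcl0)
  rw [hn, hT] at h9
  nlinarith

end Pool.Agent.Helper83K9.CF
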