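import Pool.Agent.Helper83K9.CF.Base

/-! [PART] partition of the cycle into arcs -/

namespace Pool.Agent.Helper83K9.CF

open Finset

namespace PartL

/-- index of the arc of `v` -/
def idx (n N : ℕ) (v : ZMod n) : ℕ := min (v.val / N) (n / N - 1)

theorem cast_val {n : ℕ} [NeZero n] {a : ℕ} (h : a < n) : ((a : ZMod n)).val = a :=
  ZMod.val_natCast_of_lt h

end PartL

open PartL in
theorem part : S_PART := by
  intro n k N _ hk hn hN
  have hN0 : 0 < N := by omega
  have hn0 : 0 < n := by omega
  by_cases h : n ≤ 2 * N
  · refine ⟨1, fun _ => univ, fun j _ => Or.inl ⟨h, fun v => mem_univ v⟩,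
      fun v => ⟨0, by norm_num, mem_univ v⟩, ?_, ?_⟩
    · intro i hi j hj hij
      omega
    · intro y
      refine (card_filter_le _ _).trans ?_
      simp
  · push Not at h
    set J := n / N with hJ
    have hJ2 : 2 ≤ J := by
      rw [hJ, Nat.le_div_iff_mul_le hN0]; omega
    have hJn : J * N ≤ n := Nat.div_mul_le_self n N
    have hJn' : n < (J + 1) * N := by
      rw [hJ, Nat.add_mul, one_mul]
      have := Nat.mod_lt n hN0
      have h2 := Nat.div_add_mod n N
      rw [mul_comm] at h2
      omega
    refine ⟨J, fun j => univ.filter (fun v => idx n N v = j), ?_, ?_, ?_, ?_⟩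
    · intro j hj
      refine Or.inr ⟨((j * N : ℕ) : ZMod n), if j + 1 < J then N else n - (J - 1) * N, ?_, ?_, ?_⟩
      · split_ifs with h1
        · exact le_rfl
        · have : (J - 1) * N + N = J * N := by
            obtain ⟨J', hJ'⟩ : ∃ J', J = J' + 1 := ⟨J - 1, by omega⟩
            rw [hJ']; simp; ring
          omega
      · split_ifs with h1
        · omega
        · have : (J - 1) * N + 2 * N = (J + 1) * N := by
            obtain ⟨J', hJ'⟩ : ∃ J', J = J' + 1 := ⟨J - 1, by omega⟩
            rw [hJ']; simp; ring
          omega
      · ext v
        rw [mem_filter, mem_win]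
        have hv := ZMod.val_lt v
        constructor
        · rintro ⟨-, h1⟩
          unfold idx at h1
          rw [← hJ] at h1
          split_ifs with h2
          · have h3 : v.val / N = j := by omega
            have h4 := Nat.div_add_mod v.val N
            have h5 := Nat.mod_lt v.val hN0
            rw [h3] at h4
            refine ⟨v.val % N, h5, ?_⟩
            rw [← Nat.cast_add, mul_comm j N, h4, ZMod.natCast_zmod_val]
          · have h3 : j = J - 1 := by omega
            have h4 : j * N ≤ v.val := by
              rw [← Nat.le_div_iff_mul_le hN0]; omega
            refine ⟨v.val - j * N, ?_, ?_⟩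
            · rw [← h3]; omega
            · rw [← Nat.cast_add, Nat.add_sub_cancel' h4, ZMod.natCast_zmod_val]
        · rintro ⟨i, hi, h1⟩
          refine ⟨mem_univ _, ?_⟩
          have h6 : (J - 1) * N + N = J * N := by
            obtain ⟨J', hJ'⟩ : ∃ J', J = J' + 1 := ⟨J - 1, by omega⟩
            rw [hJ']; simp; ring
          rw [← Nat.cast_add] at h1
          split_ifs at hi with h2
          · have h3 : j * N + i < n := by
              have : (j + 1) * N ≤ (J - 1) * N := Nat.mul_le_mul_right N (by omega)
              rw [add_mul] at this
              omega
            rw [← h1]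
            unfold idx
            rw [cast_val h3, mul_comm, Nat.mul_add_div hN0, Nat.div_eq_of_lt hi, ← hJ]
            omega
          · have h3 : j = J - 1 := by omega
            have h4 : j * N + i < n := by rw [h3]; omega
            rw [← h1]
            unfold idx
            rw [cast_val h4, mul_comm, Nat.mul_add_div hN0, ← hJ]
            have h5 : 0 ≤ i / N := Nat.zero_le _
            omega
    · intro v
      refine ⟨idx n N v, ?_, by simp⟩
      unfold idx
      rw [← hJ]
      omega
    · intro i _ j _ hij
      rw [disjoint_left]
      intro v hv hv'
      rw [mem_filter] at hv hv'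
      exact hij (hv.2.symm.trans hv'.2)
    · intro y
      have hy := ZMod.val_lt y
      -- value of `y - i`
      have key : ∀ i : ℕ, i ≤ 2 * N → (y - (i : ZMod n)).val =
          if i ≤ y.val then y.val - i else n + y.val - i := by
        intro i hi
        split_ifs with h1
        · have : y - (i : ZMod n) = ((y.val - i : ℕ) : ZMod n) := by
            rw [Nat.cast_sub h1, ZMod.natCast_zmod_val]
          rw [this, cast_val (by omega)]
        · have : y - (i : ZMod n) = ((n + y.val - i : ℕ) : ZMod n) := by
            rw [Nat.cast_sub (by omega), Nat.cast_add, ZMod.natCast_zmod_val, ZMod.natCast_self,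
              zero_add]
          rw [this, cast_val (by omega)]
      by_cases hY : 2 * N ≤ y.val
      · have hsub : (range J).filter (fun j => ∃ i : ℕ, i ≤ N + 3 * k ∧
            y - (i : ZMod n) ∈ univ.filter (fun v => idx n N v = j)) ⊆
            Icc (y.val / N - 2) (y.val / N) := by
          intro j hj
          rw [mem_filter] at hj
          obtain ⟨-, i, hi, h1⟩ := hj
          rw [mem_filter] at h1
          have h2 := h1.2
          unfold idx at h2
          rw [key i (by omega), if_pos (by omega), ← hJ] at h2
          have h3 : (y.val - i) / N ≤ y.val / N := Nat.div_le_div_right (by omega)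
          have h4 : (y.val - 2 * N) / N ≤ (y.val - i) / N := Nat.div_le_div_right (by omega)
          have h5 : (y.val - 2 * N) / N = y.val / N - 2 := by
            rw [mul_comm 2 N]
            exact Nat.sub_mul_div _ _ _
          have h6 : y.val / N ≤ J := Nat.div_le_div_right (by omega)
          rw [mem_Icc]
          omega
        refine (card_le_card hsub).trans ?_
        rw [Nat.card_Icc]
        omega
      · have hsub : (range J).filter (fun j => ∃ i : ℕ, i ≤ N + 3 * k ∧
            y - (i : ZMod n) ∈ univ.filter (fun v => idx n N v = j)) ⊆
            {0, 1, J - 2, J - 1} := by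
          intro j hj
          rw [mem_filter] at hj
          obtain ⟨-, i, hi, h1⟩ := hj
          rw [mem_filter] at h1
          have h2 := h1.2
          unfold idx at h2
          rw [key i (by omega), ← hJ] at h2
          simp only [mem_insert, mem_singleton]
          split_ifs at h2 with h3
          · have h4 : (y.val - i) / N < 2 := by
              rw [Nat.div_lt_iff_lt_mul hN0]; omega
            omega
          · have h4 : J - 2 ≤ (n + y.val - i) / N := by
              rw [Nat.le_div_iff_mul_le hN0]
              have : (J - 2) * N + 2 * N = J * N := by
                obtain ⟨J', hJ'⟩ : ∃ J', J = J' + 2 := ⟨J - 2, by omega⟩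
                rw [hJ']; simp; ring
              omega
            omega
        refine (card_le_card hsub).trans ?_
        exact card_le_four
end Pool.Agent.Helper83K9.CF
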