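import Pool.Agent.Helper83K9.CF.Stm

/-! # Leaf POT: random greedy, derandomised by an exponential potential (abstract). -/

set_option autoImplicit false

namespace Pool.Agent.Helper83K9.CF

open Finset

namespace PotL

lemma exp_le_quad {x : ℝ} (h : |x| ≤ 1) : Real.exp x ≤ 1 + x + x ^ 2 := by
  have h1 := Real.abs_exp_sub_one_sub_id_le h
  have h2 := (abs_le.1 h1).2
  linarith

lemma exp_le_lin {x : ℝ} (h0 : 0 ≤ x) (h : x ≤ 1) : Real.exp x - 1 ≤ 2 * x := by
  have h1 := Real.abs_exp_sub_one_le (x := x) (by rw [abs_of_nonneg h0]; exact h)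
  rw [abs_of_nonneg h0] at h1
  exact (le_abs_self _).trans h1

/-- one vertex, expectation -/
lemma point {a s r c e η d : ℝ} (ha : 0 ≤ a) (had : a ≤ 1 / d) (hs : 0 < s) (hs1 : s ≤ 1) (hr : 0 ≤ r) (hr1 : r ≤ 1)
    (hrc : r ≤ c) (hce : c ≤ r + e) (he : e ≤ η) (hη : 0 ≤ η) :
    -((1 / d) * (s + 3 * η)) ≤ (1 / s) * (a * Real.exp (s * r) - a) - c * (a * Real.exp (s * r)) ∧
      (1 / s) * (a * Real.exp (s * r) - a) - c * (a * Real.exp (s * r)) ≤ 0 := by
  have hx0 : 0 ≤ s * r := by positivity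
  have hxs : s * r ≤ s := mul_le_of_le_one_right hs.le hr1
  have hx1 : s * r ≤ 1 := hxs.trans hs1
  have hE : 0 < Real.exp (s * r) := Real.exp_pos _
  have key : (1 / s) * (a * Real.exp (s * r) - a) - c * (a * Real.exp (s * r)) =
      (a / s) * (Real.exp (s * r) * (1 - s * c) - 1) := by field_simp; ring
  have hup : Real.exp (s * r) * (1 - s * c) ≤ 1 := by
    have h1 : s * r ≤ s * c := mul_le_mul_of_nonneg_left hrc hs.le
    have h2 : 1 - s * c ≤ Real.exp (-(s * r)) := by
      have := Real.add_one_le_exp (-(s * r))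
      linarith
    calc Real.exp (s * r) * (1 - s * c) ≤ Real.exp (s * r) * Real.exp (-(s * r)) := mul_le_mul_of_nonneg_left h2 hE.le
      _ = 1 := by rw [← Real.exp_add]; simp
  have hlo : 1 - s ^ 2 - 3 * s * η ≤ Real.exp (s * r) * (1 - s * c) := by
    have h1 : s * c ≤ s * r + s * η := by nlinarith
    have h2 : Real.exp (s * r) ≤ 3 := by
      have := exp_le_lin hx0 hx1
      linarith
    have h3 : 1 + s * r ≤ Real.exp (s * r) := by
      have := Real.add_one_le_exp (s * r)
      linarith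
    have h4 : Real.exp (s * r) * (1 - s * r - s * η) ≤ Real.exp (s * r) * (1 - s * c) :=
      mul_le_mul_of_nonneg_left (by linarith) hE.le
    have h5 : (1 + s * r) * (1 - s * r) ≤ Real.exp (s * r) * (1 - s * r) :=
      mul_le_mul_of_nonneg_right h3 (by linarith)
    have h6 : Real.exp (s * r) * (s * η) ≤ 3 * (s * η) := mul_le_mul_of_nonneg_right h2 (by positivity)
    have h7 : (s * r) ^ 2 ≤ s ^ 2 := by
      apply pow_le_pow_left₀ hx0 hxs
    nlinarith
  rw [key]
  have has : 0 ≤ a / s := by positivity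
  constructor
  · have h1 : (a / s) * (-(s ^ 2 + 3 * s * η)) ≤ (a / s) * (Real.exp (s * r) * (1 - s * c) - 1) :=
      mul_le_mul_of_nonneg_left (by linarith) has
    have h2 : (a / s) * (-(s ^ 2 + 3 * s * η)) = -(a * (s + 3 * η)) := by field_simp
    have h3 : a * (s + 3 * η) ≤ (1 / d) * (s + 3 * η) := mul_le_mul_of_nonneg_right had (by positivity)
    linarith
  · exact mul_nonpos_of_nonneg_of_nonpos has (by linarith)

variable {V : Type} [Fintype V] [DecidableEq V]

/-- the change of a test when `K` is removed -/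
noncomputable def Del (P : Finset V) (a a' : V → ℝ) (K : Finset V) : ℝ := ∑ v ∈ P, ((if v ∈ K then 0 else a' v) - a v)

/-- swapping the sums -/
lemma swap (P : Finset V) (w : Finset V → ℝ) (a a' : V → ℝ) :
    ∑ K, w K * Del P a a' K = ∑ v ∈ P, ((∑ K, w K) * (a' v - a v) - (∑ K, (if v ∈ K then w K else 0)) * a' v) := by
  unfold Del
  simp only [mul_sum]
  rw [sum_comm]
  refine sum_congr rfl fun v _ => ?_
  rw [sum_mul, sum_mul, ← sum_sub_distrib]
  refine sum_congr rfl fun K _ => ?_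
  by_cases h : v ∈ K
  · simp only [h, if_true]; ring
  · simp only [h, if_false]; ring

/-- swapping the sums, absolute values -/
lemma swap2 (P : Finset V) (w : Finset V → ℝ) (a a' : V → ℝ) :
    ∑ K, w K * ∑ v ∈ P, ((a' v - a v) + (if v ∈ K then a' v else 0)) =
      ∑ v ∈ P, ((∑ K, w K) * (a' v - a v) + (∑ K, (if v ∈ K then w K else 0)) * a' v) := by
  simp only [mul_sum]
  rw [sum_comm]
  refine sum_congr rfl fun v _ => ?_
  rw [sum_mul, sum_mul, ← sum_add_distrib]
  refine sum_congr rfl fun K _ => ?_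
  by_cases h : v ∈ K
  · simp only [h, if_true]; ring
  · simp only [h, if_false]; ring

/-- one test, one step -/
lemma step {t k : ℕ} {d κ η lam s B : ℝ} (hd : 0 < d) (hκ : 0 < κ) (hη : 0 ≤ η) (hη1 : η ≤ 1)
    (P : Finset V) (hP : (P.card : ℝ) ≤ 3 * k) (r e a a' : V → ℝ) (w : Finset V → ℝ)
    (hs : 0 < s) (hs1 : s ≤ 1) (hW : ∑ K, w K = 1 / s) (hsk : s * k ≤ 1 / κ)
    (hw : ∀ K, 0 ≤ w K) (hwt : ∀ K, w K ≠ 0 → K.card = t)
    (hr : ∀ v, 0 ≤ r v ∧ r v ≤ 1) (he : ∀ v, 0 ≤ e v ∧ e v ≤ η)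
    (ha : ∀ v, 0 ≤ a v) (had : ∀ v, a v ≤ 1 / d)
    (ha' : ∀ v, a' v = a v * Real.exp (s * r v)) (had' : ∀ v, a' v ≤ 1 / d)
    (hc : ∀ v ∈ P, r v ≤ ∑ K, (if v ∈ K then w K else 0) ∧ ∑ K, (if v ∈ K then w K else 0) ≤ r v + e v)
    (hB : B = 6 / (d * κ) + t / d) (hlam : 0 < lam) (hlB : lam * B ≤ 1) :
    ∑ K, w K * Real.exp (lam * Del P a a' K) ≤ 1 / s + k * (lam * (3 / d) * (s + 3 * η) + 12 * lam ^ 2 * B / d) ∧
      ∑ K, w K * Real.exp (-(lam * Del P a a' K)) ≤
        1 / s + k * (lam * (3 / d) * (s + 3 * η) + 12 * lam ^ 2 * B / d) := by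
  have hB0 : 0 ≤ B := by rw [hB]; positivity
  have ha'0 : ∀ v, 0 ≤ a' v := fun v => by rw [ha']; exact mul_nonneg (ha v) (Real.exp_pos _).le
  have hdiff : ∀ v, 0 ≤ a' v - a v ∧ a' v - a v ≤ 2 * s / d := by
    intro v
    have hx0 : 0 ≤ s * r v := mul_nonneg hs.le (hr v).1
    have hxs : s * r v ≤ s := mul_le_of_le_one_right hs.le (hr v).2
    have e1 : a' v - a v = a v * (Real.exp (s * r v) - 1) := by rw [ha']; ring
    have e2 : 0 ≤ Real.exp (s * r v) - 1 := by
      have := Real.add_one_le_exp (s * r v)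
      linarith
    have e3 := exp_le_lin hx0 (hxs.trans hs1)
    rw [e1]
    refine ⟨mul_nonneg (ha v) e2, ?_⟩
    calc a v * (Real.exp (s * r v) - 1) ≤ (1 / d) * (2 * s) := mul_le_mul (had v) (by linarith) e2 (by positivity)
      _ = 2 * s / d := by ring
  -- first moment
  have hm1 : -(3 * k * ((1 / d) * (s + 3 * η))) ≤ ∑ K, w K * Del P a a' K ∧ ∑ K, w K * Del P a a' K ≤ 0 := by
    rw [swap, hW]
    have hp : ∀ v ∈ P, -((1 / d) * (s + 3 * η)) ≤ (1 / s) * (a' v - a v) - (∑ K, (if v ∈ K then w K else 0)) * a' v ∧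
        (1 / s) * (a' v - a v) - (∑ K, (if v ∈ K then w K else 0)) * a' v ≤ 0 := by
      intro v hv
      rw [ha']
      exact point (ha v) (had v) hs hs1 (hr v).1 (hr v).2 (hc v hv).1 (hc v hv).2 (he v).2 hη
    constructor
    · have h1 : ∑ _v ∈ P, -((1 / d) * (s + 3 * η)) ≤
          ∑ v ∈ P, ((1 / s) * (a' v - a v) - (∑ K, (if v ∈ K then w K else 0)) * a' v) :=
        sum_le_sum fun v hv => (hp v hv).1
      rw [sum_const, nsmul_eq_mul] at h1
      have h2 : (P.card : ℝ) * ((1 / d) * (s + 3 * η)) ≤ 3 * k * ((1 / d) * (s + 3 * η)) :=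
        mul_le_mul_of_nonneg_right hP (by positivity)
      linarith
    · exact sum_nonpos fun v hv => (hp v hv).2
  -- absolute values
  have habs : ∀ K, |Del P a a' K| ≤ ∑ v ∈ P, ((a' v - a v) + (if v ∈ K then a' v else 0)) := by
    intro K
    unfold Del
    refine (abs_sum_le_sum_abs _ _).trans (sum_le_sum fun v _ => ?_)
    have := (hdiff v).1
    have h0 := ha'0 v
    have h1 := ha v
    by_cases h : v ∈ K
    · simp only [h, if_true]
      rw [abs_le]; constructor <;> linarith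
    · simp only [h, if_false]
      rw [abs_le]; constructor <;> linarith
  have hbd : ∀ K, w K ≠ 0 → |Del P a a' K| ≤ B := by
    intro K hK
    refine (habs K).trans ?_
    rw [sum_add_distrib]
    have h1 : ∑ v ∈ P, (a' v - a v) ≤ 6 / (d * κ) := by
      calc ∑ v ∈ P, (a' v - a v) ≤ ∑ _v ∈ P, 2 * s / d := sum_le_sum fun v _ => (hdiff v).2
        _ = P.card * (2 * s / d) := by rw [sum_const, nsmul_eq_mul]
        _ ≤ 3 * k * (2 * s / d) := mul_le_mul_of_nonneg_right hP (by positivity)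
        _ = (6 / d) * (s * k) := by ring
        _ ≤ (6 / d) * (1 / κ) := mul_le_mul_of_nonneg_left hsk (by positivity)
        _ = 6 / (d * κ) := by field_simp
    have h2 : ∑ v ∈ P, (if v ∈ K then a' v else 0) ≤ t / d := by
      rw [← sum_filter]
      calc ∑ v ∈ P.filter (fun v => v ∈ K), a' v ≤ ∑ _v ∈ P.filter (fun v => v ∈ K), 1 / d :=
            sum_le_sum fun v _ => had' v
        _ = (P.filter (fun v => v ∈ K)).card * (1 / d) := by rw [sum_const, nsmul_eq_mul]
        _ ≤ t * (1 / d) := by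
            apply mul_le_mul_of_nonneg_right _ (by positivity)
            rw [← hwt K hK]
            exact_mod_cast card_le_card fun v hv => (mem_filter.1 hv).2
        _ = t / d := by ring
    rw [hB]
    linarith
  have hm2 : ∑ K, w K * |Del P a a' K| ≤ 12 * k / d := by
    calc ∑ K, w K * |Del P a a' K| ≤ ∑ K, w K * ∑ v ∈ P, ((a' v - a v) + (if v ∈ K then a' v else 0)) :=
          sum_le_sum fun K _ => mul_le_mul_of_nonneg_left (habs K) (hw K)
      _ = ∑ v ∈ P, ((1 / s) * (a' v - a v) + (∑ K, (if v ∈ K then w K else 0)) * a' v) := by rw [swap2, hW]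
      _ ≤ ∑ _v ∈ P, 4 / d := by
          refine sum_le_sum fun v hv => ?_
          have h1 : (1 / s) * (a' v - a v) ≤ 2 / d := by
            calc (1 / s) * (a' v - a v) ≤ (1 / s) * (2 * s / d) := mul_le_mul_of_nonneg_left (hdiff v).2 (by positivity)
              _ = 2 / d := by field_simp
          have h2 : ∑ K, (if v ∈ K then w K else 0) ≤ 2 := by
            have := (hc v hv).2
            have := (hr v).2
            have := (he v).2
            linarith
          have h3 : (∑ K, (if v ∈ K then w K else 0)) * a' v ≤ 2 * (1 / d) :=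
            mul_le_mul h2 (had' v) (ha'0 v) (by norm_num)
          have h4 : (4 : ℝ) / d = 2 / d + 2 * (1 / d) := by ring
          rw [h4]
          exact add_le_add h1 h3
      _ = P.card * (4 / d) := by rw [sum_const, nsmul_eq_mul]
      _ ≤ 3 * k * (4 / d) := mul_le_mul_of_nonneg_right hP (by positivity)
      _ = 12 * k / d := by ring
  have hm3 : ∑ K, w K * Del P a a' K ^ 2 ≤ B * (12 * k / d) := by
    refine le_trans ?_ (mul_le_mul_of_nonneg_left hm2 hB0)
    rw [mul_sum]
    refine sum_le_sum fun K _ => ?_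
    by_cases hK : w K = 0
    · rw [hK]; simp
    · have h1 := hbd K hK
      have h2 : Del P a a' K ^ 2 = |Del P a a' K| * |Del P a a' K| := by rw [← sq, sq_abs]
      rw [h2]
      calc w K * (|Del P a a' K| * |Del P a a' K|) ≤ w K * (B * |Del P a a' K|) :=
            mul_le_mul_of_nonneg_left (mul_le_mul_of_nonneg_right h1 (abs_nonneg _)) (hw K)
        _ = B * (w K * |Del P a a' K|) := by ring
  have hsgn : ∀ ς : ℝ, (ς = 1 ∨ ς = -1) → ∑ K, w K * Real.exp (ς * (lam * Del P a a' K)) ≤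
      1 / s + ς * lam * ∑ K, w K * Del P a a' K + lam ^ 2 * (B * (12 * k / d)) := by
    intro ς hς
    have hς2 : ς ^ 2 = 1 := by rcases hς with h | h <;> rw [h] <;> norm_num
    have hςa : |ς| = 1 := by rcases hς with h | h <;> rw [h] <;> norm_num
    calc ∑ K, w K * Real.exp (ς * (lam * Del P a a' K)) ≤
        ∑ K, (w K + ς * lam * (w K * Del P a a' K) + lam ^ 2 * (w K * Del P a a' K ^ 2)) := by
          refine sum_le_sum fun K _ => ?_
          by_cases hK : w K = 0
          · rw [hK]; simp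
          · have h1 : |ς * (lam * Del P a a' K)| ≤ 1 := by
              rw [abs_mul, hςa, one_mul, abs_mul, abs_of_pos hlam]
              exact (mul_le_mul_of_nonneg_left (hbd K hK) hlam.le).trans hlB
            have h2 := mul_le_mul_of_nonneg_left (exp_le_quad h1) (hw K)
            refine h2.trans (le_of_eq ?_)
            have h3 : (ς * (lam * Del P a a' K)) ^ 2 = ς ^ 2 * (lam ^ 2 * Del P a a' K ^ 2) := by ring
            rw [h3, hς2]
            ring
      _ = 1 / s + ς * lam * ∑ K, w K * Del P a a' K + lam ^ 2 * ∑ K, w K * Del P a a' K ^ 2 := by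
          rw [sum_add_distrib, sum_add_distrib, hW, mul_sum, mul_sum]
      _ ≤ _ := by
          have := mul_le_mul_of_nonneg_left hm3 (sq_nonneg lam)
          linarith
  have hk0 : (0 : ℝ) ≤ k := Nat.cast_nonneg k
  have hR : 1 / s + k * (lam * (3 / d) * (s + 3 * η) + 12 * lam ^ 2 * B / d) =
      1 / s + lam * (3 * k * ((1 / d) * (s + 3 * η))) + lam ^ 2 * (B * (12 * k / d)) := by ring
  rw [hR]
  constructor
  · have h1 := hsgn 1 (Or.inl rfl)
    simp only [one_mul] at h1
    refine h1.trans ?_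
    have h2 : lam * ∑ K, w K * Del P a a' K ≤ 0 := mul_nonpos_of_nonneg_of_nonpos hlam.le hm1.2
    have h3 : 0 ≤ lam * (3 * k * ((1 / d) * (s + 3 * η))) := by positivity
    linarith
  · have h1 := hsgn (-1) (Or.inr rfl)
    simp only [neg_mul, one_mul] at h1
    refine h1.trans ?_
    have h2 := mul_le_mul_of_nonneg_left hm1.1 hlam.le
    linarith

/-- the new value of a test -/
lemma Y_step (S U K : Finset V) (g g' : V → ℝ) :
    Y S (U \ K) g' = Y S U g + Del (S ∩ U) (fun v => (g v)⁻¹) (fun v => (g' v)⁻¹) K := by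
  unfold Y Del
  rw [sum_sub_distrib]
  have h1 : S ∩ (U \ K) = (S ∩ U).filter (fun v => v ∉ K) := by
    ext v
    simp only [mem_inter, mem_sdiff, mem_filter]
    tauto
  rw [h1, sum_filter]
  have h2 : ∀ v ∈ S ∩ U, (if v ∉ K then (g' v)⁻¹ else 0) = (if v ∈ K then 0 else (g' v)⁻¹) := by
    intro v _
    by_cases h : v ∈ K <;> simp [h]
  rw [sum_congr rfl h2]
  ring

/-- the potential -/
noncomputable def Phi (T : Finset (Finset V)) (lam : ℝ) (U₀ U : Finset V) (D g : V → ℝ) : ℝ :=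
  ∑ S ∈ T, (Real.exp (lam * (Y S U g - Y S U₀ D)) + Real.exp (-(lam * (Y S U g - Y S U₀ D))))

lemma Phi_nonneg (T : Finset (Finset V)) (lam : ℝ) (U₀ U : Finset V) (D g : V → ℝ) : 0 ≤ Phi T lam U₀ U D g :=
  sum_nonneg fun _ _ => by positivity

lemma abs_le_Phi (T : Finset (Finset V)) (lam : ℝ) (hlam : 0 < lam) (U₀ U : Finset V) (D g : V → ℝ) {S : Finset V}
    (hS : S ∈ T) : Real.exp (lam * |Y S U g - Y S U₀ D|) ≤ Phi T lam U₀ U D g := by
  have h1 : Real.exp (lam * (Y S U g - Y S U₀ D)) + Real.exp (-(lam * (Y S U g - Y S U₀ D))) ≤ Phi T lam U₀ U D g :=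
    single_le_sum (f := fun S => Real.exp (lam * (Y S U g - Y S U₀ D)) + Real.exp (-(lam * (Y S U g - Y S U₀ D))))
      (fun _ _ => by positivity) hS
  refine le_trans ?_ h1
  rcases abs_cases (Y S U g - Y S U₀ D) with ⟨h, _⟩ | ⟨h, _⟩
  · rw [h]
    have := Real.exp_pos (-(lam * (Y S U g - Y S U₀ D)))
    linarith
  · rw [h, mul_neg]
    have := Real.exp_pos (lam * (Y S U g - Y S U₀ D))
    linarith

/-- one step of the process -/
lemma one_step {t k : ℕ} {d κ η lam s B : ℝ} (hd : 0 < d) (hκ : 0 < κ) (hη : 0 ≤ η) (hη1 : η ≤ 1)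
    (T : Finset (Finset V)) (hT : ∀ S ∈ T, (S.card : ℝ) ≤ 3 * k) (U₀ U : Finset V) (D : V → ℝ)
    (r e g g' : V → ℝ) (w : Finset V → ℝ)
    (hs : 0 < s) (hs1 : s ≤ 1) (hW : ∑ K, w K = 1 / s) (hsk : s * k ≤ 1 / κ)
    (hw : ∀ K, 0 ≤ w K) (hwt : ∀ K, w K ≠ 0 → K.card = t)
    (hr : ∀ v, 0 ≤ r v ∧ r v ≤ 1) (he : ∀ v, 0 ≤ e v ∧ e v ≤ η)
    (hg : ∀ v, d ≤ g v) (hg' : ∀ v, d ≤ g' v) (hgg : ∀ v, g' v = g v * Real.exp (-(s * r v)))
    (hc : ∀ v ∈ U, r v ≤ ∑ K, (if v ∈ K then w K else 0) ∧ ∑ K, (if v ∈ K then w K else 0) ≤ r v + e v)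
    (hB : B = 6 / (d * κ) + t / d) (hlam : 0 < lam) (hlB : lam * B ≤ 1) :
    ∃ K, w K ≠ 0 ∧ Phi T lam U₀ (U \ K) D g' ≤
      Phi T lam U₀ U D g * Real.exp (s * (k * (lam * (3 / d) * (s + 3 * η) + 12 * lam ^ 2 * B / d))) := by
  obtain ⟨Λ, hΛ⟩ : ∃ Λ : ℝ, Λ = k * (lam * (3 / d) * (s + 3 * η) + 12 * lam ^ 2 * B / d) := ⟨_, rfl⟩
  rw [← hΛ]
  have ha' : ∀ v, (g' v)⁻¹ = (g v)⁻¹ * Real.exp (s * r v) := by
    intro v
    rw [hgg, mul_inv, ← Real.exp_neg, neg_neg]
  have hinv : ∀ {x : ℝ}, d ≤ x → x⁻¹ ≤ 1 / d := fun {x} hx => by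
    rw [one_div]; exact inv_anti₀ hd hx
  have hsum : ∑ K, w K * Phi T lam U₀ (U \ K) D g' ≤ (1 / s + Λ) * Phi T lam U₀ U D g := by
    unfold Phi
    simp only [mul_sum]
    rw [sum_comm]
    refine sum_le_sum fun S hS => ?_
    obtain ⟨Z, hZ⟩ : ∃ Z : ℝ, Z = Y S U g - Y S U₀ D := ⟨_, rfl⟩
    have e1 : ∀ K, Y S (U \ K) g' - Y S U₀ D = Z + Del (S ∩ U) (fun v => (g v)⁻¹) (fun v => (g' v)⁻¹) K := by
      intro K
      rw [Y_step S U K g g', hZ]; ring
    rw [← hZ]
    simp only [e1]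
    have hst := step (t := t) (k := k) (B := B) hd hκ hη hη1 (S ∩ U)
      (le_trans (by exact_mod_cast card_le_card inter_subset_left) (hT S hS)) r e (fun v => (g v)⁻¹) (fun v => (g' v)⁻¹) w
      hs hs1 hW hsk hw hwt hr he (fun v => inv_nonneg.2 (hd.le.trans (hg v))) (fun v => hinv (hg v)) ha'
      (fun v => hinv (hg' v)) (fun v hv => hc v (mem_inter.1 hv).2) hB hlam hlB
    rw [← hΛ] at hst
    have e2 : ∀ K, w K * (Real.exp (lam * (Z + Del (S ∩ U) (fun v => (g v)⁻¹) (fun v => (g' v)⁻¹) K)) +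
        Real.exp (-(lam * (Z + Del (S ∩ U) (fun v => (g v)⁻¹) (fun v => (g' v)⁻¹) K)))) =
        Real.exp (lam * Z) * (w K * Real.exp (lam * Del (S ∩ U) (fun v => (g v)⁻¹) (fun v => (g' v)⁻¹) K)) +
        Real.exp (-(lam * Z)) * (w K * Real.exp (-(lam * Del (S ∩ U) (fun v => (g v)⁻¹) (fun v => (g' v)⁻¹) K))) := by
      intro K
      have h1 : lam * (Z + Del (S ∩ U) (fun v => (g v)⁻¹) (fun v => (g' v)⁻¹) K) =
        lam * Z + lam * Del (S ∩ U) (fun v => (g v)⁻¹) (fun v => (g' v)⁻¹) K := by ring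
      rw [h1, neg_add, Real.exp_add, Real.exp_add]
      ring
    simp only [e2]
    rw [sum_add_distrib, ← mul_sum, ← mul_sum]
    have h1 := mul_le_mul_of_nonneg_left hst.1 (Real.exp_pos (lam * Z)).le
    have h2 := mul_le_mul_of_nonneg_left hst.2 (Real.exp_pos (-(lam * Z))).le
    calc _ ≤ Real.exp (lam * Z) * (1 / s + Λ) + Real.exp (-(lam * Z)) * (1 / s + Λ) := add_le_add h1 h2
      _ = _ := by ring
  obtain ⟨A, hA⟩ : ∃ A : Finset (Finset V), A = univ.filter (fun K => w K ≠ 0) := ⟨_, rfl⟩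
  have hAs : ∀ F : Finset V → ℝ, ∑ K ∈ A, w K * F K = ∑ K, w K * F K := by
    intro F
    rw [hA, sum_filter]
    refine sum_congr rfl fun K _ => ?_
    by_cases h : w K = 0 <;> simp [h]
  have hne : A.Nonempty := by
    by_contra hem
    rw [not_nonempty_iff_eq_empty] at hem
    have h1 := hAs (fun _ => 1)
    rw [hem, sum_empty] at h1
    simp only [mul_one] at h1
    rw [hW] at h1
    have : 0 < 1 / s := by positivity
    linarith
  have hle : ∑ K ∈ A, w K * Phi T lam U₀ (U \ K) D g' ≤ ∑ K ∈ A, w K * ((1 + s * Λ) * Phi T lam U₀ U D g) := by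
    rw [hAs, hAs (fun _ => (1 + s * Λ) * Phi T lam U₀ U D g), ← sum_mul, hW]
    refine hsum.trans (le_of_eq ?_)
    field_simp
  obtain ⟨K, hK, hKle⟩ := exists_le_of_sum_le hne hle
  rw [hA, mem_filter] at hK
  refine ⟨K, hK.2, ?_⟩
  have h1 : Phi T lam U₀ (U \ K) D g' ≤ (1 + s * Λ) * Phi T lam U₀ U D g :=
    le_of_mul_le_mul_left hKle (lt_of_le_of_ne (hw K) (Ne.symm hK.2))
  refine h1.trans ?_
  rw [mul_comm]
  apply mul_le_mul_of_nonneg_left _ (Phi_nonneg _ _ _ _ _ _)
  have := Real.add_one_le_exp (s * Λ)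
  linarith

end PotL

open PotL

theorem pot : S_POT := by
  intro t d τ γ κ ht hd hd1 hτ hγ hκ
  have htr : (1 : ℝ) ≤ t := by exact_mod_cast ht
  obtain ⟨B, hB⟩ : ∃ B : ℝ, B = 6 / (d * κ) + t / d := ⟨_, rfl⟩
  have hB0 : 0 < B := by rw [hB]; positivity
  obtain ⟨lam, hl⟩ : ∃ lam : ℝ, lam = min (1 / B) (γ * d / (48 * B * (τ + 1))) := ⟨_, rfl⟩
  have hlam : 0 < lam := by rw [hl]; exact lt_min (by positivity) (by positivity)
  have hlB : lam * B ≤ 1 := by
    have : lam ≤ 1 / B := by rw [hl]; exact min_le_left _ _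
    rw [le_div_iff₀ hB0] at this
    exact this
  have hlC : 48 * lam * B * (τ + 1) ≤ γ * d := by
    have : lam ≤ γ * d / (48 * B * (τ + 1)) := by rw [hl]; exact min_le_right _ _
    rw [le_div_iff₀ (by positivity)] at this
    linarith
  obtain ⟨η, hη⟩ : ∃ η : ℝ, η = min 1 (γ * d / (36 * (τ + 1))) := ⟨_, rfl⟩
  have hη0 : 0 < η := by rw [hη]; exact lt_min one_pos (by positivity)
  have hη1 : η ≤ 1 := by rw [hη]; exact min_le_left _ _
  have hηC : 36 * η * (τ + 1) ≤ γ * d := by
    have : η ≤ γ * d / (36 * (τ + 1)) := by rw [hη]; exact min_le_right _ _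
    rw [le_div_iff₀ (by positivity)] at this
    linarith
  refine ⟨η, hη0, hη1, fun C => ?_⟩
  refine ⟨max (max 1 ⌈1 / κ⌉₊) (max ⌈12 * (τ + 1) / (d * κ * γ)⌉₊ ⌈64 * C / (lam ^ 2 * γ ^ 2)⌉₊), fun k hk => ?_⟩
  have hk1 : 1 ≤ k := le_trans (le_trans (le_max_left _ _) (le_max_left _ _)) hk
  have hkr : (1 : ℝ) ≤ k := by exact_mod_cast hk1
  have hk2 : 1 ≤ κ * k := by
    have : 1 / κ ≤ k := (Nat.le_ceil _).trans (by exact_mod_cast le_trans (le_trans (le_max_right _ _) (le_max_left _ _)) hk)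
    rw [div_le_iff₀ hκ] at this
    linarith
  have hk3 : 12 * (τ + 1) ≤ d * κ * γ * k := by
    have : 12 * (τ + 1) / (d * κ * γ) ≤ k :=
      (Nat.le_ceil _).trans (by exact_mod_cast le_trans (le_trans (le_max_left _ _) (le_max_right _ _)) hk)
    rw [div_le_iff₀ (by positivity)] at this
    linarith
  have hk4 : 64 * C ≤ lam ^ 2 * γ ^ 2 * k := by
    have : 64 * C / (lam ^ 2 * γ ^ 2) ≤ k :=
      (Nat.le_ceil _).trans (by exact_mod_cast le_trans (le_trans (le_max_right _ _) (le_max_right _ _)) hk)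
    rw [div_le_iff₀ (by positivity)] at this
    linarith
  intro V _ _ T r e D U₀ ok hTc hT hr he hD hok hyp
  -- the growth rate
  obtain ⟨Λ, hΛ⟩ : ∃ Λ : ℝ, Λ = k * (lam * (3 / d) * (1 / (κ * k) + 3 * η) + 12 * lam ^ 2 * B / d) := ⟨_, rfl⟩
  have hΛ0 : 0 ≤ Λ := by rw [hΛ]; positivity
  have hΛ1 : Λ * (τ + 1) ≤ (3 / 4) * (lam * γ * k) := by
    have e1 : Λ * (τ + 1) = lam * k * (3 * (τ + 1) / (d * κ * k) + 9 * η * (τ + 1) / d + 12 * lam * B * (τ + 1) / d) := by
      rw [hΛ]; field_simp; ring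
    rw [e1]
    have e2 : 3 * (τ + 1) / (d * κ * k) ≤ γ / 4 := by
      rw [div_le_iff₀ (by positivity)]
      nlinarith
    have e3 : 9 * η * (τ + 1) / d ≤ γ / 4 := by
      rw [div_le_iff₀ hd]; linarith
    have e4 : 12 * lam * B * (τ + 1) / d ≤ γ / 4 := by
      rw [div_le_iff₀ hd]; linarith
    calc lam * k * (3 * (τ + 1) / (d * κ * k) + 9 * η * (τ + 1) / d + 12 * lam * B * (τ + 1) / d) ≤
        lam * k * (γ / 4 + γ / 4 + γ / 4) := by
          apply mul_le_mul_of_nonneg_left _ (by positivity)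
          linarith
      _ = (3 / 4) * (lam * γ * k) := by ring
  -- the potential controls the tests
  have hctl : ∀ (U : Finset V) (σ : ℝ), 0 ≤ σ → σ ≤ τ + 1 →
      Phi T lam U₀ U D (fun v => D v * Real.exp (-(σ * r v))) ≤ 2 * T.card * Real.exp (Λ * σ) →
      ∀ S ∈ T, |Y S U (fun v => D v * Real.exp (-(σ * r v))) - Y S U₀ D| ≤ γ * k := by
    intro U σ hσ0 hσ1 hΦ S hS
    have h1 := (abs_le_Phi T lam hlam U₀ U D (fun v => D v * Real.exp (-(σ * r v))) hS).trans hΦ
    have h2 : Real.exp (Λ * σ) ≤ Real.exp ((3 / 4) * (lam * γ * k)) :=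
      Real.exp_le_exp.2 ((mul_le_mul_of_nonneg_left hσ1 hΛ0).trans hΛ1)
    have h3 : 2 * (T.card : ℝ) ≤ Real.exp ((1 / 4) * (lam * γ * k)) := by
      have h4 : 0 ≤ (1 / 4) * (lam * γ * k) := by positivity
      have h5 := Real.quadratic_le_exp_of_nonneg h4
      have h6 : 2 * (C * k) ≤ ((1 / 4) * (lam * γ * k)) ^ 2 / 2 := by
        have h7 : ((1 / 4) * (lam * γ * k)) ^ 2 / 2 = (lam ^ 2 * γ ^ 2 * k) * k / 32 := by ring
        have h8 : 64 * C * k ≤ (lam ^ 2 * γ ^ 2 * k) * k := mul_le_mul_of_nonneg_right hk4 (by positivity)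
        rw [h7]; linarith
      linarith
    have h4 : Real.exp (lam * |Y S U (fun v => D v * Real.exp (-(σ * r v))) - Y S U₀ D|) ≤ Real.exp (lam * (γ * k)) := by
      refine h1.trans ?_
      calc 2 * (T.card : ℝ) * Real.exp (Λ * σ) ≤ Real.exp ((1 / 4) * (lam * γ * k)) * Real.exp ((3 / 4) * (lam * γ * k)) :=
            mul_le_mul h3 h2 (Real.exp_pos _).le (Real.exp_pos _).le
        _ = Real.exp (lam * (γ * k)) := by rw [← Real.exp_add]; congr 1; ring
    exact le_of_mul_le_mul_left (Real.exp_le_exp.1 h4) hlam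
  -- the process
  have main : ∀ (N : ℕ) (U : Finset V) (σ : ℝ) (F : Finset (Finset V)), U.card ≤ N → U = U₀ \ F.biUnion id →
      0 ≤ σ → σ ≤ τ + 1 → (∀ K ∈ F, ok K ∧ K ⊆ U₀) → (∀ K ∈ F, ∀ L ∈ F, K ≠ L → Disjoint K L) →
      (∀ K ∈ F, ∀ v ∈ K, 0 < r v + e v) →
      Phi T lam U₀ U D (fun v => D v * Real.exp (-(σ * r v))) ≤ 2 * T.card * Real.exp (Λ * σ) →
      ∃ (σ : ℝ) (F : Finset (Finset V)), τ ≤ σ ∧ σ ≤ τ + 1 ∧ (∀ K ∈ F, ok K ∧ K ⊆ U₀) ∧
        (∀ K ∈ F, ∀ L ∈ F, K ≠ L → Disjoint K L) ∧ (∀ K ∈ F, ∀ v ∈ K, 0 < r v + e v) ∧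
        ∀ S ∈ T, |Y S (U₀ \ F.biUnion id) (fun v => D v * Real.exp (-(σ * r v))) - Y S U₀ D| ≤ γ * k := by
    intro N
    induction N with
    | zero =>
      intro U σ F hUN hU hσ0 hσ1 hF1 hF2 hF3 hΦ
      rcases le_or_gt τ σ with hτσ | hστ
      · refine ⟨σ, F, hτσ, hσ1, hF1, hF2, hF3, ?_⟩
        rw [← hU]
        exact hctl U σ hσ0 hσ1 hΦ
      · exfalso
        obtain ⟨w, hw0, hwok, hwc, hwW⟩ := hyp U σ (by rw [hU]; exact sdiff_subset) hσ0 hστ.le (hctl U σ hσ0 hσ1 hΦ) (by
          intro v hv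
          rw [hU, mem_sdiff]
          constructor
          · exact fun h => h.1
          · intro h
            refine ⟨h, fun hvF => ?_⟩
            rw [mem_biUnion] at hvF
            obtain ⟨K, hK, hvK⟩ := hvF
            have := hF3 K hK v hvK
            linarith)
        have hpos : 0 < ∑ K, w K := by linarith
        obtain ⟨K, _, hK⟩ := exists_ne_zero_of_sum_ne_zero hpos.ne'
        have h1 := hwok K hK
        have h2 := hok K h1.1
        have h3 := card_le_card h1.2
        omega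
    | succ N ih =>
      intro U σ F hUN hU hσ0 hσ1 hF1 hF2 hF3 hΦ
      rcases le_or_gt τ σ with hτσ | hστ
      · refine ⟨σ, F, hτσ, hσ1, hF1, hF2, hF3, ?_⟩
        rw [← hU]
        exact hctl U σ hσ0 hσ1 hΦ
      · obtain ⟨w, hw0, hwok, hwc, hwW⟩ := hyp U σ (by rw [hU]; exact sdiff_subset) hσ0 hστ.le (hctl U σ hσ0 hσ1 hΦ) (by
          intro v hv
          rw [hU, mem_sdiff]
          constructor
          · exact fun h => h.1
          · intro h
            refine ⟨h, fun hvF => ?_⟩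
            rw [mem_biUnion] at hvF
            obtain ⟨K, hK, hvK⟩ := hvF
            have := hF3 K hK v hvK
            linarith)
        have hpos : 0 < ∑ K, w K := by linarith
        obtain ⟨s, hs⟩ : ∃ s : ℝ, s = 1 / ∑ K, w K := ⟨_, rfl⟩
        have hs0 : 0 < s := by rw [hs]; positivity
        have hWs : ∑ K, w K = 1 / s := by rw [hs]; field_simp
        have hsle : s ≤ 1 / (κ * k) := by
          rw [hs]; exact one_div_le_one_div_of_le (by positivity) hwW
        have hs1 : s ≤ 1 := hsle.trans (by rw [div_le_one (by positivity)]; exact hk2)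
        have hsk : s * k ≤ 1 / κ := by
          calc s * k ≤ 1 / (κ * k) * k := mul_le_mul_of_nonneg_right hsle (by positivity)
            _ = 1 / κ := by field_simp
        have hσ' : σ + s ≤ τ + 1 := by linarith
        obtain ⟨K, hK, hKΦ⟩ := one_step (t := t) (k := k) (B := B) hd hκ hη0.le hη1 T hT U₀ U D r e
          (fun v => D v * Real.exp (-(σ * r v))) (fun v => D v * Real.exp (-((σ + s) * r v))) w hs0 hs1 hWs hsk hw0
          (fun K hK => hok K (hwok K hK).1) hr he (fun v => (hD v σ hσ0 hσ1).1)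
          (fun v => (hD v (σ + s) (by positivity) hσ').1) (fun v => by
            rw [mul_assoc, ← Real.exp_add]; congr 2; ring) hwc hB hlam hlB
        have hKok := hwok K hK
        have hKcard : K.card = t := hok K hKok.1
        have hKne : K.Nonempty := by rw [← card_pos]; omega
        have hKpos : 0 < w K := lt_of_le_of_ne (hw0 K) (Ne.symm hK)
        have hU' : U \ K = U₀ \ (insert K F).biUnion id := by
          rw [hU]
          ext v
          simp only [mem_sdiff, mem_biUnion, mem_insert, id]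
          constructor
          · rintro ⟨⟨h1, h2⟩, h3⟩
            refine ⟨h1, ?_⟩
            rintro ⟨L, rfl | hL, hv⟩
            · exact h3 hv
            · exact h2 ⟨L, hL, hv⟩
          · rintro ⟨h1, h2⟩
            exact ⟨⟨h1, fun ⟨L, hL, hv⟩ => h2 ⟨L, Or.inr hL, hv⟩⟩, fun hv => h2 ⟨K, Or.inl rfl, hv⟩⟩
        have hdisF : ∀ L ∈ F, Disjoint K L := by
          intro L hL
          rw [Finset.disjoint_left]
          intro v hvK hvL
          have := hKok.2 hvK
          rw [hU, mem_sdiff] at this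
          exact this.2 (mem_biUnion.2 ⟨L, hL, hvL⟩)
        refine ih (U \ K) (σ + s) (insert K F) ?_ hU' (by positivity) hσ' ?_ ?_ ?_ ?_
        · have h1 : (U \ K).card + K.card = U.card := card_sdiff_add_card_eq_card hKok.2
          have h2 := card_pos.2 hKne
          omega
        · intro L hL
          rcases mem_insert.1 hL with rfl | hL
          · exact ⟨hKok.1, hKok.2.trans (by rw [hU]; exact sdiff_subset)⟩
          · exact hF1 L hL
        · intro L hL L' hL' hne
          rcases mem_insert.1 hL with h1 | h1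
          · rcases mem_insert.1 hL' with h2 | h2
            · exact absurd (h1.trans h2.symm) hne
            · rw [h1]; exact hdisF L' h2
          · rcases mem_insert.1 hL' with h2 | h2
            · rw [h2]; exact (hdisF L h1).symm
            · exact hF2 L h1 L' h2 hne
        · intro L hL v hv
          rcases mem_insert.1 hL with rfl | hL
          · have h1 := (hwc v (hKok.2 hv)).2
            have h2 : w L ≤ ∑ K, (if v ∈ K then w K else 0) := by
              have h3 : (if v ∈ L then w L else 0) ≤ ∑ K, (if v ∈ K then w K else 0) :=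
                single_le_sum (f := fun K : Finset V => if v ∈ K then w K else 0)
                (fun K _ => by
                  by_cases hvK : v ∈ K
                  · show 0 ≤ (if v ∈ K then w K else 0)
                    rw [if_pos hvK]; exact hw0 K
                  · show 0 ≤ (if v ∈ K then w K else 0)
                    rw [if_neg hvK]) (mem_univ L)
              rw [if_pos hv] at h3
              exact h3
            linarith
          · exact hF3 L hL v hv
        · refine hKΦ.trans ?_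
          have h1 : s * (k * (lam * (3 / d) * (s + 3 * η) + 12 * lam ^ 2 * B / d)) ≤ Λ * s := by
            rw [mul_comm s, hΛ]
            apply mul_le_mul_of_nonneg_right _ hs0.le
            apply mul_le_mul_of_nonneg_left _ (by positivity)
            have : lam * (3 / d) * (s + 3 * η) ≤ lam * (3 / d) * (1 / (κ * k) + 3 * η) :=
              mul_le_mul_of_nonneg_left (by linarith) (by positivity)
            linarith
          calc Phi T lam U₀ U D (fun v => D v * Real.exp (-(σ * r v))) *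
              Real.exp (s * (k * (lam * (3 / d) * (s + 3 * η) + 12 * lam ^ 2 * B / d))) ≤
              (2 * T.card * Real.exp (Λ * σ)) * Real.exp (Λ * s) :=
                mul_le_mul hΦ (Real.exp_le_exp.2 h1) (Real.exp_pos _).le
                  (mul_nonneg (mul_nonneg zero_le_two (Nat.cast_nonneg _)) (Real.exp_pos _).le)
            _ = 2 * T.card * Real.exp (Λ * (σ + s)) := by rw [mul_assoc, ← Real.exp_add]; congr 2; ring
  refine main U₀.card U₀ 0 ∅ le_rfl (by rw [biUnion_empty, sdiff_empty]) le_rfl (by positivity)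
    (fun K hK => absurd hK (notMem_empty K)) (fun K hK => absurd hK (notMem_empty K))
    (fun K hK => absurd hK (notMem_empty K)) ?_
  have h1 : (fun v => D v * Real.exp (-(0 * r v))) = D := by
    funext v; simp
  rw [h1]
  unfold Phi
  simp only [sub_self, mul_zero, neg_zero, Real.exp_zero, sum_const, nsmul_eq_mul]
  linarith

end Pool.Agent.Helper83K9.CF
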