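import Pool.Agent.Helper83K9.CF.Base

/-!
[RATE]: rates of a partition.
-/

namespace Pool.Agent.Helper83K9.CF

open Finset

namespace RateL

variable {n : ℕ}

theorem sum_ind {J : ℕ} {Ar : ℕ → Finset (ZMod n)} (h1 : ∀ v, ∃ j < J, v ∈ Ar j)
    (h2 : ∀ i < J, ∀ j < J, i ≠ j → Disjoint (Ar i) (Ar j)) (v : ZMod n) :
    ∑ j ∈ range J, (if v ∈ Ar j then (1 : ℝ) else 0) = 1 := by
  obtain ⟨j, hj, hv⟩ := h1 v
  rw [sum_eq_single j]
  · rw [if_pos hv]
  · intro i hi hij
    rw [if_neg]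
    intro hvi
    exact disjoint_left.1 (h2 i (mem_range.1 hi) j hj hij) hvi hv
  · intro h
    exact absurd (mem_range.2 hj) h

theorem rate_eq (k N : ℕ) (A : Finset (ZMod n)) (v : ZMod n) :
    rate n k N A v = (∑ i ∈ Ico k N, if v - (i : ZMod n) ∈ A then (1 : ℝ) else 0) / N := by
  rw [rate, sum_boole]

theorem rate_succ {k N : ℕ} (hk : 1 ≤ k) (hN : k ≤ N) (A : Finset (ZMod n)) (v : ZMod n) :
    rate n k N A (v + 1) - rate n k N A v =
      ((if v + 1 - (k : ZMod n) ∈ A then (1 : ℝ) else 0) -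
        (if v + 1 - (N : ZMod n) ∈ A then (1 : ℝ) else 0)) / N := by
  rw [rate_eq, rate_eq, ← sub_div]
  congr 1
  have e : ∑ i ∈ Ico k N, (if v - (i : ZMod n) ∈ A then (1 : ℝ) else 0) =
      ∑ i ∈ Ico (k + 1) (N + 1), (if v + 1 - (i : ZMod n) ∈ A then (1 : ℝ) else 0) := by
    rw [← sum_Ico_add' (fun i : ℕ => if v + 1 - (i : ZMod n) ∈ A then (1 : ℝ) else 0) k N 1]
    apply sum_congr rfl
    intro i _
    have : v + 1 - ((i + 1 : ℕ) : ZMod n) = v - (i : ZMod n) := by push_cast; ring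
    rw [this]
  rw [e]
  set f : ℕ → ℝ := fun i : ℕ => if v + 1 - (i : ZMod n) ∈ A then (1 : ℝ) else 0 with hf
  have h1 : ∑ i ∈ Ico k (N + 1), f i = ∑ i ∈ Ico k N, f i + f N := sum_Ico_succ_top hN f
  have h2 : ∑ i ∈ Ico k (N + 1), f i = f k + ∑ i ∈ Ico (k + 1) (N + 1), f i :=
    sum_eq_sum_Ico_succ_bot (by omega) f
  change ∑ i ∈ Ico k N, f i - ∑ i ∈ Ico (k + 1) (N + 1), f i = f k - f N
  linarith

end RateL

theorem rate_nonneg {n k N : ℕ} (A : Finset (ZMod n)) (v : ZMod n) : 0 ≤ rate n k N A v := by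
  unfold rate; positivity

theorem err_nonneg {n k N : ℕ} (A : Finset (ZMod n)) (v : ZMod n) : 0 ≤ err n k N A v := by
  unfold err; positivity

theorem rate_le {n k N : ℕ} (hN : k ≤ N) (A : Finset (ZMod n)) (v : ZMod n) :
    rate n k N A v ≤ ((N : ℝ) - k) / N := by
  unfold rate
  apply div_le_div_of_nonneg_right _ (by positivity)
  have h : (((Ico k N).filter (fun i : ℕ => v - (i : ZMod n) ∈ A)).card : ℝ) ≤
      ((Ico k N).card : ℝ) := by exact_mod_cast card_filter_le _ _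
  rw [Nat.card_Ico, Nat.cast_sub hN] at h
  exact h

theorem rate_le_one {n k N : ℕ} (hN : k ≤ N) (A : Finset (ZMod n)) (v : ZMod n) :
    rate n k N A v ≤ 1 := by
  refine (rate_le hN A v).trans ?_
  apply div_le_one_of_le₀ _ (by positivity)
  have : (0 : ℝ) ≤ k := by positivity
  linarith

theorem err_le {n k N : ℕ} (A : Finset (ZMod n)) (v : ZMod n) :
    err n k N A v ≤ (k : ℝ) / N := by
  unfold err
  apply div_le_div_of_nonneg_right _ (by positivity)
  have h : (((range k).filter (fun i : ℕ => v - (i : ZMod n) ∈ A)).card : ℝ) ≤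
      ((range k).card : ℝ) := by exact_mod_cast card_filter_le _ _
  rwa [card_range] at h

/-- `rate` and `err` vanish at untouched vertices -/
theorem rate_eq_zero {n k N : ℕ} {A : Finset (ZMod n)} {v : ZMod n}
    (h : ∀ i : ℕ, i < N → v - (i : ZMod n) ∉ A) : rate n k N A v = 0 := by
  unfold rate
  rw [filter_eq_empty_iff.2 (fun i hi => h i (mem_Ico.1 hi).2)]
  simp

theorem err_eq_zero {n k N : ℕ} (hN : k ≤ N) {A : Finset (ZMod n)} {v : ZMod n}
    (h : ∀ i : ℕ, i < N → v - (i : ZMod n) ∉ A) : err n k N A v = 0 := by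
  unfold err
  rw [filter_eq_empty_iff.2 (fun i hi => h i ((mem_range.1 hi).trans_le hN))]
  simp

/-- if `rate + err > 0` the vertex is touched -/
theorem touched_of_pos {n k N : ℕ} (hN : k ≤ N) {A : Finset (ZMod n)} {v : ZMod n}
    (h : 0 < rate n k N A v + err n k N A v) : ∃ i : ℕ, i < N ∧ v - (i : ZMod n) ∈ A := by
  by_contra hc
  push Not at hc
  rw [rate_eq_zero hc, err_eq_zero hN hc] at h
  simp at h

theorem rate_ : S_RATE := by
  intro n k N _ hk hN J Ar h1 h2
  constructor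
  · intro v
    simp_rw [RateL.rate_eq]
    rw [← sum_div, sum_comm]
    simp_rw [RateL.sum_ind h1 h2]
    rw [sum_const, Nat.card_Ico, nsmul_eq_mul, mul_one, Nat.cast_sub hN]
  · intro v
    have hb : ∀ j ∈ range J, |rate n k N (Ar j) (v + 1) - rate n k N (Ar j) v| ≤
        ((if v + 1 - (k : ZMod n) ∈ Ar j then (1 : ℝ) else 0) +
          (if v + 1 - (N : ZMod n) ∈ Ar j then (1 : ℝ) else 0)) / N := by
      intro j _
      rw [RateL.rate_succ hk hN, abs_div, Nat.abs_cast]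
      apply div_le_div_of_nonneg_right _ (by positivity)
      split_ifs <;> norm_num
    refine (sum_le_sum hb).trans ?_
    rw [← sum_div, sum_add_distrib, RateL.sum_ind h1 h2, RateL.sum_ind h1 h2]
    norm_num

end Pool.Agent.Helper83K9.CF
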