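import Pool.Agent.Helper83K9.CF.Fix
import Pool.Agent.Helper83K9.CF.Farkas
import Pool.Agent.Helper83K9.CF.Part
import Pool.Agent.Helper83K9.CF.Rate
import Pool.Agent.Helper83K9.CF.Bal
import Pool.Agent.Helper83K9.CF.Pot
import Pool.Agent.Helper83K9.CF.Comp
import Pool.Agent.Helper83K9.CF.Fam1
import Pool.Agent.Helper83K9.CF.Fam
import Pool.Agent.Helper83K9.CF.Abs
import Pool.Agent.Helper83K9.CF.Low
import Pool.Agent.Helper83K9.CF.Dual3

/-!
Clique factors in dense subgraphs of powers of cycles: assembly.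
-/

set_option autoImplicit false

namespace Pool.Agent.Helper83K9.CF

open Finset

/-- `A_t` is closed upwards -/
theorem A_up {t : ℕ} {α β : ℝ} (h : α ∈ A t) (hab : α ≤ β) : β ∈ A t := by
  obtain ⟨h0, k₀, h1⟩ := h
  refine ⟨lt_of_lt_of_le h0 hab, k₀, fun k n hk hk0 hkn ht H hH => h1 k n hk hk0 hkn ht H ⟨hH.1, ?_⟩⟩
  intro v
  exact (mul_le_mul_of_nonneg_right hab (Nat.cast_nonneg _)).trans (hH.2 v)

/-- the value of `A_t` from the fractional theorem on the line for cliques with `t` vertices -/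
theorem main (t : ℕ) (ht : 3 ≤ t) (hD : Fix.T_DUAL t) :
    A t = Set.Ioi (1 - 1 / (2 * ((t : ℝ) - 1))) := by
  have h1 : Fix.T_FRAC t := Fix.frac t hD farkas
  have h2 : Fix.T_DIST t := Fix.dist t h1
  have h3 : Fix.T_ARC1 t := Fix.arc1 t pot h2 bal
  have h4 : Fix.T_ALM t := Fix.alm t h3 part rate_
  have h5 : S_ABS := abs_ (fam (fam1 comp))
  have h6 : Fix.T_UP t := Fix.up t h4 h5
  ext α
  rw [Set.mem_Ioi]
  constructor
  · intro h
    by_contra hcon
    exact low t ht (A_up h (not_lt.1 hcon))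
  · exact fun h => Fix.red t h6 α ht h

/-- `A_3 = (3/4, ∞)` -/
theorem main3 : A 3 = Set.Ioi (3 / 4 : ℝ) := by
  have h : Fix.T_DUAL 3 := fun k N q μ s _ hk hq1 hq2 hμ hw hs hK =>
    dual3 k N q μ s hk hq1 hq2 hμ hw hs hK
  rw [main 3 le_rfl h]
  norm_num

end Pool.Agent.Helper83K9.CF
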