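import Pool.Agent.Helper83K9.CF.Stm

/-!
Basic lemmas on `Near`, `win`, `Host`.
-/

namespace Pool.Agent.Helper83K9.CF

open Finset

variable {n k m : ℕ}

theorem near_refl (x : ZMod n) : Near n k x x := ⟨0, by simp, by simp⟩

theorem near_symm {x y : ZMod n} (h : Near n k x y) : Near n k y x := by
  obtain ⟨i, hi, rfl⟩ := h
  exact ⟨-i, by simpa using hi, by push_cast; ring⟩

theorem near_mono {k' : ℕ} (hk : k ≤ k') {x y : ZMod n} (h : Near n k x y) : Near n k' x y := by
  obtain ⟨i, hi, rfl⟩ := h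
  exact ⟨i, hi.trans (by exact_mod_cast hk), rfl⟩

theorem near_add_nat (x : ZMod n) {i : ℕ} (hi : i ≤ k) : Near n k x (x + (i : ZMod n)) :=
  ⟨i, by simpa using hi, by push_cast; ring⟩

theorem near_sub_nat (x : ZMod n) {i : ℕ} (hi : i ≤ k) : Near n k x (x - (i : ZMod n)) :=
  ⟨-i, by simpa using hi, by push_cast; ring⟩

theorem near_add_add (z : ZMod n) {i j : ℕ} (h1 : i ≤ j + k) (h2 : j ≤ i + k) :
    Near n k (z + (i : ZMod n)) (z + (j : ZMod n)) :=
  ⟨(j : ℤ) - i, by rw [abs_le]; constructor <;> omega, by push_cast; ring⟩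

theorem mem_win {z v : ZMod n} : v ∈ win n k z ↔ ∃ i : ℕ, i < k ∧ z + (i : ZMod n) = v := by
  simp [win]

theorem near_of_mem_win {z x y : ZMod n} (hx : x ∈ win n (k + 1) z) (hy : y ∈ win n (k + 1) z) :
    Near n k x y := by
  obtain ⟨i, hi, rfl⟩ := mem_win.1 hx
  obtain ⟨j, hj, rfl⟩ := mem_win.1 hy
  exact near_add_add z (by omega) (by omega)

theorem win_mono {k' : ℕ} (hk : k ≤ k') (z : ZMod n) : win n k z ⊆ win n k' z := by
  intro v hv
  obtain ⟨i, hi, rfl⟩ := mem_win.1 hv
  exact mem_win.2 ⟨i, hi.trans_le hk, rfl⟩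

theorem near_of_mem_win' {z x y : ZMod n} (hx : x ∈ win n k z) (hy : y ∈ win n k z) :
    Near n k x y := near_of_mem_win (win_mono (Nat.le_succ k) z hx) (win_mono (Nat.le_succ k) z hy)

/-- integers with the same class at distance less than `n` are equal -/
theorem int_inj {i j : ℤ} (z : ZMod n) (h : z + (i : ZMod n) = z + (j : ZMod n))
    (hij : |i - j| < n) : i = j := by
  have h1 : ((i - j : ℤ) : ZMod n) = 0 := by
    push_cast
    exact sub_eq_zero.2 (add_left_cancel h)
  rw [ZMod.intCast_zmod_eq_zero_iff_dvd] at h1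
  have := Int.eq_zero_of_abs_lt_dvd h1 hij
  omega

theorem nat_inj {i j : ℕ} (z : ZMod n) (h : z + (i : ZMod n) = z + (j : ZMod n))
    (h1 : i < j + n) (h2 : j < i + n) : i = j := by
  have := int_inj (i := (i : ℤ)) (j := (j : ℤ)) z (by push_cast; exact h)
    (by rw [abs_lt]; constructor <;> omega)
  exact_mod_cast this

theorem card_image_add (z : ZMod n) {S : Finset ℕ} (hS : ∀ i ∈ S, ∀ j ∈ S, i < j + n) :
    (S.image (fun i : ℕ => z + (i : ZMod n))).card = S.card := by
  apply card_image_of_injOn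
  intro i hi j hj h
  exact nat_inj z h (hS i hi j hj) (hS j hj i hi)

theorem card_win (h : k ≤ n) (z : ZMod n) : (win n k z).card = k := by
  rw [win, card_image_add z (by intro i hi j hj; rw [mem_range] at hi; omega), card_range]

theorem card_win_le (z : ZMod n) : (win n k z).card ≤ k := by
  simpa [win] using card_image_le (s := range k) (f := fun i : ℕ => z + (i : ZMod n))

theorem win_add (a b : ℕ) (z : ZMod n) :
    win n (a + b) z = win n a z ∪ win n b (z + (a : ZMod n)) := by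
  ext v
  rw [mem_union, mem_win, mem_win, mem_win]
  constructor
  · rintro ⟨i, hi, rfl⟩
    by_cases h : i < a
    · exact Or.inl ⟨i, h, rfl⟩
    · refine Or.inr ⟨i - a, by omega, ?_⟩
      rw [Nat.cast_sub (by omega)]; ring
  · rintro (⟨i, hi, rfl⟩ | ⟨i, hi, rfl⟩)
    · exact ⟨i, by omega, rfl⟩
    · exact ⟨a + i, by omega, by push_cast; ring⟩

/-- a set which is thin has at most `c b` elements in `c` consecutive windows -/
theorem thin_mul {b : ℝ} {B : Finset (ZMod n)} (h : Thin n k b B) (c : ℕ) (z : ZMod n) :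
    ((B ∩ win n (c * k) z).card : ℝ) ≤ c * b := by
  induction c generalizing z with
  | zero => simp [win]
  | succ c ih =>
    have e : win n ((c + 1) * k) z = win n (c * k) z ∪ win n k (z + ((c * k : ℕ) : ZMod n)) := by
      rw [Nat.succ_mul, win_add]
    rw [e, inter_union_distrib_left]
    have h1 := card_union_le (B ∩ win n (c * k) z) (B ∩ win n k (z + ((c * k : ℕ) : ZMod n)))
    have h2 : ((B ∩ win n (c * k) z ∪ B ∩ win n k (z + ((c * k : ℕ) : ZMod n))).card : ℝ) ≤
        (B ∩ win n (c * k) z).card + (B ∩ win n k (z + ((c * k : ℕ) : ZMod n))).card := by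
      exact_mod_cast h1
    have h3 := h (z + ((c * k : ℕ) : ZMod n))
    have h4 := ih z
    have h5 : (((c + 1 : ℕ)) : ℝ) * b = c * b + b := by push_cast; ring
    rw [h5]
    linarith

theorem thin_mono {b b' : ℝ} {B B' : Finset (ZMod n)} (h : Thin n k b B) (hb : b ≤ b')
    (hB : B' ⊆ B) : Thin n k b' B' := by
  intro z
  have : ((B' ∩ win n k z).card : ℝ) ≤ (B ∩ win n k z).card := by
    exact_mod_cast card_le_card (inter_subset_inter_right hB)
  exact this.trans ((h z).trans hb)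

theorem thin_union {b b' : ℝ} {B B' : Finset (ZMod n)} (h : Thin n k b B) (h' : Thin n k b' B') :
    Thin n k (b + b') (B ∪ B') := by
  intro z
  rw [union_inter_distrib_right]
  have h1 : ((B ∩ win n k z ∪ B' ∩ win n k z).card : ℝ) ≤
      (B ∩ win n k z).card + (B' ∩ win n k z).card := by
    exact_mod_cast card_union_le _ _
  have := h z
  have := h' z
  linarith

theorem thin_of_card {b : ℝ} {B : Finset (ZMod n)} (h : (B.card : ℝ) ≤ b) : Thin n k b B := by
  intro z
  have : ((B ∩ win n k z).card : ℝ) ≤ B.card := by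
    exact_mod_cast card_le_card inter_subset_left
  exact this.trans h

/-- `Near` in the form `y = (x - k) + j`, `j ≤ 2k` -/
theorem near_iff {x y : ZMod n} :
    Near n k x y ↔ ∃ j : ℕ, j ≤ 2 * k ∧ y = x - (k : ZMod n) + (j : ZMod n) := by
  constructor
  · rintro ⟨i, hi, rfl⟩
    rw [abs_le] at hi
    refine ⟨(i + k).toNat, by omega, ?_⟩
    have : (((i + k).toNat : ℕ) : ZMod n) = ((i + k : ℤ) : ZMod n) := by
      rw [← Int.cast_natCast, Int.toNat_of_nonneg (by omega)]
    rw [this]; push_cast; ring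
  · rintro ⟨j, hj, rfl⟩
    exact ⟨(j : ℤ) - k, by rw [abs_le]; constructor <;> omega, by push_cast; ring⟩

theorem Host.subset {M : ZMod n → Finset (ZMod n)} (h : Host n k m M) (x : ZMod n) :
    M x ⊆ win n (2 * k + 1) (x - (k : ZMod n)) := by
  intro y hy
  obtain ⟨j, hj, rfl⟩ := near_iff.1 (h.near x y hy)
  exact mem_win.2 ⟨j, by omega, rfl⟩

theorem Host.ne_of_notMem {M : ZMod n → Finset (ZMod n)} (h : Host n k m M) {x y : ZMod n}
    (hy : y ∉ M x) : x ≠ y := by
  rintro rfl
  exact hy (h.refl x)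

/-- the slack inequality implies `m + 1 ≤ k` -/
theorem slack_le {t : ℕ} {ε : ℝ} (ht : 2 ≤ t) (hε : 0 < ε)
    (h : ((t : ℝ) - 1) * (m + 1) ≤ (1 - ε) * k) : m + 1 ≤ k := by
  have h1 : (1 : ℝ) ≤ (t : ℝ) - 1 := by
    have : (2 : ℝ) ≤ t := by exact_mod_cast ht
    linarith
  have h2 : ((m : ℝ) + 1) ≤ k := by
    have h3 : ((m : ℝ) + 1) ≤ ((t : ℝ) - 1) * (m + 1) := by
      have : (0 : ℝ) ≤ (m : ℝ) + 1 := by positivity
      nlinarith
    have h4 : (0 : ℝ) ≤ k := by positivity
    nlinarith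
  exact_mod_cast h2

/-- cliques stay cliques when a vertex is added -/
theorem isCl_insert {M : ZMod n → Finset (ZMod n)} (h : Host n k m M) {t : ℕ}
    {T : Finset (ZMod n)} (hT : IsCl n k M t T) {u : ZMod n} (h1 : ∀ x ∈ T, Near n k x u)
    (h2 : ∀ x ∈ T, u ∉ M x) : IsCl n k M (t + 1) (insert u T) := by
  have hu : u ∉ T := fun hu => h2 u hu (h.refl u)
  refine ⟨by rw [card_insert_of_notMem hu, hT.1], ?_⟩
  intro x hx y hy hxy
  rw [mem_insert] at hx hy
  rcases hx with rfl | hx <;> rcases hy with rfl | hy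
  · exact absurd rfl hxy
  · exact ⟨near_symm (h1 y hy), fun hh => h2 y hy (h.symm _ _ hh)⟩
  · exact ⟨h1 x hx, h2 x hx⟩
  · exact hT.2 x hx y hy hxy

theorem isCl_subset {M : ZMod n → Finset (ZMod n)} {t : ℕ} {T T' : Finset (ZMod n)}
    (hT : IsCl n k M t T) (h : T' ⊆ T) : IsCl n k M T'.card T' :=
  ⟨rfl, fun x hx y hy hxy => hT.2 x (h hx) y (h hy) hxy⟩

theorem tile_empty {M : ZMod n → Finset (ZMod n)} {t : ℕ} : Tile n k M t ∅ :=
  ⟨∅, by simp, by simp, by simp⟩

theorem tile_of_isCl {M : ZMod n → Finset (ZMod n)} {t : ℕ} {K : Finset (ZMod n)}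
    (h : IsCl n k M t K) : Tile n k M t K :=
  ⟨{K}, by simpa using h, by simp, by simp⟩

theorem tile_union {M : ZMod n → Finset (ZMod n)} {t : ℕ} {A B : Finset (ZMod n)}
    (hA : Tile n k M t A) (hB : Tile n k M t B) (h : Disjoint A B) : Tile n k M t (A ∪ B) := by
  obtain ⟨F, hF1, hF2, rfl⟩ := hA
  obtain ⟨G, hG1, hG2, rfl⟩ := hB
  have hd : ∀ K ∈ F, ∀ L ∈ G, Disjoint K L := by
    intro K hK L hL
    exact disjoint_of_subset_left (subset_biUnion_of_mem id hK)
      (disjoint_of_subset_right (subset_biUnion_of_mem id hL) h)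
  refine ⟨F ∪ G, ?_, ?_, union_biUnion⟩
  · intro K hK
    rcases mem_union.1 hK with hK | hK
    · exact hF1 K hK
    · exact hG1 K hK
  · intro K hK L hL hKL
    rcases mem_union.1 hK with hK | hK <;> rcases mem_union.1 hL with hL | hL
    · exact hF2 K hK L hL hKL
    · exact hd K hK L hL
    · exact (hd L hL K hK).symm
    · exact hG2 K hK L hL hKL

theorem tile_biUnion {M : ZMod n → Finset (ZMod n)} {t : ℕ} {ι : Type} [DecidableEq ι]
    (s : Finset ι) (f : ι → Finset (ZMod n)) (h : ∀ i ∈ s, Tile n k M t (f i))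
    (hd : ∀ i ∈ s, ∀ j ∈ s, i ≠ j → Disjoint (f i) (f j)) : Tile n k M t (s.biUnion f) := by
  induction s using Finset.induction_on with
  | empty => simpa using tile_empty
  | insert a s ha ih =>
    rw [biUnion_insert]
    refine tile_union (h a (mem_insert_self a s)) (ih (fun i hi => h i (mem_insert_of_mem hi))
      (fun i hi j hj => hd i (mem_insert_of_mem hi) j (mem_insert_of_mem hj))) ?_
    rw [disjoint_biUnion_right]
    intro i hi
    exact hd a (mem_insert_self a s) i (mem_insert_of_mem hi) (by rintro rfl; exact ha hi)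

theorem tile_card {M : ZMod n → Finset (ZMod n)} {t : ℕ} {A : Finset (ZMod n)}
    (h : Tile n k M t A) : t ∣ A.card := by
  obtain ⟨F, hF1, hF2, rfl⟩ := h
  have e : (F.biUnion id).card = ∑ K ∈ F, (id K : Finset (ZMod n)).card :=
    card_biUnion (fun K hK L hL hKL => hF2 K hK L hL hKL)
  rw [e]
  apply dvd_sum
  intro K hK
  rw [id, (hF1 K hK).1]

end Pool.Agent.Helper83K9.CF
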