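import Pool.Agent.Helper83K9.CF.Base

/-!
[CNT] many interfaces
-/

namespace Pool.Agent.Helper83K9.CF

open Finset

namespace CntL

/-- counting functions which are chosen greedily -/
theorem count {I α : Type} [Fintype I] [DecidableEq I] [Fintype α] [DecidableEq α] (a₀ : α)
    (U : I → Finset α) (E : I → I → α → Finset α)
    (hsymm : ∀ q q' a b, b ∈ E q q' a → a ∈ E q' q b) (s : ℝ) (hs : 0 ≤ s)
    (h : ∀ (S : Finset I) (q₀ : I), q₀ ∉ S → ∀ f : I → α,
      s ≤ ((U q₀ \ S.biUnion (fun q => E q q₀ (f q))).card : ℝ)) (S : Finset I) :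
    ∃ F : Finset (I → α), s ^ S.card ≤ (F.card : ℝ) ∧ ∀ f ∈ F, (∀ q, q ∉ S → f q = a₀) ∧
      (∀ q ∈ S, f q ∈ U q) ∧ ∀ q ∈ S, ∀ q' ∈ S, q ≠ q' → f q' ∉ E q q' (f q) := by
  induction S using Finset.induction_on with
  | empty =>
    refine ⟨{fun _ => a₀}, by simp, ?_⟩
    intro f hf
    rw [mem_singleton] at hf
    subst hf
    simp
  | insert q₀ S hq₀ ih =>
    obtain ⟨F, hF1, hF2⟩ := ih
    rw [card_insert_of_notMem hq₀, pow_succ]
    let A : (I → α) → Finset α := fun f => U q₀ \ S.biUnion (fun q => E q q₀ (f q))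
    have hinj : Set.InjOn (fun x : (Σ _ : I → α, α) => Function.update x.1 q₀ x.2)
        (F.sigma A : Finset (Σ _ : I → α, α)) := by
      rintro ⟨f, b⟩ hfb ⟨f', b'⟩ hfb' heq
      rw [mem_coe, mem_sigma] at hfb hfb'
      change Function.update f q₀ b = Function.update f' q₀ b' at heq
      have hb : b = b' := by
        have := congrFun heq q₀
        rwa [Function.update_self, Function.update_self] at this
      have hf : f = f' := by
        funext q
        by_cases hq : q = q₀
        · have e1 : f q = a₀ := (hF2 f hfb.1).1 q (by rw [hq]; exact hq₀)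
          have e2 : f' q = a₀ := (hF2 f' hfb'.1).1 q (by rw [hq]; exact hq₀)
          rw [e1, e2]
        · have := congrFun heq q
          rwa [Function.update_of_ne hq, Function.update_of_ne hq] at this
      subst hb hf
      rfl
    refine ⟨(F.sigma A).image (fun x : (Σ _ : I → α, α) => Function.update x.1 q₀ x.2), ?_, ?_⟩
    · rw [card_image_of_injOn hinj, card_sigma]
      push_cast
      calc s ^ S.card * s ≤ (F.card : ℝ) * s := mul_le_mul_of_nonneg_right hF1 hs
        _ = ∑ _f ∈ F, s := by rw [sum_const, nsmul_eq_mul]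
        _ ≤ ∑ f ∈ F, ((A f).card : ℝ) := sum_le_sum fun f _ => h S q₀ hq₀ f
    · intro f' hf'
      rw [mem_image] at hf'
      obtain ⟨⟨f, b⟩, hfb, rfl⟩ := hf'
      rw [mem_sigma] at hfb
      obtain ⟨hf, hb⟩ := hfb
      obtain ⟨hf1, hf2, hf3⟩ := hF2 f hf
      obtain ⟨hb1, hb2⟩ := mem_sdiff.1 hb
      rw [mem_biUnion] at hb2
      push Not at hb2
      change (∀ q, q ∉ insert q₀ S → Function.update f q₀ b q = a₀) ∧
        (∀ q ∈ insert q₀ S, Function.update f q₀ b q ∈ U q) ∧ ∀ q ∈ insert q₀ S,
          ∀ q' ∈ insert q₀ S, q ≠ q' →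
            Function.update f q₀ b q' ∉ E q q' (Function.update f q₀ b q)
      refine ⟨?_, ?_, ?_⟩
      · intro q hq
        rw [mem_insert] at hq
        push Not at hq
        rw [Function.update_of_ne hq.1]
        exact hf1 q hq.2
      · intro q hq
        by_cases hqq : q = q₀
        · rw [hqq, Function.update_self]
          exact hb1
        · rw [Function.update_of_ne hqq]
          exact hf2 q ((mem_insert.1 hq).resolve_left hqq)
      · intro q hq q' hq' hne
        by_cases h1 : q = q₀
        · have h2 : q' ≠ q₀ := fun h => hne (h1.trans h.symm)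
          rw [h1, Function.update_self, Function.update_of_ne h2]
          exact fun hh => hb2 q' ((mem_insert.1 hq').resolve_left h2) (hsymm _ _ _ _ hh)
        · by_cases h2 : q' = q₀
          · rw [h2, Function.update_self, Function.update_of_ne h1]
            exact hb2 q ((mem_insert.1 hq).resolve_left h1)
          · rw [Function.update_of_ne h1, Function.update_of_ne h2]
            exact hf3 q ((mem_insert.1 hq).resolve_left h1) q'
              ((mem_insert.1 hq').resolve_left h2) hne

end CntL

open CntL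

theorem cnt : S_CNT := by
  classical
  intro t ε ht hε hε1
  have hρ : 0 < ε / 4 := by linarith
  refine ⟨ε / 4, ⌈(t : ℝ) ^ 2 / (ε / 4)⌉₊, hρ, by linarith, ?_⟩
  intro n k m _ M hM hk hsl z B hB p hp
  set ρ := ε / 4 with hρdef
  have hkt : (t : ℝ) ^ 2 ≤ ρ * k := by
    have h1 : (t : ℝ) ^ 2 / ρ ≤ k := (Nat.le_ceil _).trans (by exact_mod_cast hk)
    rwa [div_le_iff₀ hρ, mul_comm] at h1
  have hk0 : (0 : ℝ) ≤ k := Nat.cast_nonneg k
  set r := ⌊ρ * (k : ℝ)⌋₊ with hr
  have hr1 : (r : ℝ) ≤ ρ * k := Nat.floor_le (by positivity)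
  have hrk : r ≤ k := by
    have : (r : ℝ) ≤ k := by nlinarith
    exact_mod_cast this
  have hpr : ∀ i, p i ≤ r := fun i => Nat.le_floor (hp i).2
  let U : Fin t × Fin (t - 1) → Finset (ZMod n) := fun q =>
    (win n (k - r) z \ B) \ M (z - (p q.1 : ZMod n))
  let E : Fin t × Fin (t - 1) → Fin t × Fin (t - 1) → ZMod n → Finset (ZMod n) :=
    fun q q' a => if q.1 = q'.1 then M a else {a}
  have hE : ∀ q q' a, a ∈ E q q' a := by
    intro q q' a
    change a ∈ (if q.1 = q'.1 then M a else {a})
    split_ifs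
    · exact hM.refl a
    · exact mem_singleton_self a
  have hn : k - r ≤ n := by have := hM.size; omega
  have hU : ∀ q, (k : ℝ) - ρ * k - ρ * k - (m + 1) ≤ (U q).card := by
    intro q
    have h1 : (win n (k - r) z).card = k - r := card_win hn z
    have h2 : (B ∩ win n (k - r) z).card ≤ (B ∩ win n k z).card :=
      card_le_card (inter_subset_inter_left (win_mono (Nat.sub_le k r) z))
    have h3 := hB z
    have h4 := hM.card (z - (p q.1 : ZMod n))
    have h5 : (win n (k - r) z).card ≤ (win n (k - r) z \ B).card + (B ∩ win n (k - r) z).card := by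
      rw [inter_comm, card_sdiff_add_card_inter]
    have h6 : (win n (k - r) z \ B).card ≤ (U q).card + (M (z - (p q.1 : ZMod n))).card := by
      have := le_card_sdiff (M (z - (p q.1 : ZMod n))) (win n (k - r) z \ B)
      change _ ≤ ((win n (k - r) z \ B) \ M (z - (p q.1 : ZMod n))).card + _
      omega
    have h7 : (k : ℝ) - r = ((k - r : ℕ) : ℝ) := by rw [Nat.cast_sub hrk]
    have h8 : ((k - r : ℕ) : ℝ) ≤ ((win n (k - r) z \ B).card : ℝ) +
        ((B ∩ win n (k - r) z).card : ℝ) := by
      have h5' : k - r ≤ (win n (k - r) z \ B).card + (B ∩ win n (k - r) z).card :=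
        h1.symm.le.trans h5
      exact_mod_cast h5'
    have h9 : ((B ∩ win n (k - r) z).card : ℝ) ≤ ρ * k := by
      have : ((B ∩ win n (k - r) z).card : ℝ) ≤ ((B ∩ win n k z).card : ℝ) := by exact_mod_cast h2
      exact this.trans h3
    have h10 : ((win n (k - r) z \ B).card : ℝ) ≤ (U q).card + (m + 1) := by
      have : ((win n (k - r) z \ B).card : ℝ) ≤
          (U q).card + ((M (z - (p q.1 : ZMod n))).card : ℝ) := by exact_mod_cast h6
      have h11 : ((M (z - (p q.1 : ZMod n))).card : ℝ) ≤ m + 1 := by exact_mod_cast h4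
      linarith
    linarith
  have hsum : ∀ (S : Finset (Fin t × Fin (t - 1))) (q₀ : Fin t × Fin (t - 1)), q₀ ∉ S →
      ∀ f : Fin t × Fin (t - 1) → ZMod n,
      ((S.biUnion (fun q => E q q₀ (f q))).card : ℝ) ≤ ((t : ℝ) - 2) * (m + 1) + t ^ 2 := by
    intro S q₀ hq₀ f
    have h1 : (S.biUnion (fun q => E q q₀ (f q))).card ≤ ∑ q ∈ S, (E q q₀ (f q)).card :=
      card_biUnion_le
    have h2 : ∑ q ∈ S, (E q q₀ (f q)).card ≤
        ∑ q ∈ S, ((if q.1 = q₀.1 then (m + 1) else 0) + 1) := by
      refine sum_le_sum fun q _ => ?_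
      change (if q.1 = q₀.1 then M (f q) else {f q} : Finset (ZMod n)).card ≤ _
      split_ifs
      · exact (hM.card _).trans (Nat.le_succ _)
      · simp
    have h3 : ∑ q ∈ S, ((if q.1 = q₀.1 then (m + 1) else 0) + 1) =
        (S.filter (fun q => q.1 = q₀.1)).card * (m + 1) + S.card := by
      rw [sum_add_distrib, ← sum_filter, sum_const, smul_eq_mul, sum_const, smul_eq_mul, mul_one]
    have h4 : (S.filter (fun q => q.1 = q₀.1)).card + 1 ≤ t - 1 := by
      have h5 : insert q₀.2 ((S.filter (fun q => q.1 = q₀.1)).image Prod.snd) ⊆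
          (univ : Finset (Fin (t - 1))) := subset_univ _
      have h6 := card_le_card h5
      rw [card_insert_of_notMem, card_image_of_injOn, card_univ, Fintype.card_fin] at h6
      · exact h6
      · rintro ⟨a, b⟩ hab ⟨a', b'⟩ hab' hbb
        rw [mem_coe, mem_filter] at hab hab'
        simp only at hbb hab hab'
        rw [hbb, hab.2, hab'.2]
      · intro hmem
        rw [mem_image] at hmem
        obtain ⟨⟨a, b⟩, hab, hb⟩ := hmem
        rw [mem_filter] at hab
        apply hq₀
        have : q₀ = (a, b) := Prod.ext hab.2.symm hb.symm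
        rw [this]
        exact hab.1
    have h7 : S.card ≤ t ^ 2 := by
      have h8 := card_le_univ S
      rw [Fintype.card_prod, Fintype.card_fin, Fintype.card_fin] at h8
      refine h8.trans ?_
      rw [pow_two]
      exact Nat.mul_le_mul_left _ (Nat.sub_le _ _)
    have h9 : (S.biUnion (fun q => E q q₀ (f q))).card ≤ (t - 2) * (m + 1) + t ^ 2 := by
      refine (h1.trans h2).trans ?_
      rw [h3]
      exact Nat.add_le_add (Nat.mul_le_mul_right _ (by omega)) h7
    have h10 : (((t - 2 : ℕ)) : ℝ) = (t : ℝ) - 2 := by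
      rw [Nat.cast_sub ht]
      norm_num
    calc ((S.biUnion (fun q => E q q₀ (f q))).card : ℝ)
        ≤ (((t - 2) * (m + 1) + t ^ 2 : ℕ) : ℝ) := by exact_mod_cast h9
      _ = ((t : ℝ) - 2) * (m + 1) + t ^ 2 := by
        push_cast
        rw [h10]
  obtain ⟨F, hc, hF⟩ := count (I := Fin t × Fin (t - 1)) (α := ZMod n) 0 U E
    (by
      intro q q' a b hb
      change b ∈ (if q.1 = q'.1 then M a else {a}) at hb
      change a ∈ (if q'.1 = q.1 then M b else {b})
      by_cases hqq : q.1 = q'.1
      · rw [if_pos hqq] at hb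
        rw [if_pos hqq.symm]
        exact hM.symm _ _ hb
      · rw [if_neg hqq] at hb
        rw [if_neg (fun h => hqq h.symm)]
        rw [mem_singleton] at hb ⊢
        exact hb.symm)
    (ρ * k) (by positivity)
    (by
      intro S q₀ hq₀ f
      have h1 := hsum S q₀ hq₀ f
      have h2 := hU q₀
      have h3 : ((U q₀).card : ℝ) ≤ ((U q₀ \ S.biUnion (fun q => E q q₀ (f q))).card : ℝ) +
          ((S.biUnion (fun q => E q q₀ (f q))).card : ℝ) := by
        have := le_card_sdiff (S.biUnion (fun q => E q q₀ (f q))) (U q₀)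
        have h4 : (U q₀).card ≤ (U q₀ \ S.biUnion (fun q => E q q₀ (f q))).card +
          (S.biUnion (fun q => E q q₀ (f q))).card := by omega
        exact_mod_cast h4
      have h5 : ε = 4 * ρ := by rw [hρdef]; ring
      have h6 : ((t : ℝ) - 1) * (m + 1) ≤ k - 4 * (ρ * k) := by
        have : (1 - ε) * (k : ℝ) = k - 4 * (ρ * k) := by rw [h5]; ring
        linarith
      have h7 : ((t : ℝ) - 2) * (m + 1) = ((t : ℝ) - 1) * (m + 1) - (m + 1) := by ring
      linarith) univ
  have hcard : (univ : Finset (Fin t × Fin (t - 1))).card = t * (t - 1) := by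
    rw [card_univ, Fintype.card_prod, Fintype.card_fin, Fintype.card_fin]
  rw [hcard] at hc
  refine hc.trans (Nat.cast_le.2 ?_)
  · refine card_le_card_of_injOn (fun f i j => f (i, j)) ?_ ?_
    · intro f hf
      obtain ⟨-, h1, h2⟩ := hF f (mem_coe.1 hf)
      rw [mem_coe, mem_filter]
      have hUm : ∀ q, f q ∈ win n (k - r) z ∧ f q ∉ B ∧ f q ∉ M (z - (p q.1 : ZMod n)) := by
        intro q
        have h3 := h1 q (mem_univ _)
        change f q ∈ (win n (k - r) z \ B) \ M (z - (p q.1 : ZMod n)) at h3
        rw [mem_sdiff, mem_sdiff] at h3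
        exact ⟨h3.1.1, h3.1.2, h3.2⟩
      have hinj : Function.Injective (fun q : Fin t × Fin (t - 1) => f (q.1, q.2)) := by
        intro q q' hqq
        by_contra hne
        change f q = f q' at hqq
        apply h2 q (mem_univ _) q' (mem_univ _) hne
        rw [← hqq]
        exact hE q q' (f q)
      have hrow : ∀ i j j', j ≠ j' → f (i, j') ∉ M (f (i, j)) := by
        intro i j j' hjj
        have h4 := h2 (i, j) (mem_univ _) (i, j') (mem_univ _) (fun h => hjj (Prod.ext_iff.1 h).2)
        change f (i, j') ∉ (if (i, j).1 = (i, j').1 then M (f (i, j)) else {f (i, j)}) at h4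
        rwa [if_pos rfl] at h4
      have hnear : ∀ i j, Near n k (f (i, j)) (z - (p i : ZMod n)) := by
        intro i j
        obtain ⟨u, hu, hfu⟩ := mem_win.1 (hUm (i, j)).1
        rw [← hfu]
        have h5 := hpr i
        refine ⟨-((u : ℤ) + p i), by rw [abs_le]; constructor <;> omega, by push_cast; ring⟩
      have hnotin : ∀ i, z - (p i : ZMod n) ∉ univ.image (fun j => f (i, j)) := by
        intro i hmem
        rw [mem_image] at hmem
        obtain ⟨j, -, hj⟩ := hmem
        apply (hUm (i, j)).2.2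
        rw [hj]
        exact hM.refl _
      refine ⟨mem_univ _, hinj, fun i j => ⟨win_mono (Nat.sub_le k r) z (hUm (i, j)).1,
        (hUm (i, j)).2.1⟩, fun i => ⟨hnotin i, ?_⟩⟩
      have hcl : IsCl n k M (t - 1) (univ.image (fun j => f (i, j))) := by
        refine ⟨?_, ?_⟩
        · rw [card_image_of_injective, card_univ, Fintype.card_fin]
          intro j j' hjj
          have h6 := hinj (a₁ := (i, j)) (a₂ := (i, j')) hjj
          exact (Prod.ext_iff.1 h6).2
        · intro x hx y hy hxy
          rw [mem_image] at hx hy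
          obtain ⟨j, -, rfl⟩ := hx
          obtain ⟨j', -, rfl⟩ := hy
          have hjj : j ≠ j' := by rintro rfl; exact hxy rfl
          exact ⟨near_of_mem_win' (win_mono (Nat.sub_le k r) z (hUm (i, j)).1)
            (win_mono (Nat.sub_le k r) z (hUm (i, j')).1), hrow i j j' hjj⟩
      have h7 := isCl_insert hM hcl (u := z - (p i : ZMod n)) (by
        intro x hx
        rw [mem_image] at hx
        obtain ⟨j, -, rfl⟩ := hx
        exact hnear i j) (by
        intro x hx
        rw [mem_image] at hx
        obtain ⟨j, -, rfl⟩ := hx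
        exact fun hh => (hUm (i, j)).2.2 (hM.symm _ _ hh))
      rwa [show t - 1 + 1 = t by omega] at h7
    · intro f _ f' _ hff
      funext q
      exact congrFun (congrFun hff q.1) q.2

end Pool.Agent.Helper83K9.CF
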