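import Pool.Agent.Helper83K9.CF.Ext

/-!
Clique factors in powers of cycles: connectors (`CONN`).
-/

set_option autoImplicit false

namespace Pool.Agent.Helper83K9.CF

open Finset

namespace ConnL

variable {n k m t : ℕ} {M : ZMod n → Finset (ZMod n)}

theorem conn_symm {x y : ZMod n} {S : Finset (ZMod n)} (h : Conn n k M t x y S) :
    Conn n k M t y x S := ⟨h.2.1, h.1, h.2.2.2, h.2.2.1⟩

/-- composition of connectors -/
theorem conn_trans {x v y : ZMod n} {S₁ S₂ : Finset (ZMod n)} (h₁ : Conn n k M t x v S₁)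
    (h₂ : Conn n k M t v y S₂) (hd : Disjoint S₁ S₂) (hxv : x ≠ v) (hyv : y ≠ v) (hx : x ∉ S₂)
    (hy : y ∉ S₁) : Conn n k M t x y (insert v (S₁ ∪ S₂)) := by
  obtain ⟨a1, a2, a3, a4⟩ := h₁
  obtain ⟨b1, b2, b3, b4⟩ := h₂
  refine ⟨?_, ?_, ?_, ?_⟩
  · simp only [mem_insert, mem_union, not_or]
    exact ⟨hxv, a1, hx⟩
  · simp only [mem_insert, mem_union, not_or]
    exact ⟨hyv, hy, b2⟩
  · have e : insert x (insert v (S₁ ∪ S₂)) = insert x S₁ ∪ insert v S₂ := by
      ext w; simp only [mem_insert, mem_union]; tauto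
    rw [e]
    refine tile_union a3 b3 ?_
    rw [disjoint_insert_left, disjoint_insert_right]
    refine ⟨?_, a2, hd⟩
    simp only [mem_insert, not_or]
    exact ⟨hxv, hx⟩
  · have e : insert y (insert v (S₁ ∪ S₂)) = insert v S₁ ∪ insert y S₂ := by
      ext w; simp only [mem_insert, mem_union]; tauto
    rw [e]
    refine tile_union a4 b4 ?_
    rw [disjoint_insert_left, disjoint_insert_right]
    refine ⟨?_, hy, hd⟩
    simp only [mem_insert, not_or]
    exact ⟨fun h => hyv h.symm, b1⟩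

end ConnL

theorem conn : S_CONN := by
  classical
  intro t ε ht hε hε1
  obtain ⟨ρ, k₁, hρ, hρ1, hstep⟩ := step t ε ht hε hε1
  obtain ⟨L, hL⟩ := exists_nat_ge (12 / ρ)
  obtain ⟨k₂, hk₂⟩ := exists_nat_ge (max (4 / ρ) (8 * ((L + 1) * (t + 3) + 1) / ρ))
  refine ⟨ρ / 8, (L + 1) * t, max k₁ k₂, by positivity, ?_⟩
  intro n k m _ M hH hk hs x y i hi hy B hB
  have hk1 : k₁ ≤ k := le_trans (le_max_left _ _) hk
  have hk2 : k₂ ≤ k := le_trans (le_max_right _ _) hk
  have hn := hH.size
  have hkR : max (4 / ρ) (8 * ((L + 1) * (t + 3) + 1) / ρ) ≤ (k : ℝ) :=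
    hk₂.trans (by exact_mod_cast hk2)
  have hkA : 4 ≤ ρ * k := by
    have := (le_max_left _ _).trans hkR
    rw [div_le_iff₀ hρ] at this
    linarith
  have hkB : 8 * (((L : ℝ) + 1) * (t + 3) + 1) ≤ ρ * k := by
    have := (le_max_right _ _).trans hkR
    rw [div_le_iff₀ hρ] at this
    linarith
  have hkpos : (1 : ℝ) ≤ k := by exact_mod_cast hH.kpos
  -- the step length
  obtain ⟨r, hr⟩ : ∃ r : ℕ, r = ⌊ρ * k / 2⌋₊ := ⟨_, rfl⟩
  have hr1 : (r : ℝ) ≤ ρ * k / 2 := by
    rw [hr]; exact Nat.floor_le (by positivity)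
  have hr2 : ρ * k / 4 ≤ (r : ℝ) := by
    have := Nat.lt_floor_add_one (ρ * k / 2)
    rw [← hr] at this
    linarith
  have hrk : 2 * r ≤ k := by
    have : (2 : ℝ) * r ≤ k := by nlinarith
    exact_mod_cast this
  have hrpos : 0 < r := by
    have : (0 : ℝ) < r := by linarith
    exact_mod_cast this
  -- one step
  have base : ∀ (x y : ZMod n) (i : ℕ) (B : Finset (ZMod n)) (θ : ℝ), i ≤ 2 * r →
      y = x + (i : ZMod n) → Thin n k θ B → θ ≤ ρ * k →
      ∃ S : Finset (ZMod n), S.card + 1 ≤ t ∧ Disjoint S B ∧ Conn n k M t x y S ∧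
        ∀ v ∈ S, ∃ j : ℕ, j ≤ 2 * k + i ∧ v = x - (k : ZMod n) + (j : ZMod n) := by
    intro x y i B θ hi hy hB hθ
    obtain ⟨T, h1, h2, h3, h4, h5, h6, h7⟩ := hstep n k m M hH hk1 hs x y i
      (by
        have : (i : ℝ) ≤ 2 * r := by exact_mod_cast hi
        linarith) hy B (thin_mono hB hθ subset_rfl)
    refine ⟨T, by omega, h3, ⟨h4, h5, tile_of_isCl h6, tile_of_isCl h7⟩, ?_⟩
    intro v hv
    obtain ⟨j, hj, rfl⟩ := mem_win.1 (h1 hv)
    exact ⟨j, by omega, rfl⟩
  -- several steps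
  have key : ∀ (l : ℕ) (x y : ZMod n) (i : ℕ) (B : Finset (ZMod n)) (θ : ℝ), i ≤ (l + 2) * r →
      i ≤ 3 * k → y = x + (i : ZMod n) → Thin n k θ B → θ + (l + 1) * (t + 3) < r →
      ∃ S : Finset (ZMod n), S.card ≤ (l + 1) * t ∧ Disjoint S B ∧ Conn n k M t x y S ∧
        ∀ v ∈ S, ∃ j : ℕ, j ≤ 2 * k + i ∧ v = x - (k : ZMod n) + (j : ZMod n) := by
    intro l
    induction l with
    | zero =>
      intro x y i B θ hi _ hy hB hθ
      obtain ⟨S, h1, h2, h3, h4⟩ := base x y i B θ (by simpa using hi) hy hB (by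
        have : (0 : ℝ) ≤ (t : ℝ) + 3 := by positivity
        push_cast at hθ
        linarith)
      exact ⟨S, by omega, h2, h3, h4⟩
    | succ l ih =>
      intro x y i B θ hi hi3 hy hB hθ
      have ht3 : (0 : ℝ) ≤ (t : ℝ) + 3 := by positivity
      have hl0 : (0 : ℝ) ≤ (l : ℝ) := by positivity
      push_cast at hθ
      by_cases hi2 : i ≤ 2 * r
      · obtain ⟨S, h1, h2, h3, h4⟩ := base x y i B θ hi2 hy hB (by nlinarith)
        refine ⟨S, ?_, h2, h3, h4⟩
        have : t ≤ (l + 1 + 1) * t := Nat.le_mul_of_pos_left _ (by omega)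
        omega
      · -- the intermediate vertex
        have h1 : ∃ v ∈ win n r (x + (r : ZMod n)), v ∉ B ∪ {x, y} := by
          by_contra hcon
          push Not at hcon
          have h2 : win n r (x + (r : ZMod n)) ⊆ (B ∩ win n k (x + (r : ZMod n))) ∪ {x, y} := by
            intro v hv
            have h3 := hcon v hv
            rw [mem_union] at h3 ⊢
            rcases h3 with h3 | h3
            · exact Or.inl (mem_inter.2 ⟨h3, win_mono (by omega) _ hv⟩)
            · exact Or.inr h3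
          have h4 := card_le_card h2
          rw [card_win (by omega)] at h4
          have h5 := card_union_le (B ∩ win n k (x + (r : ZMod n))) {x, y}
          have h6 : ({x, y} : Finset (ZMod n)).card ≤ 2 := card_le_two
          have h7 : (r : ℝ) ≤ (B ∩ win n k (x + (r : ZMod n))).card + 2 := by
            exact_mod_cast (by omega : r ≤ (B ∩ win n k (x + (r : ZMod n))).card + 2)
          have h8 := hB (x + (r : ZMod n))
          nlinarith
        obtain ⟨v, hv, hvB⟩ := h1
        obtain ⟨a, ha, hav⟩ := mem_win.1 hv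
        have hvx : v = x + ((r + a : ℕ) : ZMod n) := by rw [← hav]; push_cast; ring
        have hyv : y = v + ((i - (r + a) : ℕ) : ZMod n) := by
          rw [hy, hvx, Nat.cast_sub (by omega)]; ring
        simp only [mem_union, mem_insert, mem_singleton, not_or] at hvB
        have hcard3 : ({x, y, v} : Finset (ZMod n)).card ≤ 3 := card_le_three
        have hcard3R : ((({x, y, v} : Finset (ZMod n)).card : ℕ) : ℝ) ≤ 3 := by
          exact_mod_cast hcard3
        have hB1 : Thin n k (θ + 3) (B ∪ {x, y, v}) := thin_union hB (thin_of_card hcard3R)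
        obtain ⟨S₁, c1, c2, c3, c4⟩ := base x v (r + a) (B ∪ {x, y, v}) (θ + 3) (by omega) hvx hB1
          (by nlinarith)
        have hS1 : ((S₁.card : ℕ) : ℝ) ≤ (t : ℝ) - 1 := by
          have : ((S₁.card + 1 : ℕ) : ℝ) ≤ t := by exact_mod_cast c1
          push_cast at this
          linarith
        have hB2 : Thin n k (θ + 3 + ((t : ℝ) - 1)) ((B ∪ {x, y, v}) ∪ S₁) :=
          thin_union hB1 (thin_of_card hS1)
        obtain ⟨S₂, d1, d2, d3, d4⟩ := ih v y (i - (r + a)) ((B ∪ {x, y, v}) ∪ S₁)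
          (θ + 3 + ((t : ℝ) - 1)) (by
            have e1 : (l + 1 + 2) * r = (l + 2) * r + r := by ring
            omega) (by omega) hyv hB2 (by nlinarith)
        rw [disjoint_union_right] at d2
        have e1 := disjoint_union_right.1 c2
        have e2 := disjoint_union_right.1 d2.1
        have f1 : ∀ w, w ∈ ({x, y, v} : Finset (ZMod n)) → w ∉ S₁ ∧ w ∉ S₂ :=
          fun w hw => ⟨fun h => disjoint_left.1 e1.2 h hw, fun h => disjoint_left.1 e2.2 h hw⟩
        have gx := f1 x (by simp)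
        have gy := f1 y (by simp)
        have gv := f1 v (by simp)
        refine ⟨insert v (S₁ ∪ S₂), ?_, ?_, ConnL.conn_trans c3 d3 d2.2.symm
          (fun h => hvB.2.1 h.symm) (fun h => hvB.2.2 h.symm) gx.2 gy.1, ?_⟩
        · have h1 := card_insert_le v (S₁ ∪ S₂)
          have h2 := card_union_le S₁ S₂
          have h3 : (l + 1 + 1) * t = (l + 1) * t + t := by ring
          omega
        · rw [disjoint_insert_left, disjoint_union_left]
          exact ⟨hvB.1, e1.1, e2.1⟩
        · intro w hw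
          rw [mem_insert, mem_union] at hw
          rcases hw with rfl | hw | hw
          · exact ⟨k + (r + a), by omega, by rw [hvx]; push_cast; ring⟩
          · obtain ⟨j, hj, rfl⟩ := c4 w hw
            exact ⟨j, by omega, rfl⟩
          · obtain ⟨j, hj, rfl⟩ := d4 w hw
            exact ⟨r + a + j, by omega, by rw [hvx]; push_cast; ring⟩
  -- conclusion
  have hLr : 3 * k ≤ (L + 2) * r := by
    have h1 : 12 ≤ ρ * L := by
      rw [div_le_iff₀ hρ] at hL
      linarith
    have h2 : (3 : ℝ) * k ≤ (L + 2) * r := by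
      have h3 : (L : ℝ) * (ρ * k / 4) ≤ L * r := mul_le_mul_of_nonneg_left hr2 (by positivity)
      have h4 : (12 : ℝ) * k ≤ ρ * L * k := mul_le_mul_of_nonneg_right h1 (by positivity)
      have h5 : (0 : ℝ) ≤ r := by positivity
      nlinarith
    exact_mod_cast h2
  obtain ⟨S, h1, h2, h3, h4⟩ := key L x y i B (ρ / 8 * k) (by omega) hi hy hB (by nlinarith)
  refine ⟨S, h1, h2, h3, fun v hv => ?_⟩
  obtain ⟨j, hj, rfl⟩ := h4 v hv
  exact ⟨j, by omega, rfl⟩

end Pool.Agent.Helper83K9.CF
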