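import Mathlib

/-!
Clique factors in dense subgraphs of powers of cycles (MP_8870f3_co): definitions.
-/

namespace Pool.Agent.Helper83K9.CF

open Finset

/-- `C_n^k` -/
def cyc (n k : ℕ) : SimpleGraph (ZMod n) where
  Adj i j := i ≠ j ∧ ∃ d : ℕ, 1 ≤ d ∧ d ≤ k ∧ (j - i = (d : ZMod n) ∨ j - i = -(d : ZMod n))
  symm := ⟨by
    rintro i j ⟨h, d, h1, h2, h3⟩
    refine ⟨h.symm, d, h1, h2, ?_⟩
    rcases h3 with h3 | h3
    · right; rw [← h3]; ring
    · left; rw [← neg_sub, h3]; ring⟩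
  loopless := ⟨fun i h => h.1 rfl⟩

/-- the degree of a vertex -/
noncomputable def deg {V : Type} (G : SimpleGraph V) (v : V) : ℕ := (G.neighborSet v).ncard

/-- `H` is an `α`-subgraph of `G` -/
def AlphaSub {V : Type} (α : ℝ) (H G : SimpleGraph V) : Prop :=
  H ≤ G ∧ ∀ v, α * deg G v ≤ deg H v

/-- a `K_t`-factor: vertex disjoint copies of `K_t` covering all vertices -/
def HasFactor {V : Type} (t : ℕ) (H : SimpleGraph V) : Prop :=
  ∃ F : Set (Finset V), (∀ K ∈ F, H.IsNClique t K) ∧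
    (∀ K ∈ F, ∀ L ∈ F, K ≠ L → ∀ v, v ∈ K → v ∉ L) ∧ ∀ v, ∃ K ∈ F, v ∈ K

/-- the set `A_t` of the problem -/
def A (t : ℕ) : Set ℝ := {α | 0 < α ∧ ∃ k₀ : ℕ, ∀ k n : ℕ, 1 ≤ k → k₀ ≤ k → k ≤ n → t ∣ n →
  ∀ H : SimpleGraph (ZMod n), AlphaSub α H (cyc n k) → HasFactor t H}

/-! Working notions.  `M x` is the closed missing neighbourhood of `x`. -/

/-- cyclic distance at most `k` -/
def Near (n k : ℕ) (x y : ZMod n) : Prop := ∃ i : ℤ, |i| ≤ (k : ℤ) ∧ y = x + (i : ZMod n)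

/-- the window `z, z + 1, ..., z + k - 1` -/
def win (n k : ℕ) (z : ZMod n) : Finset (ZMod n) :=
  (range k).image (fun i : ℕ => z + (i : ZMod n))

/-- `M x` = closed missing neighbourhoods of size at most `m + 1` inside `C_n^k`, `n ≥ 2k+1` -/
structure Host (n k m : ℕ) (M : ZMod n → Finset (ZMod n)) : Prop where
  kpos : 1 ≤ k
  size : 2 * k + 1 ≤ n
  refl : ∀ x, x ∈ M x
  symm : ∀ x y, y ∈ M x → x ∈ M y
  near : ∀ x y, y ∈ M x → Near n k x y
  card : ∀ x, (M x).card ≤ m + 1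

/-- `K` is a clique with `t` vertices -/
def IsCl (n k : ℕ) (M : ZMod n → Finset (ZMod n)) (t : ℕ) (K : Finset (ZMod n)) : Prop :=
  K.card = t ∧ ∀ x ∈ K, ∀ y ∈ K, x ≠ y → Near n k x y ∧ y ∉ M x

/-- `Z` is a disjoint union of cliques with `t` vertices -/
def Tile (n k : ℕ) (M : ZMod n → Finset (ZMod n)) (t : ℕ) (Z : Finset (ZMod n)) : Prop :=
  ∃ F : Finset (Finset (ZMod n)), (∀ K ∈ F, IsCl n k M t K) ∧
    (∀ K ∈ F, ∀ L ∈ F, K ≠ L → Disjoint K L) ∧ F.biUnion id = Z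

/-- at most `b` elements in every window -/
def Thin (n k : ℕ) (b : ℝ) (B : Finset (ZMod n)) : Prop :=
  ∀ z, ((B ∩ win n k z).card : ℝ) ≤ b

/-- `Y_S = ∑_{v ∈ S ∩ U} 1 / D v` -/
noncomputable def Y {V : Type} [DecidableEq V] (S U : Finset V) (D : V → ℝ) : ℝ :=
  ∑ v ∈ S ∩ U, (D v)⁻¹

/-- rate of the vertex `v` for the set `A` of starting points of segments of length `N` -/
noncomputable def rate (n k N : ℕ) (A : Finset (ZMod n)) (v : ZMod n) : ℝ :=
  (((Ico k N).filter (fun i : ℕ => v - (i : ZMod n) ∈ A)).card : ℝ) / N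

/-- error of the rate (first windows) -/
noncomputable def err (n k N : ℕ) (A : Finset (ZMod n)) (v : ZMod n) : ℝ :=
  (((range k).filter (fun i : ℕ => v - (i : ZMod n) ∈ A)).card : ℝ) / N

/-- `D` changes at most by the factor `exp θ` per step -/
def Slow (n : ℕ) (θ : ℝ) (D : ZMod n → ℝ) : Prop :=
  ∀ v, D (v + 1) ≤ Real.exp θ * D v ∧ D v ≤ Real.exp θ * D (v + 1)

/-- the remaining set `U` has density `D` with respect to all tests, up to `b` -/
def St (n k : ℕ) (M : ZMod n → Finset (ZMod n)) (b : ℝ) (U : Finset (ZMod n)) (D : ZMod n → ℝ) :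
    Prop :=
  (∀ x, Y (M x) U D ≤ (M x).card + b) ∧ ∀ y, |Y (win n k y) U D - k| ≤ b

/-- an arc of starting points: everything (if `n ≤ 2N`), or an interval of length in `[N, 2N]` -/
def Arc (n N : ℕ) (A : Finset (ZMod n)) : Prop :=
  (n ≤ 2 * N ∧ ∀ v, v ∈ A) ∨ ∃ (a : ZMod n) (l : ℕ), N ≤ l ∧ l ≤ 2 * N ∧ A = win n l a

end Pool.Agent.Helper83K9.CF
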