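import Pool.Agent.Helper83K9.CF.Base

/-!
Clique factors in powers of cycles: extension of cliques (`EXT`, `CLQ`, `STEP`).
-/

set_option autoImplicit false

namespace Pool.Agent.Helper83K9.CF

open Finset

namespace ExtL

variable {n k m : ℕ} {M : ZMod n → Finset (ZMod n)}

/-- count of the admissible vertices of a set -/
theorem count (hM : ∀ x, (M x).card ≤ m + 1) (W T F : Finset (ZMod n))
    [DecidablePred fun u => u ∉ F ∧ ∀ x ∈ T, u ∉ M x] :
    W.card ≤ (W.filter (fun u => u ∉ F ∧ ∀ x ∈ T, u ∉ M x)).card + (F ∩ W).card +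
      T.card * (m + 1) := by
  have h1 : W ⊆ (W.filter (fun u => u ∉ F ∧ ∀ x ∈ T, u ∉ M x)) ∪ (F ∩ W) ∪ T.biUnion M := by
    intro u hu
    by_cases h2 : u ∈ F
    · simp [h2, hu]
    · by_cases h3 : ∃ x ∈ T, u ∈ M x
      · simp only [mem_union, mem_biUnion]
        exact Or.inr h3
      · push Not at h3
        simp only [mem_union, mem_filter]
        exact Or.inl (Or.inl ⟨hu, h2, h3⟩)
  have h2 : (T.biUnion M).card ≤ T.card * (m + 1) := card_biUnion_le_card_mul _ _ _ fun x _ => hM x
  calc W.card ≤ _ := card_le_card h1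
    _ ≤ _ := card_union_le _ _
    _ ≤ _ := by
      have := card_union_le (W.filter (fun u => u ∉ F ∧ ∀ x ∈ T, u ∉ M x)) (F ∩ W)
      omega

open Classical in
/-- greedy choice of a clique in a set of pairwise near vertices -/
theorem greedy (hH : Host n k m M) (W F : Finset (ZMod n))
    (hW : ∀ x ∈ W, ∀ y ∈ W, Near n k x y) (s : ℕ)
    (h : (F ∩ W).card + (s - 1) * (m + 1) < W.card) :
    ∃ T : Finset (ZMod n), T ⊆ W ∧ Disjoint T F ∧ IsCl n k M s T := by
  have key : ∀ j ≤ s, ∃ T : Finset (ZMod n), T ⊆ W ∧ Disjoint T F ∧ IsCl n k M j T := by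
    intro j
    induction j with
    | zero =>
      intro _
      exact ⟨∅, by simp, by simp, rfl, by simp⟩
    | succ j ih =>
      intro hj
      obtain ⟨T, h1, h2, h3⟩ := ih (by omega)
      have h4 := count hH.card W T F
      have h5 : T.card * (m + 1) ≤ (s - 1) * (m + 1) := by
        rw [h3.1]
        exact Nat.mul_le_mul_right _ (by omega)
      have h6 : 0 < (W.filter (fun u => u ∉ F ∧ ∀ x ∈ T, u ∉ M x)).card := by omega
      obtain ⟨u, hu⟩ := card_pos.1 h6
      rw [mem_filter] at hu
      refine ⟨insert u T, insert_subset hu.1 h1, ?_, isCl_insert hH h3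
        (fun x hx => hW x (h1 hx) u hu.1) hu.2.2⟩
      rw [disjoint_insert_left]
      exact ⟨hu.2.1, h2⟩
  exact key s le_rfl

end ExtL

theorem ext : S_EXT := by
  intro t ε ht hε hε1 n k m _ M hH hs z T B hT hB
  have h1 := ExtL.count hH.card (win n k z) T B
  have h2 : (win n k z).card = k := card_win (by have := hH.size; omega) z
  rw [h2] at h1
  have h3 : (k : ℝ) ≤ ((win n k z).filter (fun u => u ∉ B ∧ ∀ x ∈ T, u ∉ M x)).card +
      (B ∩ win n k z).card + T.card * (m + 1) := by exact_mod_cast h1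
  have h4 : (T.card : ℝ) * (m + 1) ≤ ((t : ℝ) - 1) * (m + 1) := by
    apply mul_le_mul_of_nonneg_right _ (by positivity)
    have : T.card + 1 ≤ t := by omega
    have : (T.card : ℝ) + 1 ≤ t := by exact_mod_cast this
    linarith
  nlinarith

theorem clq : S_CLQ := by
  classical
  intro t ε ht hε hε1 n k m _ M hH hs z B hB
  have hk : (1 : ℝ) ≤ k := by exact_mod_cast hH.kpos
  have h2 : (win n k z).card = k := card_win (by have := hH.size; omega) z
  have h1 : (B ∩ win n k z).card + (t - 1) * (m + 1) < (win n k z).card := by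
    rw [h2]
    have h3 : (((B ∩ win n k z).card + (t - 1) * (m + 1) : ℕ) : ℝ) < k := by
      push_cast [Nat.cast_sub (show 1 ≤ t by omega)]
      nlinarith
    exact_mod_cast h3
  obtain ⟨T, h3, h4, h5⟩ := ExtL.greedy hH (win n k z) B
    (fun x hx y hy => near_of_mem_win' hx hy) t h1
  exact ⟨T, h5, h3, h4⟩

theorem step : S_STEP := by
  classical
  intro t ε ht hε hε1
  refine ⟨ε / 4, 0, by positivity, by linarith, ?_⟩
  intro n k m _ M hH _ hs x y i hi hy B hB
  have hk : (1 : ℝ) ≤ k := by exact_mod_cast hH.kpos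
  have hn := hH.size
  have hik : (i : ℝ) < k := by nlinarith
  have hik' : i < k := by exact_mod_cast hik
  -- the two sides
  have hS : ∀ w : ZMod n, (win n (k - i) w).card = k - i := fun w => card_win (by omega) w
  have hdis : Disjoint (win n (k - i) (x + ((i + 1 : ℕ) : ZMod n)))
      (win n (k - i) (x - ((k - i : ℕ) : ZMod n))) := by
    rw [disjoint_left]
    intro v hv hv'
    obtain ⟨a, ha, rfl⟩ := mem_win.1 hv
    obtain ⟨b, hb, hab⟩ := mem_win.1 hv'
    have h1 : (x + (((b : ℤ) - (k - i : ℕ) : ℤ) : ZMod n)) =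
        x + ((((i + 1 : ℕ) : ℤ) + a : ℤ) : ZMod n) := by
      rw [show x + (((b : ℤ) - (k - i : ℕ) : ℤ) : ZMod n) =
        x - ((k - i : ℕ) : ZMod n) + (b : ZMod n) by push_cast; ring, hab]
      push_cast; ring
    have h2 := int_inj x h1 (by rw [abs_lt]; constructor <;> omega)
    omega
  have hMM : (M x ∩ win n (k - i) (x + ((i + 1 : ℕ) : ZMod n))).card +
      (M x ∩ win n (k - i) (x - ((k - i : ℕ) : ZMod n))).card ≤ m + 1 := by
    rw [← card_union_of_disjoint (disjoint_of_subset_left inter_subset_right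
      (disjoint_of_subset_right inter_subset_right hdis)), ← inter_union_distrib_left]
    exact (card_le_card inter_subset_left).trans (hH.card x)
  have hMM' : (M y ∩ win n (k - i) (x + ((i + 1 : ℕ) : ZMod n))).card +
      (M y ∩ win n (k - i) (x - ((k - i : ℕ) : ZMod n))).card ≤ m + 1 := by
    rw [← card_union_of_disjoint (disjoint_of_subset_left inter_subset_right
      (disjoint_of_subset_right inter_subset_right hdis)), ← inter_union_distrib_left]
    exact (card_le_card inter_subset_left).trans (hH.card y)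
  -- one good side suffices
  have key : ∀ w : ZMod n, (M x ∩ win n (k - i) w).card + (M y ∩ win n (k - i) w).card ≤ m + 1 →
      (∀ v ∈ win n (k - i) w, Near n k v x ∧ Near n k v y ∧
        v ∈ win n (2 * k + 1) (x - (k : ZMod n))) →
      ∃ T : Finset (ZMod n), T ⊆ win n (2 * k + 1) (x - (k : ZMod n)) ∧ T.card = t - 1 ∧
        Disjoint T B ∧ x ∉ T ∧ y ∉ T ∧ IsCl n k M t (insert x T) ∧ IsCl n k M t (insert y T) := by
    intro w hw hnear
    have hBW : ((B ∩ win n (k - i) w).card : ℝ) ≤ ε / 4 * k := by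
      refine le_trans ?_ (hB w)
      exact_mod_cast card_le_card (inter_subset_inter_left (win_mono (Nat.sub_le k i) w))
    have hF : ((B ∪ M x ∪ M y) ∩ win n (k - i) w).card ≤ (B ∩ win n (k - i) w).card + (m + 1) := by
      rw [union_inter_distrib_right, union_inter_distrib_right]
      have h1 := card_union_le (B ∩ win n (k - i) w ∪ M x ∩ win n (k - i) w) (M y ∩ win n (k - i) w)
      have h2 := card_union_le (B ∩ win n (k - i) w) (M x ∩ win n (k - i) w)
      omega
    have hcnt : ((B ∪ M x ∪ M y) ∩ win n (k - i) w).card + (t - 1 - 1) * (m + 1) <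
        (win n (k - i) w).card := by
      rw [hS w]
      have h3 : (((B ∪ M x ∪ M y) ∩ win n (k - i) w).card : ℝ) ≤
          (B ∩ win n (k - i) w).card + ((m : ℝ) + 1) := by exact_mod_cast hF
      have h4 : ((((B ∪ M x ∪ M y) ∩ win n (k - i) w).card + (t - 1 - 1) * (m + 1) : ℕ) : ℝ) <
          ((k - i : ℕ) : ℝ) := by
        push_cast [Nat.cast_sub (show 1 ≤ t - 1 by omega), Nat.cast_sub (show 1 ≤ t by omega),
          Nat.cast_sub hik'.le]
        nlinarith
      exact_mod_cast h4
    obtain ⟨T, h3, h4, h5⟩ := ExtL.greedy hH (win n (k - i) w) (B ∪ M x ∪ M y)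
      (fun a ha b hb => near_of_mem_win' (win_mono (Nat.sub_le k i) w ha)
        (win_mono (Nat.sub_le k i) w hb)) (t - 1) hcnt
    have h6 : ∀ v ∈ T, v ∉ B ∧ v ∉ M x ∧ v ∉ M y := by
      intro v hv
      have := disjoint_left.1 h4 hv
      simp only [mem_union, not_or] at this
      exact ⟨this.1.1, this.1.2, this.2⟩
    have ht1 : t - 1 + 1 = t := by omega
    refine ⟨T, fun v hv => (hnear v (h3 hv)).2.2, h5.1, ?_, ?_, ?_, ?_, ?_⟩
    · rw [disjoint_left]
      exact fun v hv => (h6 v hv).1
    · exact fun hx => (h6 x hx).2.1 (hH.refl x)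
    · exact fun hy => (h6 y hy).2.2 (hH.refl y)
    · have := isCl_insert hH h5 (u := x) (fun v hv => (hnear v (h3 hv)).1)
        (fun v hv hv' => (h6 v hv).2.1 (hH.symm _ _ hv'))
      rwa [ht1] at this
    · have := isCl_insert hH h5 (u := y) (fun v hv => (hnear v (h3 hv)).2.1)
        (fun v hv hv' => (h6 v hv).2.2 (hH.symm _ _ hv'))
      rwa [ht1] at this
  by_cases hside : (M x ∩ win n (k - i) (x + ((i + 1 : ℕ) : ZMod n))).card +
      (M y ∩ win n (k - i) (x + ((i + 1 : ℕ) : ZMod n))).card ≤ m + 1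
  · refine key _ hside ?_
    intro v hv
    obtain ⟨a, ha, rfl⟩ := mem_win.1 hv
    refine ⟨?_, ?_, ?_⟩
    · have := near_symm (near_add_nat (k := k) x (i := i + 1 + a) (by omega))
      convert this using 1
      push_cast; ring
    · rw [hy]
      have := near_symm (near_add_nat (k := k) (x + (i : ZMod n)) (i := 1 + a) (by omega))
      convert this using 1
      push_cast; ring
    · refine mem_win.2 ⟨k + (i + 1 + a), by omega, ?_⟩
      push_cast; ring
  · refine key (x - ((k - i : ℕ) : ZMod n)) (by omega) ?_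
    intro v hv
    obtain ⟨a, ha, rfl⟩ := mem_win.1 hv
    refine ⟨?_, ?_, ?_⟩
    · have := near_symm (near_sub_nat (k := k) x (i := k - i - a) (by omega))
      convert this using 1
      rw [Nat.cast_sub (show a ≤ k - i by omega)]; ring
    · rw [hy]
      have := near_symm (near_sub_nat (k := k) (x + (i : ZMod n)) (i := k - a) (by omega))
      convert this using 1
      rw [Nat.cast_sub (show a ≤ k by omega), Nat.cast_sub (show i ≤ k by omega)]; ring
    · refine mem_win.2 ⟨i + a, by omega, ?_⟩
      rw [Nat.cast_sub (show i ≤ k by omega)]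
      push_cast; ring

end Pool.Agent.Helper83K9.CF
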