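import Pool.Agent.Helper83K9.CF.Stm

/-!
Clique factors in dense subgraphs of powers of cycles: fractional tilings of the line.
-/

set_option autoImplicit false

namespace Pool.Agent.Helper83K9.CF

open Finset

theorem frac (hD : S_DUAL) (hF : S_FARKAS) : S_FRAC := by
  classical
  intro t k N q μ ht hk hq1 hq2 hμ hcond
  set C : Finset (Finset ℕ) := (range N).powerset.filter (fun K => LCl q k N t K) with hC
  obtain ⟨w, hw0, hw⟩ := hF (Fin N) C (fun v K => if (v : ℕ) ∈ K.1 then 1 else 0)
    (fun v => μ v) (fun v => (v : ℕ) < k) (by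
      intro s hs hsK
      have h1 := hD t k N q μ (fun x => if h : x < N then s ⟨x, h⟩ else 0) ht hk hq1 hq2 hμ hcond
        (by
          intro x hx
          beta_reduce
          split_ifs with h
          · exact hs ⟨x, h⟩ hx
          · exact le_rfl)
        (by
          intro K hK
          have hKC : K ∈ C := by
            rw [hC, Finset.mem_filter, Finset.mem_powerset]
            exact ⟨hK.1, hK⟩
          have h2 := hsK ⟨K, hKC⟩
          refine h2.trans (le_of_eq ?_)
          have h3 : ∑ x ∈ K, (if h : x < N then s ⟨x, h⟩ else 0) =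
              ∑ x ∈ range N, if x ∈ K then (if h : x < N then s ⟨x, h⟩ else 0) else 0 := by
            rw [Finset.sum_ite_mem, Finset.inter_eq_right.2 hK.1]
          rw [h3, Finset.sum_range]
          refine Finset.sum_congr rfl fun v _ => ?_
          simp only [v.isLt, dif_pos, mul_ite, mul_one, mul_zero, Fin.eta])
      rw [Finset.sum_range] at h1
      refine h1.trans (le_of_eq (Finset.sum_congr rfl fun v _ => ?_))
      simp only [v.isLt, dif_pos, Fin.eta])
  have hsum : ∀ v : ℕ, ∀ hv : v < N, ∑ K ∈ (range N).powerset,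
      (if v ∈ K then (if h : K ∈ C then w ⟨K, h⟩ else 0) else 0) =
      ∑ i : C, (if ((⟨v, hv⟩ : Fin N) : ℕ) ∈ i.1 then (1 : ℝ) else 0) * w i := by
    intro v hv
    have h1 : ∑ K ∈ (range N).powerset,
        (if v ∈ K then (if h : K ∈ C then w ⟨K, h⟩ else 0) else 0) =
        ∑ K ∈ C, (if v ∈ K then (if h : K ∈ C then w ⟨K, h⟩ else 0) else 0) := by
      refine (Finset.sum_subset (Finset.filter_subset _ _) fun K _ hK => ?_).symm
      rw [dif_neg hK]
      simp
    rw [h1, ← Finset.sum_coe_sort C]
    refine Finset.sum_congr rfl fun i _ => ?_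
    rw [dif_pos i.2]
    simp only [ite_mul, one_mul, zero_mul]
  refine ⟨fun K => if h : K ∈ C then w ⟨K, h⟩ else 0, fun K => ?_, fun K hK => ?_, fun v hv => ?_,
    fun v hkv hv => ?_⟩
  · beta_reduce
    split_ifs with h
    · exact hw0 _
    · exact le_rfl
  · have : K ∈ C := by
      by_contra h
      exact hK (dif_neg h)
    exact (Finset.mem_filter.1 this).2
  · rw [hsum v hv]
    have h1 := hw ⟨v, hv⟩
    by_cases h : v < k
    · exact h1.1 h
    · exact (h1.2 h).le
  · rw [hsum v hv]
    exact (hw ⟨v, hv⟩).2 (not_lt.2 hkv)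

end Pool.Agent.Helper83K9.CF
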