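import Mathlib

/-!
[SEL] selection of candidates by an exponential potential.
-/

namespace Pool.Agent.Helper83K9.CF.SelL

open Finset

theorem exp_neg_one_le : Real.exp (-1) ≤ 1 / 2 := by
  have h := Real.add_one_le_exp (1 : ℝ)
  rw [Real.exp_neg, ← one_div]
  exact one_div_le_one_div_of_le (by norm_num) (by linarith)

open Classical in
/-- one step of the selection -/
theorem step {Cand Rq : Type} (A C : Finset Cand) (X : Finset Rq) (φ : Rq → ℝ) (c : ℝ)
    (hit : Rq → Cand → Prop) (hc : 0 < c) (hX : X.Nonempty) (hφ : ∀ x, 0 ≤ φ x) (hA : A ⊆ C)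
    (hH : ∀ x ∈ X, ∃ H : Finset Cand, H ⊆ A ∧ (∀ g ∈ H, hit x g) ∧ 0 < H.card ∧
      c * C.card ≤ H.card) :
    ∃ g ∈ A, ∑ x ∈ X, φ x * (if hit x g then Real.exp (-1) else 1) ≤
      Real.exp (-(c / 2)) * ∑ x ∈ X, φ x := by
  obtain ⟨x₀, hx₀⟩ := hX
  have hAne : A.Nonempty := by
    obtain ⟨H, h1, -, h3, -⟩ := hH x₀ hx₀
    obtain ⟨g, hg⟩ := Finset.card_pos.1 h3
    exact ⟨g, h1 hg⟩
  have hsum : ∑ g ∈ A, ∑ x ∈ X, φ x * (if hit x g then Real.exp (-1) else 1) ≤
      ∑ g ∈ A, Real.exp (-(c / 2)) * ∑ x ∈ X, φ x := by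
    rw [Finset.sum_comm]
    simp only [Finset.sum_const, nsmul_eq_mul]
    rw [← mul_assoc, Finset.mul_sum]
    refine Finset.sum_le_sum fun x hx => ?_
    obtain ⟨H, h1, h2, -, h4⟩ := hH x hx
    have h5 : ∑ g ∈ A, φ x * (if hit x g then Real.exp (-1) else 1) ≤
        φ x * (A.card - (1 / 2) * H.card) := by
      rw [← Finset.mul_sum]
      refine mul_le_mul_of_nonneg_left ?_ (hφ x)
      have h6 : ∑ g ∈ A, (if hit x g then Real.exp (-1) else (1 : ℝ)) ≤
          ∑ g ∈ A, (1 - (if g ∈ H then (1 / 2 : ℝ) else 0)) := by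
        refine Finset.sum_le_sum fun g hg => ?_
        by_cases hgH : g ∈ H
        · rw [if_pos (h2 g hgH), if_pos hgH]
          linarith [exp_neg_one_le]
        · rw [if_neg hgH]
          split_ifs
          · linarith [exp_neg_one_le]
          · linarith
      refine h6.trans (le_of_eq ?_)
      rw [Finset.sum_sub_distrib, ← Finset.sum_filter, Finset.sum_const, Finset.sum_const,
        Finset.filter_mem_eq_inter, Finset.inter_eq_right.2 h1]
      simp only [nsmul_eq_mul]
      ring
    refine h5.trans ?_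
    have h7 : (A.card : ℝ) ≤ C.card := by exact_mod_cast Finset.card_le_card hA
    have h8 : (A.card : ℝ) - 1 / 2 * H.card ≤ A.card * Real.exp (-(c / 2)) := by
      have h9 := Real.add_one_le_exp (-(c / 2))
      have h10 : (0 : ℝ) ≤ A.card := Nat.cast_nonneg _
      nlinarith
    calc φ x * (A.card - 1 / 2 * H.card) ≤ φ x * (A.card * Real.exp (-(c / 2))) :=
          mul_le_mul_of_nonneg_left h8 (hφ x)
      _ = A.card * Real.exp (-(c / 2)) * φ x := by ring
  exact Finset.exists_le_of_sum_le hAne hsum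

open Classical in
theorem core (Cand Rq Sta : Type) [Nonempty Cand] (C : Finset Cand) (X : Finset Rq) (s₀ : Sta)
    (c : ℝ) (R : ℕ) (allowed : Sta → Finset Cand) (next : Sta → Cand → Sta)
    (good : ℕ → Sta → Prop) (hit : Rq → Cand → Prop) (hc : 0 < c) (hX : X.Nonempty)
    (hC : ∀ s, allowed s ⊆ C) (h0 : good 0 s₀)
    (hg : ∀ i s g, i < R → good i s → g ∈ allowed s → good (i + 1) (next s g))
    (hH : ∀ i s, i < R → good i s → ∀ x ∈ X, ∃ H : Finset Cand, H ⊆ allowed s ∧
      (∀ g ∈ H, hit x g) ∧ 0 < H.card ∧ c * C.card ≤ H.card) :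
    ∀ r : ℕ, r ≤ R → ∃ (l : ℕ → Cand) (st : ℕ → Sta), st 0 = s₀ ∧
      (∀ i < r, l i ∈ allowed (st i)) ∧ (∀ i < r, st (i + 1) = next (st i) (l i)) ∧
      (∀ i ≤ r, good i (st i)) ∧
      ∑ x ∈ X, Real.exp (-(((range r).filter fun i => hit x (l i)).card : ℝ)) ≤
        Real.exp (-(c / 2 * r)) * X.card := by
  intro r
  induction r with
  | zero =>
    intro _
    refine ⟨fun _ => Classical.arbitrary Cand, fun _ => s₀, rfl, by simp, by simp, ?_, by simp⟩
    intro i hi
    rw [Nat.le_zero.1 hi]
    exact h0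
  | succ r ih =>
    intro hr
    obtain ⟨l, st, h1, h2, h3, h4, h5⟩ := ih (Nat.le_of_succ_le hr)
    obtain ⟨g, hgA, hgs⟩ := step (allowed (st r)) C X
      (fun x => Real.exp (-(((range r).filter fun i => hit x (l i)).card : ℝ))) c hit hc hX
      (fun x => (Real.exp_pos _).le) (hC _) (hH r (st r) hr (h4 r le_rfl))
    refine ⟨Function.update l r g, Function.update st (r + 1) (next (st r) g), ?_, ?_, ?_, ?_, ?_⟩
    · rw [Function.update_of_ne (by omega), h1]
    · intro i hi
      rw [Function.update_of_ne (show i ≠ r + 1 by omega)]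
      rcases Nat.lt_succ_iff_lt_or_eq.1 hi with hi | rfl
      · rw [Function.update_of_ne (show i ≠ r by omega)]
        exact h2 i hi
      · rw [Function.update_self]
        exact hgA
    · intro i hi
      rw [Function.update_of_ne (show i ≠ r + 1 by omega)]
      rcases Nat.lt_succ_iff_lt_or_eq.1 hi with hi | rfl
      · rw [Function.update_of_ne (show i ≠ r by omega),
          Function.update_of_ne (show i + 1 ≠ r + 1 by omega)]
        exact h3 i hi
      · rw [Function.update_self, Function.update_self]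
    · intro i hi
      rcases Nat.le_succ_iff.1 hi with hi | rfl
      · rw [Function.update_of_ne (show i ≠ r + 1 by omega)]
        exact h4 i hi
      · rw [Function.update_self]
        exact hg r _ g hr (h4 r le_rfl) hgA
    · have h6 : ∀ x ∈ X, Real.exp (-(((range (r + 1)).filter fun i =>
          hit x (Function.update l r g i)).card : ℝ)) =
          Real.exp (-(((range r).filter fun i => hit x (l i)).card : ℝ)) *
            (if hit x g then Real.exp (-1) else 1) := by
        intro x _
        have h7 : ((range r).filter fun i => hit x (Function.update l r g i)) =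
            (range r).filter fun i => hit x (l i) := by
          refine Finset.filter_congr fun i hi => ?_
          rw [Function.update_of_ne (ne_of_lt (mem_range.1 hi))]
        rw [Finset.range_add_one, Finset.filter_insert, Function.update_self, h7]
        split_ifs with hx
        · rw [Finset.card_insert_of_notMem (by simp), ← Real.exp_add]
          congr 1
          push_cast
          ring
        · rw [mul_one]
      rw [Finset.sum_congr rfl h6]
      refine hgs.trans ?_
      have h8 : Real.exp (-(c / 2)) * (Real.exp (-(c / 2 * r)) * X.card) =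
          Real.exp (-(c / 2 * (r + 1 : ℕ))) * X.card := by
        rw [← mul_assoc, ← Real.exp_add]
        congr 2
        push_cast
        ring
      rw [← h8]
      exact mul_le_mul_of_nonneg_left h5 (Real.exp_pos _).le

open Classical in
theorem main (Cand Rq Sta : Type) [Nonempty Cand] (C : Finset Cand) (X : Finset Rq) (s₀ : Sta)
    (c : ℝ) (R : ℕ) (allowed : Sta → Finset Cand) (next : Sta → Cand → Sta)
    (good : ℕ → Sta → Prop) (hit : Rq → Cand → Prop) (hc : 0 < c) (hX : X.Nonempty)
    (hC : ∀ s, allowed s ⊆ C) (h0 : good 0 s₀)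
    (hg : ∀ i s g, i < R → good i s → g ∈ allowed s → good (i + 1) (next s g))
    (hH : ∀ i s, i < R → good i s → ∀ x ∈ X, ∃ H : Finset Cand, H ⊆ allowed s ∧
      (∀ g ∈ H, hit x g) ∧ 0 < H.card ∧ c * C.card ≤ H.card) :
    ∃ (l : ℕ → Cand) (st : ℕ → Sta), st 0 = s₀ ∧
      (∀ i < R, l i ∈ allowed (st i)) ∧ (∀ i < R, st (i + 1) = next (st i) (l i)) ∧
      (∀ i ≤ R, good i (st i)) ∧
      ∀ x ∈ X, ∃ W : Finset ℕ, W ⊆ range R ∧ (∀ i ∈ W, hit x (l i)) ∧
        c / 2 * R - Real.log X.card ≤ W.card := by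
  obtain ⟨l, st, h1, h2, h3, h4, h5⟩ :=
    core Cand Rq Sta C X s₀ c R allowed next good hit hc hX hC h0 hg hH R le_rfl
  refine ⟨l, st, h1, h2, h3, h4, fun x hx => ⟨(range R).filter fun i => hit x (l i),
    Finset.filter_subset _ _, fun i hi => (Finset.mem_filter.1 hi).2, ?_⟩⟩
  have h6 : Real.exp (-(((range R).filter fun i => hit x (l i)).card : ℝ)) ≤
      Real.exp (-(c / 2 * R)) * X.card :=
    (Finset.single_le_sum (f := fun x =>
      Real.exp (-(((range R).filter fun i => hit x (l i)).card : ℝ)))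
      (fun x _ => (Real.exp_pos _).le) hx).trans h5
  have hXc : (0 : ℝ) < X.card := by exact_mod_cast Finset.card_pos.2 hX
  have h7 := Real.log_le_log (Real.exp_pos _) h6
  rw [Real.log_exp, Real.log_mul (Real.exp_pos _).ne' hXc.ne', Real.log_exp] at h7
  linarith

end Pool.Agent.Helper83K9.CF.SelL
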