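import Pool.Agent.Helper83K9.CF.Defs

/-!
Clique factors in dense subgraphs of powers of cycles: statements of the leaves.
-/

namespace Pool.Agent.Helper83K9.CF

open Finset

/-! ## The fractional theorem on the line -/

/-- cliques with `t` vertices on the line `0, ..., N-1` -/
def LCl (q : ℕ → ℕ → Prop) (k N t : ℕ) (K : Finset ℕ) : Prop :=
  K ⊆ range N ∧ K.card = t ∧ ∀ x ∈ K, ∀ y ∈ K, x < y → y ≤ x + k ∧ ¬ q x y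

open Classical in
/-- the closed missing neighbourhood of `x` on the line `0, ..., N-1` -/
noncomputable def LQ (q : ℕ → ℕ → Prop) (k N x : ℕ) : Finset ℕ :=
  (range N).filter (fun y => y ≤ x + k ∧ x ≤ y + k ∧ q x y)

/-- [DUAL] the dual form of helper40's Theorem A' (`z` is the last vertex of a clique of
nonpositive points; `x` in the window of `z`) -/
def S_DUAL : Prop := ∀ (t k N : ℕ) (q : ℕ → ℕ → Prop) (μ s : ℕ → ℝ), 2 ≤ t → 1 ≤ k →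
  (∀ x, q x x) → (∀ x y, q x y → q y x) → (∀ x, 0 ≤ μ x) →
  (∀ z x, k ≤ z → z < N → x < N → z ≤ x + k → x ≤ z + k →
    ((t : ℝ) - 1) * ∑ y ∈ LQ q k N x, μ y ≤ ∑ y ∈ Ico (z - k) z, μ y) →
  (∀ x, x < k → 0 ≤ s x) → (∀ K, LCl q k N t K → 0 ≤ ∑ x ∈ K, s x) →
  0 ≤ ∑ x ∈ range N, s x * μ x

/-- [FARKAS] Farkas' lemma (finite, real) -/
def S_FARKAS : Prop := ∀ (V I : Type) [Fintype V] [Fintype I] (a : V → I → ℝ) (μ : V → ℝ)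
  (P : V → Prop),
  (∀ s : V → ℝ, (∀ v, P v → 0 ≤ s v) → (∀ i, 0 ≤ ∑ v, s v * a v i) → 0 ≤ ∑ v, s v * μ v) →
  ∃ w : I → ℝ, (∀ i, 0 ≤ w i) ∧
    ∀ v, (P v → ∑ i, a v i * w i ≤ μ v) ∧ (¬ P v → ∑ i, a v i * w i = μ v)

/-- [FRAC] fractional tilings of the line: all vertices outside the first window are saturated.
PROOF: `S_DUAL` and `S_FARKAS` with `V = Fin N`, `I` = the cliques, `P v ↔ v < k`. -/
def S_FRAC : Prop := ∀ (t k N : ℕ) (q : ℕ → ℕ → Prop) (μ : ℕ → ℝ), 2 ≤ t → 1 ≤ k →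
  (∀ x, q x x) → (∀ x y, q x y → q y x) → (∀ x, 0 ≤ μ x) →
  (∀ z x, k ≤ z → z < N → x < N → z ≤ x + k → x ≤ z + k →
    ((t : ℝ) - 1) * ∑ y ∈ LQ q k N x, μ y ≤ ∑ y ∈ Ico (z - k) z, μ y) →
  ∃ w : Finset ℕ → ℝ, (∀ K, 0 ≤ w K) ∧ (∀ K, w K ≠ 0 → LCl q k N t K) ∧
    (∀ v, v < N → ∑ K ∈ (range N).powerset, (if v ∈ K then w K else 0) ≤ μ v) ∧
    ∀ v, k ≤ v → v < N → ∑ K ∈ (range N).powerset, (if v ∈ K then w K else 0) = μ v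

/-- [DIST] fractional tilings of the segments starting in `A`, averaged.
PROOF: for `z ∈ A` apply `S_FRAC` with `q i j := i = j ∨ z + j ∈ M (z + i)`,
`μ i := if z + i ∈ U then 1 else 0` (`|i - j| ≤ k` and `2k+1 ≤ n`: `i ↦ z + i` is injective on
intervals of length `2k+1`, so `∑_{LQ} μ ≤ |M (z+x) ∩ U|`); push `w_z` forward by
`K ↦ K.image (z + ·)` and take `1/N ∑_{z ∈ A}`.  The pairs `(z, i)` with `z ∈ A`, `z + i = v`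
correspond to the `i` with `v - i ∈ A`. -/
def S_DIST : Prop := ∀ (n k m t N : ℕ) [NeZero n] (M : ZMod n → Finset (ZMod n)),
  Host n k m M → 2 ≤ t → k ≤ N → ∀ U A : Finset (ZMod n),
  (∀ z ∈ A, ∀ j : ℕ, j + k < N → ∀ i : ℕ, i ≤ 2 * k →
    ((t : ℝ) - 1) * (M (z + (j : ZMod n) + (i : ZMod n)) ∩ U).card ≤
      (win n k (z + (j : ZMod n)) ∩ U).card) →
  ∃ w : Finset (ZMod n) → ℝ, (∀ K, 0 ≤ w K) ∧ (∀ K, w K ≠ 0 → IsCl n k M t K ∧ K ⊆ U) ∧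
    ∀ v ∈ U, rate n k N A v ≤ ∑ K, (if v ∈ K then w K else 0) ∧
      ∑ K, (if v ∈ K then w K else 0) ≤ rate n k N A v + err n k N A v

/-! ## Almost perfect tilings -/

/-- [POT] random greedy, derandomised by an exponential potential (abstract).
PROOF.  `D_σ v := D v exp (-σ r v)`, `Y_S(U,σ) := Y S U D_σ`.  State `(U, σ)`, start `(U₀, 0)`;
step: take `w`, `W := ∑ w ≥ κ k`, remove a set `K` with `w K ≠ 0`, `σ' := σ + 1/W`; stop when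
`σ ≥ τ` (finitely many steps: `t W ≤ 2 |U|`).  With `K` drawn with probability `w K / W` and
`Δ := Y_S(U \ K, σ') - Y_S(U, σ)`: `|Δ| ≤ B := 6/(dκ) + 3t/d`,
`-(3k/d)(1/W² + 2η/W) ≤ E Δ ≤ 0` (`exp x (1 - x') - 1`, `x = r/W ≤ x' = c/W ≤ x + η/W`),
`E Δ² ≤ B E|Δ| ≤ 24 B k / (d W)`.  So for `λ B ≤ 1` the potential
`Φ := ∑_{S ∈ T} (exp (λ (Y_S(U,σ) - Y_S(U₀,0))) + exp (-λ (...)))` has
`E Φ' ≤ Φ (1 + k Λ / W)`, `Λ = λ (3/d)(1/W + 2η) + 24 λ² B / d`; choose `K` with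
`Φ' ≤ Φ exp (k Λ (σ' - σ))`.  Hence `|Y_S(U,σ) - Y_S(U₀,0)| ≤ (log (2 C k) + k Λ (τ+1)) / λ ≤ γ k`
for `λ = min (1/B) (γ d / (96 B (τ+1)))`, `η = min 1 (γ d / (24 (τ+1)))`, `k` large. -/
def S_POT : Prop := ∀ (t : ℕ) (d τ γ κ : ℝ), 1 ≤ t → 0 < d → d ≤ 1 → 0 < τ → 0 < γ → 0 < κ →
  ∃ η : ℝ, 0 < η ∧ η ≤ 1 ∧ ∀ C : ℝ, ∃ k₀ : ℕ, ∀ k : ℕ, k₀ ≤ k →
  ∀ (V : Type) [Fintype V] [DecidableEq V] (T : Finset (Finset V)) (r e D : V → ℝ)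
    (U₀ : Finset V) (ok : Finset V → Prop),
  (T.card : ℝ) ≤ C * k → (∀ S ∈ T, (S.card : ℝ) ≤ 3 * k) → (∀ v, 0 ≤ r v ∧ r v ≤ 1) →
  (∀ v, 0 ≤ e v ∧ e v ≤ η) →
  (∀ v, ∀ σ : ℝ, 0 ≤ σ → σ ≤ τ + 1 → d ≤ D v * Real.exp (-(σ * r v)) ∧
    D v * Real.exp (-(σ * r v)) ≤ 1) →
  (∀ K, ok K → K.card = t) →
  (∀ (U : Finset V) (σ : ℝ), U ⊆ U₀ → 0 ≤ σ → σ ≤ τ →
    (∀ S ∈ T, |Y S U (fun v => D v * Real.exp (-(σ * r v))) - Y S U₀ D| ≤ γ * k) →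
    (∀ v, r v + e v = 0 → (v ∈ U ↔ v ∈ U₀)) →
    ∃ w : Finset V → ℝ, (∀ K, 0 ≤ w K) ∧ (∀ K, w K ≠ 0 → ok K ∧ K ⊆ U) ∧
      (∀ v ∈ U, r v ≤ ∑ K, (if v ∈ K then w K else 0) ∧
        ∑ K, (if v ∈ K then w K else 0) ≤ r v + e v) ∧ κ * k ≤ ∑ K, w K) →
  ∃ (σ : ℝ) (F : Finset (Finset V)), τ ≤ σ ∧ σ ≤ τ + 1 ∧ (∀ K ∈ F, ok K ∧ K ⊆ U₀) ∧
    (∀ K ∈ F, ∀ L ∈ F, K ≠ L → Disjoint K L) ∧ (∀ K ∈ F, ∀ v ∈ K, 0 < r v + e v) ∧
    ∀ S ∈ T, |Y S (U₀ \ F.biUnion id) (fun v => D v * Real.exp (-(σ * r v))) - Y S U₀ D| ≤ γ * k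

/-- [BAL] a pseudorandom remaining set satisfies the hypothesis of `DIST`.
PROOF: `M (y+i)` and `win y` lie in `y - k + [0, 4k]`, where `exp (-3β) D y ≤ D ≤ exp (3β) D y`;
`|M (y+i) ∩ U| ≤ max D * Y (M (y+i)) U D ≤ exp (3β) D y ((m+1) + β k)`,
`|win y ∩ U| ≥ exp (-3β) D y (1-β) k`; take `β` small. -/
def S_BAL : Prop := ∀ (t : ℕ) (ε : ℝ), 2 ≤ t → 0 < ε → ε ≤ 1 → ∃ β : ℝ, 0 < β ∧ β ≤ 1 / 4 ∧
  ∀ (n k m : ℕ) [NeZero n] (M : ZMod n → Finset (ZMod n)), Host n k m M →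
  ((t : ℝ) - 1) * (m + 1) ≤ (1 - ε) * k → ∀ (U : Finset (ZMod n)) (D : ZMod n → ℝ) (θ : ℝ),
  (∀ v, 0 < D v) → 0 ≤ θ → θ * k ≤ β → Slow n θ D → St n k M (β * k) U D →
  ∀ (y : ZMod n) (i : ℕ), i ≤ 2 * k →
    ((t : ℝ) - 1) * (M (y + (i : ZMod n)) ∩ U).card ≤ (win n k y ∩ U).card

/-- [ARC1] one arc: `β` depends on `t, ε` only (the `β` of `S_BAL`).
PROOF: `S_POT` with `V = ZMod n`, `r = rate`, `e = err ≤ k/N = 1/M₀ ≤ η`, `d = exp (-(τ+1))`,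
`κ = 3 d / (8 t)`, `ok = IsCl n k M t`, `T` = the tests `M x`, `win y` which contain a vertex `v`
with `v - i ∈ Ar` for some `i < N := M₀ k` (for an interval at most `2 (3N + 3k)` tests, for
`n ≤ 2N` at most `2n ≤ 4N`); the other tests do not change.  The distribution comes from `S_DIST`
(hypothesis by `S_BAL`, `2 (τ+1) / M₀ ≤ β`).  `∑ w = 1/t ∑_{v ∈ U} c v ≥ 1/(2t) |U ∩ win y|
≥ κ k`, where `y = a + (N - 1)` for an interval (`rate ≥ (N-k)/N ≥ 1/2` on `win y`), any `y` if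
`Ar` is everything. -/
def S_ARC1 : Prop := ∀ (t : ℕ) (ε : ℝ), 2 ≤ t → 0 < ε → ε ≤ 1 → ∃ β : ℝ, 0 < β ∧ β ≤ 1 / 4 ∧
  ∀ τ γ : ℝ, 0 < τ → 0 < γ → γ ≤ β → ∃ M₀ k₀ : ℕ, 3 ≤ M₀ ∧
  ∀ (n k m : ℕ) [NeZero n] (M : ZMod n → Finset (ZMod n)), Host n k m M → k₀ ≤ k →
  ((t : ℝ) - 1) * (m + 1) ≤ (1 - ε) * k → ∀ (Ar : Finset (ZMod n)), Arc n (M₀ * k) Ar →
  ∀ (U : Finset (ZMod n)) (D : ZMod n → ℝ),
  (∀ v, ∀ σ : ℝ, 0 ≤ σ → σ ≤ τ + 1 →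
    Real.exp (-(τ + 1)) ≤ D v * Real.exp (-(σ * rate n k (M₀ * k) Ar v)) ∧
    D v * Real.exp (-(σ * rate n k (M₀ * k) Ar v)) ≤ 1) →
  (∀ σ : ℝ, 0 ≤ σ → σ ≤ τ + 1 → Slow n (2 * (τ + 1) / (M₀ * k : ℕ))
    (fun v => D v * Real.exp (-(σ * rate n k (M₀ * k) Ar v)))) →
  St n k M ((β - γ) * k) U D →
  ∃ (σ : ℝ) (F : Finset (Finset (ZMod n))), τ ≤ σ ∧ σ ≤ τ + 1 ∧
    (∀ K ∈ F, IsCl n k M t K ∧ K ⊆ U) ∧ (∀ K ∈ F, ∀ L ∈ F, K ≠ L → Disjoint K L) ∧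
    (∀ K ∈ F, ∀ v ∈ K, ∃ i : ℕ, i < M₀ * k ∧ v - (i : ZMod n) ∈ Ar) ∧
    (∀ x, |Y (M x) (U \ F.biUnion id) (fun v => D v * Real.exp (-(σ * rate n k (M₀ * k) Ar v)))
      - Y (M x) U D| ≤ γ * k) ∧
    ∀ y, |Y (win n k y) (U \ F.biUnion id)
      (fun v => D v * Real.exp (-(σ * rate n k (M₀ * k) Ar v))) - Y (win n k y) U D| ≤ γ * k

/-- [PART] partition of the cycle into arcs; every interval of length `N + 3k` meets at most 4.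
PROOF: `n ≤ 2N`: one arc.  Otherwise `J = n / N`, `Ar j = [jN, (j+1)N)` for `j + 1 < J`, the last
arc is `[(J-1)N, n)`; an interval of length `N + 3k + 1 ≤ 2N + 1` meets at most 3 of them. -/
def S_PART : Prop := ∀ (n k N : ℕ) [NeZero n], 1 ≤ k → 2 * k + 1 ≤ n → 3 * k ≤ N →
  ∃ (J : ℕ) (Ar : ℕ → Finset (ZMod n)), (∀ j < J, Arc n N (Ar j)) ∧
    (∀ v, ∃ j < J, v ∈ Ar j) ∧ (∀ i < J, ∀ j < J, i ≠ j → Disjoint (Ar i) (Ar j)) ∧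
    ∀ y : ZMod n, ((range J).filter (fun j => ∃ i : ℕ, i ≤ N + 3 * k ∧
      y - (i : ZMod n) ∈ Ar j)).card ≤ 4

/-- [RATE] rates of a partition: sum and variation (shift `i` by one: only `i = k` and `i = N`
matter) -/
def S_RATE : Prop := ∀ (n k N : ℕ) [NeZero n], 1 ≤ k → k ≤ N → ∀ (J : ℕ)
  (Ar : ℕ → Finset (ZMod n)), (∀ v, ∃ j < J, v ∈ Ar j) →
  (∀ i < J, ∀ j < J, i ≠ j → Disjoint (Ar i) (Ar j)) →
  (∀ v, ∑ j ∈ range J, rate n k N (Ar j) v = ((N : ℝ) - k) / N) ∧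
  (∀ v, ∑ j ∈ range J, |rate n k N (Ar j) (v + 1) - rate n k N (Ar j) v| ≤ 2 / N)

/-- [ALM] almost perfect tilings.
PROOF: `γ := β/10`, `τ` with `2 exp (-τ/2) ≤ δ`, `M₀, k₀` from `S_ARC1`, arcs from
`S_PART` with `N = M₀ k` (`3 ≤ M₀`).
Induction on `j ≤ J`: `U_j`, `D_j v = exp (-∑_{i<j} σ_i rate_i v)`, and for every test `S` (`M x` or
`win y`) `|Y S U_j D_j - Y S U_0 1| ≤ γ k #{i < j : Ar i touches S}` (at most `4 γ k`), where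
`Ar i touches S` means `∃ v ∈ S, ∃ s < N, v - s ∈ Ar i`.  `U_0 = Bᶜ`.  At the end
`D_J ≤ exp (-τ (N-k)/N) ≤ exp (-τ/2)` and `|U_J ∩ win y| ≤ max D_J * Y ≤ 2 exp (-τ/2) k`. -/
def S_ALM : Prop := ∀ (t : ℕ) (ε : ℝ), 2 ≤ t → 0 < ε → ε ≤ 1 → ∃ γ : ℝ, 0 < γ ∧ ∀ δ : ℝ, 0 < δ →
  ∃ k₀ : ℕ, ∀ (n k m : ℕ) [NeZero n] (M : ZMod n → Finset (ZMod n)), Host n k m M → k₀ ≤ k →
  ((t : ℝ) - 1) * (m + 1) ≤ (1 - ε) * k → ∀ B : Finset (ZMod n), Thin n k (γ * k) B →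
  ∃ F : Finset (Finset (ZMod n)), (∀ K ∈ F, IsCl n k M t K ∧ Disjoint K B) ∧
    (∀ K ∈ F, ∀ L ∈ F, K ≠ L → Disjoint K L) ∧ Thin n k (δ * k) ((B ∪ F.biUnion id)ᶜ)

/-! ## Absorption -/

/-- [EXT] many vertices of a window are outside `B` and adjacent to at most `t - 1` given
vertices: `k - (t-1)(m+1) - ε k / 2 ≥ ε k / 2` -/
def S_EXT : Prop := ∀ (t : ℕ) (ε : ℝ), 2 ≤ t → 0 < ε → ε ≤ 1 →
  ∀ (n k m : ℕ) [NeZero n] (M : ZMod n → Finset (ZMod n)), Host n k m M →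
  ((t : ℝ) - 1) * (m + 1) ≤ (1 - ε) * k → ∀ (z : ZMod n) (T B : Finset (ZMod n)),
  T.card ≤ t - 1 → ((B ∩ win n k z).card : ℝ) ≤ ε / 2 * k →
  ε / 2 * k ≤ ((win n k z).filter (fun u => u ∉ B ∧ ∀ x ∈ T, u ∉ M x)).card

/-- [CLQ] cliques with `t` vertices avoiding a thin set, in every window (greedily, `S_EXT`) -/
def S_CLQ : Prop := ∀ (t : ℕ) (ε : ℝ), 2 ≤ t → 0 < ε → ε ≤ 1 →
  ∀ (n k m : ℕ) [NeZero n] (M : ZMod n → Finset (ZMod n)), Host n k m M →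
  ((t : ℝ) - 1) * (m + 1) ≤ (1 - ε) * k → ∀ (z : ZMod n) (B : Finset (ZMod n)),
  ((B ∩ win n k z).card : ℝ) ≤ ε / 2 * k → 
  ∃ K : Finset (ZMod n), IsCl n k M t K ∧ K ⊆ win n k z ∧ Disjoint K B

/-- [STEP] two vertices at distance at most `ρ k` have a common neighbouring `(t-1)`-clique.
PROOF (`ρ = ε/4`): the sides `x + (i, k]` and `x - [1, k - i]` are disjoint (`2k+1 ≤ n`), so one of
them contains at most `m + 1` elements of `M x` and `M y` together (`|M x| + |M y| ≤ 2(m+1)`).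
Choose the `t - 1` vertices greedily in this side: always
`(k - i) - (m+1) - (t-2)(m+1) - ρ k ≥ (ε - 2ρ) k > 0` choices. -/
def S_STEP : Prop := ∀ (t : ℕ) (ε : ℝ), 2 ≤ t → 0 < ε → ε ≤ 1 → ∃ (ρ : ℝ) (k₀ : ℕ), 0 < ρ ∧ ρ ≤ 1 ∧
  ∀ (n k m : ℕ) [NeZero n] (M : ZMod n → Finset (ZMod n)), Host n k m M → k₀ ≤ k →
  ((t : ℝ) - 1) * (m + 1) ≤ (1 - ε) * k → ∀ (x y : ZMod n) (i : ℕ), (i : ℝ) ≤ ρ * k →
  y = x + (i : ZMod n) → ∀ B : Finset (ZMod n), Thin n k (ρ * k) B →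
  ∃ T : Finset (ZMod n), T ⊆ win n (2 * k + 1) (x - (k : ZMod n)) ∧ T.card = t - 1 ∧
    Disjoint T B ∧ x ∉ T ∧ y ∉ T ∧ IsCl n k M t (insert x T) ∧ IsCl n k M t (insert y T)

/-- `S` connects `x` and `y` -/
def Conn (n k : ℕ) (M : ZMod n → Finset (ZMod n)) (t : ℕ) (x y : ZMod n) (S : Finset (ZMod n)) :
    Prop :=
  x ∉ S ∧ y ∉ S ∧ Tile n k M t (insert x S) ∧ Tile n k M t (insert y S)

/-- [CONN] robust connectors with at most `a` vertices for vertices at distance at most `3k`.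
PROOF: chain `x = v_0, v_1, ..., v_L = y` with steps at most `ρ k`, `v_1, ..., v_{L-1}` distinct,
outside `B`, between `x` and `y`, `T_l` from `S_STEP` for `v_{l-1}, v_l`, all disjoint;
`S = T_1 ∪ ... ∪ T_L ∪ {v_1, ..., v_{L-1}}`. (`L` = constant depending on `ρ`; by induction on the
number of steps; `Conn x v S₁`, `Conn v y S₂`, disjoint, give `Conn x y (S₁ ∪ {v} ∪ S₂)`.) -/
def S_CONN : Prop := ∀ (t : ℕ) (ε : ℝ), 2 ≤ t → 0 < ε → ε ≤ 1 →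
  ∃ (β : ℝ) (a k₀ : ℕ), 0 < β ∧
  ∀ (n k m : ℕ) [NeZero n] (M : ZMod n → Finset (ZMod n)), Host n k m M → k₀ ≤ k →
  ((t : ℝ) - 1) * (m + 1) ≤ (1 - ε) * k → ∀ (x y : ZMod n) (i : ℕ), i ≤ 3 * k →
  y = x + (i : ZMod n) → ∀ B : Finset (ZMod n), Thin n k (β * k) B →
  ∃ S : Finset (ZMod n), S.card ≤ a ∧ Disjoint S B ∧ Conn n k M t x y S ∧
    ∀ v ∈ S, ∃ j : ℕ, j ≤ 5 * k ∧ v = x - (k : ZMod n) + (j : ZMod n)

/-- an absorber: `G` can be tiled, and `G ∪ X` can be tiled for all sets `X = {x i}` such that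
`x i` together with the `i`-th interface `g i` is a clique -/
def Absorber (n k : ℕ) (M : ZMod n → Finset (ZMod n)) (t : ℕ)
    (g : Fin t → Fin (t - 1) → ZMod n) (G : Finset (ZMod n)) : Prop :=
  Tile n k M t G ∧ ∀ x : Fin t → ZMod n, Function.Injective x → (∀ i, x i ∉ G) →
    (∀ i, IsCl n k M t (insert (x i) (univ.image (g i)))) →
    Tile n k M t (G ∪ univ.image x)

/-- [COMP] interfaces near `z` can be completed to absorbers avoiding a thin set.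
PROOF: `u i` with `g i ∪ {u i}` a clique (`S_EXT` in `win z`), a clique `{y 0, ..., y (t-1)}` in
`win z` (`S_CLQ`), `S i` connecting `u i` and `y i` (`S_CONN`), everything disjoint and outside `B`.
`G` = all `g i j`, `u i`, `y i`, `S i`.  `G` is tiled by `g i ∪ {u i}` and `S i ∪ {y i}`;
`G ∪ X` by `g i ∪ {x i}`, `S i ∪ {u i}` and `{y 0, ..., y (t-1)}`. -/
def S_COMP : Prop := ∀ (t : ℕ) (ε : ℝ), 2 ≤ t → 0 < ε → ε ≤ 1 →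
  ∃ (β : ℝ) (a k₀ : ℕ), 0 < β ∧
  ∀ (n k m : ℕ) [NeZero n] (M : ZMod n → Finset (ZMod n)), Host n k m M → k₀ ≤ k →
  ((t : ℝ) - 1) * (m + 1) ≤ (1 - ε) * k → ∀ (z : ZMod n) (B : Finset (ZMod n)),
  Thin n k (β * k) B → ∀ g : Fin t → Fin (t - 1) → ZMod n,
  Function.Injective (fun p : Fin t × Fin (t - 1) => g p.1 p.2) →
  (∀ i j, g i j ∈ win n k z ∧ g i j ∉ B) → (∀ i, IsCl n k M (t - 1) (univ.image (g i))) →
  ∃ G : Finset (ZMod n), G.card ≤ a ∧ Disjoint G B ∧ (∀ i j, g i j ∈ G) ∧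
    Absorber n k M t g G ∧ ∀ v ∈ G, ∃ j : ℕ, j ≤ 9 * k ∧ v = z - (4 * k : ℕ) + (j : ZMod n)

open Classical in
/-- [CNT] many interfaces fit `t` given vertices `x i = z - (p i)`, `1 ≤ p i ≤ ρ k`.
PROOF (`ρ = ε / 4`, `k₀` with `t ^ 2 ≤ ρ k₀`): choose the `t (t-1)` entries one after the other in
`z, ..., z + k - 1 - ⌊ρ k⌋` outside `B`, outside `M (z - p i)`, outside the `M` of the earlier
entries of the same row and different from all earlier entries: at least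
`k - ρ k - (t-1)(m+1) - ρ k - t^2 ≥ ρ k` choices each time. -/
def S_CNT : Prop := ∀ (t : ℕ) (ε : ℝ), 2 ≤ t → 0 < ε → ε ≤ 1 →
  ∃ (ρ : ℝ) (k₀ : ℕ), 0 < ρ ∧ ρ ≤ 1 ∧
  ∀ (n k m : ℕ) [NeZero n] (M : ZMod n → Finset (ZMod n)), Host n k m M → k₀ ≤ k →
  ((t : ℝ) - 1) * (m + 1) ≤ (1 - ε) * k → ∀ (z : ZMod n) (B : Finset (ZMod n)),
  Thin n k (ρ * k) B → ∀ p : Fin t → ℕ, (∀ i, 1 ≤ p i ∧ (p i : ℝ) ≤ ρ * k) →
  (ρ * k) ^ (t * (t - 1)) ≤ ((univ : Finset (Fin t → Fin (t - 1) → ZMod n)).filter (fun g =>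
    Function.Injective (fun q : Fin t × Fin (t - 1) => g q.1 q.2) ∧
    (∀ i j, g i j ∈ win n k z ∧ g i j ∉ B) ∧
    ∀ i, z - (p i : ZMod n) ∉ univ.image (g i) ∧
      IsCl n k M t (insert (z - (p i : ZMod n)) (univ.image (g i))))).card

/-- [SEL] selection of candidates by an exponential potential (abstract).  `C` candidates, `X`
requests, a state `s` (what has been used so far), `allowed s` the candidates which can still be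
used; every request is hit by at least `c |C|` allowed candidates, as long as the state is good.
PROOF: choose `l i ∈ allowed (st i)` minimising `Φ = ∑_{x ∈ X} exp (-hits x)`; the average over
`allowed s` gives `Φ_{i+1} ≤ (1 - (1 - 1/e) c) Φ_i ≤ exp (-c/2) Φ_i`. -/
def S_SEL : Prop := ∀ (Cand Rq Sta : Type) [Nonempty Cand] (C : Finset Cand) (X : Finset Rq) (s₀ : Sta)
  (c : ℝ) (R : ℕ) (allowed : Sta → Finset Cand) (next : Sta → Cand → Sta) (good : ℕ → Sta → Prop)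
  (hit : Rq → Cand → Prop), 0 < c → X.Nonempty → (∀ s, allowed s ⊆ C) →
  good 0 s₀ → (∀ i s g, i < R → good i s → g ∈ allowed s → good (i + 1) (next s g)) →
  (∀ i s, i < R → good i s → ∀ x ∈ X, ∃ H : Finset Cand, H ⊆ allowed s ∧ (∀ g ∈ H, hit x g) ∧
    0 < H.card ∧ c * C.card ≤ H.card) →
  ∃ (l : ℕ → Cand) (st : ℕ → Sta), st 0 = s₀ ∧ (∀ i < R, l i ∈ allowed (st i)) ∧
    (∀ i < R, st (i + 1) = next (st i) (l i)) ∧ (∀ i ≤ R, good i (st i)) ∧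
    ∀ x ∈ X, ∃ W : Finset ℕ, W ⊆ range R ∧ (∀ i ∈ W, hit x (l i)) ∧
      c / 2 * R - Real.log X.card ≤ W.card

/-- the requests at `z`: `t` distinct vertices `z - p i`, `1 ≤ p i ≤ q` -/
def Req (n t q : ℕ) (z : ZMod n) (x : Fin t → ZMod n) : Prop :=
  Function.Injective x ∧ ∀ i, ∃ p : ℕ, 1 ≤ p ∧ p ≤ q ∧ x i = z - (p : ZMod n)

/-- [FAM1] a family of disjoint absorbers for all requests at `z`.
PROOF: `S_SEL` with `C` = all `g` with entries in `win z` (`|C| ≤ k ^ (t(t-1))`), state = the set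
of used vertices (`B` and the absorbers chosen so far), `allowed s` = the injective `g` avoiding
`s` whose rows are cliques, `next s g = s ∪ (completion by S_COMP)`, `R = ⌊γ k / a⌋`,
`c = ρ ^ (t(t-1))` by `S_CNT`; at most `k ^ t` requests. -/
def S_FAM1 : Prop := ∀ (t : ℕ) (ε : ℝ), 2 ≤ t → 0 < ε → ε ≤ 1 →
  ∃ (β ρ : ℝ) (a : ℕ), 0 < β ∧ 0 < ρ ∧ ρ ≤ 1 ∧ ∀ γ : ℝ, 0 < γ → γ ≤ β → ∃ (h : ℝ) (k₀ : ℕ), 0 < h ∧
  ∀ (n k m : ℕ) [NeZero n] (M : ZMod n → Finset (ZMod n)), Host n k m M → k₀ ≤ k →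
  ((t : ℝ) - 1) * (m + 1) ≤ (1 - ε) * k → ∀ (z : ZMod n) (B : Finset (ZMod n)),
  Thin n k (β * k) B →
  ∃ 𝓖 : Finset (Finset (ZMod n)), (∀ G ∈ 𝓖, G.card ≤ a ∧ Disjoint G B ∧ Tile n k M t G ∧
      ∀ v ∈ G, ∃ j : ℕ, j ≤ 9 * k ∧ v = z - (4 * k : ℕ) + (j : ZMod n)) ∧
    (∀ G ∈ 𝓖, ∀ G' ∈ 𝓖, G ≠ G' → Disjoint G G') ∧ ((𝓖.biUnion id).card : ℝ) ≤ γ * k ∧
    ∀ (q : ℕ) (x : Fin t → ZMod n), (q : ℝ) ≤ ρ * k → Req n t q z x →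
      ∃ 𝓗 ⊆ 𝓖, h * k ≤ 𝓗.card ∧ ∀ G ∈ 𝓗, (∀ i, x i ∉ G) → Tile n k M t (G ∪ univ.image x)

/-- [FAM] absorbers for the points `z j = j l`, all requests of width `2 l` to the left of `z j`.
PROOF: `S_FAM1` for `j = 0, 1, ...` one after the other, `B` = everything used before; a window is
met by at most `C/ρ` of the families, so `γ' = γ ρ / C` is small enough. -/
def S_FAM : Prop := ∀ (t : ℕ) (ε : ℝ), 2 ≤ t → 0 < ε → ε ≤ 1 → ∃ ρ : ℝ, 0 < ρ ∧ ρ ≤ 1 ∧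
  ∀ γ : ℝ, 0 < γ → ∃ (h : ℝ) (k₀ : ℕ), 0 < h ∧
  ∀ (n k m l : ℕ) [NeZero n] (M : ZMod n → Finset (ZMod n)), Host n k m M → k₀ ≤ k →
  ((t : ℝ) - 1) * (m + 1) ≤ (1 - ε) * k → ρ / 2 * k ≤ l → (l : ℝ) ≤ ρ * k →
  ∃ 𝓖 : ℕ → Finset (Finset (ZMod n)),
    (∀ j, j * l ≤ n + l → ∀ G ∈ 𝓖 j, Tile n k M t G ∧
      ∀ v ∈ G, ∃ i : ℕ, i ≤ 9 * k ∧ v = ((j * l : ℕ) : ZMod n) - (4 * k : ℕ) + (i : ZMod n)) ∧
    (∀ j, n + l < j * l → 𝓖 j = ∅) ∧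
    (∀ i j, ∀ G ∈ 𝓖 i, ∀ G' ∈ 𝓖 j, (i, G) ≠ (j, G') → Disjoint G G') ∧
    (∀ z : ZMod n, (((range (n + 2)).biUnion 𝓖).biUnion id ∩ win n k z).card ≤ γ * k) ∧
    ∀ (j : ℕ) (x : Fin t → ZMod n), j * l ≤ n + l → Function.Injective x →
      (∀ i, ∃ p : ℕ, p < n ∧ p < j * l ∧ j * l ≤ p + 2 * l ∧ x i = (p : ZMod n)) →
      ∃ 𝓗 ⊆ 𝓖 j, h * k ≤ 𝓗.card ∧ ∀ G ∈ 𝓗, (∀ i, x i ∉ G) → Tile n k M t (G ∪ univ.image x)

/-- [ABS] absorbing sets.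
PROOF: `S_FAM` with `l`; `A0` = all vertices of the absorbers (density `γ/2`), `Fill` = `t` vertices
outside `A0` in each cell `[c l, (c+1) l) ⊆ [0, n)`, `B = A0 ∪ Fill`.  Given `L`, `L' = L ∪ Fill` has
`t ∣ |L'|`; sort `L'` by `ZMod.val` and cut it into consecutive `t`-sets.  Each of them lies in
`[(j-2) l, j l)` for some `j` with `j l ≤ n + l` (a full cell has at least `t` elements of `L'`), and
at most `3 δ k + 2 t < h k` of them have the same `j`, so they get distinct absorbers of `𝓗 ⊆ 𝓖 j`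
greedily. -/
def S_ABS : Prop := ∀ (t : ℕ) (ε γ : ℝ), 2 ≤ t → 0 < ε → ε ≤ 1 → 0 < γ →
  ∃ (δ : ℝ) (k₀ : ℕ), 0 < δ ∧
  ∀ (n k m : ℕ) [NeZero n] (M : ZMod n → Finset (ZMod n)), Host n k m M → k₀ ≤ k →
  ((t : ℝ) - 1) * (m + 1) ≤ (1 - ε) * k → ∃ B : Finset (ZMod n), Thin n k (γ * k) B ∧
    ∀ L : Finset (ZMod n), Disjoint L B → Thin n k (δ * k) L → t ∣ (B ∪ L).card →
      Tile n k M t (B ∪ L)

/-! ## Assembly -/

/-- [UP] factors in all hosts (`S_ALM` and `S_ABS`) -/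
def S_UP : Prop := ∀ (t : ℕ) (ε : ℝ), 2 ≤ t → 0 < ε → ε ≤ 1 → ∃ k₀ : ℕ,
  ∀ (n k m : ℕ) [NeZero n] (M : ZMod n → Finset (ZMod n)), Host n k m M → k₀ ≤ k →
  ((t : ℝ) - 1) * (m + 1) ≤ (1 - ε) * k → t ∣ n → Tile n k M t univ

/-- [RED] the upper bound: `α > 1 - 1 / (2 (t - 1))` belongs to `A_t`.
PROOF: `k' = k` if `2k+1 ≤ n`, `k' = (n-1)/2` otherwise; `M x = {x} ∪ {y : Near k' x y, not H.Adj x y}`,
`|M x| ≤ 1 + (1-α) (2k'+1)`. -/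
def S_RED : Prop := S_UP → ∀ (t : ℕ) (α : ℝ), 3 ≤ t → 1 - 1 / (2 * ((t : ℝ) - 1)) < α → α ∈ A t

/-- [LOW] the lower bound: `1 - 1 / (2 (t - 1))` does not belong to `A_t`.
PROOF: `k = (t-1) l`, `T = t (l+1) - 1`, `n = t T`; the residue of a vertex in `[0,n)` mod `T` lies in
one of the classes `0 : [0, l)`, `c : [l + (c-1)(l+1), l + c (l+1))` (`1 ≤ c < t`).  `H` = `C_n^k` minus
the edges inside the `t^2` intervals: every vertex misses at most `l` of its `2k` neighbours.  Two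
vertices of the same class in different intervals are at distance at least `(t-1)(l+1) > k`.  So a
`K_t` has exactly one vertex in each class; class 0 has `t l` vertices, class 1 has `t (l+1)`. -/
def S_LOW : Prop := ∀ t : ℕ, 3 ≤ t → 1 - 1 / (2 * ((t : ℝ) - 1)) ∉ A t

end Pool.Agent.Helper83K9.CF
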